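import Pool.Agent.PP5.EE

/-!
# PP5 section (a1): many `x` in `E_psi`

`many_x`: a point `P` of the twelve-dimensional slice with the ten quadrics and of size `Y` with respect to the scales
has at least `R ^ 5 / Y ^ 2` vectors `x` of the isotropic space `E_P` of size at most `8 R` with respect to the
scales `tx`, for every real `R ≥ 0`.
-/

namespace Pool.Agent.PP5

private theorem sk_c (P : Sp) : Skew (B_c P) := by
  intro i j
  fin_cases i <;> fin_cases j <;> simp [B_c]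

private theorem pf_c {P : Sp} (hq : Qd P) : ∀ i j k l, P 0 ∣ Pf5 (B_c P) i j k l := by
  refine pf_all (sk_c P) ?_ ?_ ?_ ?_ ?_
  · refine ⟨-(P 4), ?_⟩
    simp only [Pf5, B_c, Matrix.cons_val]
    linear_combination (1) * hq.h1
  · refine ⟨-(P 2), ?_⟩
    simp only [Pf5, B_c, Matrix.cons_val]
    linear_combination (-1) * hq.h2
  · refine ⟨-(P 5), ?_⟩
    simp only [Pf5, B_c, Matrix.cons_val]
    linear_combination (1) * hq.h6
  · refine ⟨P 10, ?_⟩
    simp only [Pf5, B_c, Matrix.cons_val]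
    linear_combination (-1) * hq.h7
  · refine ⟨-(P 11), ?_⟩
    simp only [Pf5, B_c, Matrix.cons_val]
    linear_combination (1) * hq.h9

private theorem many_c {P : Sp} (hq : Qd P) {t1 t2 Y R : ℝ} (h1 : 0 < t1) (h2 : 0 < t2) (hR : 0 ≤ R)
    (ha : P 0 ≠ 0) (hmax : ∀ i, |(P i : ℝ)| * sg t1 t2 0 ≤ |(P 0 : ℝ)| * sg t1 t2 i)
    (hY : |(P 0 : ℝ)| ≤ Y * sg t1 t2 0) :
    ∃ S : Finset (Fin 10 → ℤ), (∀ x ∈ S, InE P x ∧ FF x = 0 ∧ ∀ j, |(x j : ℝ)| ≤ 8 * R * tx t1 t2 j) ∧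
      R ^ 5 / Y ^ 2 ≤ (S.card : ℝ) := by
  refine core h1 h2 hR 0 ha hmax hY (B_c P) (sk_c P) (pf_c hq) ![0, 1, 5, 6, 8] ![2, 3, 4, 9, 7]
    ![![0, 4, 1, 10, 9], ![4, 0, 3, 8, 7], ![1, 3, 0, 7, 6], ![10, 8, 7, 0, 1], ![9, 7, 6, 1, 0]]
    ?_ (by decide) (by decide) (by decide) (by decide) (fun w z => ![w 0, w 1, z 0, -(z 1), -(z 2), w 2, w 3, z 4, w 4, -(z 3)]) ?_ ?_ (by decide) ?_
  · intro k j
    fin_cases k <;> fin_cases j <;> simp [B_c]
  · intro w z k
    fin_cases k <;> rfl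
  · intro w z k
    fin_cases k <;> simp
  · intro w z h
    have h0 : P 1 * w 2 + P 4 * w 1 + P 9 * w 4 - P 10 * w 3 = P 0 * z 0 := by
      have := h 0
      simp only [act, B_c, Fin.sum_univ_five, Matrix.cons_val] at this
      linear_combination this
    have h1 : P 3 * w 2 - P 4 * w 0 - P 7 * w 4 + P 8 * w 3 = P 0 * z 1 := by
      have := h 1
      simp only [act, B_c, Fin.sum_univ_five, Matrix.cons_val] at this
      linear_combination this
    have h2 : -(P 1 * w 0) - P 3 * w 1 + P 7 * w 3 - P 6 * w 4 = P 0 * z 2 := by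
      have := h 2
      simp only [act, B_c, Fin.sum_univ_five, Matrix.cons_val] at this
      linear_combination this
    have h3 : -(P 1 * w 4) - P 7 * w 2 - P 8 * w 1 + P 10 * w 0 = P 0 * z 3 := by
      have := h 3
      simp only [act, B_c, Fin.sum_univ_five, Matrix.cons_val] at this
      linear_combination this
    have h4 : P 1 * w 3 + P 7 * w 1 - P 9 * w 0 + P 6 * w 2 = P 0 * z 4 := by
      have := h 4
      simp only [act, B_c, Fin.sum_univ_five, Matrix.cons_val] at this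
      linear_combination this
    exact e_c hq ha h0 h1 h2 h3 h4

private theorem sk_p2 (P : Sp) : Skew (B_p2 P) := by
  intro i j
  fin_cases i <;> fin_cases j <;> simp [B_p2]

private theorem pf_p2 {P : Sp} (hq : Qd P) : ∀ i j k l, P 1 ∣ Pf5 (B_p2 P) i j k l := by
  refine pf_all (sk_p2 P) ?_ ?_ ?_ ?_ ?_
  · refine ⟨-(P 1), ?_⟩
    simp only [Pf5, B_p2, Matrix.cons_val]
    linear_combination (1) * hq.h2
  · refine ⟨P 5, ?_⟩
    simp only [Pf5, B_p2, Matrix.cons_val]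
    linear_combination (-1) * hq.h3
  · refine ⟨-(P 4), ?_⟩
    simp only [Pf5, B_p2, Matrix.cons_val]
    linear_combination (1) * hq.h5
  · refine ⟨-(P 7), ?_⟩
    simp only [Pf5, B_p2, Matrix.cons_val]
    linear_combination (-1) * hq.h7
  · refine ⟨P 8, ?_⟩
    simp only [Pf5, B_p2, Matrix.cons_val]
    linear_combination (1) * hq.h9

private theorem many_p2 {P : Sp} (hq : Qd P) {t1 t2 Y R : ℝ} (h1 : 0 < t1) (h2 : 0 < t2) (hR : 0 ≤ R)
    (ha : P 1 ≠ 0) (hmax : ∀ i, |(P i : ℝ)| * sg t1 t2 1 ≤ |(P 1 : ℝ)| * sg t1 t2 i)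
    (hY : |(P 1 : ℝ)| ≤ Y * sg t1 t2 1) :
    ∃ S : Finset (Fin 10 → ℤ), (∀ x ∈ S, InE P x ∧ FF x = 0 ∧ ∀ j, |(x j : ℝ)| ≤ 8 * R * tx t1 t2 j) ∧
      R ^ 5 / Y ^ 2 ≤ (S.card : ℝ) := by
  refine core h1 h2 hR 1 ha hmax hY (B_p2 P) (sk_p2 P) (pf_p2 hq) ![1, 2, 4, 6, 8] ![3, 0, 5, 9, 7]
    ![![0, 3, 4, 11, 10], ![3, 0, 0, 7, 6], ![4, 0, 0, 10, 9], ![11, 7, 10, 0, 2], ![10, 6, 9, 2, 0]]
    ?_ (by decide) (by decide) (by decide) (by decide) (fun w z => ![z 1, w 0, w 1, -(z 0), w 2, -(z 2), w 3, z 4, w 4, -(z 3)]) ?_ ?_ (by decide) ?_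
  · intro k j
    fin_cases k <;> fin_cases j <;> simp [B_p2]
  · intro w z k
    fin_cases k <;> rfl
  · intro w z k
    fin_cases k <;> simp
  · intro w z h
    have h0 : P 3 * w 1 - P 4 * w 2 - P 10 * w 4 + P 11 * w 3 = P 1 * z 0 := by
      have := h 0
      simp only [act, B_p2, Fin.sum_univ_five, Matrix.cons_val] at this
      linear_combination this
    have h1 : P 0 * w 2 - P 3 * w 0 + P 7 * w 3 - P 6 * w 4 = P 1 * z 1 := by
      have := h 1
      simp only [act, B_p2, Fin.sum_univ_five, Matrix.cons_val] at this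
      linear_combination this
    have h2 : -(P 0 * w 1) + P 4 * w 0 + P 9 * w 4 - P 10 * w 3 = P 1 * z 2 := by
      have := h 2
      simp only [act, B_p2, Fin.sum_univ_five, Matrix.cons_val] at this
      linear_combination this
    have h3 : -(P 2 * w 4) - P 7 * w 1 + P 10 * w 2 - P 11 * w 0 = P 1 * z 3 := by
      have := h 3
      simp only [act, B_p2, Fin.sum_univ_five, Matrix.cons_val] at this
      linear_combination this
    have h4 : P 2 * w 3 - P 9 * w 2 + P 10 * w 0 + P 6 * w 1 = P 1 * z 4 := by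
      have := h 4
      simp only [act, B_p2, Fin.sum_univ_five, Matrix.cons_val] at this
      linear_combination this
    exact e_p2 hq ha h0 h1 h2 h3 h4

private theorem sk_p3 (P : Sp) : Skew (B_p3 P) := by
  intro i j
  fin_cases i <;> fin_cases j <;> simp [B_p3]

private theorem pf_p3 {P : Sp} (hq : Qd P) : ∀ i j k l, P 2 ∣ Pf5 (B_p3 P) i j k l := by
  refine pf_all (sk_p3 P) ?_ ?_ ?_ ?_ ?_
  · refine ⟨P 0, ?_⟩
    simp only [Pf5, B_p3, Matrix.cons_val]
    linear_combination (1) * hq.h2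
  · refine ⟨-(P 4), ?_⟩
    simp only [Pf5, B_p3, Matrix.cons_val]
    linear_combination (-1) * hq.h3
  · refine ⟨P 3, ?_⟩
    simp only [Pf5, B_p3, Matrix.cons_val]
    linear_combination (1) * hq.h5
  · refine ⟨-(P 7), ?_⟩
    simp only [Pf5, B_p3, Matrix.cons_val]
    linear_combination (-1) * hq.h8
  · refine ⟨P 8, ?_⟩
    simp only [Pf5, B_p3, Matrix.cons_val]
    linear_combination (1) * hq.h10

private theorem many_p3 {P : Sp} (hq : Qd P) {t1 t2 Y R : ℝ} (h1 : 0 < t1) (h2 : 0 < t2) (hR : 0 ≤ R)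
    (ha : P 2 ≠ 0) (hmax : ∀ i, |(P i : ℝ)| * sg t1 t2 2 ≤ |(P 2 : ℝ)| * sg t1 t2 i)
    (hY : |(P 2 : ℝ)| ≤ Y * sg t1 t2 2) :
    ∃ S : Finset (Fin 10 → ℤ), (∀ x ∈ S, InE P x ∧ FF x = 0 ∧ ∀ j, |(x j : ℝ)| ≤ 8 * R * tx t1 t2 j) ∧
      R ^ 5 / Y ^ 2 ≤ (S.card : ℝ) := by
  refine core h1 h2 hR 2 ha hmax hY (B_p3 P) (sk_p3 P) (pf_p3 hq) ![1, 2, 4, 7, 9] ![3, 0, 5, 8, 6]
    ![![0, 4, 5, 11, 10], ![4, 0, 1, 7, 6], ![5, 1, 0, 10, 9], ![11, 7, 10, 0, 1], ![10, 6, 9, 1, 0]]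
    ?_ (by decide) (by decide) (by decide) (by decide) (fun w z => ![z 1, w 0, w 1, -(z 0), w 2, -(z 2), -(z 4), w 3, z 3, w 4]) ?_ ?_ (by decide) ?_
  · intro k j
    fin_cases k <;> fin_cases j <;> simp [B_p3]
  · intro w z k
    fin_cases k <;> rfl
  · intro w z k
    fin_cases k <;> simp
  · intro w z h
    have h0 : P 4 * w 1 - P 5 * w 2 - P 10 * w 4 + P 11 * w 3 = P 2 * z 0 := by
      have := h 0
      simp only [act, B_p3, Fin.sum_univ_five, Matrix.cons_val] at this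
      linear_combination this
    have h1 : P 1 * w 2 - P 4 * w 0 + P 7 * w 3 - P 6 * w 4 = P 2 * z 1 := by
      have := h 1
      simp only [act, B_p3, Fin.sum_univ_five, Matrix.cons_val] at this
      linear_combination this
    have h2 : -(P 1 * w 1) + P 5 * w 0 + P 9 * w 4 - P 10 * w 3 = P 2 * z 2 := by
      have := h 2
      simp only [act, B_p3, Fin.sum_univ_five, Matrix.cons_val] at this
      linear_combination this
    have h3 : P 1 * w 4 - P 7 * w 1 + P 10 * w 2 - P 11 * w 0 = P 2 * z 3 := by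
      have := h 3
      simp only [act, B_p3, Fin.sum_univ_five, Matrix.cons_val] at this
      linear_combination this
    have h4 : -(P 1 * w 3) - P 9 * w 2 + P 10 * w 0 + P 6 * w 1 = P 2 * z 4 := by
      have := h 4
      simp only [act, B_p3, Fin.sum_univ_five, Matrix.cons_val] at this
      linear_combination this
    exact e_p3 hq ha h0 h1 h2 h3 h4

private theorem sk_q1 (P : Sp) : Skew (B_q1 P) := by
  intro i j
  fin_cases i <;> fin_cases j <;> simp [B_q1]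

private theorem pf_q1 {P : Sp} (hq : Qd P) : ∀ i j k l, P 3 ∣ Pf5 (B_q1 P) i j k l := by
  refine pf_all (sk_q1 P) ?_ ?_ ?_ ?_ ?_
  · refine ⟨P 1, ?_⟩
    simp only [Pf5, B_q1, Matrix.cons_val]
    linear_combination (1) * hq.h1
  · refine ⟨-(P 5), ?_⟩
    simp only [Pf5, B_q1, Matrix.cons_val]
    linear_combination (-1) * hq.h4
  · refine ⟨P 2, ?_⟩
    simp only [Pf5, B_q1, Matrix.cons_val]
    linear_combination (1) * hq.h5
  · refine ⟨-(P 9), ?_⟩
    simp only [Pf5, B_q1, Matrix.cons_val]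
    linear_combination (-1) * hq.h7
  · refine ⟨P 10, ?_⟩
    simp only [Pf5, B_q1, Matrix.cons_val]
    linear_combination (1) * hq.h9

private theorem many_q1 {P : Sp} (hq : Qd P) {t1 t2 Y R : ℝ} (h1 : 0 < t1) (h2 : 0 < t2) (hR : 0 ≤ R)
    (ha : P 3 ≠ 0) (hmax : ∀ i, |(P i : ℝ)| * sg t1 t2 3 ≤ |(P 3 : ℝ)| * sg t1 t2 i)
    (hY : |(P 3 : ℝ)| ≤ Y * sg t1 t2 3) :
    ∃ S : Finset (Fin 10 → ℤ), (∀ x ∈ S, InE P x ∧ FF x = 0 ∧ ∀ j, |(x j : ℝ)| ≤ 8 * R * tx t1 t2 j) ∧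
      R ^ 5 / Y ^ 2 ≤ (S.card : ℝ) := by
  refine core h1 h2 hR 3 ha hmax hY (B_q1 P) (sk_q1 P) (pf_q1 hq) ![0, 3, 4, 6, 8] ![2, 1, 5, 9, 7]
    ![![0, 1, 4, 11, 10], ![1, 0, 0, 7, 6], ![4, 0, 0, 8, 7], ![11, 7, 8, 0, 4], ![10, 6, 7, 4, 0]]
    ?_ (by decide) (by decide) (by decide) (by decide) (fun w z => ![w 0, -(z 1), z 0, w 1, w 2, -(z 2), w 3, z 4, w 4, -(z 3)]) ?_ ?_ (by decide) ?_
  · intro k j
    fin_cases k <;> fin_cases j <;> simp [B_q1]
  · intro w z k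
    fin_cases k <;> rfl
  · intro w z k
    fin_cases k <;> simp
  · intro w z h
    have h0 : -(P 1 * w 1) + P 4 * w 2 + P 10 * w 4 - P 11 * w 3 = P 3 * z 0 := by
      have := h 0
      simp only [act, B_q1, Fin.sum_univ_five, Matrix.cons_val] at this
      linear_combination this
    have h1 : -(P 0 * w 2) + P 1 * w 0 - P 7 * w 3 + P 6 * w 4 = P 3 * z 1 := by
      have := h 1
      simp only [act, B_q1, Fin.sum_univ_five, Matrix.cons_val] at this
      linear_combination this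
    have h2 : P 0 * w 1 - P 4 * w 0 - P 7 * w 4 + P 8 * w 3 = P 3 * z 2 := by
      have := h 2
      simp only [act, B_q1, Fin.sum_univ_five, Matrix.cons_val] at this
      linear_combination this
    have h3 : -(P 4 * w 4) + P 7 * w 1 - P 8 * w 2 + P 11 * w 0 = P 3 * z 3 := by
      have := h 3
      simp only [act, B_q1, Fin.sum_univ_five, Matrix.cons_val] at this
      linear_combination this
    have h4 : P 4 * w 3 + P 7 * w 2 - P 10 * w 0 - P 6 * w 1 = P 3 * z 4 := by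
      have := h 4
      simp only [act, B_q1, Fin.sum_univ_five, Matrix.cons_val] at this
      linear_combination this
    exact e_q1 hq ha h0 h1 h2 h3 h4

private theorem sk_q2 (P : Sp) : Skew (B_q2 P) := by
  intro i j
  fin_cases i <;> fin_cases j <;> simp [B_q2]

private theorem pf_q2 {P : Sp} (hq : Qd P) : ∀ i j k l, P 4 ∣ Pf5 (B_q2 P) i j k l := by
  refine pf_all (sk_q2 P) ?_ ?_ ?_ ?_ ?_
  · refine ⟨-(P 0), ?_⟩
    simp only [Pf5, B_q2, Matrix.cons_val]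
    linear_combination (1) * hq.h1
  · refine ⟨P 4, ?_⟩
    simp only [Pf5, B_q2, Matrix.cons_val]
    linear_combination (-1) * hq.h4
  · refine ⟨-(P 1), ?_⟩
    simp only [Pf5, B_q2, Matrix.cons_val]
    linear_combination (1) * hq.h5
  · refine ⟨-(P 9), ?_⟩
    simp only [Pf5, B_q2, Matrix.cons_val]
    linear_combination (-1) * hq.h8
  · refine ⟨P 10, ?_⟩
    simp only [Pf5, B_q2, Matrix.cons_val]
    linear_combination (1) * hq.h10

private theorem many_q2 {P : Sp} (hq : Qd P) {t1 t2 Y R : ℝ} (h1 : 0 < t1) (h2 : 0 < t2) (hR : 0 ≤ R)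
    (ha : P 4 ≠ 0) (hmax : ∀ i, |(P i : ℝ)| * sg t1 t2 4 ≤ |(P 4 : ℝ)| * sg t1 t2 i)
    (hY : |(P 4 : ℝ)| ≤ Y * sg t1 t2 4) :
    ∃ S : Finset (Fin 10 → ℤ), (∀ x ∈ S, InE P x ∧ FF x = 0 ∧ ∀ j, |(x j : ℝ)| ≤ 8 * R * tx t1 t2 j) ∧
      R ^ 5 / Y ^ 2 ≤ (S.card : ℝ) := by
  refine core h1 h2 hR 4 ha hmax hY (B_q2 P) (sk_q2 P) (pf_q2 hq) ![0, 3, 4, 7, 9] ![2, 1, 5, 8, 6]
    ![![0, 2, 5, 11, 10], ![2, 0, 1, 7, 6], ![5, 1, 0, 8, 7], ![11, 7, 8, 0, 3], ![10, 6, 7, 3, 0]]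
    ?_ (by decide) (by decide) (by decide) (by decide) (fun w z => ![w 0, -(z 1), z 0, w 1, w 2, -(z 2), -(z 4), w 3, z 3, w 4]) ?_ ?_ (by decide) ?_
  · intro k j
    fin_cases k <;> fin_cases j <;> simp [B_q2]
  · intro w z k
    fin_cases k <;> rfl
  · intro w z k
    fin_cases k <;> simp
  · intro w z h
    have h0 : -(P 2 * w 1) + P 5 * w 2 + P 10 * w 4 - P 11 * w 3 = P 4 * z 0 := by
      have := h 0
      simp only [act, B_q2, Fin.sum_univ_five, Matrix.cons_val] at this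
      linear_combination this
    have h1 : -(P 1 * w 2) + P 2 * w 0 - P 7 * w 3 + P 6 * w 4 = P 4 * z 1 := by
      have := h 1
      simp only [act, B_q2, Fin.sum_univ_five, Matrix.cons_val] at this
      linear_combination this
    have h2 : P 1 * w 1 - P 5 * w 0 - P 7 * w 4 + P 8 * w 3 = P 4 * z 2 := by
      have := h 2
      simp only [act, B_q2, Fin.sum_univ_five, Matrix.cons_val] at this
      linear_combination this
    have h3 : P 3 * w 4 + P 7 * w 1 - P 8 * w 2 + P 11 * w 0 = P 4 * z 3 := by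
      have := h 3
      simp only [act, B_q2, Fin.sum_univ_five, Matrix.cons_val] at this
      linear_combination this
    have h4 : -(P 3 * w 3) + P 7 * w 2 - P 10 * w 0 - P 6 * w 1 = P 4 * z 4 := by
      have := h 4
      simp only [act, B_q2, Fin.sum_univ_five, Matrix.cons_val] at this
      linear_combination this
    exact e_q2 hq ha h0 h1 h2 h3 h4

private theorem sk_q3 (P : Sp) : Skew (B_q3 P) := by
  intro i j
  fin_cases i <;> fin_cases j <;> simp [B_q3]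

private theorem pf_q3 {P : Sp} (hq : Qd P) : ∀ i j k l, P 5 ∣ Pf5 (B_q3 P) i j k l := by
  refine pf_all (sk_q3 P) ?_ ?_ ?_ ?_ ?_
  · refine ⟨P 1, ?_⟩
    simp only [Pf5, B_q3, Matrix.cons_val]
    linear_combination (-1) * hq.h3
  · refine ⟨P 3, ?_⟩
    simp only [Pf5, B_q3, Matrix.cons_val]
    linear_combination (1) * hq.h4
  · refine ⟨P 0, ?_⟩
    simp only [Pf5, B_q3, Matrix.cons_val]
    linear_combination (-1) * hq.h6
  · refine ⟨-(P 6), ?_⟩
    simp only [Pf5, B_q3, Matrix.cons_val]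
    linear_combination (1) * hq.h8
  · refine ⟨P 7, ?_⟩
    simp only [Pf5, B_q3, Matrix.cons_val]
    linear_combination (-1) * hq.h10

private theorem many_q3 {P : Sp} (hq : Qd P) {t1 t2 Y R : ℝ} (h1 : 0 < t1) (h2 : 0 < t2) (hR : 0 ≤ R)
    (ha : P 5 ≠ 0) (hmax : ∀ i, |(P i : ℝ)| * sg t1 t2 5 ≤ |(P 5 : ℝ)| * sg t1 t2 i)
    (hY : |(P 5 : ℝ)| ≤ Y * sg t1 t2 5) :
    ∃ S : Finset (Fin 10 → ℤ), (∀ x ∈ S, InE P x ∧ FF x = 0 ∧ ∀ j, |(x j : ℝ)| ≤ 8 * R * tx t1 t2 j) ∧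
      R ^ 5 / Y ^ 2 ≤ (S.card : ℝ) := by
  refine core h1 h2 hR 5 ha hmax hY (B_q3 P) (sk_q3 P) (pf_q3 hq) ![2, 3, 5, 7, 9] ![0, 1, 4, 8, 6]
    ![![0, 1, 4, 8, 7], ![1, 0, 2, 10, 9], ![4, 2, 0, 11, 10], ![8, 10, 11, 0, 4], ![7, 9, 10, 4, 0]]
    ?_ (by decide) (by decide) (by decide) (by decide) (fun w z => ![z 0, -(z 1), w 0, w 1, -(z 2), w 2, -(z 4), w 3, z 3, w 4]) ?_ ?_ (by decide) ?_
  · intro k j
    fin_cases k <;> fin_cases j <;> simp [B_q3]
  · intro w z k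
    fin_cases k <;> rfl
  · intro w z k
    fin_cases k <;> simp
  · intro w z h
    have h0 : P 1 * w 1 + P 4 * w 2 - P 7 * w 4 + P 8 * w 3 = P 5 * z 0 := by
      have := h 0
      simp only [act, B_q3, Fin.sum_univ_five, Matrix.cons_val] at this
      linear_combination this
    have h1 : -(P 1 * w 0) + P 2 * w 2 + P 9 * w 4 - P 10 * w 3 = P 5 * z 1 := by
      have := h 1
      simp only [act, B_q3, Fin.sum_univ_five, Matrix.cons_val] at this
      linear_combination this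
    have h2 : -(P 2 * w 1) - P 4 * w 0 + P 10 * w 4 - P 11 * w 3 = P 5 * z 2 := by
      have := h 2
      simp only [act, B_q3, Fin.sum_univ_five, Matrix.cons_val] at this
      linear_combination this
    have h3 : P 4 * w 4 - P 8 * w 0 + P 10 * w 1 + P 11 * w 2 = P 5 * z 3 := by
      have := h 3
      simp only [act, B_q3, Fin.sum_univ_five, Matrix.cons_val] at this
      linear_combination this
    have h4 : -(P 4 * w 3) + P 7 * w 0 - P 9 * w 1 - P 10 * w 2 = P 5 * z 4 := by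
      have := h 4
      simp only [act, B_q3, Fin.sum_univ_five, Matrix.cons_val] at this
      linear_combination this
    exact e_q3 hq ha h0 h1 h2 h3 h4

private theorem sk_v (P : Sp) : Skew (B_v P) := by
  intro i j
  fin_cases i <;> fin_cases j <;> simp [B_v]

private theorem pf_v {P : Sp} (hq : Qd P) : ∀ i j k l, P 6 ∣ Pf5 (B_v P) i j k l := by
  refine pf_all (sk_v P) ?_ ?_ ?_ ?_ ?_
  · refine ⟨P 8, ?_⟩
    simp only [Pf5, B_v, Matrix.cons_val]
    linear_combination (-1) * hq.h1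
  · refine ⟨-(P 10), ?_⟩
    simp only [Pf5, B_v, Matrix.cons_val]
    linear_combination (1) * hq.h2
  · refine ⟨P 11, ?_⟩
    simp only [Pf5, B_v, Matrix.cons_val]
    linear_combination (-1) * hq.h5
  · refine ⟨-(P 4), ?_⟩
    simp only [Pf5, B_v, Matrix.cons_val]
    linear_combination (1) * hq.h7
  · refine ⟨P 5, ?_⟩
    simp only [Pf5, B_v, Matrix.cons_val]
    linear_combination (-1) * hq.h8

private theorem many_v {P : Sp} (hq : Qd P) {t1 t2 Y R : ℝ} (h1 : 0 < t1) (h2 : 0 < t2) (hR : 0 ≤ R)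
    (ha : P 6 ≠ 0) (hmax : ∀ i, |(P i : ℝ)| * sg t1 t2 6 ≤ |(P 6 : ℝ)| * sg t1 t2 i)
    (hY : |(P 6 : ℝ)| ≤ Y * sg t1 t2 6) :
    ∃ S : Finset (Fin 10 → ℤ), (∀ x ∈ S, InE P x ∧ FF x = 0 ∧ ∀ j, |(x j : ℝ)| ≤ 8 * R * tx t1 t2 j) ∧
      R ^ 5 / Y ^ 2 ≤ (S.card : ℝ) := by
  refine core h1 h2 hR 6 ha hmax hY (B_v P) (sk_v P) (pf_v hq) ![0, 1, 4, 6, 7] ![2, 3, 5, 9, 8]
    ![![0, 10, 9, 2, 1], ![10, 0, 7, 4, 3], ![9, 7, 0, 1, 0], ![2, 4, 1, 0, 7], ![1, 3, 0, 7, 0]]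
    ?_ (by decide) (by decide) (by decide) (by decide) (fun w z => ![w 0, w 1, z 0, -(z 1), w 2, -(z 2), w 3, w 4, z 4, -(z 3)]) ?_ ?_ (by decide) ?_
  · intro k j
    fin_cases k <;> fin_cases j <;> simp [B_v]
  · intro w z k
    fin_cases k <;> rfl
  · intro w z k
    fin_cases k <;> simp
  · intro w z h
    have h0 : P 1 * w 4 - P 2 * w 3 + P 9 * w 2 - P 10 * w 1 = P 6 * z 0 := by
      have := h 0
      simp only [act, B_v, Fin.sum_univ_five, Matrix.cons_val] at this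
      linear_combination this
    have h1 : P 3 * w 4 - P 4 * w 3 - P 7 * w 2 + P 10 * w 0 = P 6 * z 1 := by
      have := h 1
      simp only [act, B_v, Fin.sum_univ_five, Matrix.cons_val] at this
      linear_combination this
    have h2 : -(P 0 * w 4) + P 1 * w 3 + P 7 * w 1 - P 9 * w 0 = P 6 * z 2 := by
      have := h 2
      simp only [act, B_v, Fin.sum_univ_five, Matrix.cons_val] at this
      linear_combination this
    have h3 : -(P 1 * w 2) + P 2 * w 0 + P 4 * w 1 - P 7 * w 4 = P 6 * z 3 := by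
      have := h 3
      simp only [act, B_v, Fin.sum_univ_five, Matrix.cons_val] at this
      linear_combination this
    have h4 : P 0 * w 2 - P 1 * w 0 - P 3 * w 1 + P 7 * w 3 = P 6 * z 4 := by
      have := h 4
      simp only [act, B_v, Fin.sum_univ_five, Matrix.cons_val] at this
      linear_combination this
    exact e_v hq ha h0 h1 h2 h3 h4

private theorem sk_r2 (P : Sp) : Skew (B_r2 P) := by
  intro i j
  fin_cases i <;> fin_cases j <;> simp [B_r2]

private theorem pf_r2 {P : Sp} (hq : Qd P) : ∀ i j k l, P 7 ∣ Pf5 (B_r2 P) i j k l := by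
  refine pf_all (sk_r2 P) ?_ ?_ ?_ ?_ ?_
  · refine ⟨-(P 7), ?_⟩
    simp only [Pf5, B_r2, Matrix.cons_val]
    linear_combination (-1) * hq.h1
  · refine ⟨P 9, ?_⟩
    simp only [Pf5, B_r2, Matrix.cons_val]
    linear_combination (1) * hq.h2
  · refine ⟨-(P 10), ?_⟩
    simp only [Pf5, B_r2, Matrix.cons_val]
    linear_combination (-1) * hq.h5
  · refine ⟨-(P 4), ?_⟩
    simp only [Pf5, B_r2, Matrix.cons_val]
    linear_combination (1) * hq.h9
  · refine ⟨P 5, ?_⟩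
    simp only [Pf5, B_r2, Matrix.cons_val]
    linear_combination (-1) * hq.h10

private theorem many_r2 {P : Sp} (hq : Qd P) {t1 t2 Y R : ℝ} (h1 : 0 < t1) (h2 : 0 < t2) (hR : 0 ≤ R)
    (ha : P 7 ≠ 0) (hmax : ∀ i, |(P i : ℝ)| * sg t1 t2 7 ≤ |(P 7 : ℝ)| * sg t1 t2 i)
    (hY : |(P 7 : ℝ)| ≤ Y * sg t1 t2 7) :
    ∃ S : Finset (Fin 10 → ℤ), (∀ x ∈ S, InE P x ∧ FF x = 0 ∧ ∀ j, |(x j : ℝ)| ≤ 8 * R * tx t1 t2 j) ∧
      R ^ 5 / Y ^ 2 ≤ (S.card : ℝ) := by
  refine core h1 h2 hR 7 ha hmax hY (B_r2 P) (sk_r2 P) (pf_r2 hq) ![0, 1, 4, 8, 9] ![2, 3, 5, 7, 6]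
    ![![0, 11, 10, 2, 1], ![11, 0, 8, 4, 3], ![10, 8, 0, 1, 0], ![2, 4, 1, 0, 6], ![1, 3, 0, 6, 0]]
    ?_ (by decide) (by decide) (by decide) (by decide) (fun w z => ![w 0, w 1, z 0, -(z 1), w 2, -(z 2), -(z 4), z 3, w 3, w 4]) ?_ ?_ (by decide) ?_
  · intro k j
    fin_cases k <;> fin_cases j <;> simp [B_r2]
  · intro w z k
    fin_cases k <;> rfl
  · intro w z k
    fin_cases k <;> simp
  · intro w z h
    have h0 : P 1 * w 4 - P 2 * w 3 + P 10 * w 2 - P 11 * w 1 = P 7 * z 0 := by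
      have := h 0
      simp only [act, B_r2, Fin.sum_univ_five, Matrix.cons_val] at this
      linear_combination this
    have h1 : P 3 * w 4 - P 4 * w 3 - P 8 * w 2 + P 11 * w 0 = P 7 * z 1 := by
      have := h 1
      simp only [act, B_r2, Fin.sum_univ_five, Matrix.cons_val] at this
      linear_combination this
    have h2 : -(P 0 * w 4) + P 1 * w 3 + P 8 * w 1 - P 10 * w 0 = P 7 * z 2 := by
      have := h 2
      simp only [act, B_r2, Fin.sum_univ_five, Matrix.cons_val] at this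
      linear_combination this
    have h3 : -(P 1 * w 2) + P 2 * w 0 + P 4 * w 1 + P 6 * w 4 = P 7 * z 3 := by
      have := h 3
      simp only [act, B_r2, Fin.sum_univ_five, Matrix.cons_val] at this
      linear_combination this
    have h4 : P 0 * w 2 - P 1 * w 0 - P 3 * w 1 - P 6 * w 3 = P 7 * z 4 := by
      have := h 4
      simp only [act, B_r2, Fin.sum_univ_five, Matrix.cons_val] at this
      linear_combination this
    exact e_r2 hq ha h0 h1 h2 h3 h4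

private theorem sk_r3 (P : Sp) : Skew (B_r3 P) := by
  intro i j
  fin_cases i <;> fin_cases j <;> simp [B_r3]

private theorem pf_r3 {P : Sp} (hq : Qd P) : ∀ i j k l, P 8 ∣ Pf5 (B_r3 P) i j k l := by
  refine pf_all (sk_r3 P) ?_ ?_ ?_ ?_ ?_
  · refine ⟨P 6, ?_⟩
    simp only [Pf5, B_r3, Matrix.cons_val]
    linear_combination (-1) * hq.h1
  · refine ⟨P 10, ?_⟩
    simp only [Pf5, B_r3, Matrix.cons_val]
    linear_combination (1) * hq.h4
  · refine ⟨P 9, ?_⟩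
    simp only [Pf5, B_r3, Matrix.cons_val]
    linear_combination (-1) * hq.h6
  · refine ⟨P 1, ?_⟩
    simp only [Pf5, B_r3, Matrix.cons_val]
    linear_combination (1) * hq.h9
  · refine ⟨-(P 2), ?_⟩
    simp only [Pf5, B_r3, Matrix.cons_val]
    linear_combination (-1) * hq.h10

private theorem many_r3 {P : Sp} (hq : Qd P) {t1 t2 Y R : ℝ} (h1 : 0 < t1) (h2 : 0 < t2) (hR : 0 ≤ R)
    (ha : P 8 ≠ 0) (hmax : ∀ i, |(P i : ℝ)| * sg t1 t2 8 ≤ |(P 8 : ℝ)| * sg t1 t2 i)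
    (hY : |(P 8 : ℝ)| ≤ Y * sg t1 t2 8) :
    ∃ S : Finset (Fin 10 → ℤ), (∀ x ∈ S, InE P x ∧ FF x = 0 ∧ ∀ j, |(x j : ℝ)| ≤ 8 * R * tx t1 t2 j) ∧
      R ^ 5 / Y ^ 2 ≤ (S.card : ℝ) := by
  refine core h1 h2 hR 8 ha hmax hY (B_r3 P) (sk_r3 P) (pf_r3 hq) ![0, 3, 5, 8, 9] ![2, 1, 4, 7, 6]
    ![![0, 10, 11, 5, 4], ![10, 0, 7, 1, 0], ![11, 7, 0, 4, 3], ![5, 1, 4, 0, 7], ![4, 0, 3, 7, 0]]
    ?_ (by decide) (by decide) (by decide) (by decide) (fun w z => ![w 0, -(z 1), z 0, w 1, -(z 2), w 2, -(z 4), z 3, w 3, w 4]) ?_ ?_ (by decide) ?_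
  · intro k j
    fin_cases k <;> fin_cases j <;> simp [B_r3]
  · intro w z k
    fin_cases k <;> rfl
  · intro w z k
    fin_cases k <;> simp
  · intro w z h
    have h0 : P 4 * w 4 - P 5 * w 3 + P 10 * w 1 + P 11 * w 2 = P 8 * z 0 := by
      have := h 0
      simp only [act, B_r3, Fin.sum_univ_five, Matrix.cons_val] at this
      linear_combination this
    have h1 : -(P 0 * w 4) + P 1 * w 3 + P 7 * w 2 - P 10 * w 0 = P 8 * z 1 := by
      have := h 1
      simp only [act, B_r3, Fin.sum_univ_five, Matrix.cons_val] at this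
      linear_combination this
    have h2 : -(P 3 * w 4) + P 4 * w 3 - P 7 * w 1 - P 11 * w 0 = P 8 * z 2 := by
      have := h 2
      simp only [act, B_r3, Fin.sum_univ_five, Matrix.cons_val] at this
      linear_combination this
    have h3 : -(P 1 * w 1) - P 4 * w 2 + P 5 * w 0 + P 7 * w 4 = P 8 * z 3 := by
      have := h 3
      simp only [act, B_r3, Fin.sum_univ_five, Matrix.cons_val] at this
      linear_combination this
    have h4 : P 0 * w 1 + P 3 * w 2 - P 4 * w 0 - P 7 * w 3 = P 8 * z 4 := by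
      have := h 4
      simp only [act, B_r3, Fin.sum_univ_five, Matrix.cons_val] at this
      linear_combination this
    exact e_r3 hq ha h0 h1 h2 h3 h4

private theorem sk_s1 (P : Sp) : Skew (B_s1 P) := by
  intro i j
  fin_cases i <;> fin_cases j <;> simp [B_s1]

private theorem pf_s1 {P : Sp} (hq : Qd P) : ∀ i j k l, P 9 ∣ Pf5 (B_s1 P) i j k l := by
  refine pf_all (sk_s1 P) ?_ ?_ ?_ ?_ ?_
  · refine ⟨-(P 7), ?_⟩
    simp only [Pf5, B_s1, Matrix.cons_val]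
    linear_combination (-1) * hq.h2
  · refine ⟨-(P 11), ?_⟩
    simp only [Pf5, B_s1, Matrix.cons_val]
    linear_combination (1) * hq.h3
  · refine ⟨P 8, ?_⟩
    simp only [Pf5, B_s1, Matrix.cons_val]
    linear_combination (-1) * hq.h6
  · refine ⟨P 3, ?_⟩
    simp only [Pf5, B_s1, Matrix.cons_val]
    linear_combination (1) * hq.h7
  · refine ⟨-(P 4), ?_⟩
    simp only [Pf5, B_s1, Matrix.cons_val]
    linear_combination (-1) * hq.h8

private theorem many_s1 {P : Sp} (hq : Qd P) {t1 t2 Y R : ℝ} (h1 : 0 < t1) (h2 : 0 < t2) (hR : 0 ≤ R)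
    (ha : P 9 ≠ 0) (hmax : ∀ i, |(P i : ℝ)| * sg t1 t2 9 ≤ |(P 9 : ℝ)| * sg t1 t2 i)
    (hY : |(P 9 : ℝ)| ≤ Y * sg t1 t2 9) :
    ∃ S : Finset (Fin 10 → ℤ), (∀ x ∈ S, InE P x ∧ FF x = 0 ∧ ∀ j, |(x j : ℝ)| ≤ 8 * R * tx t1 t2 j) ∧
      R ^ 5 / Y ^ 2 ≤ (S.card : ℝ) := by
  refine core h1 h2 hR 9 ha hmax hY (B_s1 P) (sk_s1 P) (pf_s1 hq) ![1, 2, 5, 6, 7] ![3, 0, 4, 9, 8]
    ![![0, 7, 10, 5, 4], ![7, 0, 6, 1, 0], ![10, 6, 0, 2, 1], ![5, 1, 2, 0, 10], ![4, 0, 1, 10, 0]]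
    ?_ (by decide) (by decide) (by decide) (by decide) (fun w z => ![z 1, w 0, w 1, -(z 0), -(z 2), w 2, w 3, w 4, z 4, -(z 3)]) ?_ ?_ (by decide) ?_
  · intro k j
    fin_cases k <;> fin_cases j <;> simp [B_s1]
  · intro w z k
    fin_cases k <;> rfl
  · intro w z k
    fin_cases k <;> simp
  · intro w z h
    have h0 : P 4 * w 4 - P 5 * w 3 - P 7 * w 1 + P 10 * w 2 = P 9 * z 0 := by
      have := h 0
      simp only [act, B_s1, Fin.sum_univ_five, Matrix.cons_val] at this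
      linear_combination this
    have h1 : -(P 0 * w 4) + P 1 * w 3 + P 7 * w 0 + P 6 * w 2 = P 9 * z 1 := by
      have := h 1
      simp only [act, B_s1, Fin.sum_univ_five, Matrix.cons_val] at this
      linear_combination this
    have h2 : P 1 * w 4 - P 2 * w 3 - P 10 * w 0 - P 6 * w 1 = P 9 * z 2 := by
      have := h 2
      simp only [act, B_s1, Fin.sum_univ_five, Matrix.cons_val] at this
      linear_combination this
    have h3 : -(P 1 * w 1) + P 2 * w 2 + P 5 * w 0 - P 10 * w 4 = P 9 * z 3 := by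
      have := h 3
      simp only [act, B_s1, Fin.sum_univ_five, Matrix.cons_val] at this
      linear_combination this
    have h4 : P 0 * w 1 - P 1 * w 2 - P 4 * w 0 + P 10 * w 3 = P 9 * z 4 := by
      have := h 4
      simp only [act, B_s1, Fin.sum_univ_five, Matrix.cons_val] at this
      linear_combination this
    exact e_s1 hq ha h0 h1 h2 h3 h4

private theorem sk_s2 (P : Sp) : Skew (B_s2 P) := by
  intro i j
  fin_cases i <;> fin_cases j <;> simp [B_s2]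

private theorem pf_s2 {P : Sp} (hq : Qd P) : ∀ i j k l, P 10 ∣ Pf5 (B_s2 P) i j k l := by
  refine pf_all (sk_s2 P) ?_ ?_ ?_ ?_ ?_
  · refine ⟨P 10, ?_⟩
    simp only [Pf5, B_s2, Matrix.cons_val]
    linear_combination (1) * hq.h3
  · refine ⟨-(P 8), ?_⟩
    simp only [Pf5, B_s2, Matrix.cons_val]
    linear_combination (-1) * hq.h4
  · refine ⟨P 7, ?_⟩
    simp only [Pf5, B_s2, Matrix.cons_val]
    linear_combination (1) * hq.h5
  · refine ⟨P 0, ?_⟩
    simp only [Pf5, B_s2, Matrix.cons_val]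
    linear_combination (-1) * hq.h7
  · refine ⟨-(P 1), ?_⟩
    simp only [Pf5, B_s2, Matrix.cons_val]
    linear_combination (1) * hq.h8

private theorem many_s2 {P : Sp} (hq : Qd P) {t1 t2 Y R : ℝ} (h1 : 0 < t1) (h2 : 0 < t2) (hR : 0 ≤ R)
    (ha : P 10 ≠ 0) (hmax : ∀ i, |(P i : ℝ)| * sg t1 t2 10 ≤ |(P 10 : ℝ)| * sg t1 t2 i)
    (hY : |(P 10 : ℝ)| ≤ Y * sg t1 t2 10) :
    ∃ S : Finset (Fin 10 → ℤ), (∀ x ∈ S, InE P x ∧ FF x = 0 ∧ ∀ j, |(x j : ℝ)| ≤ 8 * R * tx t1 t2 j) ∧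
      R ^ 5 / Y ^ 2 ≤ (S.card : ℝ) := by
  refine core h1 h2 hR 10 ha hmax hY (B_s2 P) (sk_s2 P) (pf_s2 hq) ![2, 3, 4, 6, 7] ![0, 1, 5, 9, 8]
    ![![0, 6, 7, 4, 3], ![6, 0, 9, 2, 1], ![7, 9, 0, 5, 4], ![4, 2, 5, 0, 11], ![3, 1, 4, 11, 0]]
    ?_ (by decide) (by decide) (by decide) (by decide) (fun w z => ![z 0, -(z 1), w 0, w 1, w 2, -(z 2), w 3, w 4, z 4, -(z 3)]) ?_ ?_ (by decide) ?_
  · intro k j
    fin_cases k <;> fin_cases j <;> simp [B_s2]
  · intro w z k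
    fin_cases k <;> rfl
  · intro w z k
    fin_cases k <;> simp
  · intro w z h
    have h0 : -(P 3 * w 4) + P 4 * w 3 + P 7 * w 2 - P 6 * w 1 = P 10 * z 0 := by
      have := h 0
      simp only [act, B_s2, Fin.sum_univ_five, Matrix.cons_val] at this
      linear_combination this
    have h1 : -(P 1 * w 4) + P 2 * w 3 - P 9 * w 2 + P 6 * w 0 = P 10 * z 1 := by
      have := h 1
      simp only [act, B_s2, Fin.sum_univ_five, Matrix.cons_val] at this
      linear_combination this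
    have h2 : P 4 * w 4 - P 5 * w 3 - P 7 * w 0 + P 9 * w 1 = P 10 * z 2 := by
      have := h 2
      simp only [act, B_s2, Fin.sum_univ_five, Matrix.cons_val] at this
      linear_combination this
    have h3 : -(P 2 * w 1) - P 4 * w 0 + P 5 * w 2 - P 11 * w 4 = P 10 * z 3 := by
      have := h 3
      simp only [act, B_s2, Fin.sum_univ_five, Matrix.cons_val] at this
      linear_combination this
    have h4 : P 1 * w 1 + P 3 * w 0 - P 4 * w 2 + P 11 * w 3 = P 10 * z 4 := by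
      have := h 4
      simp only [act, B_s2, Fin.sum_univ_five, Matrix.cons_val] at this
      linear_combination this
    exact e_s2 hq ha h0 h1 h2 h3 h4

private theorem sk_s3 (P : Sp) : Skew (B_s3 P) := by
  intro i j
  fin_cases i <;> fin_cases j <;> simp [B_s3]

private theorem pf_s3 {P : Sp} (hq : Qd P) : ∀ i j k l, P 11 ∣ Pf5 (B_s3 P) i j k l := by
  refine pf_all (sk_s3 P) ?_ ?_ ?_ ?_ ?_
  · refine ⟨-(P 9), ?_⟩
    simp only [Pf5, B_s3, Matrix.cons_val]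
    linear_combination (1) * hq.h3
  · refine ⟨P 7, ?_⟩
    simp only [Pf5, B_s3, Matrix.cons_val]
    linear_combination (-1) * hq.h4
  · refine ⟨-(P 6), ?_⟩
    simp only [Pf5, B_s3, Matrix.cons_val]
    linear_combination (1) * hq.h5
  · refine ⟨P 0, ?_⟩
    simp only [Pf5, B_s3, Matrix.cons_val]
    linear_combination (-1) * hq.h9
  · refine ⟨-(P 1), ?_⟩
    simp only [Pf5, B_s3, Matrix.cons_val]
    linear_combination (1) * hq.h10

private theorem many_s3 {P : Sp} (hq : Qd P) {t1 t2 Y R : ℝ} (h1 : 0 < t1) (h2 : 0 < t2) (hR : 0 ≤ R)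
    (ha : P 11 ≠ 0) (hmax : ∀ i, |(P i : ℝ)| * sg t1 t2 11 ≤ |(P 11 : ℝ)| * sg t1 t2 i)
    (hY : |(P 11 : ℝ)| ≤ Y * sg t1 t2 11) :
    ∃ S : Finset (Fin 10 → ℤ), (∀ x ∈ S, InE P x ∧ FF x = 0 ∧ ∀ j, |(x j : ℝ)| ≤ 8 * R * tx t1 t2 j) ∧
      R ^ 5 / Y ^ 2 ≤ (S.card : ℝ) := by
  refine core h1 h2 hR 11 ha hmax hY (B_s3 P) (sk_s3 P) (pf_s3 hq) ![2, 3, 4, 8, 9] ![0, 1, 5, 7, 6]
    ![![0, 7, 8, 4, 3], ![7, 0, 10, 2, 1], ![8, 10, 0, 5, 4], ![4, 2, 5, 0, 10], ![3, 1, 4, 10, 0]]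
    ?_ (by decide) (by decide) (by decide) (by decide) (fun w z => ![z 0, -(z 1), w 0, w 1, w 2, -(z 2), -(z 4), z 3, w 3, w 4]) ?_ ?_ (by decide) ?_
  · intro k j
    fin_cases k <;> fin_cases j <;> simp [B_s3]
  · intro w z k
    fin_cases k <;> rfl
  · intro w z k
    fin_cases k <;> simp
  · intro w z h
    have h0 : -(P 3 * w 4) + P 4 * w 3 - P 7 * w 1 + P 8 * w 2 = P 11 * z 0 := by
      have := h 0
      simp only [act, B_s3, Fin.sum_univ_five, Matrix.cons_val] at this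
      linear_combination this
    have h1 : -(P 1 * w 4) + P 2 * w 3 + P 7 * w 0 - P 10 * w 2 = P 11 * z 1 := by
      have := h 1
      simp only [act, B_s3, Fin.sum_univ_five, Matrix.cons_val] at this
      linear_combination this
    have h2 : P 4 * w 4 - P 5 * w 3 - P 8 * w 0 + P 10 * w 1 = P 11 * z 2 := by
      have := h 2
      simp only [act, B_s3, Fin.sum_univ_five, Matrix.cons_val] at this
      linear_combination this
    have h3 : -(P 2 * w 1) - P 4 * w 0 + P 5 * w 2 + P 10 * w 4 = P 11 * z 3 := by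
      have := h 3
      simp only [act, B_s3, Fin.sum_univ_five, Matrix.cons_val] at this
      linear_combination this
    have h4 : P 1 * w 1 + P 3 * w 0 - P 4 * w 2 - P 10 * w 3 = P 11 * z 4 := by
      have := h 4
      simp only [act, B_s3, Fin.sum_univ_five, Matrix.cons_val] at this
      linear_combination this
    exact e_s3 hq ha h0 h1 h2 h3 h4

/-- **many `x`** -/
theorem many_x {P : Sp} (hq : Qd P) (hP : P ≠ 0) {t1 t2 Y R : ℝ} (h1 : 0 < t1) (h2 : 0 < t2) (hR : 0 ≤ R)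
    (hY : ∀ i, |(P i : ℝ)| ≤ Y * sg t1 t2 i) :
    ∃ S : Finset (Fin 10 → ℤ), (∀ x ∈ S, InE P x ∧ FF x = 0 ∧ ∀ j, |(x j : ℝ)| ≤ 8 * R * tx t1 t2 j) ∧
      R ^ 5 / Y ^ 2 ≤ (S.card : ℝ) := by
  obtain ⟨i0, hi0⟩ := Finite.exists_max (fun i : Fin 12 => |(P i : ℝ)| / sg t1 t2 i)
  have hmax : ∀ i, |(P i : ℝ)| * sg t1 t2 i0 ≤ |(P i0 : ℝ)| * sg t1 t2 i := by
    intro i
    have := hi0 i
    rwa [div_le_div_iff₀ (sg_pos h1 h2 i) (sg_pos h1 h2 i0)] at this
  have ha : P i0 ≠ 0 := by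
    intro h
    apply hP
    funext i
    have h3 := hmax i
    rw [h] at h3
    simp only [Int.cast_zero, abs_zero, zero_mul] at h3
    have h4 : |(P i : ℝ)| ≤ 0 := by
      by_contra hc
      have := mul_pos (not_le.mp hc) (sg_pos h1 h2 i0)
      linarith
    have h5 : (P i : ℝ) = 0 := abs_eq_zero.mp (le_antisymm h4 (abs_nonneg _))
    exact_mod_cast h5
  have hY0 := hY i0
  clear hi0
  fin_cases i0
  · exact many_c hq h1 h2 hR ha hmax hY0
  · exact many_p2 hq h1 h2 hR ha hmax hY0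
  · exact many_p3 hq h1 h2 hR ha hmax hY0
  · exact many_q1 hq h1 h2 hR ha hmax hY0
  · exact many_q2 hq h1 h2 hR ha hmax hY0
  · exact many_q3 hq h1 h2 hR ha hmax hY0
  · exact many_v hq h1 h2 hR ha hmax hY0
  · exact many_r2 hq h1 h2 hR ha hmax hY0
  · exact many_r3 hq h1 h2 hR ha hmax hY0
  · exact many_s1 hq h1 h2 hR ha hmax hY0
  · exact many_s2 hq h1 h2 hR ha hmax hY0
  · exact many_s3 hq h1 h2 hR ha hmax hY0

end Pool.Agent.PP5
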