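import Pool.Agent.PP5.DK
import Pool.Agent.PP5.EF

/-!
# PP5: every point has a short primitive `x` whose lattice `L_x` has rank four
-/

namespace Pool.Agent.PP5

open Module

theorem prim_part {x : Fin 10 → ℤ} (hx : x ≠ 0) : ∃ (g : ℤ) (x0 : Fin 10 → ℤ), g ≠ 0 ∧
    (∀ j, x j = g * x0 j) ∧ ∀ p : ℕ, p.Prime → ∃ j, ¬ (p : ℤ) ∣ x0 j := by
  obtain ⟨x0, h1, h2⟩ := Finset.extract_gcd x (Finset.univ_nonempty (α := Fin 10))
  refine ⟨Finset.univ.gcd x, x0, ?_, fun j => h1 j (Finset.mem_univ _), ?_⟩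
  · intro h
    apply hx
    funext j
    rw [h1 j (Finset.mem_univ _), h, zero_mul]; rfl
  · intro p hp
    by_contra hc
    push Not at hc
    have h3 : (p : ℤ) ∣ Finset.univ.gcd x0 := Finset.dvd_gcd (fun j _ => hc j)
    rw [h2] at h3
    have h4 := Int.natAbs_dvd_natAbs.mpr h3
    simp at h4
    exact hp.one_lt.ne' h4

theorem short_x {P : Sp} (hq : Qd P) (hP : P ≠ 0) {t1 t2 Y : ℝ} (h1 : 0 < t1) (h2 : 0 < t2) (hY0 : 0 < Y)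
    (hY : ∀ i, |(P i : ℝ)| ≤ Y * sg t1 t2 i) :
    ∃ x : Fin 10 → ℤ, (∀ p : ℕ, p.Prime → ∃ j, ¬ (p : ℤ) ∣ x j) ∧ FF x = 0 ∧ InE P x ∧
      nw (tx t1 t2) x ≤ 16 * Y ^ (2 / 5 : ℝ) := by
  have hR0 : (0 : ℝ) ≤ 2 * Y ^ (2 / 5 : ℝ) := by positivity
  obtain ⟨S, hS, hc⟩ := many_x hq hP h1 h2 hR0 hY
  have hR5 : (2 * Y ^ (2 / 5 : ℝ)) ^ 5 / Y ^ 2 = 32 := by
    rw [mul_pow, ← Real.rpow_natCast (Y ^ (2 / 5 : ℝ)) 5, ← Real.rpow_mul hY0.le]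
    have : (2 / 5 : ℝ) * ((5 : ℕ) : ℝ) = ((2 : ℕ) : ℝ) := by norm_num
    rw [this, Real.rpow_natCast]
    have := hY0.ne'
    field_simp
    norm_num
  rw [hR5] at hc
  have hc2 : 1 < S.card := by
    have : (32 : ℝ) ≤ S.card := hc
    have h3 : (32 : ℕ) ≤ S.card := by exact_mod_cast this
    omega
  obtain ⟨x, hxS, hx0⟩ : ∃ x ∈ S, x ≠ 0 := by
    obtain ⟨a, ha, b, hb, hab⟩ := Finset.one_lt_card.mp hc2
    by_cases h : a = 0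
    · exact ⟨b, hb, fun h' => hab (h.trans h'.symm)⟩
    · exact ⟨a, ha, h⟩
  obtain ⟨hE, hF, hxb⟩ := hS x hxS
  obtain ⟨g, x0, hg, hgx, hp⟩ := prim_part hx0
  refine ⟨x0, hp, ?_, ?_, ?_⟩
  · have h3 : g ^ 2 * FF x0 = 0 := by
      rw [← hF]
      unfold FF
      simp only [hgx]
      ring
    exact (mul_eq_zero.mp h3).resolve_left (pow_ne_zero 2 hg)
  · exact InE_prop hg (fun i => by rw [hgx i]; ring) (show InE P x from hE) (B := 1)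
  · rw [nw_le_iff (fun j => tx_pos h1 h2 j) (by positivity)]
    intro j
    have h3 := hxb j
    have h4 : |(x0 j : ℝ)| ≤ |(x j : ℝ)| := by
      rw [hgx j]
      push_cast
      rw [abs_mul]
      have h5 : (1 : ℝ) ≤ |(g : ℝ)| := by
        have : (1 : ℤ) ≤ |g| := Int.one_le_abs hg
        exact_mod_cast this
      nlinarith [abs_nonneg (x0 j : ℝ)]
    calc |(x0 j : ℝ)| ≤ |(x j : ℝ)| := h4
      _ ≤ 8 * (2 * Y ^ (2 / 5 : ℝ)) * tx t1 t2 j := h3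
      _ = 16 * Y ^ (2 / 5 : ℝ) * tx t1 t2 j := by ring

/-- **every point of the box has a short `x` of rank four** -/
theorem pair_x {C X y t1 t2 : ℝ} (hC : 1 ≤ C) (hy : 0 < y) (h1 : 0 < t1) (h2 : 0 < t2) {P : Sp}
    (hP : InP C X y t1 t2 P) :
    ∃ x : Fin 10 → ℤ, (∀ p : ℕ, p.Prime → ∃ j, ¬ (p : ℤ) ∣ x j) ∧ FF x = 0 ∧ InE P x ∧
      nw (tx t1 t2) x ≤ 16 * (C * y) ^ (2 / 5 : ℝ) ∧ finrank ℤ (PP5L.Lx x) = 4 := by
  have hP0 : P ≠ 0 := by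
    rintro rfl
    exact hP.pr 2 Nat.prime_two (fun i => dvd_zero _)
  obtain ⟨x, hp, hF, hE, hn⟩ := short_x hP.qd hP0 h1 h2 (by positivity : 0 < C * y) hP.bx
  exact ⟨x, hp, hF, hE, hn, rank4 hP.nd hE hF hp⟩

end Pool.Agent.PP5
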