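import Mathlib

/-!
# PP5, section (a2): the spinor system (16 coordinates, ten quadrics)

Coordinates of `s : Fin 16 → R`: `0 v, 1 s3, 2 p3, 3 q1, 4 r2, 5 s2, 6 p2, 7 q2, 8 c, 9 q3, 10 r3, 11 s1,
12 R2, 13 S2, 14 P2, 15 Q2` (the last four are the second copies of `r2, s2, p2, q2`).
-/

namespace Pool.Agent.PP5L

variable {R : Type*} [CommRing R]

def HH (x : Fin 10 → R) (s : Fin 16 → R) : Fin 16 → R := ![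
  -(x 5 * s 1) + x 8 * s 9 + x 2 * s 10 - x 3 * s 13 - x 9 * s 15,
  -(x 5 * s 0) + x 7 * s 8 + x 0 * s 11 - x 1 * s 12 - x 6 * s 14,
  x 5 * s 3 + x 3 * s 8 + x 6 * s 10 - x 8 * s 12 - x 0 * s 15,
  x 5 * s 2 + x 1 * s 9 + x 9 * s 11 - x 7 * s 13 - x 2 * s 14,
  x 5 * s 5 - x 6 * s 9 + x 3 * s 11 - x 2 * s 12 + x 7 * s 15,
  x 5 * s 4 - x 9 * s 8 + x 1 * s 10 - x 0 * s 13 + x 8 * s 14,
  -(x 5 * s 7) + x 0 * s 9 - x 7 * s 10 + x 9 * s 12 - x 3 * s 14,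
  -(x 5 * s 6) + x 2 * s 8 - x 8 * s 11 + x 6 * s 13 - x 1 * s 15,
  x 7 * s 1 + x 3 * s 2 - x 9 * s 5 + x 2 * s 7 - x 4 * s 9,
  x 8 * s 0 + x 1 * s 3 - x 6 * s 4 + x 0 * s 6 - x 4 * s 8,
  x 2 * s 0 + x 6 * s 2 + x 1 * s 5 - x 7 * s 6 - x 4 * s 11,
  x 0 * s 1 + x 9 * s 3 + x 3 * s 4 - x 8 * s 7 - x 4 * s 10,
  -(x 1 * s 1) - x 8 * s 2 - x 2 * s 4 + x 9 * s 6 + x 4 * s 13,
  -(x 3 * s 0) - x 7 * s 3 - x 0 * s 5 + x 6 * s 7 + x 4 * s 12,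
  -(x 6 * s 1) - x 2 * s 3 + x 8 * s 5 - x 3 * s 6 + x 4 * s 15,
  -(x 9 * s 0) - x 0 * s 2 + x 7 * s 4 - x 1 * s 7 + x 4 * s 14]

def HP (x : Fin 10 → R) (s : Fin 16 → R) : Fin 16 → R := ![
  x 4 * s 1 + x 7 * s 9 + x 0 * s 10 + x 1 * s 13 + x 6 * s 15,
  x 4 * s 0 + x 8 * s 8 + x 2 * s 11 + x 3 * s 12 + x 9 * s 14,
  -(x 4 * s 3) - x 1 * s 8 - x 9 * s 10 - x 7 * s 12 - x 2 * s 15,
  -(x 4 * s 2) - x 3 * s 9 - x 6 * s 11 - x 8 * s 13 - x 0 * s 14,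
  -(x 4 * s 5) + x 9 * s 9 - x 1 * s 11 - x 0 * s 12 + x 8 * s 15,
  -(x 4 * s 4) + x 6 * s 8 - x 3 * s 10 - x 2 * s 13 + x 7 * s 14,
  x 4 * s 7 + x 2 * s 9 - x 8 * s 10 - x 6 * s 12 + x 1 * s 14,
  x 4 * s 6 + x 0 * s 8 - x 7 * s 11 - x 9 * s 13 + x 3 * s 15,
  x 8 * s 1 - x 1 * s 2 + x 6 * s 5 + x 0 * s 7 + x 5 * s 9,
  x 7 * s 0 - x 3 * s 3 + x 9 * s 4 + x 2 * s 6 + x 5 * s 8,
  x 0 * s 0 - x 9 * s 2 - x 3 * s 5 - x 8 * s 6 + x 5 * s 11,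
  x 2 * s 1 - x 6 * s 3 - x 1 * s 4 - x 7 * s 7 + x 5 * s 10,
  x 3 * s 1 - x 7 * s 2 - x 0 * s 4 - x 6 * s 6 - x 5 * s 13,
  x 1 * s 0 - x 8 * s 3 - x 2 * s 5 - x 9 * s 7 - x 5 * s 12,
  x 9 * s 1 - x 0 * s 3 + x 7 * s 5 + x 1 * s 6 - x 5 * s 15,
  x 6 * s 0 - x 2 * s 2 + x 8 * s 4 + x 3 * s 7 - x 5 * s 14]

def Qd (s : Fin 16 → R) : Fin 10 → R := ![
  s 0 * s 10 - s 3 * s 14 - s 4 * s 12 + s 7 * s 8,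
  s 0 * s 13 - s 2 * s 8 - s 4 * s 11 + s 6 * s 14,
  s 1 * s 11 - s 2 * s 15 - s 5 * s 13 + s 6 * s 9,
  s 1 * s 12 - s 3 * s 9 - s 5 * s 10 + s 7 * s 15,
  s 0 * s 1 - s 2 * s 3 - s 4 * s 5 + s 6 * s 7,
  s 8 * s 9 + s 10 * s 11 - s 12 * s 13 - s 14 * s 15,
  s 0 * s 15 - s 3 * s 11 + s 5 * s 8 - s 6 * s 12,
  s 0 * s 9 - s 2 * s 12 + s 5 * s 14 - s 7 * s 11,
  s 1 * s 8 - s 3 * s 13 + s 4 * s 15 - s 6 * s 10,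
  s 1 * s 14 - s 2 * s 10 + s 4 * s 9 - s 7 * s 13]

def Bd (s t : Fin 16 → R) : Fin 10 → R := ![
  s 0 * t 10 - s 3 * t 14 - s 4 * t 12 + s 7 * t 8 + s 8 * t 7 + s 10 * t 0 - s 12 * t 4 - s 14 * t 3,
  s 0 * t 13 - s 2 * t 8 - s 4 * t 11 + s 6 * t 14 - s 8 * t 2 - s 11 * t 4 + s 13 * t 0 + s 14 * t 6,
  s 1 * t 11 - s 2 * t 15 - s 5 * t 13 + s 6 * t 9 + s 9 * t 6 + s 11 * t 1 - s 13 * t 5 - s 15 * t 2,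
  s 1 * t 12 - s 3 * t 9 - s 5 * t 10 + s 7 * t 15 - s 9 * t 3 - s 10 * t 5 + s 12 * t 1 + s 15 * t 7,
  s 0 * t 1 + s 1 * t 0 - s 2 * t 3 - s 3 * t 2 - s 4 * t 5 - s 5 * t 4 + s 6 * t 7 + s 7 * t 6,
  s 8 * t 9 + s 9 * t 8 + s 10 * t 11 + s 11 * t 10 - s 12 * t 13 - s 13 * t 12 - s 14 * t 15 - s 15 * t 14,
  s 0 * t 15 - s 3 * t 11 + s 5 * t 8 - s 6 * t 12 + s 8 * t 5 - s 11 * t 3 - s 12 * t 6 + s 15 * t 0,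
  s 0 * t 9 - s 2 * t 12 + s 5 * t 14 - s 7 * t 11 + s 9 * t 0 - s 11 * t 7 - s 12 * t 2 + s 14 * t 5,
  s 1 * t 8 - s 3 * t 13 + s 4 * t 15 - s 6 * t 10 + s 8 * t 1 - s 10 * t 6 - s 13 * t 3 + s 15 * t 4,
  s 1 * t 14 - s 2 * t 10 + s 4 * t 9 - s 7 * t 13 + s 9 * t 4 - s 10 * t 2 - s 13 * t 7 + s 14 * t 1]


/-- the quadratic form on the ten-dimensional space -/
def FF (x : Fin 10 → R) : R := x 0 * x 2 - x 1 * x 3 - x 4 * x 5 - x 6 * x 9 + x 7 * x 8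

/-- its polar form -/
def bF (x y : Fin 10 → R) : R :=
  x 0 * y 2 + x 2 * y 0 - x 1 * y 3 - x 3 * y 1 - x 4 * y 5 - x 5 * y 4 - x 6 * y 9 - x 9 * y 6
    + x 7 * y 8 + x 8 * y 7

/-- the dual vector `x^` (so `bF x y = ∑ xhat x j * y j`) -/
def xhat (x : Fin 10 → R) : Fin 10 → R :=
  ![x 2, -(x 3), x 0, -(x 1), -(x 5), -(x 4), -(x 9), x 8, x 7, -(x 6)]

/-- the quadratic form `∑ x_j Q_j(s)` on the second half spin space -/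
def PP (x : Fin 10 → R) (s : Fin 16 → R) : R := ∑ j, x j * Qd s j

/-- dot product -/
def dot (s t : Fin 16 → R) : R := ∑ i, s i * t i

/-- the even symmetric `4 × 4` matrix `S(x)`, linear in `x` -/
def SS (x : Fin 10 → R) : Matrix (Fin 4) (Fin 4) R :=
  !![2 * x 0, -(x 4 + x 5), x 6, -(x 8);
     -(x 4 + x 5), 2 * x 2, -(x 7), x 9;
     x 6, -(x 7), -(2 * x 1), x 4 - x 5;
     -(x 8), x 9, x 4 - x 5, -(2 * x 3)]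

/-- the four linear conditions `R2 = r2, S2 = s2, P2 = p2, Q2 = q2` as vectors of the second space -/
def rho (i : Fin 4) : Fin 16 → R :=
  ![![0,0,0,0,-1,0,0,0,0,0,0,0,1,0,0,0], ![0,0,0,0,0,-1,0,0,0,0,0,0,0,1,0,0],
    ![0,0,0,0,0,0,-1,0,0,0,0,0,0,0,1,0], ![0,0,0,0,0,0,0,-1,0,0,0,0,0,0,0,1]] i

end Pool.Agent.PP5L
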