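import Pool.Agent.PP5.DG

/-!
# PP5, dual side: many points in `L_x`
-/

namespace Pool.Agent.PP5

/-- the four differences `R2 - r2, S2 - s2, P2 - p2, Q2 - q2` -/
def dif (s : Fin 16 → ℤ) : Fin 4 → ℤ := ![s 12 - s 4, s 13 - s 5, s 14 - s 6, s 15 - s 7]

theorem dif_dot (s : Fin 16 → ℤ) (i : Fin 4) : PP5L.dot s (PP5L.rho i) = dif s i := by
  fin_cases i <;> simp [PP5L.dot, PP5L.rho, dif, Fin.sum_univ_succ] <;> ring

theorem dif_sub (s t : Fin 16 → ℤ) : dif (s - t) = dif s - dif t := by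
  funext i
  fin_cases i <;> simp [dif] <;> ring

/-- the scales of the four differences -/
noncomputable def sg4 (t1 t2 : ℝ) : Fin 4 → ℝ := ![1 / t1, t1, 1 / t2, t2]

theorem sg4_pos {t1 t2 : ℝ} (h1 : 0 < t1) (h2 : 0 < t2) (i : Fin 4) : 0 < sg4 t1 t2 i := by
  fin_cases i <;> simp [sg4, h1, h2]

theorem sg4_prod {t1 t2 : ℝ} (h1 : 0 < t1) (h2 : 0 < t2) : ∏ i, sg4 t1 t2 i = 1 := by
  simp only [Fin.prod_univ_four, sg4, Matrix.cons_val]
  field_simp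

theorem dif_le {t1 t2 Z : ℝ} {s : Fin 16 → ℤ}
    (hs : ∀ i, |(s i : ℝ)| ≤ Z * sg16 t1 t2 i) (i : Fin 4) : |(dif s i : ℝ)| ≤ 2 * Z * sg4 t1 t2 i := by
  have key : ∀ a b : Fin 16, ∀ w : ℝ, sg16 t1 t2 a = w → sg16 t1 t2 b = w →
      |((s a - s b : ℤ) : ℝ)| ≤ 2 * Z * w := by
    intro a b w ha hb
    have h3 := hs a
    have h4 := hs b
    rw [ha] at h3
    rw [hb] at h4
    push_cast
    calc |(s a : ℝ) - s b| ≤ |(s a : ℝ)| + |(s b : ℝ)| := abs_sub _ _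
      _ ≤ 2 * Z * w := by linarith
  have e1 : t1 ^ (-1 : ℤ) = 1 / t1 := by rw [zpow_neg_one, one_div]
  have e2 : t2 ^ (-1 : ℤ) = 1 / t2 := by rw [zpow_neg_one, one_div]
  fin_cases i
  · exact key 12 4 (1 / t1) (by simp [sg16, sa, sb]) (by simp [sg16, sa, sb])
  · exact key 13 5 t1 (by simp [sg16, sa, sb]) (by simp [sg16, sa, sb])
  · exact key 14 6 (1 / t2) (by simp [sg16, sa, sb]) (by simp [sg16, sa, sb])
  · exact key 15 7 t2 (by simp [sg16, sa, sb]) (by simp [sg16, sa, sb])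

theorem many_L {x : Fin 10 → ℤ} (hF : FF x = 0) (hx : x ≠ 0) {t1 t2 Y : ℝ} (h1 : 0 < t1) (h2 : 0 < t2)
    (hY : 0 < Y) (hY4 : ∀ i, 1 ≤ Y * sg4 t1 t2 i) :
    ∃ S : Finset Sp, (∀ P ∈ S, InE P x ∧ nw (sg t1 t2) P ≤ 32 * Y) ∧
      Y ^ 4 / (65 ^ 4 * nw (tx t1 t2) x ^ 4) ≤ (S.card : ℝ) := by
  classical
  obtain ⟨S, hS1, hS2⟩ := many_K hF hx h1 h2 hY.le
  have hMp : 0 < nw (tx t1 t2) x := nw_pos (fun j => tx_pos h1 h2 j) hx
  have hsg4 := sg4_pos h1 h2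
  -- the values of the four differences
  set T : Finset (Fin 4 → ℤ) := Fintype.piFinset
    (fun i => Finset.Icc (-⌊32 * Y * sg4 t1 t2 i⌋) ⌊32 * Y * sg4 t1 t2 i⌋) with hT
  have hmap : ∀ s ∈ S, dif s ∈ T := by
    intro s hs
    rw [hT, Fintype.mem_piFinset]
    intro i
    rw [Finset.mem_Icc, ← abs_le, Int.le_floor]
    push_cast
    have := dif_le (hS1 s hs).2 i
    linarith
  have hTne : T.Nonempty := by
    refine ⟨0, ?_⟩
    rw [hT, Fintype.mem_piFinset]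
    intro i
    have : 0 ≤ ⌊32 * Y * sg4 t1 t2 i⌋ := Int.floor_nonneg.mpr (by have := hsg4 i; positivity)
    rw [Finset.mem_Icc]
    constructor
    · show -⌊32 * Y * sg4 t1 t2 i⌋ ≤ 0
      omega
    · show 0 ≤ ⌊32 * Y * sg4 t1 t2 i⌋
      omega
  have hTc : (T.card : ℝ) ≤ 65 ^ 4 * Y ^ 4 := by
    rw [hT, Fintype.card_piFinset]
    push_cast
    have h3 : ∀ i, ((Finset.Icc (-⌊32 * Y * sg4 t1 t2 i⌋) ⌊32 * Y * sg4 t1 t2 i⌋).card : ℝ) ≤
        65 * Y * sg4 t1 t2 i := by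
      intro i
      rw [Int.card_Icc]
      have h0 : 0 ≤ ⌊32 * Y * sg4 t1 t2 i⌋ := Int.floor_nonneg.mpr (by have := hsg4 i; positivity)
      have h5 : (((⌊32 * Y * sg4 t1 t2 i⌋ + 1 - -⌊32 * Y * sg4 t1 t2 i⌋).toNat : ℕ) : ℤ)
          = ⌊32 * Y * sg4 t1 t2 i⌋ + 1 - -⌊32 * Y * sg4 t1 t2 i⌋ := Int.toNat_of_nonneg (by omega)
      have h6 : (((⌊32 * Y * sg4 t1 t2 i⌋ + 1 - -⌊32 * Y * sg4 t1 t2 i⌋).toNat : ℕ) : ℝ)
          = (⌊32 * Y * sg4 t1 t2 i⌋ : ℝ) + 1 + ⌊32 * Y * sg4 t1 t2 i⌋ := by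
        have : (((⌊32 * Y * sg4 t1 t2 i⌋ + 1 - -⌊32 * Y * sg4 t1 t2 i⌋).toNat : ℕ) : ℝ)
            = (((⌊32 * Y * sg4 t1 t2 i⌋ + 1 - -⌊32 * Y * sg4 t1 t2 i⌋ : ℤ)) : ℝ) := by
          exact_mod_cast congrArg (fun z : ℤ => (z : ℝ)) h5
        rw [this]; push_cast; ring
      rw [h6]
      have h7 := Int.floor_le (32 * Y * sg4 t1 t2 i)
      have h8 := hY4 i
      linarith
    calc ∏ i, ((Finset.Icc (-⌊32 * Y * sg4 t1 t2 i⌋) ⌊32 * Y * sg4 t1 t2 i⌋).card : ℝ)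
        ≤ ∏ i, 65 * Y * sg4 t1 t2 i :=
          Finset.prod_le_prod (fun i _ => Nat.cast_nonneg _) (fun i _ => h3 i)
      _ = 65 ^ 4 * Y ^ 4 := by
          rw [Finset.prod_mul_distrib, sg4_prod h1 h2, Finset.prod_const, Finset.card_univ,
            Fintype.card_fin]
          ring
  have hb : T.card • (Y ^ 4 / (65 ^ 4 * nw (tx t1 t2) x ^ 4)) ≤ (S.card : ℝ) := by
    rw [nsmul_eq_mul]
    refine le_trans ?_ hS2
    calc (T.card : ℝ) * (Y ^ 4 / (65 ^ 4 * nw (tx t1 t2) x ^ 4))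
        ≤ (65 ^ 4 * Y ^ 4) * (Y ^ 4 / (65 ^ 4 * nw (tx t1 t2) x ^ 4)) :=
          mul_le_mul_of_nonneg_right hTc (by positivity)
      _ = Y ^ 8 / nw (tx t1 t2) x ^ 4 := by field_simp
  obtain ⟨y, _, hy⟩ := Finset.exists_le_card_fiber_of_nsmul_le_card_of_maps_to hmap hTne hb
  set F := S.filter (fun s => dif s = y) with hFdef
  by_cases hFe : F.Nonempty
  · obtain ⟨s0, hs0⟩ := hFe
    have hd : ∀ s ∈ F, ∀ i : Fin 4, PP5L.dot (s - s0) (PP5L.rho i) = 0 := by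
      intro s hs i
      rw [dif_dot, dif_sub, (Finset.mem_filter.mp hs).2, (Finset.mem_filter.mp hs0).2, sub_self]
      rfl
    refine ⟨F.image (fun s => (fun i => (s - s0) (ix i) : Sp)), ?_, ?_⟩
    · intro P hP
      rw [Finset.mem_image] at hP
      obtain ⟨s, hs, rfl⟩ := hP
      have h3 := emb_surj (hd s hs)
      have h4 := hS1 s (Finset.mem_filter.mp hs).1
      have h5 := hS1 s0 (Finset.mem_filter.mp hs0).1
      refine ⟨?_, ?_⟩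
      · rw [InE_iff, h3]
        have h6 : s - s0 ∈ PP5L.Kx x :=
          (PP5L.Kx x).sub_mem (PP5L.mem_Kx.mpr h4.1) (PP5L.mem_Kx.mpr h5.1)
        exact PP5L.mem_Kx.mp h6
      · rw [nw_le_iff (fun i => sg_pos h1 h2 i) (by positivity)]
        intro i
        have h6 := h4.2 (ix i)
        have h7 := h5.2 (ix i)
        rw [sg_ix h1 h2] at h6 h7
        have h8 : (((s - s0) (ix i) : ℤ) : ℝ) = (s (ix i) : ℝ) - s0 (ix i) := by
          rw [Pi.sub_apply]; push_cast; rfl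
        show |(((s - s0) (ix i) : ℤ) : ℝ)| ≤ _
        rw [h8]
        calc |(s (ix i) : ℝ) - s0 (ix i)| ≤ |(s (ix i) : ℝ)| + |(s0 (ix i) : ℝ)| := abs_sub _ _
          _ ≤ 32 * Y * sg t1 t2 i := by linarith
    · rw [Finset.card_image_of_injOn]
      · exact hy
      · intro s hs s' hs' hss
        have h3 := emb_surj (hd s hs)
        have h4 := emb_surj (hd s' hs')
        have h5 : s - s0 = s' - s0 := by rw [← h3, ← h4]; exact congrArg emb hss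
        exact sub_left_injective h5
  · rw [Finset.not_nonempty_iff_eq_empty] at hFe
    rw [hFe] at hy
    refine ⟨∅, by simp, ?_⟩
    simpa using hy

/-- upper bound for the number of points in terms of a reduced basis -/
theorem card_le {N n : ℕ} {w : Fin N → ℝ} (hw : ∀ i, 0 < w i) (b : Fin n → (Fin N → ℤ)) (hb0 : ∀ i, b i ≠ 0)
    {C : ℝ} (hC : 0 ≤ C) (hb : ∀ c : Fin n → ℤ, ∀ i, |(c i : ℝ)| * nw w (b i) ≤ C * nw w (∑ i, c i • b i))
    {Z : ℝ} (hZ : 0 ≤ Z) (S : Finset (Fin N → ℤ)) (hS : ∀ v ∈ S, ∃ c : Fin n → ℤ, v = ∑ i, c i • b i)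
    (hSZ : ∀ v ∈ S, nw w v ≤ Z) : (S.card : ℝ) ≤ ∏ i, (2 * (C * Z / nw w (b i)) + 1) := by
  classical
  have hl : ∀ i, 0 < nw w (b i) := fun i => nw_pos hw (hb0 i)
  set T : Finset (Fin n → ℤ) := Fintype.piFinset
    (fun i => Finset.Icc (-⌊C * Z / nw w (b i)⌋) ⌊C * Z / nw w (b i)⌋) with hT
  have hsub : S ⊆ T.image (fun c => ∑ i, c i • b i) := by
    intro v hv
    obtain ⟨c, hc⟩ := hS v hv
    rw [Finset.mem_image]
    refine ⟨c, ?_, hc.symm⟩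
    rw [hT, Fintype.mem_piFinset]
    intro i
    rw [Finset.mem_Icc, ← abs_le, Int.le_floor, le_div_iff₀ (hl i)]
    push_cast
    refine le_trans (hb c i) ?_
    rw [← hc]
    exact mul_le_mul_of_nonneg_left (hSZ v hv) hC
  have h1 : S.card ≤ T.card := le_trans (Finset.card_le_card hsub) Finset.card_image_le
  refine le_trans (by exact_mod_cast h1 : (S.card : ℝ) ≤ (T.card : ℝ)) ?_
  rw [hT, Fintype.card_piFinset]
  push_cast
  refine Finset.prod_le_prod (fun i _ => Nat.cast_nonneg _) (fun i _ => ?_)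
  rw [Int.card_Icc]
  have h0 : 0 ≤ ⌊C * Z / nw w (b i)⌋ := Int.floor_nonneg.mpr (by have := hl i; positivity)
  have h5 : (((⌊C * Z / nw w (b i)⌋ + 1 - -⌊C * Z / nw w (b i)⌋).toNat : ℕ) : ℤ)
      = ⌊C * Z / nw w (b i)⌋ + 1 - -⌊C * Z / nw w (b i)⌋ := Int.toNat_of_nonneg (by omega)
  have h6 : (((⌊C * Z / nw w (b i)⌋ + 1 - -⌊C * Z / nw w (b i)⌋).toNat : ℕ) : ℝ)
      = (⌊C * Z / nw w (b i)⌋ : ℝ) + 1 + ⌊C * Z / nw w (b i)⌋ := by
    have : (((⌊C * Z / nw w (b i)⌋ + 1 - -⌊C * Z / nw w (b i)⌋).toNat : ℕ) : ℝ)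
        = (((⌊C * Z / nw w (b i)⌋ + 1 - -⌊C * Z / nw w (b i)⌋ : ℤ)) : ℝ) := by
      exact_mod_cast congrArg (fun z : ℤ => (z : ℝ)) h5
    rw [this]; push_cast; ring
  rw [h6]
  have h7 := Int.floor_le (C * Z / nw w (b i))
  linarith

end Pool.Agent.PP5
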