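import Pool.Agent.PP5.LMain
import Pool.Agent.PP5.LUni2

namespace Pool.Agent.PP5L

open Matrix Module

/-- All algebraic facts about `L_x`, in terms of ANY matrix `G` with `B_j(b_i, b_k) = G i k * x_j`. -/
theorem Lx_facts {x : Fin 10 → ℤ} (hF : FF x = 0)
    (hp : ∀ p : ℕ, p.Prime → ∃ j, ¬ (p : ℤ) ∣ x j) (hD : (SS x).det ≠ 0)
    (b : Basis (Fin 4) ℤ (Lx x)) (G : Matrix (Fin 4) (Fin 4) ℤ)
    (hG : ∀ i k j, Bd (b i : Fin 16 → ℤ) (b k) j = G i k * x j) :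
    (∀ i k, G i k = G k i) ∧ (∀ i, (2 : ℤ) ∣ G i i) ∧ G.det ≠ 0 ∧
      (∃ m : ℤ, m ≠ 0 ∧ G.det * (SS x).det = m ^ 2) ∧
      (∀ l : ℕ, l.Prime → (l : ℤ) ∣ G.det → (l : ℤ) ∣ (SS x).det) ∧
      (∀ n : ℤ, (∀ i j, n ∣ G.adjugate i j) → ∀ i j, n ∣ (SS x).adjugate i j) := by
  obtain ⟨x', h1⟩ := exists_partner hp
  obtain ⟨G0, hs, hev, hB, ⟨m, hm0, hm⟩, hpr⟩ := (Lx_summary hF hp hD).2 b
  obtain ⟨j, hj⟩ := exists_coord_ne h1
  have hGG : G = G0 := by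
    ext i k
    have h2 := hG i k j
    rw [hB i k j] at h2
    exact (mul_right_cancel₀ hj h2).symm
  have hGe : ∀ i k, G i k = bx x' (b i) (b k) := by
    intro i k
    have h2 := hG i k j
    rw [Bd_Kx hF h1 (Lx_le_Kx x (b i).2) (Lx_le_Kx x (b k).2) j] at h2
    exact (mul_right_cancel₀ hj h2).symm
  have hdet : G.det ≠ 0 := by
    intro h0
    rw [hGG] at h0
    rw [h0, zero_mul] at hm
    exact hm0 (pow_eq_zero_iff two_ne_zero |>.1 hm.symm)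
  refine ⟨?_, ?_, hdet, ⟨m, hm0, by rw [hGG]; exact hm⟩, by rw [hGG]; exact hpr,
    fun n hn => content_adj hF h1 hD b G hGe n hn⟩
  · rw [hGG]; exact hs
  · rw [hGG]; exact hev

end Pool.Agent.PP5L
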