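import Pool.Agent.PP5.DI
import Pool.Agent.PP5.LFin

/-!
# PP5, dual side: the reduced basis of `L_x`
-/

namespace Pool.Agent.PP5

open Module Matrix

theorem FF_eq (x : Fin 10 → ℤ) : PP5L.FF x = FF x := by unfold PP5L.FF FF; ring

/-- everything about the lattice `L_x`: `b` a basis of size-ordered vectors, `G` the Gram matrix -/
structure Dual (C : ℝ) (x : Fin 10 → ℤ) (t1 t2 : ℝ) (b : Fin 4 → Sp) (G : Matrix (Fin 4) (Fin 4) ℤ) :
    Prop where
  ne : ∀ i, b i ≠ 0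
  mono : ∀ i j, i ≤ j → nw (sg t1 t2) (b i) ≤ nw (sg t1 t2) (b j)
  span : ∀ P, InE P x ↔ ∃ c : Fin 4 → ℤ, P = ∑ i, c i • b i
  inj : ∀ c d : Fin 4 → ℤ, ∑ i, c i • b i = ∑ i, d i • b i → c = d
  bd : ∀ c : Fin 4 → ℤ, ∀ i, |(c i : ℝ)| * nw (sg t1 t2) (b i) ≤ C * nw (sg t1 t2) (∑ i, c i • b i)
  prod : ∏ i, nw (sg t1 t2) (b i) ≤ C * nw (tx t1 t2) x ^ 4
  bas : ∃ B : Basis (Fin 4) ℤ (PP5L.Lx x), ∀ i, (B i : Fin 16 → ℤ) = emb (b i)
  sym : ∀ i k, G i k = G k i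
  even : ∀ i, (2 : ℤ) ∣ G i i
  pol : ∀ c d : Fin 4 → ℤ, ∀ j, PP5L.Bd (emb (∑ i, c i • b i)) (emb (∑ i, d i • b i)) j
    = (c ⬝ᵥ (G *ᵥ d)) * x j
  qd : ∀ c : Fin 4 → ℤ, Qd (∑ i, c i • b i) ↔ c ⬝ᵥ (G *ᵥ c) = 0
  gle : ∀ i k, |(G i k : ℝ)| * nw (tx t1 t2) x ≤ C * nw (sg t1 t2) (b i) * nw (sg t1 t2) (b k)

theorem emb_sum {n : ℕ} (c : Fin n → ℤ) (b : Fin n → Sp) :
    emb (∑ i, c i • b i) = ∑ i, c i • emb (b i) := by
  show embh (∑ i, c i • b i) = _
  rw [map_sum]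
  exact Finset.sum_congr rfl (fun i _ => map_zsmul embh (c i) (b i))

theorem dual_exists : ∃ C : ℝ, 1 ≤ C ∧ ∀ (x : Fin 10 → ℤ) (t1 t2 : ℝ), FF x = 0 →
    (∀ p : ℕ, p.Prime → ∃ j, ¬ (p : ℤ) ∣ x j) → finrank ℤ (PP5L.Lx x) = 4 → 0 < t1 → 0 < t2 →
    ∃ (b : Fin 4 → Sp) (G : Matrix (Fin 4) (Fin 4) ℤ), Dual C x t1 t2 b G := by
  obtain ⟨C0, hC01, hC0⟩ := red_int 12
  have hC04 : 1 ≤ C0 ^ 4 := one_le_pow₀ hC01
  have hCC : C0 ≤ 65 ^ 8 * C0 ^ 4 := by
    have : C0 ≤ C0 ^ 4 := by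
      calc C0 = C0 ^ 1 := (pow_one _).symm
        _ ≤ C0 ^ 4 := pow_le_pow_right₀ hC01 (by norm_num)
    nlinarith
  refine ⟨65 ^ 8 * C0 ^ 4, by nlinarith, ?_⟩
  intro x t1 t2 hF hp hr h1 h2
  have hw : ∀ i, 0 < sg t1 t2 i := fun i => sg_pos h1 h2 i
  have hwx : ∀ i, 0 < tx t1 t2 i := fun i => tx_pos h1 h2 i
  have hx : x ≠ 0 := by
    rintro rfl
    obtain ⟨j, hj⟩ := hp 2 Nat.prime_two
    exact hj (dvd_zero _)
  obtain ⟨n, b, _, hbL, hb0, hmono, hspan, hbd⟩ := hC0 (sg t1 t2) hw (ES x)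
  have hl : ∀ i, 0 < nw (sg t1 t2) (b i) := fun i => nw_pos hw (hb0 i)
  -- independence
  have hind : ∀ c : Fin n → ℤ, ∑ i, c i • b i = 0 → c = 0 := by
    intro c hc
    funext i
    have h3 := hbd c i
    rw [hc] at h3
    have h4 : nw (sg t1 t2) (0 : Fin 12 → ℤ) = 0 := by
      unfold nw
      have : (fun i : Fin 12 => (((0 : Fin 12 → ℤ) i : ℤ) : ℝ) / sg t1 t2 i) = 0 := by
        funext i; simp
      rw [this, norm_zero]
    rw [h4, mul_zero] at h3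
    have h5 : |(c i : ℝ)| ≤ 0 := by
      by_contra hcc
      have := mul_pos (not_le.mp hcc) (hl i)
      linarith
    have h6 := abs_eq_zero.mp (le_antisymm h5 (abs_nonneg _))
    exact_mod_cast h6
  -- the basis
  let v : Fin n → PP5L.Lx x := fun i => ⟨emb (b i), emb_mem.mpr (mem_ES.mp (hbL i))⟩
  have hvli : LinearIndependent ℤ v := by
    rw [Fintype.linearIndependent_iff]
    intro g hg i
    have h3 : ∑ i, g i • emb (b i) = 0 := by
      have := congrArg (PP5L.Lx x).subtype hg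
      rw [map_sum, map_zero] at this
      rw [← this]
      exact Finset.sum_congr rfl (fun i _ => rfl)
    rw [← emb_sum] at h3
    have h4 : ∑ i, g i • b i = 0 := emb_inj h3
    rw [hind g h4]; rfl
  have hvsp : ⊤ ≤ Submodule.span ℤ (Set.range v) := by
    rintro ⟨s, hs⟩ _
    have hs' := PP5L.mem_Lx.mp hs
    have h3 := emb_surj hs'.2
    have h4 : (fun i => s (ix i) : Sp) ∈ ES x := by
      show emb (fun i => s (ix i)) ∈ PP5L.Lx x
      rw [h3]; exact hs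
    obtain ⟨c, hc⟩ := hspan _ h4
    have h5 : (⟨s, hs⟩ : PP5L.Lx x) = ∑ i, c i • v i := by
      apply Subtype.ext
      have h6 : ((∑ i, c i • v i : PP5L.Lx x) : Fin 16 → ℤ) = ∑ i, c i • emb (b i) := by
        have := map_sum (PP5L.Lx x).subtype (fun i => c i • v i) Finset.univ
        refine this.trans (Finset.sum_congr rfl (fun i _ => rfl))
      rw [h6, ← emb_sum, ← hc, h3]
    rw [h5]
    exact Submodule.sum_mem _ (fun i _ => Submodule.smul_mem _ _ (Submodule.subset_span ⟨i, rfl⟩))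
  let B : Basis (Fin n) ℤ (PP5L.Lx x) := Basis.mk hvli hvsp
  have hn : n = 4 := by
    have := Module.finrank_eq_card_basis B
    rw [hr, Fintype.card_fin] at this
    exact this.symm
  subst hn
  obtain ⟨x', hx'⟩ := PP5L.exists_partner hp
  have hF' : PP5L.FF x = 0 := by rw [FF_eq]; exact hF
  let G : Matrix (Fin 4) (Fin 4) ℤ := Matrix.of (fun i k => PP5L.bx x' (emb (b i)) (emb (b k)))
  have hGe : ∀ i k, G i k = PP5L.bx x' (emb (b i)) (emb (b k)) := fun i k => rfl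
  have hK : ∀ c : Fin 4 → ℤ, emb (∑ i, c i • b i) ∈ PP5L.Kx x := by
    intro c
    apply PP5L.Lx_le_Kx
    rw [emb_mem, ← mem_ES]
    exact (ES x).sum_mem (fun i _ => (ES x).zsmul_mem (hbL i) _)
  have hbb : ∀ i, emb (b i) ∈ PP5L.Kx x := fun i => PP5L.Lx_le_Kx x (emb_mem.mpr (mem_ES.mp (hbL i)))
  have hbil : ∀ c d : Fin 4 → ℤ, PP5L.bx x' (emb (∑ i, c i • b i)) (emb (∑ i, d i • b i))
      = c ⬝ᵥ (G *ᵥ d) := by
    intro c d
    have e1 : PP5L.bxl x' (∑ i, c i • emb (b i)) = ∑ i, c i • PP5L.bxl x' (emb (b i)) := by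
      rw [map_sum]
      exact Finset.sum_congr rfl (fun i _ => map_smul _ _ _)
    rw [emb_sum, emb_sum, ← PP5L.bxl_apply, e1, LinearMap.sum_apply]
    unfold dotProduct
    refine Finset.sum_congr rfl (fun i _ => ?_)
    rw [LinearMap.smul_apply, map_sum, smul_eq_mul]
    congr 1
    unfold mulVec dotProduct
    refine Finset.sum_congr rfl (fun k _ => ?_)
    rw [map_smul, smul_eq_mul, PP5L.bxl_apply, mul_comm]
    rfl
  obtain ⟨j0, hj0⟩ := tx_max t1 t2 h1 h2 x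
  have hMp : 0 < nw (tx t1 t2) x := nw_pos hwx hx
  have hxj0 : x j0 ≠ 0 := by
    intro h
    rw [h] at hj0
    simp only [Int.cast_zero, abs_zero] at hj0
    have := mul_pos hMp (hwx j0)
    linarith
  refine ⟨b, G, ⟨hb0, hmono, ?_, ?_, ?_, ?_, ⟨B, ?_⟩, ?_, ?_, ?_, ?_, ?_⟩⟩
  · intro P
    rw [← mem_ES]
    refine ⟨fun h => hspan P h, ?_⟩
    rintro ⟨c, rfl⟩
    exact (ES x).sum_mem (fun i _ => (ES x).zsmul_mem (hbL i) _)
  · intro c d hcd
    have h3 : ∑ i, (c - d) i • b i = 0 := by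
      have : ∑ i, (c - d) i • b i = ∑ i, c i • b i - ∑ i, d i • b i := by
        rw [← Finset.sum_sub_distrib]
        exact Finset.sum_congr rfl (fun i _ => by rw [Pi.sub_apply, sub_smul])
      rw [this, hcd, sub_self]
    exact sub_eq_zero.mp (hind _ h3)
  · intro c i
    refine le_trans (hbd c i) ?_
    exact mul_le_mul_of_nonneg_right hCC (nw_nonneg _ _)
  · -- the product
    have hs4 := sg4_pos h1 h2
    set Y : ℝ := ∑ i, 1 / sg4 t1 t2 i + ∑ i, nw (sg t1 t2) (b i) with hY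
    have hY1 : ∀ i, 1 / sg4 t1 t2 i ≤ Y := by
      intro i
      have h3 : 1 / sg4 t1 t2 i ≤ ∑ i, 1 / sg4 t1 t2 i :=
        Finset.single_le_sum (f := fun i => 1 / sg4 t1 t2 i)
          (fun i _ => (one_div_pos.mpr (hs4 i)).le) (Finset.mem_univ i)
      have h4 : 0 ≤ ∑ i, nw (sg t1 t2) (b i) := Finset.sum_nonneg (fun i _ => (hl i).le)
      linarith
    have hY2 : ∀ i, nw (sg t1 t2) (b i) ≤ Y := by
      intro i
      have h3 : nw (sg t1 t2) (b i) ≤ ∑ i, nw (sg t1 t2) (b i) :=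
        Finset.single_le_sum (f := fun i => nw (sg t1 t2) (b i)) (fun i _ => (hl i).le)
          (Finset.mem_univ i)
      have h4 : 0 ≤ ∑ i, 1 / sg4 t1 t2 i := Finset.sum_nonneg (fun i _ => (one_div_pos.mpr (hs4 i)).le)
      linarith
    have hYp : 0 < Y := lt_of_lt_of_le (hl 0) (hY2 0)
    obtain ⟨S, hS1, hS2⟩ := many_L hF hx h1 h2 hYp (fun i => by
      have := hY1 i
      rw [div_le_iff₀ (hs4 i)] at this
      exact this)
    have h3 := card_le hw b hb0 (by linarith : (0:ℝ) ≤ C0) hbd (by positivity : 0 ≤ 32 * Y) S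
      (fun P hP => hspan P (mem_ES.mpr (hS1 P hP).1)) (fun P hP => (hS1 P hP).2)
    have h4 : ∏ i, (2 * (C0 * (32 * Y) / nw (sg t1 t2) (b i)) + 1)
        ≤ ∏ i, (65 * C0 * Y / nw (sg t1 t2) (b i)) := by
      refine Finset.prod_le_prod (fun i _ => ?_) (fun i _ => ?_)
      · have := hl i
        positivity
      · have h5 := hY2 i
        have h6 := hl i
        have h7 : 1 ≤ C0 * Y / nw (sg t1 t2) (b i) := by
          rw [le_div_iff₀ h6]
          nlinarith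
        have h8 : 2 * (C0 * (32 * Y) / nw (sg t1 t2) (b i)) = 64 * (C0 * Y / nw (sg t1 t2) (b i)) := by
          ring
        have h9 : 65 * C0 * Y / nw (sg t1 t2) (b i) = 65 * (C0 * Y / nw (sg t1 t2) (b i)) := by ring
        rw [h8, h9]
        linarith
    have h5 : ∏ i, (65 * C0 * Y / nw (sg t1 t2) (b i)) = (65 * C0 * Y) ^ 4 / ∏ i, nw (sg t1 t2) (b i) := by
      rw [Finset.prod_div_distrib, Finset.prod_const, Finset.card_univ, Fintype.card_fin]
    have h6 := le_trans hS2 (le_trans h3 h4)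
    have hPp : 0 < ∏ i, nw (sg t1 t2) (b i) := Finset.prod_pos (fun i _ => hl i)
    rw [h5, div_le_div_iff₀ (by positivity) hPp] at h6
    have h7 : (65 * C0 * Y) ^ 4 * (65 ^ 4 * nw (tx t1 t2) x ^ 4)
        = Y ^ 4 * (65 ^ 8 * C0 ^ 4 * nw (tx t1 t2) x ^ 4) := by ring
    rw [h7] at h6
    exact le_of_mul_le_mul_left h6 (by positivity)
  · intro i
    rw [Basis.mk_apply]
  · intro i k
    rw [hGe, hGe, PP5L.bx_symm]
  · intro i
    rw [hGe, PP5L.bx_self hx' (hbb i)]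
    exact dvd_mul_right _ _
  · intro c d j
    rw [PP5L.Bd_Kx hF' hx' (hK c) (hK d) j, hbil]
  · intro c
    rw [Qd_iff]
    have h3 : ∀ j, PP5L.Qd (emb (∑ i, c i • b i)) j
        = PP5L.PP x (PP5L.HH x' (emb (∑ i, c i • b i))) * x j :=
      fun j => PP5L.Qd_Kx hF' hx' (hK c) j
    have h4 := PP5L.bx_self hx' (hK c)
    rw [hbil] at h4
    rw [h4]
    constructor
    · intro h
      have h5 := h j0
      rw [h3] at h5
      rw [(mul_eq_zero.mp h5).resolve_right hxj0, mul_zero]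
    · intro h j
      have h5 : PP5L.PP x (PP5L.HH x' (emb (∑ i, c i • b i))) = 0 := by omega
      rw [h3, h5, zero_mul]
  · intro i k
    have h3 := PP5L.Bd_Kx hF' hx' (hbb i) (hbb k) j0
    rw [← hGe] at h3
    have h4 := Bd_le h1 h2 (nw_nonneg _ _) (emb_le h1 h2 (b i)) (emb_le h1 h2 (b k)) j0
    rw [h3] at h4
    push_cast at h4
    rw [abs_mul, hj0] at h4
    have h5 : |(G i k : ℝ)| * nw (tx t1 t2) x * tx t1 t2 j0
        ≤ (8 * nw (sg t1 t2) (b i) * nw (sg t1 t2) (b k)) * tx t1 t2 j0 := by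
      rw [mul_assoc]; exact h4
    have h6 := le_of_mul_le_mul_right h5 (hwx j0)
    refine le_trans h6 ?_
    have h7 : 8 ≤ 65 ^ 8 * C0 ^ 4 := by nlinarith
    have h8 := (hl i).le
    have h9 := (hl k).le
    have h10 : 8 * nw (sg t1 t2) (b i) ≤ 65 ^ 8 * C0 ^ 4 * nw (sg t1 t2) (b i) :=
      mul_le_mul_of_nonneg_right h7 h8
    exact mul_le_mul_of_nonneg_right h10 h9

end Pool.Agent.PP5
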