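import Pool.Agent.PP5.DH

/-!
# PP5, dual side: the polar forms with weights
-/

namespace Pool.Agent.PP5

/-- signs of the terms of `Bd` -/
def bde : Fin 10 → Fin 8 → ℤ :=
  ![![1, -1, -1, 1, 1, 1, -1, -1],
    ![1, -1, -1, 1, -1, -1, 1, 1],
    ![1, -1, -1, 1, 1, 1, -1, -1],
    ![1, -1, -1, 1, -1, -1, 1, 1],
    ![1, 1, -1, -1, -1, -1, 1, 1],
    ![1, 1, 1, 1, -1, -1, -1, -1],
    ![1, -1, 1, -1, 1, -1, -1, 1],
    ![1, -1, 1, -1, 1, -1, -1, 1],
    ![1, -1, 1, -1, 1, -1, -1, 1],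
    ![1, -1, 1, -1, 1, -1, -1, 1]]
/-- first indices -/
def bda : Fin 10 → Fin 8 → Fin 16 :=
  ![![0, 3, 4, 7, 8, 10, 12, 14],
    ![0, 2, 4, 6, 8, 11, 13, 14],
    ![1, 2, 5, 6, 9, 11, 13, 15],
    ![1, 3, 5, 7, 9, 10, 12, 15],
    ![0, 1, 2, 3, 4, 5, 6, 7],
    ![8, 9, 10, 11, 12, 13, 14, 15],
    ![0, 3, 5, 6, 8, 11, 12, 15],
    ![0, 2, 5, 7, 9, 11, 12, 14],
    ![1, 3, 4, 6, 8, 10, 13, 15],
    ![1, 2, 4, 7, 9, 10, 13, 14]]
/-- second indices -/
def bdb : Fin 10 → Fin 8 → Fin 16 :=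
  ![![10, 14, 12, 8, 7, 0, 4, 3],
    ![13, 8, 11, 14, 2, 4, 0, 6],
    ![11, 15, 13, 9, 6, 1, 5, 2],
    ![12, 9, 10, 15, 3, 5, 1, 7],
    ![1, 0, 3, 2, 5, 4, 7, 6],
    ![9, 8, 11, 10, 13, 12, 15, 14],
    ![15, 11, 8, 12, 5, 3, 6, 0],
    ![9, 12, 14, 11, 0, 7, 2, 5],
    ![8, 13, 15, 10, 1, 6, 3, 4],
    ![14, 10, 9, 13, 4, 2, 7, 1]]

theorem Bd_tab (s t : Fin 16 → ℤ) (j : Fin 10) :
    PP5L.Bd s t j = ∑ k, bde j k * s (bda j k) * t (bdb j k) := by
  fin_cases j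
  · show PP5L.Bd s t 0 = ∑ k, bde 0 k * s (bda 0 k) * t (bdb 0 k)
    simp only [PP5L.Bd, Fin.sum_univ_eight, bde, bda, bdb, Matrix.cons_val]
    ring
  · show PP5L.Bd s t 1 = ∑ k, bde 1 k * s (bda 1 k) * t (bdb 1 k)
    simp only [PP5L.Bd, Fin.sum_univ_eight, bde, bda, bdb, Matrix.cons_val]
    ring
  · show PP5L.Bd s t 2 = ∑ k, bde 2 k * s (bda 2 k) * t (bdb 2 k)
    simp only [PP5L.Bd, Fin.sum_univ_eight, bde, bda, bdb, Matrix.cons_val]
    ring
  · show PP5L.Bd s t 3 = ∑ k, bde 3 k * s (bda 3 k) * t (bdb 3 k)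
    simp only [PP5L.Bd, Fin.sum_univ_eight, bde, bda, bdb, Matrix.cons_val]
    ring
  · show PP5L.Bd s t 4 = ∑ k, bde 4 k * s (bda 4 k) * t (bdb 4 k)
    simp only [PP5L.Bd, Fin.sum_univ_eight, bde, bda, bdb, Matrix.cons_val]
    ring
  · show PP5L.Bd s t 5 = ∑ k, bde 5 k * s (bda 5 k) * t (bdb 5 k)
    simp only [PP5L.Bd, Fin.sum_univ_eight, bde, bda, bdb, Matrix.cons_val]
    ring
  · show PP5L.Bd s t 6 = ∑ k, bde 6 k * s (bda 6 k) * t (bdb 6 k)
    simp only [PP5L.Bd, Fin.sum_univ_eight, bde, bda, bdb, Matrix.cons_val]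
    ring
  · show PP5L.Bd s t 7 = ∑ k, bde 7 k * s (bda 7 k) * t (bdb 7 k)
    simp only [PP5L.Bd, Fin.sum_univ_eight, bde, bda, bdb, Matrix.cons_val]
    ring
  · show PP5L.Bd s t 8 = ∑ k, bde 8 k * s (bda 8 k) * t (bdb 8 k)
    simp only [PP5L.Bd, Fin.sum_univ_eight, bde, bda, bdb, Matrix.cons_val]
    ring
  · show PP5L.Bd s t 9 = ∑ k, bde 9 k * s (bda 9 k) * t (bdb 9 k)
    simp only [PP5L.Bd, Fin.sum_univ_eight, bde, bda, bdb, Matrix.cons_val]
    ring

theorem bde_abs (j : Fin 10) (k : Fin 8) : |bde j k| = 1 := by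
  revert j k; decide

theorem bd_wa : ∀ (j : Fin 10) (k : Fin 8), sa (bda j k) + sa (bdb j k) = xa j := by decide
theorem bd_wb : ∀ (j : Fin 10) (k : Fin 8), sb (bda j k) + sb (bdb j k) = xb j := by decide

theorem Bd_le {t1 t2 S T : ℝ} (h1 : 0 < t1) (h2 : 0 < t2) (hS : 0 ≤ S) {s t : Fin 16 → ℤ}
    (hs : ∀ i, |(s i : ℝ)| ≤ S * sg16 t1 t2 i) (ht : ∀ i, |(t i : ℝ)| ≤ T * sg16 t1 t2 i) (j : Fin 10) :
    |((PP5L.Bd s t j : ℤ) : ℝ)| ≤ 8 * S * T * tx t1 t2 j := by
  rw [Bd_tab]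
  push_cast
  refine le_trans (Finset.abs_sum_le_sum_abs _ _) ?_
  have hterm : ∀ k : Fin 8, |(bde j k : ℝ) * (s (bda j k) : ℝ) * (t (bdb j k) : ℝ)| ≤ S * T * tx t1 t2 j := by
    intro k
    have h3 : |(bde j k : ℝ)| = 1 := by exact_mod_cast congrArg (fun z : ℤ => (z : ℝ)) (bde_abs j k)
    rw [abs_mul, abs_mul, h3, one_mul]
    have h4 := hs (bda j k)
    have h5 := ht (bdb j k)
    have h6 : sg16 t1 t2 (bda j k) * sg16 t1 t2 (bdb j k) = tx t1 t2 j := by
      rw [tx_eq h1 h2]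
      unfold sg16
      have l1 : t1 ^ sa (bda j k) * t2 ^ sb (bda j k) * (t1 ^ sa (bdb j k) * t2 ^ sb (bdb j k))
          = (t1 ^ sa (bda j k) * t1 ^ sa (bdb j k)) * (t2 ^ sb (bda j k) * t2 ^ sb (bdb j k)) := by ring
      rw [l1, ← zpow_add₀ h1.ne', ← zpow_add₀ h2.ne', bd_wa, bd_wb]
    calc |(s (bda j k) : ℝ)| * |(t (bdb j k) : ℝ)|
        ≤ (S * sg16 t1 t2 (bda j k)) * (T * sg16 t1 t2 (bdb j k)) :=
          mul_le_mul h4 h5 (abs_nonneg _) (mul_nonneg hS (sg16_pos h1 h2 _).le)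
      _ = S * T * (sg16 t1 t2 (bda j k) * sg16 t1 t2 (bdb j k)) := by ring
      _ = S * T * tx t1 t2 j := by rw [h6]
  calc ∑ k, |(bde j k : ℝ) * (s (bda j k) : ℝ) * (t (bdb j k) : ℝ)|
      ≤ ∑ _k : Fin 8, S * T * tx t1 t2 j := Finset.sum_le_sum (fun k _ => hterm k)
    _ = 8 * S * T * tx t1 t2 j := by
        rw [Finset.sum_const, Finset.card_univ, Fintype.card_fin, nsmul_eq_mul]
        push_cast; ring

theorem emb_le {t1 t2 : ℝ} (h1 : 0 < t1) (h2 : 0 < t2) (P : Sp) (i : Fin 16) :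
    |(emb P i : ℝ)| ≤ nw (sg t1 t2) P * sg16 t1 t2 i := by
  rw [← sg_ex h1 h2]
  exact le_nw (fun i => sg_pos h1 h2 i) P (ex i)

/-- the ten quadrics of the slice and of the sixteen coordinates -/
theorem Qd_iff (P : Sp) : Qd P ↔ ∀ j, PP5L.Qd (emb P) j = 0 := by
  constructor
  · intro h j
    fin_cases j
    · show PP5L.Qd (emb P) 0 = 0
      simp only [PP5L.Qd, emb, ex, Matrix.cons_val]
      linear_combination (1) * h.h1
    · show PP5L.Qd (emb P) 1 = 0
      simp only [PP5L.Qd, emb, ex, Matrix.cons_val]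
      linear_combination (1) * h.h2
    · show PP5L.Qd (emb P) 2 = 0
      simp only [PP5L.Qd, emb, ex, Matrix.cons_val]
      linear_combination (1) * h.h3
    · show PP5L.Qd (emb P) 3 = 0
      simp only [PP5L.Qd, emb, ex, Matrix.cons_val]
      linear_combination (1) * h.h4
    · show PP5L.Qd (emb P) 4 = 0
      simp only [PP5L.Qd, emb, ex, Matrix.cons_val]
      linear_combination (1) * h.h5
    · show PP5L.Qd (emb P) 5 = 0
      simp only [PP5L.Qd, emb, ex, Matrix.cons_val]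
      linear_combination (1) * h.h6
    · show PP5L.Qd (emb P) 6 = 0
      simp only [PP5L.Qd, emb, ex, Matrix.cons_val]
      linear_combination (1) * h.h7
    · show PP5L.Qd (emb P) 7 = 0
      simp only [PP5L.Qd, emb, ex, Matrix.cons_val]
      linear_combination (1) * h.h8
    · show PP5L.Qd (emb P) 8 = 0
      simp only [PP5L.Qd, emb, ex, Matrix.cons_val]
      linear_combination (1) * h.h9
    · show PP5L.Qd (emb P) 9 = 0
      simp only [PP5L.Qd, emb, ex, Matrix.cons_val]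
      linear_combination (1) * h.h10
  · intro h
    refine ⟨?_, ?_, ?_, ?_, ?_, ?_, ?_, ?_, ?_, ?_⟩
    · have := h 0
      simp only [PP5L.Qd, emb, ex, Matrix.cons_val] at this
      linear_combination (1) * this
    · have := h 1
      simp only [PP5L.Qd, emb, ex, Matrix.cons_val] at this
      linear_combination (1) * this
    · have := h 2
      simp only [PP5L.Qd, emb, ex, Matrix.cons_val] at this
      linear_combination (1) * this
    · have := h 3
      simp only [PP5L.Qd, emb, ex, Matrix.cons_val] at this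
      linear_combination (1) * this
    · have := h 4
      simp only [PP5L.Qd, emb, ex, Matrix.cons_val] at this
      linear_combination (1) * this
    · have := h 5
      simp only [PP5L.Qd, emb, ex, Matrix.cons_val] at this
      linear_combination (1) * this
    · have := h 6
      simp only [PP5L.Qd, emb, ex, Matrix.cons_val] at this
      linear_combination (1) * this
    · have := h 7
      simp only [PP5L.Qd, emb, ex, Matrix.cons_val] at this
      linear_combination (1) * this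
    · have := h 8
      simp only [PP5L.Qd, emb, ex, Matrix.cons_val] at this
      linear_combination (1) * this
    · have := h 9
      simp only [PP5L.Qd, emb, ex, Matrix.cons_val] at this
      linear_combination (1) * this

end Pool.Agent.PP5
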