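import Pool.Agent.PP5.LDefs

namespace Pool.Agent.PP5L

variable {R : Type*} [CommRing R]

private theorem sum16 (f : Fin 16 → R) :
    ∑ j, f j = f 0 + f 1 + f 2 + f 3 + f 4 + f 5 + f 6 + f 7 + f 8 + f 9 + f 10 + f 11 + f 12
      + f 13 + f 14 + f 15 := by
  rw [Fin.sum_univ_castSucc, Fin.sum_univ_castSucc, Fin.sum_univ_castSucc, Fin.sum_univ_castSucc,
    Fin.sum_univ_castSucc, Fin.sum_univ_castSucc, Fin.sum_univ_castSucc, Fin.sum_univ_castSucc,
    Fin.sum_univ_eight]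
  rfl

theorem Bd_HP (x : Fin 10 → R) (s t : Fin 16 → R) (j : Fin 10) :
    Bd (HP x s) (HP x t) j = dot (HP x s) t * x j - FF x * xhat (Bd s t) j := by
  rw [dot, sum16]
  fin_cases j <;>
    (simp only [Fin.zero_eta, Fin.mk_one, Fin.reduceFinMk, xhat, Matrix.cons_val]
     simp only [FF, Bd, Matrix.cons_val]; simp only [HP, Matrix.cons_val]; ring)

end Pool.Agent.PP5L
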