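import Pool.Agent.PP5.LDefs

namespace Pool.Agent.PP5L

variable {R : Type*} [CommRing R]

private theorem sum10 (f : Fin 10 → R) :
    ∑ j, f j = f 0 + f 1 + f 2 + f 3 + f 4 + f 5 + f 6 + f 7 + f 8 + f 9 := by
  rw [Fin.sum_univ_castSucc, Fin.sum_univ_castSucc, Fin.sum_univ_eight]
  rfl

theorem Qd_HP (x : Fin 10 → R) (s : Fin 16 → R) (j : Fin 10) :
    Qd (HP x s) j = PP x s * x j - FF x * xhat (Qd s) j := by
  rw [PP, sum10]
  fin_cases j <;>
    (simp only [Fin.zero_eta, Fin.mk_one, Fin.reduceFinMk, xhat, Matrix.cons_val]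
     simp only [FF, Qd, Matrix.cons_val]; simp only [HP, Matrix.cons_val]; ring)

theorem Bd_self (s : Fin 16 → R) (j : Fin 10) : Bd s s j = 2 * Qd s j := by
  fin_cases j <;> (simp only [Fin.zero_eta, Fin.mk_one, Fin.reduceFinMk, Qd, Bd, Matrix.cons_val]; ring)

theorem Bd_symm (s t : Fin 16 → R) (j : Fin 10) : Bd s t j = Bd t s j := by
  fin_cases j <;> (simp only [Fin.zero_eta, Fin.mk_one, Fin.reduceFinMk, Bd, Matrix.cons_val]; ring)

end Pool.Agent.PP5L
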