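import Pool.Agent.PP5.LDefs

namespace Pool.Agent.PP5L

variable {R : Type*} [CommRing R]

theorem SS_eq (x : Fin 10 → R) (i j : Fin 4) : dot (HP x (rho i)) (rho j) = SS x i j := by
  fin_cases i <;> fin_cases j <;> simp [HP, dot, rho, SS, Fin.sum_univ_succ] <;> ring

end Pool.Agent.PP5L
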