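import Pool.Agent.PP5.LDefs

namespace Pool.Agent.PP5L

variable {R : Type*} [CommRing R]

theorem bF_self (x : Fin 10 → R) : bF x x = 2 * FF x := by
  simp [bF, FF]; ring

/-- ten quadrics are isotropic: `FF (Qd s) = 0` -/

theorem FF_Qd (s : Fin 16 → R) : FF (Qd s) = 0 := by
  simp [FF, Qd]; ring

theorem HH_Qd (s : Fin 16 → R) (i : Fin 16) : HH (Qd s) s i = 0 := by
  fin_cases i <;> (simp only [Fin.zero_eta, Fin.mk_one, Fin.reduceFinMk, HH, Matrix.cons_val]; simp only [Qd, Matrix.cons_val]; ring)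

end Pool.Agent.PP5L
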