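import Pool.Agent.PP5.LId
import Pool.Agent.PP5.LId2a
import Pool.Agent.PP5.LId2b
import Pool.Agent.PP5.LId2c
import Pool.Agent.PP5.LId2d
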