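import Pool.Agent.FTB.DefsI

/-!
# PP5: the average of the 5-torsion of class groups of imaginary quadratic fields is bounded

A class `A` of order 5 of the imaginary quadratic field of discriminant `-D` gives (module `A1Main`)
twelve integers

  `(c, p2, p3, q1, q2, q3, v, r2, r3, s1, s2, s3)`

(a point `P : Sp`, in this order) with ten quadratic relations `Qd P` and `Df P = - D`.
`N = Nf P` and `k = Kf P` are the least norms of the ideals of `A` and `A ^ 2`.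

Scales: `y ^ 4 = X`, `t1 ^ 2 * N ~ y ^ 2`, `t2 ^ 2 * k ~ y ^ 2`, and `|P i| ≤ C * y * sg t1 t2 i`.
-/

set_option autoImplicit false

namespace Pool.Agent.PP5

open NumberField Pool.Agent.FTA Pool.Agent.FTB nonZeroDivisors

/-- the coordinates `(c, p2, p3, q1, q2, q3, v, r2, r3, s1, s2, s3)` -/
abbrev Sp : Type := Fin 12 → ℤ

/-- the ten quadrics -/
structure Qd (P : Sp) : Prop where
  /-- `c q2 - p2 q1 + v r3 - r2 r2 = 0` -/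
  h1 : P 0 * P 4 - P 1 * P 3 + P 6 * P 8 - P 7 ^ 2 = 0
  /-- `v s2 - r2 s1 - c p3 + p2 p2 = 0` -/
  h2 : P 6 * P 10 - P 7 * P 9 - P 0 * P 2 + P 1 ^ 2 = 0
  /-- `p2 q3 - p3 q2 + s1 s3 - s2 s2 = 0` -/
  h3 : P 1 * P 5 - P 2 * P 4 + P 9 * P 11 - P 10 ^ 2 = 0
  /-- `r2 s3 - r3 s2 - q1 q3 + q2 q2 = 0` -/
  h4 : P 7 * P 11 - P 8 * P 10 - P 3 * P 5 + P 4 ^ 2 = 0
  /-- `v s3 - p3 q1 - r2 s2 + p2 q2 = 0` -/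
  h5 : P 6 * P 11 - P 2 * P 3 - P 7 * P 10 + P 1 * P 4 = 0
  /-- `c q3 + r3 s1 - r2 s2 - p2 q2 = 0` -/
  h6 : P 0 * P 5 + P 8 * P 9 - P 7 * P 10 - P 1 * P 4 = 0
  /-- `v q2 + c s2 - r2 p2 - q1 s1 = 0` -/
  h7 : P 6 * P 4 + P 0 * P 10 - P 7 * P 1 - P 3 * P 9 = 0
  /-- `v q3 - q2 s1 + p2 s2 - r2 p3 = 0` -/
  h8 : P 6 * P 5 - P 4 * P 9 + P 1 * P 10 - P 7 * P 2 = 0
  /-- `c s3 - q1 s2 + r2 q2 - p2 r3 = 0` -/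
  h9 : P 0 * P 11 - P 3 * P 10 + P 7 * P 4 - P 1 * P 8 = 0
  /-- `r2 q3 + p2 s3 - q2 s2 - r3 p3 = 0` -/
  h10 : P 7 * P 5 + P 1 * P 11 - P 4 * P 10 - P 8 * P 2 = 0

/-- `N = c q2 - p2 q1` -/
def Nf (P : Sp) : ℤ := P 0 * P 4 - P 1 * P 3

/-- `k = p2 p2 - c p3` -/
def Kf (P : Sp) : ℤ := P 1 ^ 2 - P 0 * P 2

/-- `b1 = 2 r2 s2 - v s3 - r3 s1` -/
def Bf (P : Sp) : ℤ := 2 * P 7 * P 10 - P 6 * P 11 - P 8 * P 9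

/-- `b2 = 2 p2 q2 - c q3 - p3 q1` -/
def Bg (P : Sp) : ℤ := 2 * P 1 * P 4 - P 0 * P 5 - P 2 * P 3

/-- the discriminant `(v s3 + r3 s1 - 2 r2 s2) ^ 2 - 4 (v r3 - r2 r2) (s1 s3 - s2 s2)` -/
def Df (P : Sp) : ℤ := (P 6 * P 11 + P 8 * P 9 - 2 * P 7 * P 10) ^ 2 -
  4 * (P 6 * P 8 - P 7 ^ 2) * (P 9 * P 11 - P 10 ^ 2)

/-- the scales of the coordinates -/
noncomputable def sg (t1 t2 : ℝ) : Fin 12 → ℝ :=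
  ![1 / (t1 ^ 2 * t2), 1 / t2, t1 ^ 2 / t2, t2 / t1 ^ 2, t2, t1 ^ 2 * t2,
    1 / (t1 * t2 ^ 2), 1 / t1, t2 ^ 2 / t1, t1 / t2 ^ 2, t1, t1 * t2 ^ 2]

/-- the least norm of the ideals of a class -/
noncomputable def mn (K : IntermediateField ℚ ℂ) [NumberField K] (A : ClassGroup (𝓞 K)) : ℕ :=
  sInf {n : ℕ | ∃ I : (Ideal (𝓞 K))⁰, ClassGroup.mk0 I = A ∧
    Ideal.absNorm (I : Ideal (𝓞 K)) = n}

/-- the trilinear form `P(v, v; w)` -/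
def Pf (P : Sp) (v1 v2 w1 w2 : ℤ) : ℤ :=
  w1 * (P 0 * v1 ^ 2 + 2 * P 1 * v1 * v2 + P 2 * v2 ^ 2) +
    w2 * (P 3 * v1 ^ 2 + 2 * P 4 * v1 * v2 + P 5 * v2 ^ 2)

/-- the trilinear form `R(v; w, w)` -/
def Rf (P : Sp) (v1 v2 w1 w2 : ℤ) : ℤ :=
  v1 * (P 6 * w1 ^ 2 + 2 * P 7 * w1 * w2 + P 8 * w2 ^ 2) +
    v2 * (P 9 * w1 ^ 2 + 2 * P 10 * w1 * w2 + P 11 * w2 ^ 2)

/-- the points attached to the classes: `X ≤ |D| < 2 X`, in the box of constant `C` -/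
structure InP (C X y t1 t2 : ℝ) (P : Sp) : Prop where
  qd : Qd P
  dl : X ≤ -(Df P : ℝ)
  du : -(Df P : ℝ) < 2 * X
  bx : ∀ i : Fin 12, |(P i : ℝ)| ≤ C * y * sg t1 t2 i
  nl : y ^ 2 ≤ (Nf P : ℝ) * t1 ^ 2
  nu : (Nf P : ℝ) * t1 ^ 2 < 2 * y ^ 2
  kl : y ^ 2 ≤ (Kf P : ℝ) * t2 ^ 2
  ku : (Kf P : ℝ) * t2 ^ 2 < 2 * y ^ 2
  /-- `P` is primitive -/
  pr : ∀ l : ℕ, l.Prime → ¬ ∀ i : Fin 12, (l : ℤ) ∣ P i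
  /-- no non-zero `(v, w)` with `P(v, v; w) = 0`, `R(v; w, w) = 0` -/
  nd : ∀ v1 v2 w1 w2 : ℤ, (v1 ≠ 0 ∨ v2 ≠ 0) → (w1 ≠ 0 ∨ w2 ≠ 0) → Pf P v1 v2 w1 w2 = 0 →
    Rf P v1 v2 w1 w2 ≠ 0

end Pool.Agent.PP5
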