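import Pool.Agent.PP5.E2Res
import Pool.Agent.PP5F.Fin

/-!
# PP5/E2Fin: the final statements, from the box theorem alone
-/

set_option autoImplicit false

namespace Pool.Agent.PP5

open Pool.Agent.FTA Pool.Agent.FTL NumberField

theorem ftp_of (δ : ℝ) (hδ : 0 < δ) : ∃ η C : ℝ, 0 < η ∧ 0 ≤ C ∧ Ftp δ C η := by
  obtain ⟨η, C, hη, hC, h⟩ := Pool.Agent.PP5F.ftpE δ hδ
  exact ⟨η, C, hη, hC.le, fun X M1 M2 hX h1 h2 _ _ h5 F n hF => h X M1 M2 hX h1 h2 h5 F n hF⟩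

theorem tot' {c C θ : ℝ} (hc : 0 < c) (hθ : 0 < θ) (hC : 0 ≤ C) (hbox : Box c C θ) :
    ∃ B : ℝ, 0 ≤ B ∧ ∀ X : ℕ, 1 ≤ X →
    ∑ᶠ K ∈ IQ X, (Nat.card {A : ClassGroup (𝓞 K) // A ^ 5 = 1} : ℝ) ≤ B * X := by
  obtain ⟨η, C', hη, hC', hf⟩ := ftp_of (2 * c) (by linarith)
  exact tot hθ hη hC hC' hbox hf

theorem fin5' {c C θ : ℝ} (hc : 0 < c) (hθ : 0 < θ) (hC : 0 ≤ C)
    (hbox : Box c C θ) (H : Type) [CommGroup H] (hH : Nat.card H = 5) :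
    ∃ B : ℝ, ∀ ε : ℝ, 0 < ε → ∃ X0 : ℝ, ∀ X : ℝ, X0 ≤ X →
      ({K : IntermediateField ℚ ℂ | ∃ _ : NumberField K, Module.finrank ℚ K = 2 ∧
        (∃ x : K, (x : ℂ).im ≠ 0) ∧ |((NumberField.discr K : ℤ) : ℝ)| ≤ X}).Finite ∧
      X ^ (-ε) ≤
      (∑ᶠ K ∈ {K : IntermediateField ℚ ℂ | ∃ _ : NumberField K, Module.finrank ℚ K = 2 ∧
        (∃ x : K, (x : ℂ).im ≠ 0) ∧ |((NumberField.discr K : ℤ) : ℝ)| ≤ X},
        (Nat.card {f : ↥(Subgroup.closure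
          {g : ClassGroup (NumberField.RingOfIntegers K) | ∃ n : ℕ, g ^ (5 ^ n) = 1}) →* H //
            Function.Surjective f} : ℝ)) /
        ({K : IntermediateField ℚ ℂ | ∃ _ : NumberField K, Module.finrank ℚ K = 2 ∧
          (∃ x : K, (x : ℂ).im ≠ 0) ∧ |((NumberField.discr K : ℤ) : ℝ)| ≤ X}).ncard ∧
      (∑ᶠ K ∈ {K : IntermediateField ℚ ℂ | ∃ _ : NumberField K, Module.finrank ℚ K = 2 ∧
        (∃ x : K, (x : ℂ).im ≠ 0) ∧ |((NumberField.discr K : ℤ) : ℝ)| ≤ X},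
        (Nat.card {f : ↥(Subgroup.closure
          {g : ClassGroup (NumberField.RingOfIntegers K) | ∃ n : ℕ, g ^ (5 ^ n) = 1}) →* H //
            Function.Surjective f} : ℝ)) /
        ({K : IntermediateField ℚ ℂ | ∃ _ : NumberField K, Module.finrank ℚ K = 2 ∧
          (∃ x : K, (x : ℂ).im ≠ 0) ∧ |((NumberField.discr K : ℤ) : ℝ)| ≤ X}).ncard ≤ B := by
  obtain ⟨η, C', hη, hC', hf⟩ := ftp_of (2 * c) (by linarith)
  exact fin5 hθ hη hC hC' hbox hf H hH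

end Pool.Agent.PP5
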