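import Pool.Agent.PP5.DA

/-!
# PP5, dual side: a reduced basis of a sublattice of `Z^N` with weights
-/

namespace Pool.Agent.PP5

open Module

/-- the weighted sup norm -/
noncomputable def nw {N : ℕ} (w : Fin N → ℝ) (v : Fin N → ℤ) : ℝ := ‖fun i => (v i : ℝ) / w i‖

theorem nw_nonneg {N : ℕ} (w : Fin N → ℝ) (v : Fin N → ℤ) : 0 ≤ nw w v := norm_nonneg _

theorem nw_le_iff {N : ℕ} {w : Fin N → ℝ} (hw : ∀ i, 0 < w i) {v : Fin N → ℤ} {R : ℝ} (hR : 0 ≤ R) :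
    nw w v ≤ R ↔ ∀ i, |(v i : ℝ)| ≤ R * w i := by
  unfold nw
  rw [pi_norm_le_iff_of_nonneg hR]
  refine forall_congr' (fun i => ?_)
  rw [Real.norm_eq_abs, abs_div, abs_of_pos (hw i), div_le_iff₀ (hw i)]

theorem le_nw {N : ℕ} {w : Fin N → ℝ} (hw : ∀ i, 0 < w i) (v : Fin N → ℤ) (i : Fin N) :
    |(v i : ℝ)| ≤ nw w v * w i := (nw_le_iff hw (nw_nonneg w v)).mp (le_refl _) i

theorem nw_pos {N : ℕ} {w : Fin N → ℝ} (hw : ∀ i, 0 < w i) {v : Fin N → ℤ} (hv : v ≠ 0) : 0 < nw w v := by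
  rcases (nw_nonneg w v).eq_or_lt with h | h
  · exfalso
    apply hv
    funext i
    have := le_nw hw v i
    rw [← h, zero_mul] at this
    have h2 := abs_eq_zero.mp (le_antisymm this (abs_nonneg _))
    exact_mod_cast h2
  · exact h

/-- the embedding of `Z^N` in Euclidean space -/
noncomputable def ewt {N : ℕ} (w : Fin N → ℝ) : (Fin N → ℤ) →+ EuclideanSpace ℝ (Fin N) where
  toFun v := WithLp.toLp 2 (fun i => (v i : ℝ) / w i)
  map_zero' := by ext i; simp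
  map_add' u v := by ext i; simp [add_div]

theorem ewt_apply {N : ℕ} (w : Fin N → ℝ) (v : Fin N → ℤ) (i : Fin N) : ewt w v i = (v i : ℝ) / w i := rfl

theorem nw_le_ewt {N : ℕ} (w : Fin N → ℝ) (v : Fin N → ℤ) : nw w v ≤ ‖ewt w v‖ := by
  unfold nw
  rw [pi_norm_le_iff_of_nonneg (norm_nonneg _)]
  intro i
  exact PiLp.norm_apply_le (ewt w v) i

theorem ewt_le_nw {N : ℕ} (w : Fin N → ℝ) (v : Fin N → ℤ) : ‖ewt w v‖ ≤ (N : ℝ) * nw w v := by
  rw [EuclideanSpace.norm_eq]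
  have h1 : ∑ i, ‖ewt w v i‖ ^ 2 ≤ (N : ℝ) * nw w v ^ 2 := by
    refine le_trans (Finset.sum_le_card_nsmul _ _ (nw w v ^ 2) (fun i _ => ?_)) ?_
    · refine pow_le_pow_left₀ (norm_nonneg _) ?_ 2
      exact norm_le_pi_norm (fun i => (v i : ℝ) / w i) i
    · rw [Finset.card_univ, Fintype.card_fin, nsmul_eq_mul]
  have hn := nw_nonneg w v
  rw [Real.sqrt_le_left (by positivity)]
  refine le_trans h1 ?_
  rw [mul_pow]
  refine mul_le_mul_of_nonneg_right ?_ (by positivity)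
  rcases Nat.eq_zero_or_pos N with h | h
  · subst h; simp
  · have : (1 : ℝ) ≤ N := by exact_mod_cast h
    nlinarith

theorem red_int (N : ℕ) : ∃ C : ℝ, 1 ≤ C ∧ ∀ w : Fin N → ℝ, (∀ i, 0 < w i) →
    ∀ L : AddSubgroup (Fin N → ℤ), ∃ (n : ℕ) (b : Fin n → (Fin N → ℤ)), n ≤ N ∧ (∀ i, b i ∈ L) ∧
      (∀ i, b i ≠ 0) ∧ (∀ i j, i ≤ j → nw w (b i) ≤ nw w (b j)) ∧
      (∀ v ∈ L, ∃ c : Fin n → ℤ, v = ∑ i, c i • b i) ∧
      ∀ c : Fin n → ℤ, ∀ i, |(c i : ℝ)| * nw w (b i) ≤ C * nw w (∑ i, c i • b i) := by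
  obtain ⟨C, hC1, hC⟩ := red N
  refine ⟨C * (N + 1), ?_, ?_⟩
  · have : (0 : ℝ) ≤ N := Nat.cast_nonneg _
    nlinarith
  intro w hw L
  have hinj : Function.Injective (ewt w) := by
    intro u v huv
    funext i
    have h1 : ewt w u i = ewt w v i := by rw [huv]
    rw [ewt_apply, ewt_apply, div_left_inj' (hw i).ne'] at h1
    exact_mod_cast h1
  have hfin : ∀ R : ℝ, {v : EuclideanSpace ℝ (Fin N) | v ∈ L.map (ewt w) ∧ ‖v‖ ≤ R}.Finite := by
    intro R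
    refine ((Fintype.piFinset (fun i : Fin N => Finset.Icc (-⌊R * w i⌋) ⌊R * w i⌋)).finite_toSet.image
      (ewt w)).subset ?_
    rintro _ ⟨⟨v, hv, rfl⟩, hR⟩
    refine ⟨v, ?_, rfl⟩
    rw [Finset.mem_coe, Fintype.mem_piFinset]
    intro i
    have hR0 : 0 ≤ R := le_trans (norm_nonneg _) hR
    have h1 := (nw_le_iff hw hR0).mp (le_trans (nw_le_ewt w v) hR) i
    rw [Finset.mem_Icc, ← abs_le, Int.le_floor]
    push_cast
    exact h1
  obtain ⟨n, b', hn, hb'L, hb'0, hsp, hbd⟩ := hC (EuclideanSpace ℝ (Fin N)) ⊤ inferInstance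
    (by rw [finrank_top, finrank_euclideanSpace, Fintype.card_fin]) (L.map (ewt w))
    (fun _ _ => Submodule.mem_top) hfin
  choose b hbL hbb using hb'L
  -- sort
  set σ := Tuple.sort (fun i => nw w (b i)) with hσ
  have hmono : Monotone ((fun i => nw w (b i)) ∘ σ) := Tuple.monotone_sort _
  refine ⟨n, fun i => b (σ i), hn, fun i => hbL _, ?_, fun i j hij => hmono hij, ?_, ?_⟩
  · intro i h
    apply hb'0 (σ i)
    have h' : b (σ i) = 0 := h
    rw [← hbb, h', map_zero]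
  · intro v hv
    obtain ⟨c, hc⟩ := hsp (ewt w v) ⟨v, hv, rfl⟩
    refine ⟨fun i => c (σ i), ?_⟩
    apply hinj
    rw [hc, map_sum]
    simp_rw [map_zsmul, hbb]
    exact (Equiv.sum_comp σ (fun i => c i • b' i)).symm
  · intro c i
    have h1 := hbd (fun i => c (σ.symm i)) (σ i)
    rw [Equiv.symm_apply_apply, ← hbb] at h1
    have h2 : ∑ i, c (σ.symm i) • b' i = ewt w (∑ i, c i • b (σ i)) := by
      rw [map_sum]
      simp_rw [map_zsmul, hbb]
      rw [← Equiv.sum_comp σ]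
      simp
    rw [h2] at h1
    have h3 := nw_le_ewt w (b (σ i))
    have h4 := ewt_le_nw w (∑ i, c i • b (σ i))
    have h5 : |(c i : ℝ)| * nw w (b (σ i)) ≤ |(c i : ℝ)| * ‖ewt w (b (σ i))‖ :=
      mul_le_mul_of_nonneg_left h3 (abs_nonneg _)
    have h6 : C * ‖ewt w (∑ i, c i • b (σ i))‖ ≤ C * (N * nw w (∑ i, c i • b (σ i))) :=
      mul_le_mul_of_nonneg_left h4 (by linarith)
    have h7 := nw_nonneg w (∑ i, c i • b (σ i))
    nlinarith

end Pool.Agent.PP5
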