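import Pool.Agent.PP5.LDefs

namespace Pool.Agent.PP5L

variable {R : Type*} [CommRing R]

theorem HH_HP_pol (x y : Fin 10 → R) (s : Fin 16 → R) (i : Fin 16) :
    HH x (HP y s) i + HH y (HP x s) i = bF x y * s i := by
  fin_cases i <;> (simp only [Fin.zero_eta, Fin.mk_one, Fin.reduceFinMk, HH, Matrix.cons_val]; simp only [HP, bF, Matrix.cons_val]; ring)

end Pool.Agent.PP5L
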