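import Pool.Agent.PP5.LDefs

namespace Pool.Agent.PP5L

variable {R : Type*} [CommRing R]

theorem HP_HH (x : Fin 10 → R) (s : Fin 16 → R) (i : Fin 16) :
    HP x (HH x s) i = FF x * s i := by
  fin_cases i <;> (simp only [Fin.zero_eta, Fin.mk_one, Fin.reduceFinMk, HP, Matrix.cons_val]; simp only [HH, FF, Matrix.cons_val]; ring)

theorem HH_HP (x : Fin 10 → R) (s : Fin 16 → R) (i : Fin 16) :
    HH x (HP x s) i = FF x * s i := by
  fin_cases i <;> (simp only [Fin.zero_eta, Fin.mk_one, Fin.reduceFinMk, HH, Matrix.cons_val]; simp only [HP, FF, Matrix.cons_val]; ring)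

theorem dot_HP_symm (x : Fin 10 → R) (s t : Fin 16 → R) :
    dot (HP x s) t = dot s (HP x t) := by
  simp [dot, HP, Fin.sum_univ_succ] ; ring

theorem dot_HH_symm (x : Fin 10 → R) (s t : Fin 16 → R) :
    dot (HH x s) t = dot s (HH x t) := by
  simp [dot, HH, Fin.sum_univ_succ] ; ring

end Pool.Agent.PP5L
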