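import Pool.Agent.PP5.A1Main
import Pool.Agent.FTA.Fam

/-!
# PP5/E2Sum: the dyadic sum

`Box` is the box theorem, `Ftp` the bound for small `M1 M2`; together with `a1M` they give
`∑ |Cl(K)[5]| ≤ C X`.
-/

set_option autoImplicit false

namespace Pool.Agent.PP5

open NumberField Pool.Agent.FTA Pool.Agent.FTB nonZeroDivisors

/-- the box theorem -/
def Box (c C θ : ℝ) : Prop := ∀ X y t1 t2 : ℝ, 1 ≤ X → 0 < y → 1 ≤ t1 → 1 ≤ t2 → y ^ 4 = X →
  t1 * t2 ≤ X ^ c → ∀ S : Finset Sp, (∀ P ∈ S, InP 16 X y t1 t2 P) →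
    (S.card : ℝ) ≤ C * X * (t1 * t2) ^ (2 - 2 * θ)

/-- the bound for small `M1 M2` -/
def Ftp (δ C η : ℝ) : Prop := ∀ X M1 M2 : ℝ, 1 ≤ X → 1 ≤ M1 → 1 ≤ M2 → M1 ^ 2 ≤ X → M2 ^ 2 ≤ X →
  M1 * M2 ≤ X ^ (1 - δ) → ∀ (F : Finset (IntermediateField ℚ ℂ)) (n : IntermediateField ℚ ℂ → ℕ),
    (∀ K ∈ F, ∃ _ : NumberField K, Module.finrank ℚ K = 2 ∧ (∃ x : K, (x : ℂ).im ≠ 0) ∧
      X ≤ (aD K : ℝ) ∧ (aD K : ℝ) < 2 * X ∧
      n K ≤ Nat.card {A : ClassGroup (𝓞 K) // Tc K M1 M2 A}) →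
    ∑ K ∈ F, (n K : ℝ) ≤ C * X ^ (1 - η)

open Classical in
/-- the number of classes in the box `(2 ^ i, 2 ^ j)` -/
noncomputable def nij (i j : ℕ) (K : IntermediateField ℚ ℂ) : ℕ :=
  if h : NumberField K then
    @Nat.card {A : ClassGroup (𝓞 K) // @Tc K h (2 ^ i) (2 ^ j) A} else 0

theorem nij_eq (i j : ℕ) (K : IntermediateField ℚ ℂ) [h : NumberField K] :
    nij i j K = Nat.card {A : ClassGroup (𝓞 K) // Tc K (2 ^ i) (2 ^ j) A} := by
  unfold nij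
  rw [dif_pos h]

/-- the classes of one field -/
theorem cl5 (K : IntermediateField ℚ ℂ) [NumberField K] (h2 : Module.finrank ℚ K = 2) :
    Nat.card {A : ClassGroup (𝓞 K) // A ^ 5 = 1} ≤ 1 +
      ∑ i ∈ Finset.range (Nat.log 2 (aD K) / 2 + 1),
        ∑ j ∈ Finset.range (Nat.log 2 (aD K) / 2 + 1), nij i j K := by
  classical
  have hD := aD_pos K
  have key : ∀ C : ClassGroup (𝓞 K), Nat.log 2 (mn K C) ≤ Nat.log 2 (aD K) / 2 ∧
      (2 : ℝ) ^ (Nat.log 2 (mn K C)) ≤ (mn K C : ℝ) ∧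
      (mn K C : ℝ) < 2 * 2 ^ (Nat.log 2 (mn K C)) := by
    intro C
    obtain ⟨-, -, -, -, h3⟩ := mn_spec K h2 C
    have h4 := mn_pos K h2 C
    have h5 := Nat.pow_log_le_self 2 (show mn K C ≠ 0 by omega)
    have h6 := Nat.lt_pow_succ_log_self (show 1 < 2 by norm_num) (mn K C)
    refine ⟨?_, by exact_mod_cast h5, ?_⟩
    · rw [Nat.le_div_iff_mul_le (by norm_num)]
      apply (Nat.le_log_iff_pow_le (by norm_num) (by omega)).2
      rw [pow_mul]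
      exact (Nat.pow_le_pow_left h5 2).trans h3
    · rw [pow_succ, mul_comm] at h6
      exact_mod_cast h6
  set L := Nat.log 2 (aD K) / 2 + 1 with hL
  set T : ℕ → ℕ → Finset (ClassGroup (𝓞 K)) := fun i j =>
    Finset.univ.filter fun A => Tc K (2 ^ i) (2 ^ j) A with hT
  have hcard : ∀ i j, (T i j).card = nij i j K := by
    intro i j
    rw [nij_eq, Nat.card_eq_fintype_card, Fintype.card_subtype]
  rw [Nat.card_eq_fintype_card, Fintype.card_subtype]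
  have hsub : (Finset.univ.filter fun A : ClassGroup (𝓞 K) => A ^ 5 = 1) ⊆
      {1} ∪ (Finset.range L).biUnion fun i => (Finset.range L).biUnion fun j => T i j := by
    intro A hA
    rw [Finset.mem_filter] at hA
    rw [Finset.mem_union, Finset.mem_singleton]
    by_cases h1 : A = 1
    · exact Or.inl h1
    · right
      rw [Finset.mem_biUnion]
      obtain ⟨a1, a2, a3⟩ := key A
      obtain ⟨b1, b2, b3⟩ := key (A ^ 2)
      refine ⟨Nat.log 2 (mn K A), Finset.mem_range.2 (by omega), ?_⟩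
      rw [Finset.mem_biUnion]
      refine ⟨Nat.log 2 (mn K (A ^ 2)), Finset.mem_range.2 (by omega), ?_⟩
      rw [hT]
      simp only [Finset.mem_filter, Finset.mem_univ, true_and]
      exact ⟨hA.2, h1, a2, a3, b2, b3⟩
  refine (Finset.card_le_card hsub).trans ((Finset.card_union_le _ _).trans ?_)
  rw [Finset.card_singleton]
  refine Nat.add_le_add_left (Finset.card_biUnion_le.trans ?_) 1
  apply Finset.sum_le_sum
  intro i _
  refine Finset.card_biUnion_le.trans ?_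
  apply Finset.sum_le_sum
  intro j _
  rw [hcard]

/-- one dyadic box -/
theorem one_box {c C θ C' η : ℝ} (hC : 0 ≤ C) (hC' : 0 ≤ C') (hbox : Box c C θ)
    (hftp : Ftp (2 * c) C' η) (l i j : ℕ) (hi : 2 * i ≤ l) (hj : 2 * j ≤ l)
    (F : Finset (IntermediateField ℚ ℂ))
    (hF : ∀ K ∈ F, ∃ _ : NumberField K, Module.finrank ℚ K = 2 ∧ (∃ x : K, (x : ℂ).im ≠ 0) ∧
      Nat.log 2 (aD K) = l) :
    ∑ K ∈ F, (nij i j K : ℝ) ≤ 4 * C * 2 ^ (l : ℝ) * (2 : ℝ) ^ (-θ * ((l : ℝ) - i - j)) +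
      C' * (2 : ℝ) ^ ((l : ℝ) * (1 - η)) := by
  have h2 : (0 : ℝ) < 2 := by norm_num
  have hl : ((2 : ℝ) ^ (l : ℝ)) = (2 : ℝ) ^ l := Real.rpow_natCast 2 l
  have hF' : ∀ K ∈ F, ∃ _ : NumberField K, Module.finrank ℚ K = 2 ∧ (∃ x : K, (x : ℂ).im ≠ 0) ∧
      (2 : ℝ) ^ (l : ℝ) ≤ (aD K : ℝ) ∧ (aD K : ℝ) < 2 * (2 : ℝ) ^ (l : ℝ) ∧
      nij i j K ≤ Nat.card {A : ClassGroup (𝓞 K) // Tc K ((2 : ℝ) ^ i) ((2 : ℝ) ^ j) A} := by
    intro K hK
    obtain ⟨h1, h3, h4, h5⟩ := hF K hK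
    have hD := aD_pos K
    have h6 := Nat.pow_log_le_self 2 (show aD K ≠ 0 by omega)
    have h7 := Nat.lt_pow_succ_log_self (show 1 < 2 by norm_num) (aD K)
    rw [h5] at h6 h7
    refine ⟨h1, h3, h4, ?_, ?_, (nij_eq i j K).le⟩
    · rw [hl]
      exact_mod_cast h6
    · rw [hl]
      rw [pow_succ, mul_comm] at h7
      exact_mod_cast h7
  have hi' : (2 : ℝ) * i ≤ l := by exact_mod_cast hi
  have hj' : (2 : ℝ) * j ≤ l := by exact_mod_cast hj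
  have hX1 : (1 : ℝ) ≤ (2 : ℝ) ^ (l : ℝ) := Real.one_le_rpow (by norm_num) (Nat.cast_nonneg _)
  have p1 : (0 : ℝ) < (2 : ℝ) ^ (-θ * ((l : ℝ) - i - j)) := Real.rpow_pos_of_pos h2 _
  have p2 : (0 : ℝ) < (2 : ℝ) ^ ((l : ℝ) * (1 - η)) := Real.rpow_pos_of_pos h2 _
  by_cases hc : ((l : ℝ) - i - j) / 2 ≤ c * l
  · -- the box theorem
    set t1 : ℝ := (2 : ℝ) ^ (((l : ℝ) / 2 - i) / 2) with ht1
    set t2 : ℝ := (2 : ℝ) ^ (((l : ℝ) / 2 - j) / 2) with ht2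
    have e12 : t1 * t2 = (2 : ℝ) ^ (((l : ℝ) - i - j) / 2) := by
      rw [ht1, ht2, ← Real.rpow_add h2]
      congr 1
      ring
    have hb := a1M ((2 : ℝ) ^ (l : ℝ)) ((2 : ℝ) ^ ((l : ℝ) / 4)) t1 t2 ((2 : ℝ) ^ i)
      ((2 : ℝ) ^ j) (C * (2 : ℝ) ^ (l : ℝ) * (t1 * t2) ^ (2 - 2 * θ))
      (Real.rpow_pos_of_pos h2 _) (Real.rpow_pos_of_pos h2 _) (Real.rpow_pos_of_pos h2 _)
      (pow_pos h2 _) (pow_pos h2 _)
      (by rw [← Real.rpow_natCast, ← Real.rpow_mul h2.le]; congr 1; push_cast; ring)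
      (by
        rw [ht1, ← Real.rpow_natCast 2 i, ← Real.rpow_natCast _ 2, ← Real.rpow_natCast _ 2,
          ← Real.rpow_mul h2.le, ← Real.rpow_mul h2.le, ← Real.rpow_add h2]
        congr 1
        push_cast
        ring)
      (by
        rw [ht2, ← Real.rpow_natCast 2 j, ← Real.rpow_natCast _ 2, ← Real.rpow_natCast _ 2,
          ← Real.rpow_mul h2.le, ← Real.rpow_mul h2.le, ← Real.rpow_add h2]
        congr 1
        push_cast
        ring)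
      (hbox _ _ t1 t2 hX1 (Real.rpow_pos_of_pos h2 _)
        (Real.one_le_rpow (by norm_num) (by linarith))
        (Real.one_le_rpow (by norm_num) (by linarith))
        (by rw [← Real.rpow_natCast, ← Real.rpow_mul h2.le]; congr 1; push_cast; ring)
        (by
          rw [e12, ← Real.rpow_mul h2.le]
          exact Real.rpow_le_rpow_of_exponent_le (by norm_num) (by linarith)))
      F (nij i j) hF'
    have e3 : 4 * (C * (2 : ℝ) ^ (l : ℝ) * (t1 * t2) ^ (2 - 2 * θ)) / (t1 ^ 2 * t2 ^ 2) =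
        4 * C * 2 ^ (l : ℝ) * (2 : ℝ) ^ (-θ * ((l : ℝ) - i - j)) := by
      have e4 : (t1 * t2) ^ (2 - 2 * θ) =
          (2 : ℝ) ^ (-θ * ((l : ℝ) - i - j)) * (t1 ^ 2 * t2 ^ 2) := by
        rw [← mul_pow, e12, ← Real.rpow_natCast _ 2, ← Real.rpow_mul h2.le,
          ← Real.rpow_mul h2.le, ← Real.rpow_add h2]
        congr 1
        push_cast
        ring
      rw [e4]
      have e5 : t1 ^ 2 * t2 ^ 2 ≠ 0 := by
        have : 0 < t1 := Real.rpow_pos_of_pos h2 _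
        have : 0 < t2 := Real.rpow_pos_of_pos h2 _
        positivity
      rw [div_eq_iff e5]
      ring
    rw [e3] at hb
    have : 0 ≤ C' * (2 : ℝ) ^ ((l : ℝ) * (1 - η)) := mul_nonneg hC' p2.le
    linarith
  · -- the small boxes
    have hb := hftp ((2 : ℝ) ^ (l : ℝ)) ((2 : ℝ) ^ i) ((2 : ℝ) ^ j) hX1
      (one_le_pow₀ (by norm_num)) (one_le_pow₀ (by norm_num))
      (by
        rw [hl, ← pow_mul]
        exact pow_le_pow_right₀ (by norm_num) (by omega))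
      (by
        rw [hl, ← pow_mul]
        exact pow_le_pow_right₀ (by norm_num) (by omega))
      (by
        rw [← Real.rpow_natCast 2 i, ← Real.rpow_natCast 2 j, ← Real.rpow_add h2,
          ← Real.rpow_mul h2.le]
        apply Real.rpow_le_rpow_of_exponent_le (by norm_num)
        nlinarith)
      F (nij i j) hF'
    rw [← Real.rpow_mul h2.le] at hb
    have : 0 ≤ 4 * C * 2 ^ (l : ℝ) * (2 : ℝ) ^ (-θ * ((l : ℝ) - i - j)) := by positivity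
    linarith

theorem geo1 (q : ℝ) (hq0 : 0 ≤ q) (hq1 : q < 1) (n : ℕ) :
    ∑ i ∈ Finset.range n, q ^ i ≤ (1 - q)⁻¹ := by
  rw [← tsum_geometric_of_lt_one hq0 hq1]
  exact (summable_geometric_of_lt_one hq0 hq1).sum_le_tsum _ fun i _ => pow_nonneg hq0 i

theorem geo2 (θ : ℝ) (hθ : 0 < θ) (l : ℕ) :
    ∑ i ∈ Finset.range (l / 2 + 1), (2 : ℝ) ^ (-θ * ((l : ℝ) / 2 - i)) ≤
      (1 - (2 : ℝ) ^ (-θ))⁻¹ := by
  have hq0 : (0 : ℝ) ≤ (2 : ℝ) ^ (-θ) := (Real.rpow_pos_of_pos (by norm_num) _).le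
  have hq1 : (2 : ℝ) ^ (-θ) < 1 := Real.rpow_lt_one_of_one_lt_of_neg (by norm_num) (by linarith)
  refine le_trans ?_ (geo1 ((2 : ℝ) ^ (-θ)) hq0 hq1 (l / 2 + 1))
  rw [← Finset.sum_range_reflect (fun i => ((2 : ℝ) ^ (-θ)) ^ i)]
  apply Finset.sum_le_sum
  intro i hi
  rw [Finset.mem_range] at hi
  rw [← Real.rpow_natCast ((2 : ℝ) ^ (-θ)), ← Real.rpow_mul (by norm_num)]
  apply Real.rpow_le_rpow_of_exponent_le (by norm_num)
  have h1 : ((l / 2 + 1 - 1 - i : ℕ) : ℝ) ≤ (l : ℝ) / 2 - i := by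
    have h3 : l / 2 + 1 - 1 - i = l / 2 - i := by omega
    rw [h3, Nat.cast_sub (by omega)]
    have h4 : ((l / 2 : ℕ) : ℝ) ≤ (l : ℝ) / 2 := Nat.cast_div_le
    linarith
  nlinarith

theorem geo3 (θ : ℝ) (hθ : 0 < θ) (l : ℕ) :
    ∑ i ∈ Finset.range (l / 2 + 1), ∑ j ∈ Finset.range (l / 2 + 1),
      (2 : ℝ) ^ (-θ * ((l : ℝ) - i - j)) ≤ ((1 - (2 : ℝ) ^ (-θ))⁻¹) ^ 2 := by
  have h1 := geo2 θ hθ l
  have h0 : 0 ≤ ∑ i ∈ Finset.range (l / 2 + 1), (2 : ℝ) ^ (-θ * ((l : ℝ) / 2 - i)) :=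
    Finset.sum_nonneg fun i _ => (Real.rpow_pos_of_pos (by norm_num) _).le
  have h3 : ∑ i ∈ Finset.range (l / 2 + 1), ∑ j ∈ Finset.range (l / 2 + 1),
      (2 : ℝ) ^ (-θ * ((l : ℝ) - i - j)) =
      (∑ i ∈ Finset.range (l / 2 + 1), (2 : ℝ) ^ (-θ * ((l : ℝ) / 2 - i))) ^ 2 := by
    rw [pow_two, Finset.sum_mul_sum]
    refine Finset.sum_congr rfl fun i _ => Finset.sum_congr rfl fun j _ => ?_
    rw [← Real.rpow_add (by norm_num)]
    congr 1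
    ring
  rw [h3]
  exact pow_le_pow_left₀ h0 h1 2

theorem pol (η : ℝ) (hη : 0 < η) : ∃ B : ℝ, 0 ≤ B ∧ ∀ l : ℕ,
    ((l : ℝ) + 1) ^ 2 * (2 : ℝ) ^ ((l : ℝ) * (1 - η)) ≤ B * (2 : ℝ) ^ (l : ℝ) := by
  have hq0 : (0 : ℝ) < (2 : ℝ) ^ (-η) := Real.rpow_pos_of_pos (by norm_num) _
  have hq1 : (2 : ℝ) ^ (-η) < 1 := Real.rpow_lt_one_of_one_lt_of_neg (by norm_num) (by linarith)
  have ht := tendsto_pow_const_mul_const_pow_of_abs_lt_one 2
    (show |(2 : ℝ) ^ (-η)| < 1 by rw [abs_of_pos hq0]; exact hq1)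
  obtain ⟨B, hB⟩ := ht.bddAbove_range
  have hB' : ∀ n : ℕ, (n : ℝ) ^ 2 * ((2 : ℝ) ^ (-η)) ^ n ≤ B := fun n => hB ⟨n, rfl⟩
  have hB0 : 0 ≤ B := by
    have h := hB' 0
    simpa using h
  refine ⟨B / (2 : ℝ) ^ (-η), by positivity, ?_⟩
  intro l
  have h1 := hB' (l + 1)
  have h3 : (2 : ℝ) ^ ((l : ℝ) * (1 - η)) = (2 : ℝ) ^ (l : ℝ) * ((2 : ℝ) ^ (-η)) ^ l := by
    rw [← Real.rpow_natCast ((2 : ℝ) ^ (-η)), ← Real.rpow_mul (by norm_num),
      ← Real.rpow_add (by norm_num)]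
    congr 1
    ring
  have h4 : ((l : ℝ) + 1) ^ 2 * ((2 : ℝ) ^ (-η)) ^ l ≤ B / (2 : ℝ) ^ (-η) := by
    rw [le_div_iff₀ hq0]
    push_cast at h1
    rw [pow_succ ((2 : ℝ) ^ (-η)) l] at h1
    linarith
  rw [h3]
  have h5 : (0 : ℝ) < (2 : ℝ) ^ (l : ℝ) := Real.rpow_pos_of_pos (by norm_num) _
  nlinarith [mul_le_mul_of_nonneg_right h4 h5.le]

/-- `∑ |Cl(K)[5]| ≤ C X` -/
theorem tot {c C θ C' η : ℝ} (hθ : 0 < θ) (hη : 0 < η) (hC : 0 ≤ C) (hC' : 0 ≤ C')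
    (hbox : Box c C θ) (hftp : Ftp (2 * c) C' η) : ∃ B : ℝ, 0 ≤ B ∧ ∀ X : ℕ, 1 ≤ X →
    ∑ᶠ K ∈ IQ X, (Nat.card {A : ClassGroup (𝓞 K) // A ^ 5 = 1} : ℝ) ≤ B * X := by
  classical
  obtain ⟨B1, hB1, hpol⟩ := pol η hη
  set G := ((1 - (2 : ℝ) ^ (-θ))⁻¹) ^ 2 with hG
  have hG0 : 0 ≤ G := sq_nonneg _
  refine ⟨1 + (4 * C * G + C' * B1) * 2, by positivity, ?_⟩
  intro X hX
  rw [finsum_mem_eq_finite_toFinset_sum _ (famFin X)]
  set F := (famFin X).toFinset with hF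
  have hmem : ∀ K, K ∈ F ↔ K ∈ IQ X := fun K => Set.Finite.mem_toFinset _
  have hFc : (F.card : ℝ) ≤ X := by
    have h4 := famCard X
    rw [Set.ncard_eq_toFinset_card _ (famFin X)] at h4
    exact_mod_cast h4
  set L := Nat.log 2 X with hL
  set f : IntermediateField ℚ ℂ → ℝ := fun K =>
    ∑ i ∈ Finset.range (Nat.log 2 (aD K) / 2 + 1),
      ∑ j ∈ Finset.range (Nat.log 2 (aD K) / 2 + 1), (nij i j K : ℝ) with hf
  have h1 : ∑ K ∈ F, (Nat.card {A : ClassGroup (𝓞 K) // A ^ 5 = 1} : ℝ) ≤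
      ∑ K ∈ F, (1 + f K) := by
    apply Finset.sum_le_sum
    intro K hK
    obtain ⟨hN, h2, him, hXK⟩ := (hmem K).1 hK
    have h3 := cl5 K h2
    rw [hf]
    beta_reduce
    exact_mod_cast h3
  have h3 : ∑ K ∈ F, f K = ∑ l ∈ Finset.range (L + 1), ∑ K ∈ F with Nat.log 2 (aD K) = l, f K := by
    rw [Finset.sum_fiberwise_of_maps_to]
    intro K hK
    obtain ⟨hN, h2, him, hXK⟩ := (hmem K).1 hK
    rw [Finset.mem_range]
    have := Nat.log_mono_right (b := 2) hXK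
    omega
  have h5 : ∀ l ∈ Finset.range (L + 1), ∑ K ∈ F with Nat.log 2 (aD K) = l, f K ≤
      (4 * C * G + C' * B1) * (2 : ℝ) ^ l := by
    intro l _
    have e1 : ∑ K ∈ F with Nat.log 2 (aD K) = l, f K =
        ∑ i ∈ Finset.range (l / 2 + 1), ∑ j ∈ Finset.range (l / 2 + 1),
          ∑ K ∈ F with Nat.log 2 (aD K) = l, (nij i j K : ℝ) := by
      rw [hf]
      have e2 : ∑ K ∈ F with Nat.log 2 (aD K) = l,
          ∑ i ∈ Finset.range (Nat.log 2 (aD K) / 2 + 1),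
            ∑ j ∈ Finset.range (Nat.log 2 (aD K) / 2 + 1), (nij i j K : ℝ) =
          ∑ K ∈ F with Nat.log 2 (aD K) = l,
          ∑ i ∈ Finset.range (l / 2 + 1), ∑ j ∈ Finset.range (l / 2 + 1), (nij i j K : ℝ) := by
        apply Finset.sum_congr rfl
        intro K hK
        rw [Finset.mem_filter] at hK
        rw [hK.2]
      rw [e2, Finset.sum_comm]
      apply Finset.sum_congr rfl
      intro i _
      rw [Finset.sum_comm]
    rw [e1]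
    have e3 : ∀ i ∈ Finset.range (l / 2 + 1), ∀ j ∈ Finset.range (l / 2 + 1),
        ∑ K ∈ F with Nat.log 2 (aD K) = l, (nij i j K : ℝ) ≤
        4 * C * 2 ^ (l : ℝ) * (2 : ℝ) ^ (-θ * ((l : ℝ) - i - j)) +
          C' * (2 : ℝ) ^ ((l : ℝ) * (1 - η)) := by
      intro i hi j hj
      rw [Finset.mem_range] at hi hj
      apply one_box hC hC' hbox hftp l i j (by omega) (by omega)
      intro K hK
      rw [Finset.mem_filter] at hK
      obtain ⟨hN, h2, him, hXK⟩ := (hmem K).1 hK.1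
      exact ⟨hN, h2, him, hK.2⟩
    have hl : ((2 : ℝ) ^ (l : ℝ)) = (2 : ℝ) ^ l := Real.rpow_natCast 2 l
    have e4 := geo3 θ hθ l
    have e5 := hpol l
    have e6 : ((l / 2 + 1 : ℕ) : ℝ) ^ 2 ≤ ((l : ℝ) + 1) ^ 2 := by
      apply pow_le_pow_left₀ (Nat.cast_nonneg _)
      have : l / 2 + 1 ≤ l + 1 := by omega
      exact_mod_cast this
    have p2 : (0 : ℝ) < (2 : ℝ) ^ ((l : ℝ) * (1 - η)) := Real.rpow_pos_of_pos (by norm_num) _
    have p1 : (0 : ℝ) < (2 : ℝ) ^ (l : ℝ) := Real.rpow_pos_of_pos (by norm_num) _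
    calc ∑ i ∈ Finset.range (l / 2 + 1), ∑ j ∈ Finset.range (l / 2 + 1),
          ∑ K ∈ F with Nat.log 2 (aD K) = l, (nij i j K : ℝ) ≤
        ∑ i ∈ Finset.range (l / 2 + 1), ∑ j ∈ Finset.range (l / 2 + 1),
          (4 * C * 2 ^ (l : ℝ) * (2 : ℝ) ^ (-θ * ((l : ℝ) - i - j)) +
            C' * (2 : ℝ) ^ ((l : ℝ) * (1 - η))) :=
          Finset.sum_le_sum fun i hi => Finset.sum_le_sum fun j hj => e3 i hi j hj
      _ = 4 * C * 2 ^ (l : ℝ) * (∑ i ∈ Finset.range (l / 2 + 1),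
            ∑ j ∈ Finset.range (l / 2 + 1), (2 : ℝ) ^ (-θ * ((l : ℝ) - i - j))) +
          ((l / 2 + 1 : ℕ) : ℝ) ^ 2 * (C' * (2 : ℝ) ^ ((l : ℝ) * (1 - η))) := by
        simp only [Finset.sum_add_distrib, Finset.sum_const, Finset.card_range, nsmul_eq_mul,
          ← Finset.mul_sum]
        ring
      _ ≤ 4 * C * 2 ^ (l : ℝ) * G +
          ((l : ℝ) + 1) ^ 2 * (C' * (2 : ℝ) ^ ((l : ℝ) * (1 - η))) := by
        apply add_le_add
        · exact mul_le_mul_of_nonneg_left e4 (by positivity)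
        · exact mul_le_mul_of_nonneg_right e6 (by positivity)
      _ ≤ (4 * C * G + C' * B1) * (2 : ℝ) ^ l := by
        have e7 := mul_le_mul_of_nonneg_left e5 hC'
        rw [hl] at e7 ⊢
        nlinarith
  have h6 : ∑ l ∈ Finset.range (L + 1), (2 : ℝ) ^ l ≤ 2 * X := by
    rw [geom_sum_eq (by norm_num)]
    have h7 : (2 : ℝ) ^ L ≤ X := by
      have := Nat.pow_log_le_self 2 (show X ≠ 0 by omega)
      exact_mod_cast this
    rw [pow_succ]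
    norm_num
    linarith
  have h8 : ∑ K ∈ F, (1 + f K) = (F.card : ℝ) + ∑ K ∈ F, f K := by
    rw [Finset.sum_add_distrib, Finset.sum_const, nsmul_eq_mul, mul_one]
  have h9 : ∑ K ∈ F, f K ≤ (4 * C * G + C' * B1) * (2 * X) := by
    rw [h3]
    calc ∑ l ∈ Finset.range (L + 1), ∑ K ∈ F with Nat.log 2 (aD K) = l, f K ≤
        ∑ l ∈ Finset.range (L + 1), (4 * C * G + C' * B1) * (2 : ℝ) ^ l := Finset.sum_le_sum h5
      _ = (4 * C * G + C' * B1) * ∑ l ∈ Finset.range (L + 1), (2 : ℝ) ^ l := by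
        rw [Finset.mul_sum]
      _ ≤ (4 * C * G + C' * B1) * (2 * X) := mul_le_mul_of_nonneg_left h6 (by positivity)
  linarith

end Pool.Agent.PP5
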