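import Pool.Agent.PP5.Defs

/-!
# PP5/A1Alg: the identities between the imaginary parts

`s, r` are complex numbers with imaginary part `w` (times 2), `s' = s - w`, `r' = r - w` their
conjugates, `b b' = N ^ 2 k`, `g g' = k ^ 2 N`.
-/

set_option autoImplicit false

namespace Pool.Agent.PP5

/-- the definition of the twelve numbers -/
structure Cx (s r b b' g g' N k w : ℂ) (P : Fin 12 → ℂ) : Prop where
  e0 : w * P 0 = b - b'
  e1 : w * (N * P 1) = s * b - (s - w) * b'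
  e2 : w * (N ^ 2 * P 2) = s ^ 2 * b - (s - w) ^ 2 * b'
  e3 : w * (k * P 3) = (r - w) * b - r * b'
  e4 : w * (N * k * P 4) = s * (r - w) * b - (s - w) * r * b'
  e5 : w * (N ^ 2 * k * P 5) = s ^ 2 * (r - w) * b - (s - w) ^ 2 * r * b'
  e6 : w * P 6 = g - g'
  e7 : w * (k * P 7) = r * g - (r - w) * g'
  e8 : w * (k ^ 2 * P 8) = r ^ 2 * g - (r - w) ^ 2 * g'
  e9 : w * (N * P 9) = s * g - (s - w) * g'
  e10 : w * (N * k * P 10) = s * r * g - (s - w) * (r - w) * g'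
  e11 : w * (N * k ^ 2 * P 11) = s * r ^ 2 * g - (s - w) * (r - w) ^ 2 * g'

variable {s r b b' g g' N k w : ℂ} {P : Fin 12 → ℂ}

theorem ax_N1 (h : Cx s r b b' g g' N k w P) (hw : w ≠ 0) (hN : N ≠ 0) (hk : k ≠ 0)
    (hb : b * b' = N ^ 2 * k) : P 0 * P 4 - P 1 * P 3 = N := by
  have e : w ^ 2 * N * k * (P 0 * P 4 - P 1 * P 3) = w ^ 2 * N * k * N := by
    calc w ^ 2 * N * k * (P 0 * P 4 - P 1 * P 3)
        = (w * P 0) * (w * (N * k * P 4)) - (w * (N * P 1)) * (w * (k * P 3)) := by ring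
      _ = w ^ 2 * N * k * N := by
        rw [h.e0, h.e1, h.e3, h.e4]
        linear_combination w ^ 2 * hb
  exact mul_left_cancel₀ (mul_ne_zero (mul_ne_zero (pow_ne_zero 2 hw) hN) hk) e

theorem ax_N2 (h : Cx s r b b' g g' N k w P) (hw : w ≠ 0) (hk : k ≠ 0)
    (hg : g * g' = k ^ 2 * N) : P 7 ^ 2 - P 6 * P 8 = N := by
  have e : w ^ 2 * k ^ 2 * (P 7 ^ 2 - P 6 * P 8) = w ^ 2 * k ^ 2 * N := by
    calc w ^ 2 * k ^ 2 * (P 7 ^ 2 - P 6 * P 8)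
        = (w * (k * P 7)) ^ 2 - (w * P 6) * (w * (k ^ 2 * P 8)) := by ring
      _ = w ^ 2 * k ^ 2 * N := by
        rw [h.e6, h.e7, h.e8]
        linear_combination w ^ 2 * hg
  exact mul_left_cancel₀ (mul_ne_zero (pow_ne_zero 2 hw) (pow_ne_zero 2 hk)) e

theorem ax_k1 (h : Cx s r b b' g g' N k w P) (hw : w ≠ 0) (hN : N ≠ 0)
    (hb : b * b' = N ^ 2 * k) : P 1 ^ 2 - P 0 * P 2 = k := by
  have e : w ^ 2 * N ^ 2 * (P 1 ^ 2 - P 0 * P 2) = w ^ 2 * N ^ 2 * k := by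
    calc w ^ 2 * N ^ 2 * (P 1 ^ 2 - P 0 * P 2)
        = (w * (N * P 1)) ^ 2 - (w * P 0) * (w * (N ^ 2 * P 2)) := by ring
      _ = w ^ 2 * N ^ 2 * k := by
        rw [h.e0, h.e1, h.e2]
        linear_combination w ^ 2 * hb
  exact mul_left_cancel₀ (mul_ne_zero (pow_ne_zero 2 hw) (pow_ne_zero 2 hN)) e

theorem ax_k2 (h : Cx s r b b' g g' N k w P) (hw : w ≠ 0) (hN : N ≠ 0) (hk : k ≠ 0)
    (hg : g * g' = k ^ 2 * N) : P 7 * P 9 - P 6 * P 10 = k := by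
  have e : w ^ 2 * N * k * (P 7 * P 9 - P 6 * P 10) = w ^ 2 * N * k * k := by
    calc w ^ 2 * N * k * (P 7 * P 9 - P 6 * P 10)
        = (w * (k * P 7)) * (w * (N * P 9)) - (w * P 6) * (w * (N * k * P 10)) := by ring
      _ = w ^ 2 * N * k * k := by
        rw [h.e6, h.e7, h.e9, h.e10]
        linear_combination w ^ 2 * hg
  exact mul_left_cancel₀ (mul_ne_zero (mul_ne_zero (pow_ne_zero 2 hw) hN) hk) e

/-- `|s| ^ 2 / N`, from the first group -/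
theorem ax_s1 (h : Cx s r b b' g g' N k w P) (hw : w ≠ 0) (hN : N ≠ 0) (hk : k ≠ 0)
    (hb : b * b' = N ^ 2 * k) : N * (P 1 * P 5 - P 2 * P 4) = s * (s - w) := by
  have e : w ^ 2 * N ^ 2 * k * (N * (P 1 * P 5 - P 2 * P 4)) =
      w ^ 2 * N ^ 2 * k * (s * (s - w)) := by
    calc w ^ 2 * N ^ 2 * k * (N * (P 1 * P 5 - P 2 * P 4))
        = (w * (N * P 1)) * (w * (N ^ 2 * k * P 5)) -
          (w * (N ^ 2 * P 2)) * (w * (N * k * P 4)) := by ring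
      _ = w ^ 2 * N ^ 2 * k * (s * (s - w)) := by
        rw [h.e1, h.e2, h.e4, h.e5]
        linear_combination w ^ 2 * (s * (s - w)) * hb
  exact mul_left_cancel₀ (mul_ne_zero (mul_ne_zero (pow_ne_zero 2 hw) (pow_ne_zero 2 hN)) hk) e

theorem ax_s2 (h : Cx s r b b' g g' N k w P) (hw : w ≠ 0) (hN : N ≠ 0) (hk : k ≠ 0)
    (hg : g * g' = k ^ 2 * N) : N * (P 10 ^ 2 - P 9 * P 11) = s * (s - w) := by
  have e : w ^ 2 * (N * k ^ 2) * (N * (P 10 ^ 2 - P 9 * P 11)) =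
      w ^ 2 * (N * k ^ 2) * (s * (s - w)) := by
    calc w ^ 2 * (N * k ^ 2) * (N * (P 10 ^ 2 - P 9 * P 11))
        = (w * (N * k * P 10)) ^ 2 - (w * (N * P 9)) * (w * (N * k ^ 2 * P 11)) := by ring
      _ = w ^ 2 * (N * k ^ 2) * (s * (s - w)) := by
        rw [h.e9, h.e10, h.e11]
        linear_combination w ^ 2 * (s * (s - w)) * hg
  exact mul_left_cancel₀
    (mul_ne_zero (pow_ne_zero 2 hw) (mul_ne_zero hN (pow_ne_zero 2 hk))) e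

/-- `|r| ^ 2 / k`, from the first group -/
theorem ax_r1 (h : Cx s r b b' g g' N k w P) (hw : w ≠ 0) (hN : N ≠ 0) (hk : k ≠ 0)
    (hb : b * b' = N ^ 2 * k) : k * (P 4 ^ 2 - P 3 * P 5) = r * (r - w) := by
  have e : w ^ 2 * (N ^ 2 * k) * (k * (P 4 ^ 2 - P 3 * P 5)) =
      w ^ 2 * (N ^ 2 * k) * (r * (r - w)) := by
    calc w ^ 2 * (N ^ 2 * k) * (k * (P 4 ^ 2 - P 3 * P 5))
        = (w * (N * k * P 4)) ^ 2 - (w * (k * P 3)) * (w * (N ^ 2 * k * P 5)) := by ring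
      _ = w ^ 2 * (N ^ 2 * k) * (r * (r - w)) := by
        rw [h.e3, h.e4, h.e5]
        linear_combination w ^ 2 * (r * (r - w)) * hb
  exact mul_left_cancel₀
    (mul_ne_zero (pow_ne_zero 2 hw) (mul_ne_zero (pow_ne_zero 2 hN) hk)) e

theorem ax_r2 (h : Cx s r b b' g g' N k w P) (hw : w ≠ 0) (hN : N ≠ 0) (hk : k ≠ 0)
    (hg : g * g' = k ^ 2 * N) : k * (P 8 * P 10 - P 7 * P 11) = r * (r - w) := by
  have e : w ^ 2 * (N * k ^ 2) * (k * (P 8 * P 10 - P 7 * P 11)) =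
      w ^ 2 * (N * k ^ 2) * (r * (r - w)) := by
    calc w ^ 2 * (N * k ^ 2) * (k * (P 8 * P 10 - P 7 * P 11))
        = (w * (k ^ 2 * P 8)) * (w * (N * k * P 10)) -
          (w * (k * P 7)) * (w * (N * k ^ 2 * P 11)) := by ring
      _ = w ^ 2 * (N * k ^ 2) * (r * (r - w)) := by
        rw [h.e7, h.e8, h.e10, h.e11]
        linear_combination w ^ 2 * (r * (r - w)) * hg
  exact mul_left_cancel₀
    (mul_ne_zero (pow_ne_zero 2 hw) (mul_ne_zero hN (pow_ne_zero 2 hk))) e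

/-- `s + s'` -/
theorem ax_b1 (h : Cx s r b b' g g' N k w P) (hw : w ≠ 0) (hN : N ≠ 0) (hk : k ≠ 0)
    (hg : g * g' = k ^ 2 * N) : 2 * P 7 * P 10 - P 6 * P 11 - P 8 * P 9 = 2 * s - w := by
  have e : w ^ 2 * (N * k ^ 2) * (2 * P 7 * P 10 - P 6 * P 11 - P 8 * P 9) =
      w ^ 2 * (N * k ^ 2) * (2 * s - w) := by
    calc w ^ 2 * (N * k ^ 2) * (2 * P 7 * P 10 - P 6 * P 11 - P 8 * P 9)
        = 2 * (w * (k * P 7)) * (w * (N * k * P 10)) -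
          (w * P 6) * (w * (N * k ^ 2 * P 11)) - (w * (k ^ 2 * P 8)) * (w * (N * P 9)) := by ring
      _ = w ^ 2 * (N * k ^ 2) * (2 * s - w) := by
        rw [h.e6, h.e7, h.e8, h.e9, h.e10, h.e11]
        linear_combination w ^ 2 * (2 * s - w) * hg
  exact mul_left_cancel₀
    (mul_ne_zero (pow_ne_zero 2 hw) (mul_ne_zero hN (pow_ne_zero 2 hk))) e

/-- `r + r'` -/
theorem ax_b2 (h : Cx s r b b' g g' N k w P) (hw : w ≠ 0) (hN : N ≠ 0) (hk : k ≠ 0)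
    (hb : b * b' = N ^ 2 * k) : 2 * P 1 * P 4 - P 0 * P 5 - P 2 * P 3 = 2 * r - w := by
  have e : w ^ 2 * (N ^ 2 * k) * (2 * P 1 * P 4 - P 0 * P 5 - P 2 * P 3) =
      w ^ 2 * (N ^ 2 * k) * (2 * r - w) := by
    calc w ^ 2 * (N ^ 2 * k) * (2 * P 1 * P 4 - P 0 * P 5 - P 2 * P 3)
        = 2 * (w * (N * P 1)) * (w * (N * k * P 4)) -
          (w * P 0) * (w * (N ^ 2 * k * P 5)) - (w * (N ^ 2 * P 2)) * (w * (k * P 3)) := by ring
      _ = w ^ 2 * (N ^ 2 * k) * (2 * r - w) := by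
        rw [h.e0, h.e1, h.e2, h.e3, h.e4, h.e5]
        linear_combination w ^ 2 * (2 * r - w) * hb
  exact mul_left_cancel₀
    (mul_ne_zero (pow_ne_zero 2 hw) (mul_ne_zero (pow_ne_zero 2 hN) hk)) e

theorem ax_5a (h : Cx s r b b' g g' N k w P) (hw : w ≠ 0) (hN : N ≠ 0) (hk : k ≠ 0)
    (hb : b * b' = N ^ 2 * k) : P 1 * P 4 - P 2 * P 3 = s + r - w := by
  have e : w ^ 2 * (N ^ 2 * k) * (P 1 * P 4 - P 2 * P 3) =
      w ^ 2 * (N ^ 2 * k) * (s + r - w) := by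
    calc w ^ 2 * (N ^ 2 * k) * (P 1 * P 4 - P 2 * P 3)
        = (w * (N * P 1)) * (w * (N * k * P 4)) - (w * (N ^ 2 * P 2)) * (w * (k * P 3)) := by ring
      _ = w ^ 2 * (N ^ 2 * k) * (s + r - w) := by
        rw [h.e1, h.e2, h.e3, h.e4]
        linear_combination (w ^ 2 * (s + r - w)) * hb
  exact mul_left_cancel₀
    (mul_ne_zero (pow_ne_zero 2 hw) (mul_ne_zero (pow_ne_zero 2 hN) hk)) e

theorem ax_5b (h : Cx s r b b' g g' N k w P) (hw : w ≠ 0) (hN : N ≠ 0) (hk : k ≠ 0)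
    (hg : g * g' = k ^ 2 * N) : P 7 * P 10 - P 6 * P 11 = s + r - w := by
  have e : w ^ 2 * (N * k ^ 2) * (P 7 * P 10 - P 6 * P 11) =
      w ^ 2 * (N * k ^ 2) * (s + r - w) := by
    calc w ^ 2 * (N * k ^ 2) * (P 7 * P 10 - P 6 * P 11)
        = (w * (k * P 7)) * (w * (N * k * P 10)) - (w * P 6) * (w * (N * k ^ 2 * P 11)) := by ring
      _ = w ^ 2 * (N * k ^ 2) * (s + r - w) := by
        rw [h.e6, h.e7, h.e10, h.e11]
        linear_combination (w ^ 2 * (s + r - w)) * hg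
  exact mul_left_cancel₀
    (mul_ne_zero (pow_ne_zero 2 hw) (mul_ne_zero hN (pow_ne_zero 2 hk))) e

theorem ax_7 (h : Cx s r b b' g g' N k w P) (hw : w ≠ 0) (hN : N ≠ 0) (hk : k ≠ 0) :
    P 6 * P 4 + P 0 * P 10 - P 7 * P 1 - P 3 * P 9 = 0 := by
  have e : w ^ 2 * (N * k) * (P 6 * P 4 + P 0 * P 10 - P 7 * P 1 - P 3 * P 9) =
      w ^ 2 * (N * k) * 0 := by
    calc w ^ 2 * (N * k) * (P 6 * P 4 + P 0 * P 10 - P 7 * P 1 - P 3 * P 9)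
        = (w * P 6) * (w * (N * k * P 4)) + (w * P 0) * (w * (N * k * P 10)) -
          (w * (k * P 7)) * (w * (N * P 1)) - (w * (k * P 3)) * (w * (N * P 9)) := by ring
      _ = w ^ 2 * (N * k) * 0 := by
        rw [h.e0, h.e1, h.e3, h.e4, h.e6, h.e7, h.e9, h.e10]
        ring
  exact mul_left_cancel₀ (mul_ne_zero (pow_ne_zero 2 hw) (mul_ne_zero hN hk)) e

theorem ax_8 (h : Cx s r b b' g g' N k w P) (hw : w ≠ 0) (hN : N ≠ 0) (hk : k ≠ 0) :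
    P 6 * P 5 - P 4 * P 9 + P 1 * P 10 - P 7 * P 2 = 0 := by
  have e : w ^ 2 * (N ^ 2 * k) * (P 6 * P 5 - P 4 * P 9 + P 1 * P 10 - P 7 * P 2) =
      w ^ 2 * (N ^ 2 * k) * 0 := by
    calc w ^ 2 * (N ^ 2 * k) * (P 6 * P 5 - P 4 * P 9 + P 1 * P 10 - P 7 * P 2)
        = (w * P 6) * (w * (N ^ 2 * k * P 5)) - (w * (N * k * P 4)) * (w * (N * P 9)) +
          (w * (N * P 1)) * (w * (N * k * P 10)) - (w * (k * P 7)) * (w * (N ^ 2 * P 2)) := by ring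
      _ = w ^ 2 * (N ^ 2 * k) * 0 := by
        rw [h.e1, h.e2, h.e4, h.e5, h.e6, h.e7, h.e9, h.e10]
        ring
  exact mul_left_cancel₀ (mul_ne_zero (pow_ne_zero 2 hw) (mul_ne_zero (pow_ne_zero 2 hN) hk)) e

theorem ax_9 (h : Cx s r b b' g g' N k w P) (hw : w ≠ 0) (hN : N ≠ 0) (hk : k ≠ 0) :
    P 0 * P 11 - P 3 * P 10 + P 7 * P 4 - P 1 * P 8 = 0 := by
  have e : w ^ 2 * (N * k ^ 2) * (P 0 * P 11 - P 3 * P 10 + P 7 * P 4 - P 1 * P 8) =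
      w ^ 2 * (N * k ^ 2) * 0 := by
    calc w ^ 2 * (N * k ^ 2) * (P 0 * P 11 - P 3 * P 10 + P 7 * P 4 - P 1 * P 8)
        = (w * P 0) * (w * (N * k ^ 2 * P 11)) - (w * (k * P 3)) * (w * (N * k * P 10)) +
          (w * (k * P 7)) * (w * (N * k * P 4)) - (w * (N * P 1)) * (w * (k ^ 2 * P 8)) := by ring
      _ = w ^ 2 * (N * k ^ 2) * 0 := by
        rw [h.e0, h.e1, h.e3, h.e4, h.e7, h.e8, h.e10, h.e11]
        ring
  exact mul_left_cancel₀ (mul_ne_zero (pow_ne_zero 2 hw) (mul_ne_zero hN (pow_ne_zero 2 hk))) e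

theorem ax_10 (h : Cx s r b b' g g' N k w P) (hw : w ≠ 0) (hN : N ≠ 0) (hk : k ≠ 0) :
    P 7 * P 5 + P 1 * P 11 - P 4 * P 10 - P 8 * P 2 = 0 := by
  have e : w ^ 2 * (N ^ 2 * k ^ 2) * (P 7 * P 5 + P 1 * P 11 - P 4 * P 10 - P 8 * P 2) =
      w ^ 2 * (N ^ 2 * k ^ 2) * 0 := by
    calc w ^ 2 * (N ^ 2 * k ^ 2) * (P 7 * P 5 + P 1 * P 11 - P 4 * P 10 - P 8 * P 2)
        = (w * (k * P 7)) * (w * (N ^ 2 * k * P 5)) + (w * (N * P 1)) * (w * (N * k ^ 2 * P 11)) -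
          (w * (N * k * P 4)) * (w * (N * k * P 10)) -
          (w * (k ^ 2 * P 8)) * (w * (N ^ 2 * P 2)) := by ring
      _ = w ^ 2 * (N ^ 2 * k ^ 2) * 0 := by
        rw [h.e1, h.e2, h.e4, h.e5, h.e7, h.e8, h.e10, h.e11]
        ring
  exact mul_left_cancel₀
    (mul_ne_zero (pow_ne_zero 2 hw) (mul_ne_zero (pow_ne_zero 2 hN) (pow_ne_zero 2 hk))) e

theorem ax_P (h : Cx s r b b' g g' N k w P) (v1 v2 w1 w2 : ℂ) :
    w * (N ^ 2 * k * (w1 * (P 0 * v1 ^ 2 + 2 * P 1 * v1 * v2 + P 2 * v2 ^ 2) +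
      w2 * (P 3 * v1 ^ 2 + 2 * P 4 * v1 * v2 + P 5 * v2 ^ 2))) =
    (v1 * N + v2 * s) ^ 2 * (w1 * k + w2 * (r - w)) * b -
      (v1 * N + v2 * (s - w)) ^ 2 * (w1 * k + w2 * r) * b' := by
  linear_combination (w1 * v1 ^ 2 * N ^ 2 * k) * h.e0 + (2 * w1 * v1 * v2 * N * k) * h.e1 +
    (w1 * v2 ^ 2 * k) * h.e2 + (w2 * v1 ^ 2 * N ^ 2) * h.e3 + (2 * w2 * v1 * v2 * N) * h.e4 +
    (w2 * v2 ^ 2) * h.e5

theorem ax_R (h : Cx s r b b' g g' N k w P) (v1 v2 w1 w2 : ℂ) :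
    w * (N * k ^ 2 * (v1 * (P 6 * w1 ^ 2 + 2 * P 7 * w1 * w2 + P 8 * w2 ^ 2) +
      v2 * (P 9 * w1 ^ 2 + 2 * P 10 * w1 * w2 + P 11 * w2 ^ 2))) =
    (v1 * N + v2 * s) * (w1 * k + w2 * r) ^ 2 * g -
      (v1 * N + v2 * (s - w)) * (w1 * k + w2 * (r - w)) ^ 2 * g' := by
  linear_combination (v1 * w1 ^ 2 * N * k ^ 2) * h.e6 + (2 * v1 * w1 * w2 * N * k) * h.e7 +
    (v1 * w2 ^ 2 * N) * h.e8 + (v2 * w1 ^ 2 * k ^ 2) * h.e9 + (2 * v2 * w1 * w2 * k) * h.e10 +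
    (v2 * w2 ^ 2) * h.e11

theorem ax_nd (h : Cx s r b b' g g' N k w P) (v1 v2 w1 w2 : ℂ)
    (h1 : w1 * (P 0 * v1 ^ 2 + 2 * P 1 * v1 * v2 + P 2 * v2 ^ 2) +
      w2 * (P 3 * v1 ^ 2 + 2 * P 4 * v1 * v2 + P 5 * v2 ^ 2) = 0)
    (h2 : v1 * (P 6 * w1 ^ 2 + 2 * P 7 * w1 * w2 + P 8 * w2 ^ 2) +
      v2 * (P 9 * w1 ^ 2 + 2 * P 10 * w1 * w2 + P 11 * w2 ^ 2) = 0)
    (hz : w1 * k + w2 * r ≠ 0) (hz' : w1 * k + w2 * (r - w) ≠ 0) :
    (v1 * N + v2 * s) ^ 5 * (b ^ 2 * g) = (v1 * N + v2 * (s - w)) ^ 5 * (b' ^ 2 * g') := by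
  have e1 := ax_P h v1 v2 w1 w2
  have e2 := ax_R h v1 v2 w1 w2
  rw [h1, mul_zero, mul_zero] at e1
  rw [h2, mul_zero, mul_zero] at e2
  set x := v1 * N + v2 * s
  set x' := v1 * N + v2 * (s - w)
  set z := w1 * k + w2 * r
  set z' := w1 * k + w2 * (r - w)
  have e3 : x ^ 2 * z' * b = x' ^ 2 * z * b' := by linear_combination -e1
  have e4 : x * z ^ 2 * g = x' * z' ^ 2 * g' := by linear_combination -e2
  have e5 : (z * z') ^ 2 * (x ^ 5 * (b ^ 2 * g)) = (z * z') ^ 2 * (x' ^ 5 * (b' ^ 2 * g')) := by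
    calc (z * z') ^ 2 * (x ^ 5 * (b ^ 2 * g)) = (x ^ 2 * z' * b) ^ 2 * (x * z ^ 2 * g) := by ring
      _ = (x' ^ 2 * z * b') ^ 2 * (x' * z' ^ 2 * g') := by rw [e3, e4]
      _ = (z * z') ^ 2 * (x' ^ 5 * (b' ^ 2 * g')) := by ring
  exact mul_left_cancel₀ (pow_ne_zero 2 (mul_ne_zero hz hz')) e5

/-- all the relations, for integers -/
theorem ax_int {s r b b' g g' w : ℂ} {N k : ℕ} (P : Sp)
    (h : Cx s r b b' g g' (N : ℂ) (k : ℂ) w (fun i => ((P i : ℤ) : ℂ)))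
    (hw : w ≠ 0) (hN : 1 ≤ N) (hk : 1 ≤ k)
    (hb : b * b' = (N : ℂ) ^ 2 * k) (hg : g * g' = (k : ℂ) ^ 2 * N) (b1 b2 : ℤ) (d : ℕ)
    (h1 : 2 * s = b1 + w) (h2 : 2 * r = b2 + w) (hd : w ^ 2 = -(d : ℂ)) :
    Qd P ∧ Nf P = N ∧ Kf P = k ∧ Bf P = b1 ∧ Bg P = b2 ∧ Df P = -(d : ℤ) := by
  have hN' : (N : ℂ) ≠ 0 := by
    have : N ≠ 0 := by omega
    exact_mod_cast this
  have hk' : (k : ℂ) ≠ 0 := by
    have : k ≠ 0 := by omega
    exact_mod_cast this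
  have a1 := ax_N1 h hw hN' hk' hb
  have a2 := ax_N2 h hw hk' hg
  have a3 := ax_k1 h hw hN' hb
  have a4 := ax_k2 h hw hN' hk' hg
  have a5 := ax_s1 h hw hN' hk' hb
  have a6 := ax_s2 h hw hN' hk' hg
  have a7 := ax_r1 h hw hN' hk' hb
  have a8 := ax_r2 h hw hN' hk' hg
  have a9 := ax_b1 h hw hN' hk' hg
  have a10 := ax_b2 h hw hN' hk' hb
  have a11 := ax_5a h hw hN' hk' hb
  have a16 := ax_5b h hw hN' hk' hg
  have a12 := ax_7 h hw hN' hk'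
  have a13 := ax_8 h hw hN' hk'
  have a14 := ax_9 h hw hN' hk'
  have a15 := ax_10 h hw hN' hk'
  have a56 := mul_left_cancel₀ hN' (a5.trans a6.symm)
  have a78 := mul_left_cancel₀ hk' (a7.trans a8.symm)
  rw [show 2 * s - w = (b1 : ℂ) by linear_combination h1] at a9
  rw [show 2 * r - w = (b2 : ℂ) by linear_combination h2] at a10
  beta_reduce at a1 a2 a3 a4 a6 a9 a10 a11 a12 a13 a14 a15 a16 a56 a78
  have a6' : 4 * ((N : ℂ) * ((P 10 : ℂ) ^ 2 - P 9 * P 11)) = (b1 : ℂ) ^ 2 + d := by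
    rw [a6]
    linear_combination (2 * s - 2 * w + (b1 + w)) * h1 - hd
  have i1 : P 0 * P 4 - P 1 * P 3 = (N : ℤ) := by exact_mod_cast a1
  have i2 : P 7 ^ 2 - P 6 * P 8 = (N : ℤ) := by exact_mod_cast a2
  have i3 : P 1 ^ 2 - P 0 * P 2 = (k : ℤ) := by exact_mod_cast a3
  have i4 : P 7 * P 9 - P 6 * P 10 = (k : ℤ) := by exact_mod_cast a4
  have i9 : 2 * P 7 * P 10 - P 6 * P 11 - P 8 * P 9 = b1 := by exact_mod_cast a9
  have i10 : 2 * P 1 * P 4 - P 0 * P 5 - P 2 * P 3 = b2 := by exact_mod_cast a10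
  have i11 : 2 * (P 1 * P 4 - P 2 * P 3) = b1 + b2 := by
    have e : 2 * ((P 1 : ℂ) * P 4 - P 2 * P 3) = (b1 : ℂ) + b2 := by
      rw [a11]
      linear_combination h1 + h2
    exact_mod_cast e
  have i16 : 2 * (P 7 * P 10 - P 6 * P 11) = b1 + b2 := by
    have e : 2 * ((P 7 : ℂ) * P 10 - P 6 * P 11) = (b1 : ℂ) + b2 := by
      rw [a16]
      linear_combination h1 + h2
    exact_mod_cast e
  have i12 : P 6 * P 4 + P 0 * P 10 - P 7 * P 1 - P 3 * P 9 = 0 := by exact_mod_cast a12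
  have i13 : P 6 * P 5 - P 4 * P 9 + P 1 * P 10 - P 7 * P 2 = 0 := by exact_mod_cast a13
  have i14 : P 0 * P 11 - P 3 * P 10 + P 7 * P 4 - P 1 * P 8 = 0 := by exact_mod_cast a14
  have i15 : P 7 * P 5 + P 1 * P 11 - P 4 * P 10 - P 8 * P 2 = 0 := by exact_mod_cast a15
  have i56 : P 1 * P 5 - P 2 * P 4 = P 10 ^ 2 - P 9 * P 11 := by exact_mod_cast a56
  have i78 : P 4 ^ 2 - P 3 * P 5 = P 8 * P 10 - P 7 * P 11 := by exact_mod_cast a78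
  have i6 : 4 * ((N : ℤ) * (P 10 ^ 2 - P 9 * P 11)) = b1 ^ 2 + d := by exact_mod_cast a6'
  refine ⟨⟨?_, ?_, ?_, ?_, ?_, ?_, i12, i13, i14, i15⟩, i1, i3, i9, i10, ?_⟩
  · linear_combination i1 - i2
  · linear_combination i3 - i4
  · linear_combination i56
  · linear_combination i78
  · linarith
  · linarith
  · unfold Df
    have e : P 6 * P 11 + P 8 * P 9 - 2 * P 7 * P 10 = -b1 := by linarith
    rw [e]
    linear_combination -i6 - 4 * (P 9 * P 11 - P 10 ^ 2) * (-i2)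

end Pool.Agent.PP5
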