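import Pool.Agent.PP5.A1Idl

/-!
# PP5/A1Box: the point lies in the box
-/

set_option autoImplicit false

namespace Pool.Agent.PP5

/-- the hypotheses on the sizes -/
structure Hy (y t1 t2 D N k S R : ℝ) : Prop where
  y0 : 0 < y
  a0 : 0 < t1
  b0 : 0 < t2
  N0 : 0 < N
  k0 : 0 < k
  D1 : y ^ 4 ≤ D
  D2 : D ≤ 2 * y ^ 4
  A1 : y ^ 2 ≤ N * t1 ^ 2
  A2 : N * t1 ^ 2 ≤ 2 * y ^ 2
  B1 : y ^ 2 ≤ k * t2 ^ 2
  B2 : k * t2 ^ 2 ≤ 2 * y ^ 2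
  S0 : 0 ≤ S
  S1 : S ≤ 5 / 2 * D
  R0 : 0 ≤ R
  R1 : R ≤ 5 / 2 * D

variable {y t1 t2 D N k S R : ℝ}

theorem Hy.sw (h : Hy y t1 t2 D N k S R) : Hy y t2 t1 D k N R S :=
  ⟨h.y0, h.b0, h.a0, h.k0, h.N0, h.D1, h.D2, h.B1, h.B2, h.A1, h.A2, h.R0, h.R1, h.S0, h.S1⟩

theorem bcl (P T U : ℝ) (hT : 0 < T) (hU : 0 < U) (hy : 0 < y)
    (h : P ^ 2 * T ^ 2 ≤ 256 * y ^ 2 * U ^ 2) : |P| ≤ 16 * y * (U / T) := by
  have h1 : |P * T| ≤ 16 * y * U := by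
    apply abs_le_of_sq_le_sq
    · nlinarith
    · positivity
  rw [abs_mul, abs_of_pos hT] at h1
  rw [← mul_div_assoc, le_div_iff₀ hT]
  exact h1

theorem bx0 (h : Hy y t1 t2 D N k S R) (P : ℝ) (hP : D * 1 ^ 2 * P ^ 2 ≤ 4 * (N ^ 2 * k)) :
    |P| ≤ 16 * y * (1 / (t1 ^ 2 * t2)) := by
  have hy := h.y0
  have h1 := h.a0
  have h2 := h.b0
  have hN := h.N0
  have hk := h.k0
  have hD : 0 < D := lt_of_lt_of_le (by positivity) h.D1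
  apply bcl P _ _ (by positivity) one_pos hy
  have e1 : y ^ 4 * (P ^ 2 * (t1 ^ 2 * t2) ^ 2) ≤ D * (P ^ 2 * (t1 ^ 2 * t2) ^ 2) :=
    mul_le_mul_of_nonneg_right h.D1 (by positivity)
  have e2 : D * (P ^ 2 * (t1 ^ 2 * t2) ^ 2) ≤ 4 * ((N * t1 ^ 2) ^ 2 * (k * t2 ^ 2)) := by
    have := mul_le_mul_of_nonneg_right hP (by positivity : 0 ≤ (t1 ^ 2 * t2) ^ 2)
    nlinarith
  have e3 : (N * t1 ^ 2) ^ 2 * (k * t2 ^ 2) ≤ (2 * y ^ 2) ^ 2 * (2 * y ^ 2) :=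
    mul_le_mul (pow_le_pow_left₀ (by positivity) h.A2 2) h.B2 (by positivity) (by positivity)
  have e4 : y ^ 4 * (P ^ 2 * (t1 ^ 2 * t2) ^ 2) ≤ y ^ 4 * (256 * y ^ 2 * 1 ^ 2) := by
    nlinarith [pow_pos hy 6]
  exact le_of_mul_le_mul_left e4 (by positivity)

theorem bx1 (h : Hy y t1 t2 D N k S R) (P : ℝ)
    (hP : D * N ^ 2 * P ^ 2 ≤ 4 * (S * (N ^ 2 * k))) : |P| ≤ 16 * y * (1 / t2) := by
  have hy := h.y0
  have h1 := h.a0
  have h2 := h.b0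
  have hN := h.N0
  have hk := h.k0
  have hD : 0 < D := lt_of_lt_of_le (by positivity) h.D1
  apply bcl P _ _ (by positivity) one_pos hy
  have e1 : (D * N ^ 2) * P ^ 2 ≤ (D * N ^ 2) * (10 * k) := by
    have := mul_le_mul_of_nonneg_right h.S1 (by positivity : 0 ≤ N ^ 2 * k)
    nlinarith
  have e2 : P ^ 2 ≤ 10 * k := le_of_mul_le_mul_left e1 (by positivity)
  have e3 := mul_le_mul_of_nonneg_right e2 (by positivity : 0 ≤ t2 ^ 2)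
  have e4 := h.B2
  nlinarith [pow_pos hy 2]

theorem bx2 (h : Hy y t1 t2 D N k S R) (P : ℝ)
    (hP : D * (N ^ 2) ^ 2 * P ^ 2 ≤ 4 * (S ^ 2 * (N ^ 2 * k))) :
    |P| ≤ 16 * y * (t1 ^ 2 / t2) := by
  have hy := h.y0
  have h1 := h.a0
  have h2 := h.b0
  have hN := h.N0
  have hk := h.k0
  have hD : 0 < D := lt_of_lt_of_le (by positivity) h.D1
  apply bcl P _ _ (by positivity) (by positivity) hy
  have e0 : S ^ 2 ≤ (5 / 2 * D) ^ 2 := pow_le_pow_left₀ h.S0 h.S1 2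
  have e1 : (D * N ^ 2) * (P ^ 2 * N ^ 2) ≤ (D * N ^ 2) * (25 * D * k) := by
    have := mul_le_mul_of_nonneg_right e0 (by positivity : 0 ≤ N ^ 2 * k)
    nlinarith
  have e2 : P ^ 2 * N ^ 2 ≤ 25 * D * k := le_of_mul_le_mul_left e1 (by positivity)
  have e3 : P ^ 2 * t2 ^ 2 * (N * t1 ^ 2) ^ 2 ≤ 25 * (D * (k * t2 ^ 2)) * t1 ^ 4 := by
    have := mul_le_mul_of_nonneg_right e2 (by positivity : 0 ≤ t2 ^ 2 * t1 ^ 4)
    nlinarith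
  have e4 : D * (k * t2 ^ 2) ≤ (2 * y ^ 4) * (2 * y ^ 2) :=
    mul_le_mul h.D2 h.B2 (by positivity) (by positivity)
  have e5 : (y ^ 2) ^ 2 ≤ (N * t1 ^ 2) ^ 2 := pow_le_pow_left₀ (by positivity) h.A1 2
  have e6 := mul_le_mul_of_nonneg_left e5 (by positivity : 0 ≤ P ^ 2 * t2 ^ 2)
  have e7 := mul_le_mul_of_nonneg_right e4 (by positivity : 0 ≤ t1 ^ 4)
  have e8 : y ^ 4 * (P ^ 2 * t2 ^ 2) ≤ y ^ 4 * (256 * y ^ 2 * (t1 ^ 2) ^ 2) := by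
    have : 0 ≤ y ^ 6 * t1 ^ 4 := by positivity
    nlinarith
  exact le_of_mul_le_mul_left e8 (by positivity)

theorem bx3 (h : Hy y t1 t2 D N k S R) (P : ℝ)
    (hP : D * k ^ 2 * P ^ 2 ≤ 4 * (R * (N ^ 2 * k))) : |P| ≤ 16 * y * (t2 / t1 ^ 2) := by
  have hy := h.y0
  have h1 := h.a0
  have h2 := h.b0
  have hN := h.N0
  have hk := h.k0
  have hD : 0 < D := lt_of_lt_of_le (by positivity) h.D1
  apply bcl P _ _ (by positivity) (by positivity) hy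
  have e1 : (D * k) * (P ^ 2 * k) ≤ (D * k) * (10 * N ^ 2) := by
    have := mul_le_mul_of_nonneg_right h.R1 (by positivity : 0 ≤ N ^ 2 * k)
    nlinarith
  have e2 : P ^ 2 * k ≤ 10 * N ^ 2 := le_of_mul_le_mul_left e1 (by positivity)
  have e3 : P ^ 2 * t1 ^ 4 * (k * t2 ^ 2) ≤ 10 * (N * t1 ^ 2) ^ 2 * t2 ^ 2 := by
    have := mul_le_mul_of_nonneg_right e2 (by positivity : 0 ≤ t1 ^ 4 * t2 ^ 2)
    nlinarith
  have e5 : (N * t1 ^ 2) ^ 2 ≤ (2 * y ^ 2) ^ 2 := pow_le_pow_left₀ (by positivity) h.A2 2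
  have e6 := mul_le_mul_of_nonneg_left h.B1 (by positivity : 0 ≤ P ^ 2 * t1 ^ 4)
  have e7 := mul_le_mul_of_nonneg_right e5 (by positivity : 0 ≤ t2 ^ 2)
  have e8 : y ^ 2 * (P ^ 2 * (t1 ^ 2) ^ 2) ≤ y ^ 2 * (256 * y ^ 2 * t2 ^ 2) := by
    have : 0 ≤ y ^ 4 * t2 ^ 2 := by positivity
    nlinarith
  exact le_of_mul_le_mul_left e8 (by positivity)

theorem bx4 (h : Hy y t1 t2 D N k S R) (P : ℝ)
    (hP : D * (N * k) ^ 2 * P ^ 2 ≤ 4 * (S * R * (N ^ 2 * k))) : |P| ≤ 16 * y * t2 := by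
  have hy := h.y0
  have h1 := h.a0
  have h2 := h.b0
  have hN := h.N0
  have hk := h.k0
  have hD : 0 < D := lt_of_lt_of_le (by positivity) h.D1
  have hq : |P| ≤ 16 * y * (t2 / 1) := by
    apply bcl P _ _ one_pos (by positivity) hy
    have e0 : S * R ≤ (5 / 2 * D) * (5 / 2 * D) :=
      mul_le_mul h.S1 h.R1 h.R0 (by positivity)
    have e1 : (D * (N ^ 2 * k)) * (P ^ 2 * k) ≤ (D * (N ^ 2 * k)) * (25 * D) := by
      have := mul_le_mul_of_nonneg_right e0 (by positivity : 0 ≤ N ^ 2 * k)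
      nlinarith
    have e2 : P ^ 2 * k ≤ 25 * D := le_of_mul_le_mul_left e1 (by positivity)
    have e3 : P ^ 2 * (k * t2 ^ 2) ≤ 25 * D * t2 ^ 2 := by
      have := mul_le_mul_of_nonneg_right e2 (by positivity : 0 ≤ t2 ^ 2)
      nlinarith
    have e6 := mul_le_mul_of_nonneg_left h.B1 (by positivity : 0 ≤ P ^ 2)
    have e7 := mul_le_mul_of_nonneg_right h.D2 (by positivity : 0 ≤ t2 ^ 2)
    have e8 : y ^ 2 * (P ^ 2 * 1 ^ 2) ≤ y ^ 2 * (256 * y ^ 2 * t2 ^ 2) := by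
      have : 0 ≤ y ^ 4 * t2 ^ 2 := by positivity
      nlinarith
    exact le_of_mul_le_mul_left e8 (by positivity)
  rwa [div_one] at hq

theorem bx5 (h : Hy y t1 t2 D N k S R) (P : ℝ)
    (hP : D * (N ^ 2 * k) ^ 2 * P ^ 2 ≤ 4 * (S ^ 2 * R * (N ^ 2 * k))) :
    |P| ≤ 16 * y * (t1 ^ 2 * t2) := by
  have hy := h.y0
  have h1 := h.a0
  have h2 := h.b0
  have hN := h.N0
  have hk := h.k0
  have hD : 0 < D := lt_of_lt_of_le (by positivity) h.D1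
  have hq : |P| ≤ 16 * y * ((t1 ^ 2 * t2) / 1) := by
    apply bcl P _ _ one_pos (by positivity) hy
    have e0 : S ^ 2 * R ≤ (5 / 2 * D) ^ 2 * (5 / 2 * D) :=
      mul_le_mul (pow_le_pow_left₀ h.S0 h.S1 2) h.R1 h.R0 (by positivity)
    have e1 : (D * (N ^ 2 * k)) * (P ^ 2 * (N ^ 2 * k)) ≤
        (D * (N ^ 2 * k)) * (125 / 2 * D ^ 2) := by
      have := mul_le_mul_of_nonneg_right e0 (by positivity : 0 ≤ N ^ 2 * k)
      nlinarith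
    have e2 : P ^ 2 * (N ^ 2 * k) ≤ 125 / 2 * D ^ 2 := le_of_mul_le_mul_left e1 (by positivity)
    have e3 : P ^ 2 * ((N * t1 ^ 2) ^ 2 * (k * t2 ^ 2)) ≤
        125 / 2 * D ^ 2 * (t1 ^ 2 * t2) ^ 2 := by
      have := mul_le_mul_of_nonneg_right e2 (by positivity : 0 ≤ (t1 ^ 2 * t2) ^ 2)
      nlinarith
    have e4 : (y ^ 2) ^ 2 * y ^ 2 ≤ (N * t1 ^ 2) ^ 2 * (k * t2 ^ 2) :=
      mul_le_mul (pow_le_pow_left₀ (by positivity) h.A1 2) h.B1 (by positivity) (by positivity)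
    have e6 := mul_le_mul_of_nonneg_left e4 (by positivity : 0 ≤ P ^ 2)
    have e5 : D ^ 2 ≤ (2 * y ^ 4) ^ 2 := pow_le_pow_left₀ hD.le h.D2 2
    have e7 := mul_le_mul_of_nonneg_right e5 (by positivity : 0 ≤ (t1 ^ 2 * t2) ^ 2)
    have e8 : y ^ 6 * (P ^ 2 * 1 ^ 2) ≤ y ^ 6 * (256 * y ^ 2 * (t1 ^ 2 * t2) ^ 2) := by
      have : 0 ≤ y ^ 8 * (t1 ^ 2 * t2) ^ 2 := by positivity
      nlinarith
    exact le_of_mul_le_mul_left e8 (by positivity)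
  rwa [div_one] at hq

theorem bxa {D N k S R : ℕ} {P : Sp} (hz : Sz D N k S R P)
    (h : Hy y t1 t2 (D : ℝ) (N : ℝ) (k : ℝ) (S : ℝ) (R : ℝ)) (i : Fin 12) :
    |(P i : ℝ)| ≤ 16 * y * sg t1 t2 i := by
  have g0 := bx0 h (P 0) (by exact_mod_cast hz.z0)
  have g1 := bx1 h (P 1) (by exact_mod_cast hz.z1)
  have g2 := bx2 h (P 2) (by exact_mod_cast hz.z2)
  have g3 := bx3 h (P 3) (by exact_mod_cast hz.z3)
  have g4 := bx4 h (P 4) (by exact_mod_cast hz.z4)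
  have g5 := bx5 h (P 5) (by exact_mod_cast hz.z5)
  have g6 := bx0 h.sw (P 6) (by exact_mod_cast hz.z6)
  have g7 := bx1 h.sw (P 7) (by exact_mod_cast hz.z7)
  have g8 := bx2 h.sw (P 8) (by exact_mod_cast hz.z8)
  have g9 := bx3 h.sw (P 9) (by exact_mod_cast hz.z9)
  have g10 := bx4 h.sw (P 10) (by
    have := hz.z10
    rw [mul_comm (N : ℤ) k, mul_comm (S : ℤ) R] at this
    exact_mod_cast this)
  have g11 := bx5 h.sw (P 11) (by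
    have := hz.z11
    rw [mul_comm (N : ℤ) ((k : ℤ) ^ 2), mul_comm (S : ℤ) ((R : ℤ) ^ 2)] at this
    exact_mod_cast this)
  rw [mul_comm (t2 ^ 2) t1] at g6 g11
  fin_cases i
  · exact g0
  · exact g1
  · exact g2
  · exact g3
  · exact g4
  · exact g5
  · exact g6
  · exact g7
  · exact g8
  · exact g9
  · exact g10
  · exact g11

end Pool.Agent.PP5
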