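import Pool.Agent.PP5.A1Alg
import Pool.Agent.FTB.Els
import Pool.Agent.FTB.CMn
import Pool.Agent.SMI.Cvn

/-!
# PP5/A1El: elements and their imaginary coordinates
-/

set_option autoImplicit false

namespace Pool.Agent.PP5

open NumberField Pool.Agent.FTA Pool.Agent.FTB Pool.Agent.SMI nonZeroDivisors

/-- `√D i` -/
noncomputable def wK (K : IntermediateField ℚ ℂ) [NumberField K] : ℂ :=
  ((√(aD K : ℝ) : ℝ) : ℂ) * Complex.I

theorem wK_ne (K : IntermediateField ℚ ℂ) [NumberField K] : wK K ≠ 0 := by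
  unfold wK
  have h : 0 < √(aD K : ℝ) := Real.sqrt_pos.2 (by exact_mod_cast aD_pos K)
  exact mul_ne_zero (by exact_mod_cast h.ne') Complex.I_ne_zero

theorem wK_sq (K : IntermediateField ℚ ℂ) [NumberField K] : wK K ^ 2 = -(aD K : ℂ) := by
  unfold wK
  rw [mul_pow, Complex.I_sq, ← Complex.ofReal_pow, Real.sq_sqrt (Nat.cast_nonneg _)]
  simp

theorem wK_conj (K : IntermediateField ℚ ℂ) [NumberField K] :
    (starRingEnd ℂ) (wK K) = -wK K := by
  unfold wK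
  rw [map_mul, Complex.conj_ofReal, Complex.conj_I]
  ring

theorem co_cv (K : IntermediateField ℚ ℂ) [NumberField K] (a : 𝓞 K) (t y : ℤ) (h : Co K a t y) :
    2 * cv K a = t + y * wK K := by
  unfold Co at h
  unfold cv wK
  rw [h]
  ring

theorem cv_mul (K : IntermediateField ℚ ℂ) [NumberField K] (a b : 𝓞 K) :
    cv K (a * b) = cv K a * cv K b := by
  unfold cv
  push_cast
  rfl

theorem cv_nat (K : IntermediateField ℚ ℂ) [NumberField K] (n : ℕ) :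
    cv K (n : 𝓞 K) = n := by
  unfold cv
  push_cast
  rfl

/-- the imaginary coordinate -/
theorem imc (K : IntermediateField ℚ ℂ) [NumberField K] (e x : 𝓞 K) (n : ℕ) (t y : ℤ)
    (hx : (n : 𝓞 K) * e = x) (h : Co K e t y) :
    wK K * ((n : ℂ) * (y : ℂ)) = cv K x - (starRingEnd ℂ) (cv K x) := by
  have h1 := co_cv K e t y h
  have h2 := congrArg (starRingEnd ℂ) h1
  simp only [map_mul, map_add, wK_conj] at h2
  have e1 : (starRingEnd ℂ) (t : ℂ) = (t : ℂ) := by simp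
  have e2 : (starRingEnd ℂ) (y : ℂ) = (y : ℂ) := by simp
  have e3 : (starRingEnd ℂ) (2 : ℂ) = 2 := map_ofNat _ 2
  rw [e1, e2, e3] at h2
  have h3 : cv K x = n * cv K e := by
    rw [← hx, cv_mul, cv_nat]
  have h4 : (starRingEnd ℂ) (cv K x) = n * (starRingEnd ℂ) (cv K e) := by
    rw [h3, map_mul, Complex.conj_natCast]
  rw [h4, h3]
  linear_combination (-(n : ℂ) / 2) * h1 + ((n : ℂ) / 2) * h2

/-- the size of the imaginary coordinate -/
theorem szc (K : IntermediateField ℚ ℂ) [NumberField K] (h2 : Module.finrank ℚ K = 2)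
    (him : ∃ x : K, (x : ℂ).im ≠ 0) (e x : 𝓞 K) (n : ℕ) (t y : ℤ)
    (hx : (n : 𝓞 K) * e = x) (h : Co K e t y) :
    (aD K : ℤ) * (n : ℤ) ^ 2 * y ^ 2 ≤ 4 * (Ideal.absNorm (Ideal.span {x}) : ℤ) := by
  have h1 := co_norm K h2 him e t y h
  have h3 : Ideal.absNorm (Ideal.span {x}) = n ^ 2 * Ideal.absNorm (Ideal.span {e}) := by
    rw [← hx, ← Ideal.span_singleton_mul_span_singleton, map_mul, nrm_nat K h2]
  rw [h3]
  push_cast
  nlinarith [sq_nonneg ((n : ℤ) * t)]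

/-- division of an element of `(n) P` -/
theorem dve (K : IntermediateField ℚ ℂ) [NumberField K] (x : 𝓞 K) (n : ℕ) (Q P : Ideal (𝓞 K))
    (hx : x ∈ Q) (h : Q = Ideal.span {(n : 𝓞 K)} * P) : ∃ e : 𝓞 K, (n : 𝓞 K) * e = x := by
  rw [h] at hx
  obtain ⟨e, he⟩ := Ideal.mem_span_singleton.1
    ((Ideal.mul_le_left : Ideal.span {(n : 𝓞 K)} * P ≤ Ideal.span {(n : 𝓞 K)}) hx)
  exact ⟨e, he.symm⟩

/-- the conjugate of an element of the conjugate ideal -/
theorem cjm (K : IntermediateField ℚ ℂ) [NumberField K] (h2 : Module.finrank ℚ K = 2)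
    (J J1 : (Ideal (𝓞 K))⁰) (k : ℕ)
    (hJ1 : (J : Ideal (𝓞 K)) * (J1 : Ideal (𝓞 K)) = Ideal.span {(k : 𝓞 K)})
    (hk1 : Ideal.absNorm (J1 : Ideal (𝓞 K)) = k) (r r' : 𝓞 K)
    (hr : r ∈ (J1 : Ideal (𝓞 K))) (hr0 : r ≠ 0)
    (hrr : r * r' = ((Ideal.absNorm (Ideal.span {r}) : ℕ) : 𝓞 K)) : r' ∈ (J : Ideal (𝓞 K)) := by
  obtain ⟨M, hM⟩ := Ideal.dvd_iff_le.2 ((Ideal.span_singleton_le_iff_mem _).2 hr)
  have hS0 : Ideal.span {r} ≠ 0 := by
    rw [Ne, Ideal.zero_eq_bot, Ideal.span_singleton_eq_bot]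
    exact hr0
  have hM0 : M ≠ 0 := by
    rintro rfl
    rw [mul_zero] at hM
    exact hS0 hM
  obtain ⟨M1, h1, h3, h4⟩ := cpl K h2 ⟨M, mem_nonZeroDivisors_iff_ne_zero.2 hM0⟩
  simp only at h1
  have hn : Ideal.absNorm (Ideal.span {r}) = k * Ideal.absNorm M := by
    rw [hM, map_mul, hk1]
  have h5 : (J1 : Ideal (𝓞 K)) * M * Ideal.span {r'} =
      (J1 : Ideal (𝓞 K)) * M * ((J : Ideal (𝓞 K)) * (M1 : Ideal (𝓞 K))) := by
    rw [← hM, Ideal.span_singleton_mul_span_singleton, hrr, hn, hM]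
    push_cast
    rw [← Ideal.span_singleton_mul_span_singleton, ← hJ1, ← h1]
    ring
  have h6 : Ideal.span {r'} = (J : Ideal (𝓞 K)) * (M1 : Ideal (𝓞 K)) :=
    mul_left_cancel₀ (mul_ne_zero (nonZeroDivisors.coe_ne_zero J1) hM0) h5
  have h7 : r' ∈ Ideal.span {r'} := Ideal.mem_span_singleton_self r'
  rw [h6] at h7
  exact (Ideal.mul_le_left : (J : Ideal (𝓞 K)) * (M1 : Ideal (𝓞 K)) ≤ (J : Ideal (𝓞 K))) h7

theorem nrm_sp (K : IntermediateField ℚ ℂ) [NumberField K] (x y : 𝓞 K) :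
    Ideal.absNorm (Ideal.span {x * y}) =
      Ideal.absNorm (Ideal.span {x}) * Ideal.absNorm (Ideal.span {y}) := by
  rw [← Ideal.span_singleton_mul_span_singleton, map_mul]

end Pool.Agent.PP5
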