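import Pool.Agent.PP5.A1Nd

/-!
# PP5/A1Idl: from ideals to the twelve integers
-/

set_option autoImplicit false

namespace Pool.Agent.PP5

open NumberField Pool.Agent.FTA Pool.Agent.FTB Pool.Agent.SMI nonZeroDivisors

/-- the sizes, in raw form -/
structure Sz (D N k S R : ℕ) (P : Sp) : Prop where
  z0 : (D : ℤ) * (1 : ℤ) ^ 2 * P 0 ^ 2 ≤ 4 * ((N : ℤ) ^ 2 * k)
  z1 : (D : ℤ) * (N : ℤ) ^ 2 * P 1 ^ 2 ≤ 4 * ((S : ℤ) * ((N : ℤ) ^ 2 * k))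
  z2 : (D : ℤ) * ((N : ℤ) ^ 2) ^ 2 * P 2 ^ 2 ≤ 4 * ((S : ℤ) ^ 2 * ((N : ℤ) ^ 2 * k))
  z3 : (D : ℤ) * (k : ℤ) ^ 2 * P 3 ^ 2 ≤ 4 * ((R : ℤ) * ((N : ℤ) ^ 2 * k))
  z4 : (D : ℤ) * ((N : ℤ) * k) ^ 2 * P 4 ^ 2 ≤ 4 * ((S : ℤ) * R * ((N : ℤ) ^ 2 * k))
  z5 : (D : ℤ) * ((N : ℤ) ^ 2 * k) ^ 2 * P 5 ^ 2 ≤ 4 * ((S : ℤ) ^ 2 * R * ((N : ℤ) ^ 2 * k))
  z6 : (D : ℤ) * (1 : ℤ) ^ 2 * P 6 ^ 2 ≤ 4 * ((k : ℤ) ^ 2 * N)
  z7 : (D : ℤ) * (k : ℤ) ^ 2 * P 7 ^ 2 ≤ 4 * ((R : ℤ) * ((k : ℤ) ^ 2 * N))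
  z8 : (D : ℤ) * ((k : ℤ) ^ 2) ^ 2 * P 8 ^ 2 ≤ 4 * ((R : ℤ) ^ 2 * ((k : ℤ) ^ 2 * N))
  z9 : (D : ℤ) * (N : ℤ) ^ 2 * P 9 ^ 2 ≤ 4 * ((S : ℤ) * ((k : ℤ) ^ 2 * N))
  z10 : (D : ℤ) * ((N : ℤ) * k) ^ 2 * P 10 ^ 2 ≤ 4 * ((S : ℤ) * R * ((k : ℤ) ^ 2 * N))
  z11 : (D : ℤ) * ((N : ℤ) * (k : ℤ) ^ 2) ^ 2 * P 11 ^ 2 ≤
    4 * ((S : ℤ) * (R : ℤ) ^ 2 * ((k : ℤ) ^ 2 * N))

theorem idl (K : IntermediateField ℚ ℂ) [NumberField K] (h2 : Module.finrank ℚ K = 2)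
    (him : ∃ x : K, (x : ℂ).im ≠ 0) (A : ClassGroup (𝓞 K)) (hA : A ^ 5 = 1)
    (I J I1 J1 : (Ideal (𝓞 K))⁰) (hI : ClassGroup.mk0 I = A) (hJ : ClassGroup.mk0 J = A ^ 2)
    (N k : ℕ) (hN0 : 1 ≤ N) (hk0 : 1 ≤ k) (hN : Ideal.absNorm (I : Ideal (𝓞 K)) = N)
    (hk : Ideal.absNorm (J : Ideal (𝓞 K)) = k)
    (hIc : ClassGroup.mk0 I1 = (ClassGroup.mk0 I)⁻¹)
    (hI1 : (I : Ideal (𝓞 K)) * (I1 : Ideal (𝓞 K)) = Ideal.span {(N : 𝓞 K)})
    (hJ1 : (J : Ideal (𝓞 K)) * (J1 : Ideal (𝓞 K)) = Ideal.span {(k : 𝓞 K)})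
    (hk1 : Ideal.absNorm (J1 : Ideal (𝓞 K)) = k)
    (hJc : ClassGroup.mk0 J1 = (ClassGroup.mk0 J)⁻¹)
    (s r : 𝓞 K) (b1 b2 : ℤ) (hs : Co K s b1 1) (hr : Co K r b2 1)
    (hsI : s ∈ (I1 : Ideal (𝓞 K))) (hrJ : r ∈ (J1 : Ideal (𝓞 K))) :
    ∃ P : Sp, Qd P ∧ Nf P = N ∧ Kf P = k ∧ Bf P = b1 ∧ Bg P = b2 ∧ Df P = -(aD K : ℤ) ∧
      (A ≠ 1 → ∀ v1 v2 w1 w2 : ℤ, (v1 ≠ 0 ∨ v2 ≠ 0) → (w1 ≠ 0 ∨ w2 ≠ 0) →
        Pf P v1 v2 w1 w2 = 0 → Rf P v1 v2 w1 w2 ≠ 0) ∧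
      Sz (aD K) N k (Ideal.absNorm (Ideal.span {s})) (Ideal.absNorm (Ideal.span {r})) P := by
  obtain ⟨β, -, γ, -, -, -, -, -, -, -, -, -, hβI, -, hγI, -, -⟩ :=
    els1 K h2 him A hA I J I1 J1 hI hJ N k hN hk hI1 hJ1 hk1 hJc
  have hnβ : Ideal.absNorm (Ideal.span {β}) = N ^ 2 * k := by
    rw [← hβI, map_mul, map_pow, hN, hk1]
  have hnγ : Ideal.absNorm (Ideal.span {γ}) = k ^ 2 * N := by
    rw [← hγI, map_mul, map_pow, hk, hN]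
  have hβm : β ∈ (I : Ideal (𝓞 K)) ^ 2 * (J1 : Ideal (𝓞 K)) := by
    rw [hβI]
    exact Ideal.mem_span_singleton_self β
  have hγm : γ ∈ (J : Ideal (𝓞 K)) ^ 2 * (I : Ideal (𝓞 K)) := by
    rw [hγI]
    exact Ideal.mem_span_singleton_self γ
  -- the conjugate of `r`
  obtain ⟨r', hr', hrr'⟩ := cvj K h2 him r
  have hr0 : r ≠ 0 := by
    rintro rfl
    have h := (co_unique K 0 b2 1 0 0 hr (by unfold Co; simp)).2
    exact one_ne_zero h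
  have hr'J : r' ∈ (J : Ideal (𝓞 K)) := cjm K h2 J J1 k hJ1 hk1 r r' hrJ hr0 hrr'
  have hnr' : Ideal.absNorm (Ideal.span {r'}) = Ideal.absNorm (Ideal.span {r}) := by
    have h : Ideal.absNorm (Ideal.span {r * r'}) = Ideal.absNorm (Ideal.span
      {((Ideal.absNorm (Ideal.span {r}) : ℕ) : 𝓞 K)}) := by rw [hrr']
    rw [nrm_sp, nrm_nat K h2, pow_two] at h
    have h0 : 0 < Ideal.absNorm (Ideal.span {r}) := by
      apply Nat.pos_of_ne_zero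
      rw [Ne, Ideal.absNorm_eq_zero_iff, Ideal.span_singleton_eq_bot]
      exact hr0
    exact Nat.eq_of_mul_eq_mul_left h0 h
  set S := Ideal.absNorm (Ideal.span {s}) with hS
  set R := Ideal.absNorm (Ideal.span {r}) with hR
  -- the elements
  obtain ⟨e1, h1⟩ := dve K (s * β) N _ ((I : Ideal (𝓞 K)) * (J1 : Ideal (𝓞 K)))
    (Ideal.mul_mem_mul hsI hβm) (by rw [← hI1]; ring)
  obtain ⟨e2, h2'⟩ := dve K (s ^ 2 * β) (N ^ 2) _ (J1 : Ideal (𝓞 K))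
    (Ideal.mul_mem_mul (Ideal.pow_mem_pow hsI 2) hβm) (by
      push_cast; rw [← Ideal.span_singleton_pow, ← hI1]; ring)
  obtain ⟨e3, h3⟩ := dve K (r' * β) k _ ((I : Ideal (𝓞 K)) ^ 2)
    (Ideal.mul_mem_mul hr'J hβm) (by rw [← hJ1]; ring)
  obtain ⟨e4, h4⟩ := dve K (s * r' * β) (N * k) _ (I : Ideal (𝓞 K))
    (Ideal.mul_mem_mul (Ideal.mul_mem_mul hsI hr'J) hβm) (by
      push_cast; rw [← Ideal.span_singleton_mul_span_singleton, ← hI1, ← hJ1]; ring)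
  obtain ⟨e5, h5⟩ := dve K (s ^ 2 * r' * β) (N ^ 2 * k) _ 1
    (Ideal.mul_mem_mul (Ideal.mul_mem_mul (Ideal.pow_mem_pow hsI 2) hr'J) hβm) (by
      push_cast
      rw [← Ideal.span_singleton_mul_span_singleton, ← Ideal.span_singleton_pow, ← hI1, ← hJ1]
      ring)
  obtain ⟨e7, h7⟩ := dve K (r * γ) k _ ((J : Ideal (𝓞 K)) * (I : Ideal (𝓞 K)))
    (Ideal.mul_mem_mul hrJ hγm) (by rw [← hJ1]; ring)
  obtain ⟨e8, h8⟩ := dve K (r ^ 2 * γ) (k ^ 2) _ (I : Ideal (𝓞 K))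
    (Ideal.mul_mem_mul (Ideal.pow_mem_pow hrJ 2) hγm) (by
      push_cast; rw [← Ideal.span_singleton_pow, ← hJ1]; ring)
  obtain ⟨e9, h9⟩ := dve K (s * γ) N _ ((J : Ideal (𝓞 K)) ^ 2)
    (Ideal.mul_mem_mul hsI hγm) (by rw [← hI1]; ring)
  obtain ⟨e10, h10⟩ := dve K (s * r * γ) (N * k) _ (J : Ideal (𝓞 K))
    (Ideal.mul_mem_mul (Ideal.mul_mem_mul hsI hrJ) hγm) (by
      push_cast; rw [← Ideal.span_singleton_mul_span_singleton, ← hI1, ← hJ1]; ring)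
  obtain ⟨e11, h11⟩ := dve K (s * r ^ 2 * γ) (N * k ^ 2) _ 1
    (Ideal.mul_mem_mul (Ideal.mul_mem_mul hsI (Ideal.pow_mem_pow hrJ 2)) hγm) (by
      push_cast
      rw [← Ideal.span_singleton_mul_span_singleton, ← Ideal.span_singleton_pow, ← hI1, ← hJ1]
      ring)
  have h0 : ((1 : ℕ) : 𝓞 K) * β = β := by simp
  have h6 : ((1 : ℕ) : 𝓞 K) * γ = γ := by simp
  obtain ⟨t0, y0, c0⟩ := co_exists K h2 him β
  obtain ⟨t1, y1, c1⟩ := co_exists K h2 him e1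
  obtain ⟨t2, y2, c2⟩ := co_exists K h2 him e2
  obtain ⟨t3, y3, c3⟩ := co_exists K h2 him e3
  obtain ⟨t4, y4, c4⟩ := co_exists K h2 him e4
  obtain ⟨t5, y5, c5⟩ := co_exists K h2 him e5
  obtain ⟨t6, y6, c6⟩ := co_exists K h2 him γ
  obtain ⟨t7, y7, c7⟩ := co_exists K h2 him e7
  obtain ⟨t8, y8, c8⟩ := co_exists K h2 him e8
  obtain ⟨t9, y9, c9⟩ := co_exists K h2 him e9
  obtain ⟨t10, y10, c10⟩ := co_exists K h2 him e10
  obtain ⟨t11, y11, c11⟩ := co_exists K h2 him e11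
  let P : Sp := ![y0, y1, y2, y3, y4, y5, y6, y7, y8, y9, y10, y11]
  have hsw : (starRingEnd ℂ) (cv K s) = cv K s - wK K := by
    have h := imc K s s 1 b1 1 (by simp) hs
    push_cast at h
    linear_combination h
  have hrw : cv K r' = cv K r - wK K := by
    have h := imc K r r 1 b2 1 (by simp) hr
    push_cast at h
    rw [hr']
    linear_combination h
  have hrw' : (starRingEnd ℂ) (cv K r) = cv K r - wK K := by rw [← hr', hrw]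
  have hrw'' : (starRingEnd ℂ) (cv K r') = cv K r := by rw [hr', Complex.conj_conj]
  have hb : cv K β * (starRingEnd ℂ) (cv K β) = (N : ℂ) ^ 2 * k := by
    rw [cvn K h2 him β, hnβ]
    push_cast
    ring
  have hg : cv K γ * (starRingEnd ℂ) (cv K γ) = (k : ℂ) ^ 2 * N := by
    rw [cvn K h2 him γ, hnγ]
    push_cast
    ring
  have hCx : Cx (cv K s) (cv K r) (cv K β) ((starRingEnd ℂ) (cv K β)) (cv K γ)
      ((starRingEnd ℂ) (cv K γ)) (N : ℂ) (k : ℂ) (wK K) (fun i => ((P i : ℤ) : ℂ)) := by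
    constructor
    · have h := imc K β β 1 t0 y0 h0 c0
      push_cast at h
      rw [one_mul] at h
      exact h
    · have h := imc K e1 _ N t1 y1 h1 c1
      rw [cv_mul, map_mul, hsw] at h
      exact h
    · have h := imc K e2 _ (N ^ 2) t2 y2 h2' c2
      rw [cv_mul, pow_two s, cv_mul, map_mul, map_mul, hsw] at h
      push_cast at h
      change wK K * ((N : ℂ) ^ 2 * (y2 : ℂ)) = _
      rw [h]
      ring
    · have h := imc K e3 _ k t3 y3 h3 c3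
      rw [cv_mul, map_mul, hrw'', hrw] at h
      exact h
    · have h := imc K e4 _ (N * k) t4 y4 h4 c4
      rw [cv_mul, cv_mul, map_mul, map_mul, hsw, hrw'', hrw] at h
      push_cast at h
      exact h
    · have h := imc K e5 _ (N ^ 2 * k) t5 y5 h5 c5
      rw [cv_mul, cv_mul, pow_two s, cv_mul, map_mul, map_mul, map_mul, hsw, hrw'', hrw] at h
      push_cast at h
      change wK K * ((N : ℂ) ^ 2 * k * (y5 : ℂ)) = _
      rw [h]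
      ring
    · have h := imc K γ γ 1 t6 y6 h6 c6
      push_cast at h
      rw [one_mul] at h
      exact h
    · have h := imc K e7 _ k t7 y7 h7 c7
      rw [cv_mul, map_mul, hrw'] at h
      exact h
    · have h := imc K e8 _ (k ^ 2) t8 y8 h8 c8
      rw [cv_mul, pow_two r, cv_mul, map_mul, map_mul, hrw'] at h
      push_cast at h
      change wK K * ((k : ℂ) ^ 2 * (y8 : ℂ)) = _
      rw [h]
      ring
    · have h := imc K e9 _ N t9 y9 h9 c9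
      rw [cv_mul, map_mul, hsw] at h
      exact h
    · have h := imc K e10 _ (N * k) t10 y10 h10 c10
      rw [cv_mul, cv_mul, map_mul, map_mul, hsw, hrw'] at h
      push_cast at h
      exact h
    · have h := imc K e11 _ (N * k ^ 2) t11 y11 h11 c11
      rw [cv_mul, cv_mul, pow_two r, cv_mul, map_mul, map_mul, map_mul, hsw, hrw'] at h
      push_cast at h
      change wK K * ((N : ℂ) * (k : ℂ) ^ 2 * (y11 : ℂ)) = _
      rw [h]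
      ring
  obtain ⟨q1, q2, q3, q4, q5, q6⟩ := ax_int P hCx (wK_ne K) hN0 hk0 hb hg b1 b2 (aD K)
    (by have h := co_cv K s b1 1 hs; push_cast at h; rw [one_mul] at h; exact h)
    (by have h := co_cv K r b2 1 hr; push_cast at h; rw [one_mul] at h; exact h) (wK_sq K)
  refine ⟨P, q1, q2, q3, q4, q5, q6, fun hA1 v1 v2 w1 w2 hv hw hP hQ => nd_core K h2 him A hA hA1
    I J I1 J1 hI hIc N k hN0 hk0 hI1 hJ1 s r β γ b1 b2 hs hr hβI hγI hnβ hnγ P hCx v1 v2 w1 w2 hv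
    hw hP hQ, ?_⟩
  have hs2 : Ideal.absNorm (Ideal.span {s ^ 2}) = S ^ 2 := by
    rw [pow_two, nrm_sp, ← hS, pow_two]
  have hr2 : Ideal.absNorm (Ideal.span {r ^ 2}) = R ^ 2 := by
    rw [pow_two, nrm_sp, ← hR, pow_two]
  constructor
  · have h := szc K h2 him β β 1 t0 y0 h0 c0
    rw [hnβ] at h
    push_cast at h
    exact h
  · have h := szc K h2 him e1 _ N t1 y1 h1 c1
    rw [nrm_sp, hnβ, ← hS] at h
    push_cast at h
    exact h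
  · have h := szc K h2 him e2 _ (N ^ 2) t2 y2 h2' c2
    rw [nrm_sp, hs2, hnβ] at h
    push_cast at h
    exact h
  · have h := szc K h2 him e3 _ k t3 y3 h3 c3
    rw [nrm_sp, hnβ, hnr'] at h
    push_cast at h
    exact h
  · have h := szc K h2 him e4 _ (N * k) t4 y4 h4 c4
    rw [nrm_sp, nrm_sp, hnβ, hnr', ← hS] at h
    push_cast at h
    exact h
  · have h := szc K h2 him e5 _ (N ^ 2 * k) t5 y5 h5 c5
    rw [nrm_sp, nrm_sp, hs2, hnβ, hnr'] at h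
    push_cast at h
    exact h
  · have h := szc K h2 him γ γ 1 t6 y6 h6 c6
    rw [hnγ] at h
    push_cast at h
    exact h
  · have h := szc K h2 him e7 _ k t7 y7 h7 c7
    rw [nrm_sp, hnγ, ← hR] at h
    push_cast at h
    exact h
  · have h := szc K h2 him e8 _ (k ^ 2) t8 y8 h8 c8
    rw [nrm_sp, hr2, hnγ] at h
    push_cast at h
    exact h
  · have h := szc K h2 him e9 _ N t9 y9 h9 c9
    rw [nrm_sp, hnγ, ← hS] at h
    push_cast at h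
    exact h
  · have h := szc K h2 him e10 _ (N * k) t10 y10 h10 c10
    rw [nrm_sp, nrm_sp, hnγ, ← hS, ← hR] at h
    push_cast at h
    exact h
  · have h := szc K h2 him e11 _ (N * k ^ 2) t11 y11 h11 c11
    rw [nrm_sp, nrm_sp, hr2, hnγ, ← hS] at h
    push_cast at h
    exact h

end Pool.Agent.PP5
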