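import Pool.Agent.PP5.Defs
import Pool.Agent.FTL.LFb

/-!
# PP5/A1Pr: the points are primitive

If `l` divides all the coordinates then `l ^ 4 ∣ Df P = - D`; but `l ^ 2 ∤ D` for odd `l` and
`16 ∤ D`.
-/

set_option autoImplicit false

namespace Pool.Agent.PP5

open NumberField Pool.Agent.FTA Pool.Agent.FTB Pool.Agent.FTL nonZeroDivisors

theorem not16 (K : IntermediateField ℚ ℂ) [NumberField K] (h2 : Module.finrank ℚ K = 2)
    (him : ∃ x : K, (x : ℂ).im ≠ 0) : ¬ 2 ^ 4 ∣ aD K := by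
  rintro ⟨d, hd⟩
  have hp := aD_pos K
  have hd0 : 0 < d := by
    rcases Nat.eq_zero_or_pos d with h | h
    · rw [h] at hd
      omega
    · exact h
  have hm := mem_sq K h2 him
  have hs : √(aD K : ℝ) = 2 * √((4 * d : ℕ) : ℝ) := by
    have e : (aD K : ℝ) = 2 ^ 2 * ((4 * d : ℕ) : ℝ) := by
      rw [hd]
      push_cast
      ring
    rw [e, Real.sqrt_mul (by norm_num), Real.sqrt_sq (by norm_num)]
  have hm' : ((√((4 * d : ℕ) : ℝ) : ℝ) : ℂ) * Complex.I ∈ K := by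
    have h3 : ((2 : ℚ) : ℂ)⁻¹ * (((√(aD K : ℝ) : ℝ) : ℂ) * Complex.I) ∈ K :=
      mul_mem (inv_mem (by
        have := K.algebraMap_mem (2 : ℚ)
        simp)) hm
    convert h3 using 1
    rw [hs]
    push_cast
    ring
  obtain ⟨y, hy1, hy⟩ := lfb2 K h2 him (4 * d) (by omega) (Or.inl (by omega)) hm'
  rw [hd] at hy
  have h6 : 1 ≤ y ^ 2 := Nat.one_le_pow _ _ hy1
  have h7 := Nat.mul_le_mul_right (2 ^ 4 * d) h6
  rw [← hy] at h7
  omega

theorem pprim (K : IntermediateField ℚ ℂ) [NumberField K] (h2 : Module.finrank ℚ K = 2)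
    (him : ∃ x : K, (x : ℂ).im ≠ 0) (P : Sp) (hD : Df P = -(aD K : ℤ)) (l : ℕ) (hl : l.Prime) :
    ¬ ∀ i : Fin 12, (l : ℤ) ∣ P i := by
  intro h
  choose Q hQ using h
  have h4 : (l : ℤ) ^ 4 ∣ (aD K : ℤ) := by
    rw [← neg_neg (aD K : ℤ), ← hD, dvd_neg]
    unfold Df
    rw [hQ 6, hQ 7, hQ 8, hQ 9, hQ 10, hQ 11]
    exact ⟨(Q 6 * Q 11 + Q 8 * Q 9 - 2 * Q 7 * Q 10) ^ 2 -
      4 * (Q 6 * Q 8 - Q 7 ^ 2) * (Q 9 * Q 11 - Q 10 ^ 2), by ring⟩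
  have h5 : l ^ 4 ∣ aD K := by exact_mod_cast h4
  by_cases h3 : l = 2
  · rw [h3] at h5
    exact not16 K h2 him h5
  · exact lfb3 K h2 him l hl h3 ((pow_dvd_pow l (by norm_num)).trans h5)

end Pool.Agent.PP5
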