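import Pool.Agent.PP5.Defs
import Pool.Agent.SMI.Mnc
import Pool.Agent.SMI.Bas

/-!
# PP5/A1Rd: reduced bases of the conjugates of the minimal ideals
-/

set_option autoImplicit false

namespace Pool.Agent.PP5

open NumberField Pool.Agent.FTA Pool.Agent.FTB Pool.Agent.SMI nonZeroDivisors

theorem co_addz (K : IntermediateField ℚ ℂ) [NumberField K] (a : 𝓞 K) (t y z : ℤ)
    (h : Co K a t y) : Co K (a + (z : 𝓞 K)) (t + 2 * z) y := by
  have hc : ((((z : ℤ) : 𝓞 K) : K) : ℂ) = (z : ℂ) := by simp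
  unfold Co at *
  push_cast
  rw [mul_add, h, hc]
  ring

theorem mn_spec (K : IntermediateField ℚ ℂ) [NumberField K] (h2 : Module.finrank ℚ K = 2)
    (C : ClassGroup (𝓞 K)) : ∃ I : (Ideal (𝓞 K))⁰, ClassGroup.mk0 I = C ∧
      Ideal.absNorm (I : Ideal (𝓞 K)) = mn K C ∧ MinI K I ∧ (mn K C) ^ 2 ≤ aD K := by
  obtain ⟨I, h1, h3, h4⟩ := cmn K h2 C
  have h5 : Ideal.absNorm (I : Ideal (𝓞 K)) = mn K C := by
    unfold mn
    apply le_antisymm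
    · refine le_csInf ⟨Ideal.absNorm (I : Ideal (𝓞 K)), I, h1, rfl⟩ ?_
      rintro n ⟨J, hJ, rfl⟩
      exact h4 J (hJ.trans h1.symm)
    · exact Nat.sInf_le ⟨I, h1, rfl⟩
  exact ⟨I, h1, h5, h4, by rw [← h5]; exact h3⟩

theorem mn_pos (K : IntermediateField ℚ ℂ) [NumberField K] (h2 : Module.finrank ℚ K = 2)
    (C : ClassGroup (𝓞 K)) : 1 ≤ mn K C := by
  obtain ⟨I, h1, h3, h4, -⟩ := mn_spec K h2 C
  rw [← h3]
  apply Nat.one_le_iff_ne_zero.2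
  rw [Ne, Ideal.absNorm_eq_zero_iff]
  exact nonZeroDivisors.coe_ne_zero I

theorem mn_le (K : IntermediateField ℚ ℂ) [NumberField K]
    (I : (Ideal (𝓞 K))⁰) : mn K (ClassGroup.mk0 I) ≤ Ideal.absNorm (I : Ideal (𝓞 K)) :=
  Nat.sInf_le ⟨I, rfl, rfl⟩

theorem ci_sw (K : IntermediateField ℚ ℂ) [NumberField K] (I J : (Ideal (𝓞 K))⁰) (N : ℕ)
    (h : CI K I J N) : CI K J I N :=
  ⟨h.n1, h.nJ, h.nI, by rw [mul_comm, h.IJ], by rw [h.cJ, inv_inv], h.mJ, h.mI⟩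

/-- the conjugate ideal `I1` of the minimal ideal `I` of a class, with a reduced basis -/
structure Rd (K : IntermediateField ℚ ℂ) [NumberField K] (C : ClassGroup (𝓞 K))
    (I I1 : (Ideal (𝓞 K))⁰) (x : 𝓞 K) (b : ℤ) : Prop where
  cl : ClassGroup.mk0 I = C
  ci : CI K I I1 (mn K C)
  mx : x ∈ (I1 : Ideal (𝓞 K))
  co : Co K x b 1
  bb : |b| ≤ mn K C
  nI : ((mn K C : ℕ) : 𝓞 K) ∈ (I1 : Ideal (𝓞 K))
  bs : ∀ z ∈ (I1 : Ideal (𝓞 K)), ∃ m n : ℤ, z = (m : 𝓞 K) * ((mn K C : ℕ) : 𝓞 K) +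
    (n : 𝓞 K) * x

theorem rd (K : IntermediateField ℚ ℂ) [NumberField K] (h2 : Module.finrank ℚ K = 2)
    (him : ∃ x : K, (x : ℂ).im ≠ 0) (C : ClassGroup (𝓞 K)) :
    ∃ (I I1 : (Ideal (𝓞 K))⁰) (x : 𝓞 K) (b : ℤ), Rd K C I I1 x b := by
  obtain ⟨I, h1, h3, h4, -⟩ := mn_spec K h2 C
  obtain ⟨I1, hci⟩ := cin K h2 I h4
  rw [h3] at hci
  have hci' := ci_sw K I I1 _ hci
  obtain ⟨x0, b0, hx0, hco, hbas, -⟩ := bas K h2 him I1 (cim K h2 I1 I _ hci') (mn K C) hci'.n1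
    hci'.nI
  have hN : ((mn K C : ℕ) : 𝓞 K) ∈ (I1 : Ideal (𝓞 K)) := by
    have h5 := Ideal.absNorm_mem (I1 : Ideal (𝓞 K))
    rwa [hci'.nI] at h5
  set N : ℤ := ((mn K C : ℕ) : ℤ) with hNd
  have hN1 : 1 ≤ N := by
    rw [hNd]
    exact_mod_cast hci.n1
  set q : ℤ := (b0 + N) / (2 * N) with hq
  have e1 : (2 * N) * q + (b0 + N) % (2 * N) = b0 + N := Int.mul_ediv_add_emod _ _
  have e2 : 0 ≤ (b0 + N) % (2 * N) := Int.emod_nonneg _ (by omega)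
  have e3 : (b0 + N) % (2 * N) < 2 * N := Int.emod_lt_of_pos _ (by omega)
  refine ⟨I, I1, x0 + ((-(q * N) : ℤ) : 𝓞 K), b0 + 2 * -(q * N), ?_⟩
  have hNc : ((N : ℤ) : 𝓞 K) = ((mn K C : ℕ) : 𝓞 K) := by
    rw [hNd]
    push_cast
    rfl
  constructor
  · exact h1
  · exact hci
  · apply Ideal.add_mem _ hx0
    have h6 := Ideal.mul_mem_left (I1 : Ideal (𝓞 K)) (((-q : ℤ)) : 𝓞 K) hN
    convert h6 using 1
    push_cast
    rw [← hNc]
    ring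
  · exact co_addz K x0 b0 1 _ hco
  · rw [← hNd, abs_le]
    constructor <;> nlinarith
  · exact hN
  · intro z hz
    obtain ⟨t, y, hty⟩ := co_exists K h2 him z
    obtain ⟨m, hm⟩ := hbas z hz t y hty
    refine ⟨m + y * q, y, ?_⟩
    rw [hm, ← hNc]
    push_cast
    ring

/-- the norm and an element determine the ideal -/
theorem rd_eq (K : IntermediateField ℚ ℂ) [NumberField K] (C C' : ClassGroup (𝓞 K))
    (I I1 I' I1' : (Ideal (𝓞 K))⁰) (x x' : 𝓞 K) (b b' m m' : ℤ) (h : Rd K C I I1 x b)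
    (h' : Rd K C' I' I1' x' b') (hN : mn K C = mn K C')
    (hb : b + 2 * (m * (mn K C : ℕ)) = b' + 2 * (m' * (mn K C' : ℕ))) : C = C' := by
  have h1 := co_addz K x b 1 (m * (mn K C : ℕ)) h.co
  have h1' := co_addz K x' b' 1 (m' * (mn K C' : ℕ)) h'.co
  rw [← hb] at h1'
  have h3 := co_inj K _ _ _ _ h1 h1'
  have key : ∀ (C C' : ClassGroup (𝓞 K)) (I I1 I' I1' : (Ideal (𝓞 K))⁰) (x x' : 𝓞 K)
      (b b' m m' : ℤ), Rd K C I I1 x b → Rd K C' I' I1' x' b' → mn K C = mn K C' →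
      x + ((m * (mn K C : ℕ) : ℤ) : 𝓞 K) = x' + ((m' * (mn K C' : ℕ) : ℤ) : 𝓞 K) →
      (I1 : Ideal (𝓞 K)) ≤ (I1' : Ideal (𝓞 K)) := by
    intro C C' I I1 I' I1' x x' b b' m m' h h' hN he z hz
    obtain ⟨a, n, rfl⟩ := h.bs z hz
    have hN' : ((mn K C : ℕ) : 𝓞 K) ∈ (I1' : Ideal (𝓞 K)) := by
      rw [hN]
      exact h'.nI
    have hx : x ∈ (I1' : Ideal (𝓞 K)) := by
      have e : x = x' + ((m' - m : ℤ) : 𝓞 K) * ((mn K C : ℕ) : 𝓞 K) := by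
        rw [← hN] at he
        push_cast at he ⊢
        linear_combination he
      rw [e]
      exact Ideal.add_mem _ h'.mx (Ideal.mul_mem_left _ _ hN')
    exact Ideal.add_mem _ (Ideal.mul_mem_left _ _ hN') (Ideal.mul_mem_left _ _ hx)
  have h5 := key C C' I I1 I' I1' x x' b b' m m' h h' hN h3
  have h6 := key C' C I' I1' I I1 x' x b' b m' m h' h hN.symm h3.symm
  have h7 : I1 = I1' := Subtype.ext (le_antisymm h5 h6)
  have h8 := h.ci.cJ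
  have h9 := h'.ci.cJ
  rw [h7, h9, h.cl, h'.cl] at h8
  exact (inv_injective h8).symm

end Pool.Agent.PP5
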