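import Pool.Agent.PP5.A1Box
import Pool.Agent.PP5.A1Rd
import Pool.Agent.PP5.A1Pr
import Pool.Agent.FTA.Uniq

/-!
# PP5/A1Main: the classes of order 5 and the points of the box
-/

set_option autoImplicit false

namespace Pool.Agent.PP5

open NumberField Pool.Agent.FTA Pool.Agent.FTB Pool.Agent.SMI nonZeroDivisors

/-- the classes in a dyadic box -/
def Tc (K : IntermediateField ℚ ℂ) [NumberField K] (M1 M2 : ℝ) (A : ClassGroup (𝓞 K)) : Prop :=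
  A ^ 5 = 1 ∧ A ≠ 1 ∧ M1 ≤ (mn K A : ℝ) ∧ (mn K A : ℝ) < 2 * M1 ∧ M2 ≤ (mn K (A ^ 2) : ℝ) ∧
    (mn K (A ^ 2) : ℝ) < 2 * M2

theorem bsz {N n : ℕ} {D : ℕ} {y : ℝ} (b m : ℤ) (hb : |b| ≤ N) (hm : |m| ≤ n)
    (hN : N ^ 2 ≤ D) (hn : (n : ℝ) * N ≤ y ^ 2) (hD : y ^ 4 ≤ D) (T : ℕ)
    (hT : 4 * (T : ℤ) = (b + 2 * (m * (N : ℕ))) ^ 2 + (D : ℤ) * 1 ^ 2) :
    (T : ℝ) ≤ 5 / 2 * D := by
  have h1 : (N : ℝ) ^ 2 ≤ D := by exact_mod_cast hN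
  have h2 : ((n : ℝ) * N) ^ 2 ≤ D := by
    have := pow_le_pow_left₀ (by positivity : (0 : ℝ) ≤ (n : ℝ) * N) hn 2
    nlinarith
  have h3 : |((b + 2 * (m * (N : ℕ)) : ℤ) : ℝ)| ≤ N + 2 * (n * N) := by
    push_cast
    have hb' : |(b : ℝ)| ≤ N := by exact_mod_cast hb
    have hm' : |(m : ℝ)| ≤ n := by exact_mod_cast hm
    calc |(b : ℝ) + 2 * (m * N)| ≤ |(b : ℝ)| + |2 * ((m : ℝ) * N)| := abs_add_le _ _
      _ = |(b : ℝ)| + 2 * (|(m : ℝ)| * N) := by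
        have hNa : |(N : ℝ)| = N := abs_of_nonneg (Nat.cast_nonneg N)
        rw [abs_mul, abs_mul, abs_two, hNa]
      _ ≤ N + 2 * (n * N) := by
        have := mul_le_mul_of_nonneg_right hm' (Nat.cast_nonneg (α := ℝ) N)
        linarith
  have h4 : ((b + 2 * (m * (N : ℕ)) : ℤ) : ℝ) ^ 2 ≤ (N + 2 * (n * N)) ^ 2 := by
    rw [← sq_abs]
    exact pow_le_pow_left₀ (abs_nonneg _) h3 2
  have h5 : 4 * (T : ℝ) = ((b + 2 * (m * (N : ℕ)) : ℤ) : ℝ) ^ 2 + (D : ℝ) * 1 ^ 2 := by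
    exact_mod_cast hT
  have h6 : (N + 2 * ((n : ℝ) * N)) ^ 2 ≤ 9 * D := by
    nlinarith [sq_nonneg ((N : ℝ) - (n : ℝ) * N)]
  linarith

/-- the points attached to the classes of one field -/
theorem a1K (K : IntermediateField ℚ ℂ) [NumberField K] (h2 : Module.finrank ℚ K = 2)
    (him : ∃ x : K, (x : ℂ).im ≠ 0) (X y t1 t2 M1 M2 : ℝ) (hy : 0 < y) (h1 : 0 < t1)
    (h3 : 0 < t2) (hM1 : 0 < M1) (hM2 : 0 < M2) (hX : y ^ 4 = X) (hA : M1 * t1 ^ 2 = y ^ 2)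
    (hB : M2 * t2 ^ 2 = y ^ 2) (hD1 : X ≤ (aD K : ℝ)) (hD2 : (aD K : ℝ) < 2 * X) (n1 n2 : ℕ)
    (hn1 : 2 * (n1 : ℝ) ≤ t1 ^ 2) (hn2 : 2 * (n2 : ℝ) ≤ t2 ^ 2) :
    ∃ S : Finset Sp, (∀ P ∈ S, InP 16 X y t1 t2 P ∧ Df P = -(aD K : ℤ)) ∧
      Nat.card {A : ClassGroup (𝓞 K) // Tc K M1 M2 A} * ((2 * n1 + 1) * (2 * n2 + 1)) ≤
        S.card := by
  classical
  choose IA I1A xA bA hR using rd K h2 him
  have hF : ∀ (A : ClassGroup (𝓞 K)) (m m' : ℤ), ∃ P : Sp, A ^ 5 = 1 →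
      Qd P ∧ Nf P = mn K A ∧ Kf P = mn K (A ^ 2) ∧ Bf P = bA A + 2 * (m * (mn K A : ℕ)) ∧
      Bg P = bA (A ^ 2) + 2 * (m' * (mn K (A ^ 2) : ℕ)) ∧ Df P = -(aD K : ℤ) ∧
      (A ≠ 1 → ∀ v1 v2 w1 w2 : ℤ, (v1 ≠ 0 ∨ v2 ≠ 0) → (w1 ≠ 0 ∨ w2 ≠ 0) →
        Pf P v1 v2 w1 w2 = 0 → Rf P v1 v2 w1 w2 ≠ 0) ∧
      ∃ T R : ℕ, Sz (aD K) (mn K A) (mn K (A ^ 2)) T R P ∧
        4 * (T : ℤ) = (bA A + 2 * (m * (mn K A : ℕ))) ^ 2 + (aD K : ℤ) * 1 ^ 2 ∧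
        4 * (R : ℤ) = (bA (A ^ 2) + 2 * (m' * (mn K (A ^ 2) : ℕ))) ^ 2 +
          (aD K : ℤ) * 1 ^ 2 := by
    intro A m m'
    by_cases hA5 : A ^ 5 = 1
    · have hr1 := hR A
      have hr2 := hR (A ^ 2)
      have c1 := co_addz K _ _ _ (m * (mn K A : ℕ)) hr1.co
      have c2 := co_addz K _ _ _ (m' * (mn K (A ^ 2) : ℕ)) hr2.co
      have m1 : xA A + ((m * (mn K A : ℕ) : ℤ) : 𝓞 K) ∈ (I1A A : Ideal (𝓞 K)) := by
        push_cast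
        exact Ideal.add_mem _ hr1.mx (Ideal.mul_mem_left _ _ hr1.nI)
      have m2 : xA (A ^ 2) + ((m' * (mn K (A ^ 2) : ℕ) : ℤ) : 𝓞 K) ∈
          (I1A (A ^ 2) : Ideal (𝓞 K)) := by
        push_cast
        exact Ideal.add_mem _ hr2.mx (Ideal.mul_mem_left _ _ hr2.nI)
      obtain ⟨P, q1, q2, q3, q4, q5, q6, qn, q7⟩ := idl K h2 him A hA5 (IA A) (IA (A ^ 2)) (I1A A)
        (I1A (A ^ 2)) hr1.cl hr2.cl (mn K A) (mn K (A ^ 2)) hr1.ci.n1 hr2.ci.n1 hr1.ci.nI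
        hr2.ci.nI (by rw [hr1.ci.cJ]) hr1.ci.IJ hr2.ci.IJ hr2.ci.nJ hr2.ci.cJ _ _ _ _ c1 c2 m1 m2
      exact ⟨P, fun _ => ⟨q1, q2, q3, q4, q5, q6, qn, _, _, q7, co_norm K h2 him _ _ _ c1,
        co_norm K h2 him _ _ _ c2⟩⟩
    · exact ⟨0, fun h => absurd h hA5⟩
  choose F hF using hF
  set U : Finset (ClassGroup (𝓞 K)) := Finset.univ.filter fun A => Tc K M1 M2 A with hU
  set V : Finset (ClassGroup (𝓞 K) × ℤ × ℤ) :=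
    U ×ˢ (Finset.Icc (-(n1 : ℤ)) n1 ×ˢ Finset.Icc (-(n2 : ℤ)) n2) with hV
  have hmem : ∀ a ∈ V, Tc K M1 M2 a.1 ∧ |a.2.1| ≤ (n1 : ℤ) ∧ |a.2.2| ≤ (n2 : ℤ) := by
    intro a ha
    rw [hV, Finset.mem_product, Finset.mem_product, Finset.mem_Icc, Finset.mem_Icc, hU,
      Finset.mem_filter] at ha
    exact ⟨ha.1.2, abs_le.2 ha.2.1, abs_le.2 ha.2.2⟩
  refine ⟨V.image fun a => F a.1 a.2.1 a.2.2, ?_, ?_⟩
  · intro P hP
    obtain ⟨a, ha, rfl⟩ := Finset.mem_image.1 hP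
    obtain ⟨⟨hA5, hA1, e1, e2, e3, e4⟩, hm1, hm2⟩ := hmem a ha
    obtain ⟨q1, q2, q3, -, -, q6, qn, T, R, q7, q8, q9⟩ := hF a.1 a.2.1 a.2.2 hA5
    have hDd : -((Df (F a.1 a.2.1 a.2.2) : ℤ) : ℝ) = (aD K : ℝ) := by
      rw [q6]
      push_cast
      ring
    have hyD : y ^ 4 ≤ (aD K : ℝ) := by rw [hX]; exact hD1
    have t1p : 0 < t1 ^ 2 := by positivity
    have t2p : 0 < t2 ^ 2 := by positivity
    have N0 : (0 : ℝ) < (mn K a.1 : ℝ) := lt_of_lt_of_le hM1 e1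
    have k0 : (0 : ℝ) < (mn K (a.1 ^ 2) : ℝ) := lt_of_lt_of_le hM2 e3
    obtain ⟨-, -, -, -, s1⟩ := mn_spec K h2 a.1
    obtain ⟨-, -, -, -, s2⟩ := mn_spec K h2 (a.1 ^ 2)
    have f1 : (n1 : ℝ) * (mn K a.1 : ℝ) ≤ y ^ 2 := by
      have g1 := mul_le_mul_of_nonneg_right hn1 N0.le
      have g2 := mul_le_mul_of_nonneg_left e2.le t1p.le
      nlinarith
    have f2 : (n2 : ℝ) * (mn K (a.1 ^ 2) : ℝ) ≤ y ^ 2 := by
      have g1 := mul_le_mul_of_nonneg_right hn2 k0.le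
      have g2 := mul_le_mul_of_nonneg_left e4.le t2p.le
      nlinarith
    have g1 : y ^ 2 ≤ (mn K a.1 : ℝ) * t1 ^ 2 := by
      rw [← hA]; exact mul_le_mul_of_nonneg_right e1 t1p.le
    have g2 : (mn K a.1 : ℝ) * t1 ^ 2 < 2 * y ^ 2 := by
      rw [← hA, ← mul_assoc]; exact mul_lt_mul_of_pos_right e2 t1p
    have g3 : y ^ 2 ≤ (mn K (a.1 ^ 2) : ℝ) * t2 ^ 2 := by
      rw [← hB]; exact mul_le_mul_of_nonneg_right e3 t2p.le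
    have g4 : (mn K (a.1 ^ 2) : ℝ) * t2 ^ 2 < 2 * y ^ 2 := by
      rw [← hB, ← mul_assoc]; exact mul_lt_mul_of_pos_right e4 t2p
    have hNf : ((Nf (F a.1 a.2.1 a.2.2) : ℤ) : ℝ) = (mn K a.1 : ℝ) := by
      rw [q2]
      push_cast
      rfl
    have hKf : ((Kf (F a.1 a.2.1 a.2.2) : ℤ) : ℝ) = (mn K (a.1 ^ 2) : ℝ) := by
      rw [q3]
      push_cast
      rfl
    refine ⟨⟨q1, by rw [hDd]; exact hD1, by rw [hDd]; exact hD2, ?_, by rw [hNf]; exact g1,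
      by rw [hNf]; exact g2, by rw [hKf]; exact g3, by rw [hKf]; exact g4,
      fun l hl => pprim K h2 him _ q6 l hl, qn hA1⟩, q6⟩
    intro i
    apply bxa q7
    constructor
    · exact hy
    · exact h1
    · exact h3
    · exact N0
    · exact k0
    · exact hyD
    · rw [hX]; exact hD2.le
    · exact g1
    · exact g2.le
    · exact g3
    · exact g4.le
    · exact Nat.cast_nonneg _
    · exact bsz _ _ (hR a.1).bb hm1 s1 f1 hyD T q8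
    · exact Nat.cast_nonneg _
    · exact bsz _ _ (hR (a.1 ^ 2)).bb hm2 s2 f2 hyD R q9
  · have hcard : (V.image fun a => F a.1 a.2.1 a.2.2).card = V.card := by
      apply Finset.card_image_of_injOn
      intro a ha a' ha' haa
      obtain ⟨⟨hA5, -⟩, -, -⟩ := hmem a ha
      obtain ⟨⟨hA5', -⟩, -, -⟩ := hmem a' ha'
      have haa' : F a.1 a.2.1 a.2.2 = F a'.1 a'.2.1 a'.2.2 := haa
      obtain ⟨-, q2, q3, q4, q5, -⟩ := hF a.1 a.2.1 a.2.2 hA5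
      obtain ⟨-, q2', q3', q4', q5', -⟩ := hF a'.1 a'.2.1 a'.2.2 hA5'
      rw [haa'] at q2 q3 q4 q5
      have hN : mn K a.1 = mn K a'.1 := by exact_mod_cast q2.symm.trans q2'
      have hC := rd_eq K _ _ _ _ _ _ _ _ _ _ _ _ (hR a.1) (hR a'.1) hN (q4.symm.trans q4')
      have p1 := mn_pos K h2 a'.1
      have p2 := mn_pos K h2 (a'.1 ^ 2)
      have r1 := q4.symm.trans q4'
      have r2 := q5.symm.trans q5'
      rw [hC] at r1 r2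
      have s1 : a.2.1 * ((mn K a'.1 : ℕ) : ℤ) = a'.2.1 * ((mn K a'.1 : ℕ) : ℤ) := by linarith
      have s2 : a.2.2 * ((mn K (a'.1 ^ 2) : ℕ) : ℤ) =
          a'.2.2 * ((mn K (a'.1 ^ 2) : ℕ) : ℤ) := by linarith
      have u1 := mul_right_cancel₀ (by
        have : mn K a'.1 ≠ 0 := by omega
        exact_mod_cast this) s1
      have u2 := mul_right_cancel₀ (by
        have : mn K (a'.1 ^ 2) ≠ 0 := by omega
        exact_mod_cast this) s2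
      exact Prod.ext hC (Prod.ext u1 u2)
    rw [hcard, hV, Finset.card_product, Finset.card_product, Int.card_Icc, Int.card_Icc,
      Nat.card_eq_fintype_card, Fintype.card_subtype]
    have c1 : ((n1 : ℤ) + 1 - -(n1 : ℤ)).toNat = 2 * n1 + 1 := by omega
    have c2 : ((n2 : ℤ) + 1 - -(n2 : ℤ)).toNat = 2 * n2 + 1 := by omega
    rw [c1, c2]

/-- the sum over the fields -/
theorem a1M (X y t1 t2 M1 M2 B : ℝ) (hy : 0 < y) (h1 : 0 < t1)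
    (h3 : 0 < t2) (hM1 : 0 < M1) (hM2 : 0 < M2) (hX : y ^ 4 = X) (hA : M1 * t1 ^ 2 = y ^ 2)
    (hB : M2 * t2 ^ 2 = y ^ 2)
    (hS : ∀ S : Finset Sp, (∀ P ∈ S, InP 16 X y t1 t2 P) → (S.card : ℝ) ≤ B)
    (F : Finset (IntermediateField ℚ ℂ)) (n : IntermediateField ℚ ℂ → ℕ)
    (hF : ∀ K ∈ F, ∃ _ : NumberField K, Module.finrank ℚ K = 2 ∧ (∃ x : K, (x : ℂ).im ≠ 0) ∧
      X ≤ (aD K : ℝ) ∧ (aD K : ℝ) < 2 * X ∧
      n K ≤ Nat.card {A : ClassGroup (𝓞 K) // Tc K M1 M2 A}) :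
    ∑ K ∈ F, (n K : ℝ) ≤ 4 * B / (t1 ^ 2 * t2 ^ 2) := by
  classical
  have t1p : 0 < t1 ^ 2 := by positivity
  have t2p : 0 < t2 ^ 2 := by positivity
  have hT1 : 2 * ((⌊t1 ^ 2 / 2⌋₊ : ℕ) : ℝ) ≤ t1 ^ 2 := by
    have := Nat.floor_le (by positivity : 0 ≤ t1 ^ 2 / 2)
    linarith
  have hT2 : 2 * ((⌊t2 ^ 2 / 2⌋₊ : ℕ) : ℝ) ≤ t2 ^ 2 := by
    have := Nat.floor_le (by positivity : 0 ≤ t2 ^ 2 / 2)
    linarith
  have hU1 : t1 ^ 2 / 2 ≤ 2 * ((⌊t1 ^ 2 / 2⌋₊ : ℕ) : ℝ) + 1 := by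
    have := Nat.lt_floor_add_one (t1 ^ 2 / 2)
    have h0 : (0 : ℝ) ≤ ((⌊t1 ^ 2 / 2⌋₊ : ℕ) : ℝ) := Nat.cast_nonneg _
    linarith
  have hU2 : t2 ^ 2 / 2 ≤ 2 * ((⌊t2 ^ 2 / 2⌋₊ : ℕ) : ℝ) + 1 := by
    have := Nat.lt_floor_add_one (t2 ^ 2 / 2)
    have h0 : (0 : ℝ) ≤ ((⌊t2 ^ 2 / 2⌋₊ : ℕ) : ℝ) := Nat.cast_nonneg _
    linarith
  set n1 := ⌊t1 ^ 2 / 2⌋₊
  set n2 := ⌊t2 ^ 2 / 2⌋₊
  have hloc : ∀ K : IntermediateField ℚ ℂ, ∃ S : Finset Sp, K ∈ F →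
      (∀ P ∈ S, InP 16 X y t1 t2 P ∧ Df P = -(aD K : ℤ)) ∧
        n K * ((2 * n1 + 1) * (2 * n2 + 1)) ≤ S.card := by
    intro K
    by_cases hK : K ∈ F
    · obtain ⟨i1, i2, i3, i4, i5, i6⟩ := hF K hK
      obtain ⟨S, hS1, hS2⟩ := a1K K i2 i3 X y t1 t2 M1 M2 hy h1 h3 hM1 hM2 hX hA hB i4 i5 n1 n2
        hT1 hT2
      exact ⟨S, fun _ => ⟨hS1, (Nat.mul_le_mul_right _ i6).trans hS2⟩⟩
    · exact ⟨∅, fun h => absurd h hK⟩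
  choose S hS' using hloc
  have h5 : (F.biUnion S).card = ∑ K ∈ F, (S K).card := by
    apply Finset.card_biUnion
    intro K hK K' hK' hne
    apply Finset.disjoint_left.2
    intro P hP hP'
    apply hne
    have i1 := ((hS' K hK).1 P hP).2
    have i2 := ((hS' K' hK').1 P hP').2
    rw [i1] at i2
    have i3 : aD K = aD K' := by
      have : ((aD K : ℕ) : ℤ) = ((aD K' : ℕ) : ℤ) := by linarith
      exact_mod_cast this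
    obtain ⟨j1, j2, j3, -⟩ := hF K hK
    obtain ⟨k1, k2, k3, -⟩ := hF K' hK'
    exact uniq K K' j2 j3 k2 k3 i3
  have h6 : ((F.biUnion S).card : ℝ) ≤ B := by
    apply hS
    intro P hP
    obtain ⟨K, hK, hPK⟩ := Finset.mem_biUnion.1 hP
    exact ((hS' K hK).1 P hPK).1
  rw [h5] at h6
  push_cast at h6
  have h7 : (∑ K ∈ F, (n K : ℝ)) * ((2 * n1 + 1) * (2 * n2 + 1)) ≤ B := by
    refine le_trans ?_ h6
    rw [Finset.sum_mul]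
    apply Finset.sum_le_sum
    intro K hK
    exact_mod_cast (hS' K hK).2
  have h8 : (t1 ^ 2 / 2) * (t2 ^ 2 / 2) ≤ (2 * (n1 : ℝ) + 1) * (2 * (n2 : ℝ) + 1) :=
    mul_le_mul hU1 hU2 (by positivity) (by positivity)
  have h9 : 0 ≤ ∑ K ∈ F, (n K : ℝ) := Finset.sum_nonneg fun K _ => Nat.cast_nonneg _
  rw [le_div_iff₀ (by positivity)]
  have h10 := mul_le_mul_of_nonneg_left h8 h9
  linarith

end Pool.Agent.PP5
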