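import Pool.Agent.PP5.A1El
import Pool.Agent.FTA.PowLe

/-!
# PP5/A1Nd: `P(v, v; w) = 0 = R(v; w, w)` implies `A = 1`

With `x = v1 N + v2 s`, `z = w1 k + w2 r'` one gets `x ^ 5 β ^ 2 γ = x' ^ 5 β' ^ 2 γ'` (`ax_nd`), so
`((x) I) ^ 5 = ((x') I1) ^ 5`, `(x) I = (x') I1`, `A = A⁻¹`.
-/

set_option autoImplicit false

namespace Pool.Agent.PP5

open NumberField Pool.Agent.FTA Pool.Agent.FTB Pool.Agent.SMI nonZeroDivisors

theorem cv_inj (K : IntermediateField ℚ ℂ) [NumberField K] (a b : 𝓞 K) (h : cv K a = cv K b) :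
    a = b := by
  unfold cv at h
  exact RingOfIntegers.ext (Subtype.ext h)

theorem cv_add (K : IntermediateField ℚ ℂ) [NumberField K] (a b : 𝓞 K) :
    cv K (a + b) = cv K a + cv K b := by
  unfold cv
  push_cast
  rfl

theorem cv_int (K : IntermediateField ℚ ℂ) [NumberField K] (n : ℤ) :
    cv K (n : 𝓞 K) = n := by
  unfold cv
  simp

theorem cv_pow (K : IntermediateField ℚ ℂ) [NumberField K] (a : 𝓞 K) (n : ℕ) :
    cv K (a ^ n) = cv K a ^ n := by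
  unfold cv
  push_cast
  rfl

/-- the conjugate of a generator -/
theorem cjg (K : IntermediateField ℚ ℂ) [NumberField K] (Q Q' : Ideal (𝓞 K)) (β β' : 𝓞 K)
    (n : ℕ) (hQ : Q = Ideal.span {β}) (hn : β * β' = (n : 𝓞 K)) (hQQ : Q * Q' = Ideal.span {(n : 𝓞 K)})
    (h0 : Q ≠ 0) : Q' = Ideal.span {β'} := by
  apply mul_left_cancel₀ h0
  rw [hQQ, hQ, Ideal.span_singleton_mul_span_singleton, hn]

theorem nd_core (K : IntermediateField ℚ ℂ) [NumberField K] (h2 : Module.finrank ℚ K = 2)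
    (him : ∃ x : K, (x : ℂ).im ≠ 0) (A : ClassGroup (𝓞 K)) (hA : A ^ 5 = 1) (hA1 : A ≠ 1)
    (I J I1 J1 : (Ideal (𝓞 K))⁰) (hI : ClassGroup.mk0 I = A)
    (hIc : ClassGroup.mk0 I1 = (ClassGroup.mk0 I)⁻¹)
    (N k : ℕ) (hN0 : 1 ≤ N) (hk0 : 1 ≤ k)
    (hI1 : (I : Ideal (𝓞 K)) * (I1 : Ideal (𝓞 K)) = Ideal.span {(N : 𝓞 K)})
    (hJ1 : (J : Ideal (𝓞 K)) * (J1 : Ideal (𝓞 K)) = Ideal.span {(k : 𝓞 K)})
    (s r β γ : 𝓞 K) (b1 b2 : ℤ) (hs : Co K s b1 1) (hr : Co K r b2 1)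
    (hβI : (I : Ideal (𝓞 K)) ^ 2 * (J1 : Ideal (𝓞 K)) = Ideal.span {β})
    (hγI : (J : Ideal (𝓞 K)) ^ 2 * (I : Ideal (𝓞 K)) = Ideal.span {γ})
    (hnβ : Ideal.absNorm (Ideal.span {β}) = N ^ 2 * k)
    (hnγ : Ideal.absNorm (Ideal.span {γ}) = k ^ 2 * N) (P : Sp)
    (hCx : Cx (cv K s) (cv K r) (cv K β) ((starRingEnd ℂ) (cv K β)) (cv K γ)
      ((starRingEnd ℂ) (cv K γ)) (N : ℂ) (k : ℂ) (wK K) (fun i => ((P i : ℤ) : ℂ)))
    (v1 v2 w1 w2 : ℤ) (hv : v1 ≠ 0 ∨ v2 ≠ 0) (hw : w1 ≠ 0 ∨ w2 ≠ 0)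
    (hP : Pf P v1 v2 w1 w2 = 0) (hR : Rf P v1 v2 w1 w2 = 0) : False := by
  have hI0 : (I : Ideal (𝓞 K)) ≠ 0 := nonZeroDivisors.coe_ne_zero I
  have hJ0 : (J : Ideal (𝓞 K)) ≠ 0 := nonZeroDivisors.coe_ne_zero J
  have hJ10 : (J1 : Ideal (𝓞 K)) ≠ 0 := nonZeroDivisors.coe_ne_zero J1
  -- conjugates
  obtain ⟨s', hs', -⟩ := cvj K h2 him s
  obtain ⟨β', hβ', hββ⟩ := cvj K h2 him β
  obtain ⟨γ', hγ', hγγ⟩ := cvj K h2 him γ
  rw [hnβ] at hββ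
  rw [hnγ] at hγγ
  have hβI' : (I1 : Ideal (𝓞 K)) ^ 2 * (J : Ideal (𝓞 K)) = Ideal.span {β'} := by
    apply cjg K _ _ β β' (N ^ 2 * k) hβI hββ
    · push_cast
      rw [← Ideal.span_singleton_mul_span_singleton, ← Ideal.span_singleton_pow, ← hI1, ← hJ1]
      ring
    · exact mul_ne_zero (pow_ne_zero 2 hI0) hJ10
  have hγI' : (J1 : Ideal (𝓞 K)) ^ 2 * (I1 : Ideal (𝓞 K)) = Ideal.span {γ'} := by
    apply cjg K _ _ γ γ' (k ^ 2 * N) hγI hγγ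
    · push_cast
      rw [← Ideal.span_singleton_mul_span_singleton, ← Ideal.span_singleton_pow, ← hI1, ← hJ1]
      ring
    · exact mul_ne_zero (pow_ne_zero 2 hJ0) hI0
  have hsw : cv K s' = cv K s - wK K := by
    have h := imc K s s 1 b1 1 (by simp) hs
    push_cast at h
    rw [hs']
    linear_combination h
  have hN' : (N : ℂ) ≠ 0 := by
    have : N ≠ 0 := by omega
    exact_mod_cast this
  have hk' : (k : ℂ) ≠ 0 := by
    have : k ≠ 0 := by omega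
    exact_mod_cast this
  -- non-vanishing
  have hnz : ∀ (b u1 u2 : ℤ) (n : ℂ) (a : ℂ), n ≠ 0 → (starRingEnd ℂ) n = n →
      2 * a = b + wK K ∨ 2 * a = b - wK K → (u1 ≠ 0 ∨ u2 ≠ 0) → (u1 : ℂ) * n + u2 * a ≠ 0 := by
    intro b u1 u2 n a hn hnc ha hu h0
    have e1 : (starRingEnd ℂ) (u1 : ℂ) = (u1 : ℂ) := by simp
    have e2 : (starRingEnd ℂ) (u2 : ℂ) = (u2 : ℂ) := by simp
    have e3 : (starRingEnd ℂ) (2 : ℂ) = 2 := map_ofNat _ 2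
    have e4 : (starRingEnd ℂ) (b : ℂ) = (b : ℂ) := by simp
    have h1 := congrArg (starRingEnd ℂ) h0
    simp only [map_mul, map_add, map_zero, e1, e2, hnc] at h1
    have h3 : (u2 : ℂ) * wK K = 0 := by
      rcases ha with ha | ha
      · have ha' := congrArg (starRingEnd ℂ) ha
        simp only [map_mul, map_add, e3, e4, wK_conj] at ha'
        linear_combination h0 - h1 - (u2 : ℂ) / 2 * ha + (u2 : ℂ) / 2 * ha'
      · have ha' := congrArg (starRingEnd ℂ) ha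
        simp only [map_mul, map_sub, e3, e4, wK_conj] at ha'
        linear_combination -(h0 - h1) + (u2 : ℂ) / 2 * ha - (u2 : ℂ) / 2 * ha'
    have h4 : (u2 : ℂ) = 0 := (mul_eq_zero.1 h3).resolve_right (wK_ne K)
    rw [h4, zero_mul, add_zero] at h0
    have h5 : (u1 : ℂ) = 0 := (mul_eq_zero.1 h0).resolve_right hn
    rcases hu with hu | hu
    · exact hu (by exact_mod_cast h5)
    · exact hu (by exact_mod_cast h4)
  have hsc := co_cv K s b1 1 hs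
  have hrc := co_cv K r b2 1 hr
  push_cast at hsc hrc
  rw [one_mul] at hsc hrc
  have hNc : (starRingEnd ℂ) (N : ℂ) = N := Complex.conj_natCast N
  have hkc : (starRingEnd ℂ) (k : ℂ) = k := Complex.conj_natCast k
  have hz := hnz b2 w1 w2 k (cv K r) hk' hkc (Or.inl hrc) hw
  have hz' := hnz b2 w1 w2 k (cv K r - wK K) hk' hkc (Or.inr (by linear_combination hrc)) hw
  have hx := hnz b1 v1 v2 N (cv K s) hN' hNc (Or.inl hsc) hv
  have hx' := hnz b1 v1 v2 N (cv K s - wK K) hN' hNc (Or.inr (by linear_combination hsc)) hv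
  have hP' : (w1 : ℂ) * ((P 0 : ℂ) * (v1 : ℂ) ^ 2 + 2 * (P 1 : ℂ) * v1 * v2 +
      (P 2 : ℂ) * (v2 : ℂ) ^ 2) + w2 * ((P 3 : ℂ) * (v1 : ℂ) ^ 2 + 2 * (P 4 : ℂ) * v1 * v2 +
      (P 5 : ℂ) * (v2 : ℂ) ^ 2) = 0 := by
    unfold Pf at hP
    exact_mod_cast hP
  have hR' : (v1 : ℂ) * ((P 6 : ℂ) * (w1 : ℂ) ^ 2 + 2 * (P 7 : ℂ) * w1 * w2 +
      (P 8 : ℂ) * (w2 : ℂ) ^ 2) + v2 * ((P 9 : ℂ) * (w1 : ℂ) ^ 2 + 2 * (P 10 : ℂ) * w1 * w2 +
      (P 11 : ℂ) * (w2 : ℂ) ^ 2) = 0 := by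
    unfold Rf at hR
    exact_mod_cast hR
  have key := ax_nd hCx v1 v2 w1 w2 hP' hR' hz hz'
  set x : 𝓞 K := (v1 : 𝓞 K) * (N : 𝓞 K) + (v2 : 𝓞 K) * s with hxd
  set x' : 𝓞 K := (v1 : 𝓞 K) * (N : 𝓞 K) + (v2 : 𝓞 K) * s' with hxd'
  have cx : cv K x = (v1 : ℂ) * N + v2 * cv K s := by
    rw [hxd, cv_add, cv_mul, cv_mul, cv_int, cv_int, cv_nat]
  have cx' : cv K x' = (v1 : ℂ) * N + v2 * (cv K s - wK K) := by
    rw [hxd', cv_add, cv_mul, cv_mul, cv_int, cv_int, cv_nat, hsw]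
  have hxe : x ^ 5 * (β ^ 2 * γ) = x' ^ 5 * (β' ^ 2 * γ') := by
    apply cv_inj K
    rw [cv_mul, cv_mul, cv_mul, cv_mul, cv_pow, cv_pow, cv_pow, cv_pow, cx, cx', hβ', hγ']
    exact key
  have hx0 : x ≠ 0 := by
    intro h
    rw [h] at cx
    apply hx
    rw [← cx]
    unfold cv
    simp
  have hx0' : x' ≠ 0 := by
    intro h
    rw [h] at cx'
    apply hx'
    rw [← cx']
    unfold cv
    simp
  -- ideals
  have hid : (Ideal.span {x} * (I : Ideal (𝓞 K))) ^ 5 = (Ideal.span {x'} * (I1 : Ideal (𝓞 K))) ^ 5 := by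
    have h : Ideal.span {x ^ 5 * (β ^ 2 * γ)} = Ideal.span {x' ^ 5 * (β' ^ 2 * γ')} := by rw [hxe]
    rw [← Ideal.span_singleton_mul_span_singleton, ← Ideal.span_singleton_mul_span_singleton,
      ← Ideal.span_singleton_mul_span_singleton, ← Ideal.span_singleton_mul_span_singleton,
      ← Ideal.span_singleton_pow, ← Ideal.span_singleton_pow, ← Ideal.span_singleton_pow,
      ← Ideal.span_singleton_pow, ← hβI, ← hγI, ← hβI', ← hγI'] at h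
    have h0 : ((J : Ideal (𝓞 K)) * (J1 : Ideal (𝓞 K))) ^ 2 ≠ 0 :=
      pow_ne_zero 2 (mul_ne_zero hJ0 hJ10)
    apply mul_left_cancel₀ h0
    calc ((J : Ideal (𝓞 K)) * (J1 : Ideal (𝓞 K))) ^ 2 *
          (Ideal.span {x} * (I : Ideal (𝓞 K))) ^ 5 =
          Ideal.span {x} ^ 5 * (((I : Ideal (𝓞 K)) ^ 2 * (J1 : Ideal (𝓞 K))) ^ 2 *
            ((J : Ideal (𝓞 K)) ^ 2 * (I : Ideal (𝓞 K)))) := by ring
      _ = Ideal.span {x'} ^ 5 * (((I1 : Ideal (𝓞 K)) ^ 2 * (J : Ideal (𝓞 K))) ^ 2 *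
            ((J1 : Ideal (𝓞 K)) ^ 2 * (I1 : Ideal (𝓞 K)))) := h
      _ = ((J : Ideal (𝓞 K)) * (J1 : Ideal (𝓞 K))) ^ 2 *
          (Ideal.span {x'} * (I1 : Ideal (𝓞 K))) ^ 5 := by ring
  have hid1 := powEq (𝓞 K) _ _ 5 (by norm_num) hid
  have hS0 : Ideal.span {x} ≠ 0 := by
    rw [Ne, Ideal.zero_eq_bot, Ideal.span_singleton_eq_bot]
    exact hx0
  have hS0' : Ideal.span {x'} ≠ 0 := by
    rw [Ne, Ideal.zero_eq_bot, Ideal.span_singleton_eq_bot]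
    exact hx0'
  let S : (Ideal (𝓞 K))⁰ := ⟨Ideal.span {x}, mem_nonZeroDivisors_iff_ne_zero.2 hS0⟩
  let S' : (Ideal (𝓞 K))⁰ := ⟨Ideal.span {x'}, mem_nonZeroDivisors_iff_ne_zero.2 hS0'⟩
  have hSS : S * I = S' * I1 := Subtype.ext hid1
  have hS1 : ClassGroup.mk0 S = 1 := by
    rw [ClassGroup.mk0_eq_one_iff]
    exact ⟨x, rfl⟩
  have hS1' : ClassGroup.mk0 S' = 1 := by
    rw [ClassGroup.mk0_eq_one_iff]
    exact ⟨x', rfl⟩
  have hcl := congrArg ClassGroup.mk0 hSS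
  rw [map_mul, map_mul, hS1, hS1', one_mul, one_mul, hIc, hI] at hcl
  have hA2 : A ^ 2 = 1 := by
    rw [pow_two]
    nth_rewrite 1 [hcl]
    exact inv_mul_cancel A
  apply hA1
  calc A = A ^ 5 * ((A ^ 2) ^ 2)⁻¹ := by group
    _ = 1 := by rw [hA, hA2]; group

end Pool.Agent.PP5
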