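import Mathlib

/-!
# PP5, dual side: a reduced basis of a lattice in a real inner product space

`red d`: there is a constant `C` such that every lattice `L` (additive subgroup, finitely many points in every ball)
in a real subspace of dimension at most `d` has a basis `b` with `|c i| * ‖b i‖ ≤ C * ‖∑ c i • b i‖` for all
integer vectors `c`.
-/

namespace Pool.Agent.PP5

open Module

variable {V : Type*} [NormedAddCommGroup V] [InnerProductSpace ℝ V]

/-- the projection orthogonal to `b` -/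
noncomputable def prj (b : V) : V →ₗ[ℝ] V where
  toFun v := v - (inner ℝ b v / ‖b‖ ^ 2) • b
  map_add' v w := by
    rw [inner_add_right, add_div, add_smul]; abel
  map_smul' a v := by
    simp only [RingHom.id_apply]
    rw [inner_smul_right, smul_sub, smul_smul, mul_div_assoc]

theorem prj_apply (b v : V) : prj b v = v - (inner ℝ b v / ‖b‖ ^ 2) • b := rfl

theorem prj_self {b : V} (hb : b ≠ 0) : prj b b = 0 := by
  have : ‖b‖ ^ 2 ≠ 0 := pow_ne_zero 2 (norm_ne_zero_iff.mpr hb)
  rw [prj_apply, real_inner_self_eq_norm_sq, div_self this, one_smul, sub_self]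

theorem prj_inner {b : V} (hb : b ≠ 0) (v : V) : inner ℝ b (prj b v) = 0 := by
  have : ‖b‖ ^ 2 ≠ 0 := pow_ne_zero 2 (norm_ne_zero_iff.mpr hb)
  rw [prj_apply, inner_sub_right, inner_smul_right, real_inner_self_eq_norm_sq, div_mul_cancel₀ _ this,
    sub_self]

theorem prj_norm {b : V} (hb : b ≠ 0) (v : V) : ‖prj b v‖ ≤ ‖v‖ := by
  have h1 : v = prj b v + (inner ℝ b v / ‖b‖ ^ 2) • b := by rw [prj_apply]; abel
  have h2 : inner ℝ (prj b v) ((inner ℝ b v / ‖b‖ ^ 2) • b) = 0 := by
    have h0 : inner ℝ (prj b v) b = 0 := by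
      rw [real_inner_comm]; exact prj_inner hb v
    rw [inner_smul_right, h0, mul_zero]
  have h3 := norm_add_sq_eq_norm_sq_add_norm_sq_of_inner_eq_zero _ _ h2
  rw [← h1] at h3
  nlinarith [norm_nonneg (prj b v), norm_nonneg v, norm_nonneg ((inner ℝ b v / ‖b‖ ^ 2) • b)]

/-- the lift: subtract the nearest integer multiple of `b` -/
theorem lift_exists (b : V) (v : V) :
    ∃ k : ℤ, ‖v - k • b‖ ≤ ‖prj b v‖ + ‖b‖ / 2 := by
  set t : ℝ := inner ℝ b v / ‖b‖ ^ 2 with ht
  refine ⟨round t, ?_⟩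
  have h1 : v - (round t) • b = prj b v + (t - round t) • b := by
    rw [prj_apply, ← ht, sub_smul]
    have : (round t : ℤ) • b = ((round t : ℤ) : ℝ) • b := by
      exact (Int.cast_smul_eq_zsmul ℝ _ _).symm
    rw [this]; abel
  rw [h1]
  refine le_trans (norm_add_le _ _) ?_
  have h2 : ‖(t - round t) • b‖ ≤ ‖b‖ / 2 := by
    rw [norm_smul, Real.norm_eq_abs]
    have := abs_sub_round t
    nlinarith [norm_nonneg b]
  linarith

theorem red (d : ℕ) : ∃ C : ℝ, 1 ≤ C ∧ ∀ (V : Type) [NormedAddCommGroup V] [InnerProductSpace ℝ V]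
    (W : Submodule ℝ V), FiniteDimensional ℝ W → finrank ℝ W ≤ d → ∀ L : AddSubgroup V,
    (∀ v ∈ L, v ∈ W) → (∀ R : ℝ, {v : V | v ∈ L ∧ ‖v‖ ≤ R}.Finite) →
    ∃ (n : ℕ) (b : Fin n → V), n ≤ d ∧ (∀ i, b i ∈ L) ∧ (∀ i, b i ≠ 0) ∧
      (∀ v ∈ L, ∃ c : Fin n → ℤ, v = ∑ i, c i • b i) ∧
      ∀ c : Fin n → ℤ, ∀ i, |(c i : ℝ)| * ‖b i‖ ≤ C * ‖∑ i, c i • b i‖ := by
  induction d with
  | zero =>
    refine ⟨1, le_refl _, ?_⟩
    intro V _ _ W hW hd L hL _
    refine ⟨0, fun i => i.elim0, le_refl _, fun i => i.elim0, fun i => i.elim0, ?_, fun c i => i.elim0⟩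
    intro v hv
    have h1 : finrank ℝ W = 0 := Nat.le_zero.mp hd
    have h2 : W = ⊥ := by
      rwa [Submodule.finrank_eq_zero] at h1
    have h3 := hL v hv
    rw [h2, Submodule.mem_bot] at h3
    exact ⟨fun i => i.elim0, by simp [h3]⟩
  | succ d ih =>
    obtain ⟨C, hC1, hC⟩ := ih
    have hCd : 1 ≤ 1 + 2 * (d : ℝ) * C := by
      have : (0 : ℝ) ≤ d := Nat.cast_nonneg _
      nlinarith
    refine ⟨2 * C + (1 + 2 * (d : ℝ) * C), by linarith, ?_⟩
    intro V _ _ W hW hd L hL hfin
    by_cases hz : ∀ v ∈ L, v = 0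
    · refine ⟨0, fun i => i.elim0, Nat.zero_le _, fun i => i.elim0, fun i => i.elim0, ?_,
        fun c i => i.elim0⟩
      intro v hv
      exact ⟨fun i => i.elim0, by simp [hz v hv]⟩
    · push Not at hz
      obtain ⟨v0, hv0, hv00⟩ := hz
      -- a shortest vector
      have hfs : ({v : V | v ∈ L ∧ ‖v‖ ≤ ‖v0‖} ∩ {v | v ≠ 0}).Finite := (hfin ‖v0‖).inter_of_left _
      obtain ⟨b1, ⟨⟨hb1L, hb1n⟩, hb10⟩, hmin'⟩ := Set.exists_min_image _ (fun v : V => ‖v‖) hfs
        ⟨v0, ⟨hv0, le_refl _⟩, hv00⟩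
      have hb1 : b1 ≠ 0 := hb10
      have hmin : ∀ v ∈ L, v ≠ 0 → ‖b1‖ ≤ ‖v‖ := by
        intro v hv hvn
        by_cases h : ‖v‖ ≤ ‖v0‖
        · exact hmin' v ⟨⟨hv, h⟩, hvn⟩
        · exact le_trans hb1n (le_of_lt (not_le.mp h))
      have hb1p : 0 < ‖b1‖ := norm_pos_iff.mpr hb1
      -- the projected lattice
      let L' : AddSubgroup V := L.map (prj b1).toAddMonoidHom
      let W' : Submodule ℝ V := W.map (prj b1)
      have hW'W : W' ≤ W ⊓ (ℝ ∙ b1)ᗮ := by
        rintro _ ⟨w, hw, rfl⟩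
        refine ⟨?_, ?_⟩
        · show prj b1 w ∈ W
          rw [prj_apply]
          exact W.sub_mem hw (W.smul_mem _ (hL b1 hb1L))
        · show prj b1 w ∈ (ℝ ∙ b1)ᗮ
          rw [Submodule.mem_orthogonal_singleton_iff_inner_right]
          exact prj_inner hb1 w
      have hlt : W' < W := by
        refine lt_of_le_of_ne (hW'W.trans inf_le_left) ?_
        intro h
        have h1 : b1 ∈ W' := by rw [h]; exact hL b1 hb1L
        have h2 := (hW'W h1).2
        have h3 := (Submodule.mem_orthogonal_singleton_iff_inner_right).mp h2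
        rw [real_inner_self_eq_norm_sq] at h3
        exact absurd h3 (pow_ne_zero 2 hb1p.ne')
      have : FiniteDimensional ℝ W' := Submodule.finiteDimensional_of_le hlt.le
      have hfr : finrank ℝ W' ≤ d := by
        have := Submodule.finrank_lt_finrank_of_lt hlt
        omega
      have hL' : ∀ v ∈ L', v ∈ W' := by
        rintro _ ⟨v, hv, rfl⟩
        exact ⟨v, hL v hv, rfl⟩
      have hfin' : ∀ R : ℝ, {v : V | v ∈ L' ∧ ‖v‖ ≤ R}.Finite := by
        intro R
        refine ((hfin (R + ‖b1‖ / 2)).image (prj b1)).subset ?_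
        rintro _ ⟨⟨v, hv, rfl⟩, hR⟩
        have hR' : ‖prj b1 v‖ ≤ R := hR
        obtain ⟨k, hk⟩ := lift_exists b1 v
        refine ⟨v - k • b1, ⟨L.sub_mem hv (L.zsmul_mem hb1L k), by linarith⟩, ?_⟩
        show prj b1 (v - k • b1) = prj b1 v
        rw [map_sub, map_zsmul, prj_self hb1, smul_zero, sub_zero]
      obtain ⟨n, b', hnd, hb'L, hb'0, hspan, hbd⟩ := hC V W' inferInstance hfr L' hL' hfin'
      -- the lifts
      have hlift : ∀ i, ∃ v ∈ L, prj b1 v = b' i ∧ ‖v‖ ≤ 2 * ‖b' i‖ ∧ v ≠ 0 := by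
        intro i
        obtain ⟨v, hv, hvb⟩ := hb'L i
        have hvb' : prj b1 v = b' i := hvb
        obtain ⟨k, hk⟩ := lift_exists b1 v
        have h1 : prj b1 (v - k • b1) = b' i := by
          rw [map_sub, map_zsmul, prj_self hb1, smul_zero, sub_zero, hvb']
        have h2 : v - k • b1 ∈ L := L.sub_mem hv (L.zsmul_mem hb1L k)
        have h3 : v - k • b1 ≠ 0 := by
          intro h
          rw [h, map_zero] at h1
          exact hb'0 i h1.symm
        have h4 := hmin _ h2 h3
        rw [hvb'] at hk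
        exact ⟨v - k • b1, h2, h1, by linarith, h3⟩
      choose bb hbbL hbbp hbbn hbb0 using hlift
      refine ⟨n + 1, Fin.cons b1 bb, by omega, ?_, ?_, ?_, ?_⟩
      · intro i
        refine Fin.cases ?_ (fun j => ?_) i
        · simpa using hb1L
        · simpa using hbbL j
      · intro i
        refine Fin.cases ?_ (fun j => ?_) i
        · simpa using hb1
        · simpa using hbb0 j
      · intro v hv
        obtain ⟨c, hc⟩ := hspan (prj b1 v) ⟨v, hv, rfl⟩
        set u : V := v - ∑ i, c i • bb i with hu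
        have huL : u ∈ L := L.sub_mem hv (L.sum_mem (fun i _ => L.zsmul_mem (hbbL i) _))
        have hup : prj b1 u = 0 := by
          rw [hu, map_sub, map_sum, hc, sub_eq_zero]
          exact Finset.sum_congr rfl (fun i _ => by rw [map_zsmul, hbbp])
        obtain ⟨k, hk⟩ := lift_exists b1 u
        rw [hup, norm_zero, zero_add] at hk
        have h0 : u - k • b1 = 0 := by
          by_contra hne
          have := hmin _ (L.sub_mem huL (L.zsmul_mem hb1L k)) hne
          linarith
        refine ⟨Fin.cons k c, ?_⟩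
        rw [Fin.sum_univ_succ]
        simp only [Fin.cons_zero, Fin.cons_succ]
        rw [sub_eq_zero.mp h0 |>.symm, hu]
        abel
      · intro c
        have hsum : ∑ i, c i • (Fin.cons b1 bb : Fin (n + 1) → V) i
            = c 0 • b1 + ∑ i : Fin n, c i.succ • bb i := by
          rw [Fin.sum_univ_succ]; simp
        set v : V := ∑ i, c i • (Fin.cons b1 bb : Fin (n + 1) → V) i with hv
        have hpv : prj b1 v = ∑ i : Fin n, c i.succ • b' i := by
          rw [hsum, map_add, map_zsmul, prj_self hb1, smul_zero, zero_add, map_sum]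
          exact Finset.sum_congr rfl (fun i _ => by rw [map_zsmul, hbbp])
        have h1 : ∀ j : Fin n, |(c j.succ : ℝ)| * ‖bb j‖ ≤ 2 * C * ‖v‖ := by
          intro j
          have h2 := hbd (fun i => c i.succ) j
          rw [← hpv] at h2
          have h3 := prj_norm hb1 v
          have h4 := hbbn j
          have h5 : |(c j.succ : ℝ)| * ‖bb j‖ ≤ |(c j.succ : ℝ)| * (2 * ‖b' j‖) :=
            mul_le_mul_of_nonneg_left h4 (abs_nonneg _)
          have h6 : C * ‖prj b1 v‖ ≤ C * ‖v‖ := mul_le_mul_of_nonneg_left h3 (by linarith)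
          have h7 : |(c j.succ : ℝ)| * ‖b' j‖ ≤ C * ‖prj b1 v‖ := h2
          nlinarith
        have hv0 : 0 ≤ ‖v‖ := norm_nonneg _
        have hd0 : (0 : ℝ) ≤ d := Nat.cast_nonneg _
        intro i
        refine Fin.cases ?_ (fun j => ?_) i
        · simp only [Fin.cons_zero]
          have h8 : c 0 • b1 = v - ∑ i : Fin n, c i.succ • bb i := by rw [hsum]; abel
          have h9 : |(c 0 : ℝ)| * ‖b1‖ = ‖c 0 • b1‖ := by
            rw [← Int.cast_smul_eq_zsmul ℝ (c 0) b1, norm_smul, Real.norm_eq_abs]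
          rw [h9, h8]
          refine le_trans (norm_sub_le _ _) ?_
          have h10 : ‖∑ i : Fin n, c i.succ • bb i‖ ≤ n * (2 * C * ‖v‖) := by
            refine le_trans (norm_sum_le _ _) ?_
            refine le_trans (Finset.sum_le_card_nsmul _ _ (2 * C * ‖v‖) (fun i _ => ?_)) ?_
            · rw [← Int.cast_smul_eq_zsmul ℝ (c i.succ) (bb i), norm_smul, Real.norm_eq_abs]
              exact h1 i
            · rw [Finset.card_univ, Fintype.card_fin, nsmul_eq_mul]
          have h11 : (n : ℝ) ≤ d := by exact_mod_cast hnd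
          have h12 : (n : ℝ) * (2 * C * ‖v‖) ≤ d * (2 * C * ‖v‖) :=
            mul_le_mul_of_nonneg_right h11 (by positivity)
          nlinarith
        · simp only [Fin.cons_succ]
          have := h1 j
          nlinarith [mul_nonneg (mul_nonneg (by norm_num : (0:ℝ) ≤ 2) hd0) (by linarith : (0:ℝ) ≤ C)]

end Pool.Agent.PP5
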