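import Mathlib

/-!
# PP5, dual side: an isotropic subgroup of `(Z/n)^m` has order at most `n ^ (m / 2)`
-/

namespace Pool.Agent.PP5

theorem iso_card {n : ℕ} [NeZero n] {G : Type} [AddCommGroup G] [Fintype G]
    (β : G →+ G →+ ZMod n) (hβ : ∀ x, (∀ y, β x y = 0) → x = 0) (I : AddSubgroup G)
    (hI : ∀ x ∈ I, ∀ y ∈ I, β x y = 0) : Nat.card I * Nat.card I ≤ Fintype.card G := by
  classical
  have : Fintype I := Fintype.ofFinite _
  rw [Nat.card_eq_fintype_card]
  let χ : AddChar (ZMod n) ℂ := ZMod.stdAddChar
  have hχ : ∀ a, χ a = 1 → a = 0 := by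
    intro a ha
    apply ZMod.injective_stdAddChar
    rw [AddChar.map_zero_eq_one]; exact ha
  -- the double sum
  have h1 : ∑ x : I, ∑ y : G, χ (β x y) = (Fintype.card G : ℂ) := by
    have h2 : ∀ x : I, ∑ y : G, χ (β x y) = if x = 0 then (Fintype.card G : ℂ) else 0 := by
      intro x
      have h3 := AddChar.sum_eq_ite (χ.compAddMonoidHom (β (x : G)))
      have h4 : (∑ y : G, χ (β x y)) = ∑ y, (χ.compAddMonoidHom (β (x : G))) y := rfl
      rw [h4, h3]
      congr 1
      rw [eq_iff_iff]
      constructor
      · intro h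
        have h5 : ∀ y, β (x : G) y = 0 := by
          intro y
          apply hχ
          have : (χ.compAddMonoidHom (β (x : G))) y = 1 := by rw [h]; rfl
          exact this
        exact Subtype.ext (hβ _ h5)
      · intro h
        subst h
        ext y
        show χ (β ((0 : I) : G) y) = (1 : AddChar G ℂ) y
        rw [AddSubgroup.coe_zero, map_zero, AddMonoidHom.zero_apply, AddChar.map_zero_eq_one]
        rfl
    rw [Finset.sum_congr rfl (fun x _ => h2 x)]
    simp
  rw [Finset.sum_comm] at h1
  -- the inner sums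
  have h2 : ∀ y : G, (∑ x : I, χ (β x y)) = if (∀ x : I, β x y = 0) then (Fintype.card I : ℂ) else 0 := by
    intro y
    have h3 := AddChar.sum_eq_ite (χ.compAddMonoidHom ((β.flip y).comp I.subtype))
    have h4 : (∑ x : I, χ (β x y)) = ∑ x, (χ.compAddMonoidHom ((β.flip y).comp I.subtype)) x := rfl
    rw [h4, h3]
    congr 1
    rw [eq_iff_iff]
    constructor
    · intro h x
      apply hχ
      have : (χ.compAddMonoidHom ((β.flip y).comp I.subtype)) x = 1 := by rw [h]; rfl
      exact this
    · intro h
      ext x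
      show χ (β x y) = (1 : AddChar I ℂ) x
      rw [h x, AddChar.map_zero_eq_one]
      rfl
  rw [Finset.sum_congr rfl (fun y _ => h2 y)] at h1
  rw [← Finset.sum_filter, Finset.sum_const, nsmul_eq_mul] at h1
  have h3 : ((Finset.univ.filter (fun y : G => ∀ x : I, β x y = 0)).card * Fintype.card I) = Fintype.card G := by
    exact_mod_cast h1
  rw [← h3]
  refine Nat.mul_le_mul_right _ ?_
  have h4 : Fintype.card I = (Finset.univ.image (fun x : I => (x : G))).card := by
    rw [Finset.card_image_of_injective _ Subtype.coe_injective, Finset.card_univ]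
  rw [h4]
  refine Finset.card_le_card (fun y hy => ?_)
  rw [Finset.mem_image] at hy
  obtain ⟨y', _, rfl⟩ := hy
  rw [Finset.mem_filter]
  exact ⟨Finset.mem_univ _, fun x => hI _ x.2 _ y'.2⟩

end Pool.Agent.PP5
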