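import Pool.Agent.PP5.DC

/-!
# PP5, dual side: pigeonhole for an `8 x 8` matrix whose image mod `n` is isotropic
-/

namespace Pool.Agent.PP5

/-- the action of the matrix -/
def ac8 (M : Fin 8 → Fin 8 → ℤ) (A : Fin 8 → ℤ) (k : Fin 8) : ℤ := ∑ i, M k i * A i

theorem ac8_sub (M : Fin 8 → Fin 8 → ℤ) (A B : Fin 8 → ℤ) (k : Fin 8) :
    ac8 M (A - B) k = ac8 M A k - ac8 M B k := by
  unfold ac8
  rw [← Finset.sum_sub_distrib]
  exact Finset.sum_congr rfl (fun i _ => by rw [Pi.sub_apply]; ring)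

/-- the image mod `n` -/
def im8 (n : ℕ) (M : Fin 8 → Fin 8 → ℤ) : (Fin 8 → ℤ) →+ (Fin 8 → ZMod n) where
  toFun A k := ((ac8 M A k : ℤ) : ZMod n)
  map_zero' := by funext k; simp [ac8]
  map_add' A B := by
    funext k
    simp only [ac8, Pi.add_apply]
    push_cast
    rw [← Finset.sum_add_distrib]
    exact Finset.sum_congr rfl (fun i _ => by ring)

/-- the pairing -/
def pr8 (n : ℕ) (ε : Fin 8 → ℤ) (σ : Equiv.Perm (Fin 8)) :
    (Fin 8 → ZMod n) →+ (Fin 8 → ZMod n) →+ ZMod n where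
  toFun u :=
    { toFun := fun v => ∑ k, (ε k : ZMod n) * u k * v (σ k)
      map_zero' := by simp
      map_add' := fun v w => by
        rw [← Finset.sum_add_distrib]
        exact Finset.sum_congr rfl (fun i _ => by rw [Pi.add_apply]; ring) }
  map_zero' := by ext v; simp
  map_add' u v := by
    refine AddMonoidHom.ext (fun w => ?_)
    show (∑ k, (ε k : ZMod n) * (u + v) k * w (σ k)) = (∑ k, (ε k : ZMod n) * u k * w (σ k)) +
      ∑ k, (ε k : ZMod n) * v k * w (σ k)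
    rw [← Finset.sum_add_distrib]
    exact Finset.sum_congr rfl (fun i _ => by rw [Pi.add_apply]; ring)

theorem pr8_apply (n : ℕ) (ε : Fin 8 → ℤ) (σ : Equiv.Perm (Fin 8)) (u v : Fin 8 → ZMod n) :
    pr8 n ε σ u v = ∑ k, (ε k : ZMod n) * u k * v (σ k) := rfl

theorem card_im8 (n : ℕ) (hn : 0 < n) (M : Fin 8 → Fin 8 → ℤ) (ε : Fin 8 → ℤ) (σ : Equiv.Perm (Fin 8))
    (hε : ∀ k, ε k = 1 ∨ ε k = -1)
    (hM : ∀ A B : Fin 8 → ℤ, (n : ℤ) ∣ ∑ k, ε k * ac8 M A k * ac8 M B (σ k)) :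
    Nat.card (im8 n M).range ≤ n ^ 4 := by
  haveI : NeZero n := ⟨hn.ne'⟩
  have h := iso_card (pr8 n ε σ) ?_ (im8 n M).range ?_
  · rw [Fintype.card_fun, ZMod.card, Fintype.card_fin] at h
    have h2 : Nat.card (im8 n M).range ^ 2 ≤ (n ^ 4) ^ 2 := by
      rw [sq, ← pow_mul]; exact h
    exact (Nat.pow_le_pow_iff_left (by norm_num)).mp h2
  · intro x hx
    funext k
    have h1 := hx (Pi.single (σ k) 1)
    rw [pr8_apply, Finset.sum_eq_single k] at h1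
    · rw [Pi.single_eq_same, mul_one] at h1
      rcases hε k with h2 | h2
      · rw [h2, Int.cast_one, one_mul] at h1; exact h1
      · rw [h2] at h1; push_cast at h1
        have : -(x k) = 0 := by rw [← h1]; ring
        simpa using this
    · intro j _ hj
      rw [Pi.single_eq_of_ne (fun h => hj (σ.injective h)), mul_zero]
    · intro h2; exact absurd (Finset.mem_univ _) h2
  · rintro _ ⟨A, rfl⟩ _ ⟨B, rfl⟩
    rw [pr8_apply]
    have h1 := hM A B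
    rw [← ZMod.intCast_zmod_eq_zero_iff_dvd] at h1
    push_cast at h1
    exact h1

theorem box_card8 {N : ℕ} (r : Fin N → ℝ) (hr : ∀ i, 0 ≤ r i) :
    (∏ i, r i) ≤ ((Fintype.piFinset (fun i => Finset.Icc (-⌊r i⌋) ⌊r i⌋)).card : ℝ) := by
  rw [Fintype.card_piFinset]
  push_cast
  refine Finset.prod_le_prod (fun i _ => hr i) (fun i _ => ?_)
  rw [Int.card_Icc]
  have h0 : 0 ≤ ⌊r i⌋ := Int.floor_nonneg.mpr (hr i)
  have h1 : r i < ⌊r i⌋ + 1 := Int.lt_floor_add_one (r i)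
  have h2 : (((⌊r i⌋ + 1 - -⌊r i⌋).toNat : ℕ) : ℤ) = ⌊r i⌋ + 1 - -⌊r i⌋ := Int.toNat_of_nonneg (by omega)
  have h3 : (((⌊r i⌋ + 1 - -⌊r i⌋).toNat : ℕ) : ℝ) = (⌊r i⌋ : ℝ) + 1 + ⌊r i⌋ := by
    have : (((⌊r i⌋ + 1 - -⌊r i⌋).toNat : ℕ) : ℝ) = (((⌊r i⌋ + 1 - -⌊r i⌋ : ℤ)) : ℝ) := by
      exact_mod_cast congrArg (fun z : ℤ => (z : ℝ)) h2
    rw [this]; push_cast; ring
  rw [h3]
  have h4 : (0 : ℝ) ≤ ⌊r i⌋ := by exact_mod_cast h0
  linarith

theorem many_A (n : ℕ) (hn : 0 < n) (M : Fin 8 → Fin 8 → ℤ) (ε : Fin 8 → ℤ) (σ : Equiv.Perm (Fin 8))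
    (hε : ∀ k, ε k = 1 ∨ ε k = -1)
    (hM : ∀ A B : Fin 8 → ℤ, (n : ℤ) ∣ ∑ k, ε k * ac8 M A k * ac8 M B (σ k))
    (r : Fin 8 → ℝ) (hr : ∀ i, 0 ≤ r i) :
    ∃ S : Finset (Fin 8 → ℤ), (∀ A ∈ S, ∀ k, (n : ℤ) ∣ ac8 M A k) ∧
      (∀ A ∈ S, ∀ i, |(A i : ℝ)| ≤ 2 * r i) ∧ (∏ i, r i) / (n : ℝ) ^ 4 ≤ (S.card : ℝ) := by
  classical
  haveI : NeZero n := ⟨hn.ne'⟩
  haveI : Fintype (im8 n M).range := Fintype.ofFinite _
  have hc := card_im8 n hn M ε σ hε hM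
  rw [Nat.card_eq_fintype_card] at hc
  have hn2R : (0 : ℝ) < (n : ℝ) ^ 4 := by positivity
  set X := Fintype.piFinset (fun i => Finset.Icc (-⌊r i⌋) ⌊r i⌋) with hX
  have hp : 0 ≤ ∏ i, r i := Finset.prod_nonneg (fun i _ => hr i)
  have hb : (Finset.univ : Finset (im8 n M).range).card • ((∏ i, r i) / (n : ℝ) ^ 4) ≤ (X.card : ℝ) := by
    rw [Finset.card_univ, nsmul_eq_mul]
    refine le_trans ?_ (box_card8 r hr)
    have h1 : (Fintype.card (im8 n M).range : ℝ) ≤ (n : ℝ) ^ 4 := by exact_mod_cast hc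
    calc (Fintype.card (im8 n M).range : ℝ) * ((∏ i, r i) / (n : ℝ) ^ 4)
        ≤ (n : ℝ) ^ 4 * ((∏ i, r i) / (n : ℝ) ^ 4) :=
          mul_le_mul_of_nonneg_right h1 (div_nonneg hp hn2R.le)
      _ = ∏ i, r i := mul_div_cancel₀ _ hn2R.ne'
  obtain ⟨y, _, hy⟩ := Finset.exists_le_card_fiber_of_nsmul_le_card_of_maps_to
    (s := X) (t := (Finset.univ : Finset (im8 n M).range))
    (f := fun A => (⟨im8 n M A, A, rfl⟩ : (im8 n M).range)) (fun _ _ => Finset.mem_univ _)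
    ⟨⟨0, AddSubgroup.zero_mem _⟩, Finset.mem_univ _⟩ hb
  set Y := X.filter (fun A => (⟨im8 n M A, A, rfl⟩ : (im8 n M).range) = y) with hY
  by_cases hYe : Y.Nonempty
  · obtain ⟨w0, hw0⟩ := hYe
    refine ⟨Y.image (fun w => w - w0), ?_, ?_, ?_⟩
    · intro w hw k
      rw [Finset.mem_image] at hw
      obtain ⟨z, hz, rfl⟩ := hw
      have h1 : im8 n M z = im8 n M w0 := by
        have h2 := (Finset.mem_filter.mp hz).2
        have h3 := (Finset.mem_filter.mp hw0).2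
        exact congrArg Subtype.val (h2.trans h3.symm)
      have h2 : ((ac8 M z k : ℤ) : ZMod n) = ((ac8 M w0 k : ℤ) : ZMod n) := congrFun h1 k
      rw [ac8_sub]
      rw [← ZMod.intCast_zmod_eq_zero_iff_dvd]
      push_cast
      rw [h2, sub_self]
    · intro w hw i
      rw [Finset.mem_image] at hw
      obtain ⟨z, hz, rfl⟩ := hw
      have h1 := (Fintype.mem_piFinset.mp (Finset.mem_filter.mp hz).1) i
      have h2 := (Fintype.mem_piFinset.mp (Finset.mem_filter.mp hw0).1) i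
      rw [Finset.mem_Icc] at h1 h2
      have h3 : (⌊r i⌋ : ℝ) ≤ r i := Int.floor_le (r i)
      have h4 : |(z - w0) i| ≤ 2 * ⌊r i⌋ := by
        rw [Pi.sub_apply, abs_le]; constructor <;> linarith [h1.1, h1.2, h2.1, h2.2]
      have h5 : |(((z - w0) i : ℤ) : ℝ)| ≤ 2 * (⌊r i⌋ : ℝ) := by exact_mod_cast h4
      linarith
    · rw [Finset.card_image_of_injective _ (sub_left_injective)]
      exact hy
  · rw [Finset.not_nonempty_iff_eq_empty] at hYe
    rw [hYe] at hy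
    refine ⟨∅, by simp, by simp, ?_⟩
    simpa using hy

end Pool.Agent.PP5
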