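import Pool.Agent.PP5.EB

/-!
# PP5 section (a1): five Pfaffians suffice
-/

namespace Pool.Agent.PP5

theorem pf_all {n : ℤ} {B : Fin 5 → Fin 5 → ℤ} (hs : Skew B)
    (h0 : n ∣ Pf5 B 1 2 3 4) (h1 : n ∣ Pf5 B 0 2 3 4) (h2 : n ∣ Pf5 B 0 1 3 4) (h3 : n ∣ Pf5 B 0 1 2 4)
    (h4 : n ∣ Pf5 B 0 1 2 3) : ∀ i j k l, n ∣ Pf5 B i j k l := by
  have s1 : ∀ i j k l, Pf5 B i j k l = - Pf5 B j i k l := by
    intro i j k l; unfold Pf5; rw [hs i j]; ring
  have s2 : ∀ i j k l, Pf5 B i j k l = - Pf5 B i k j l := by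
    intro i j k l; unfold Pf5; rw [hs j k]; ring
  have s3 : ∀ i j k l, Pf5 B i j k l = - Pf5 B i j l k := by
    intro i j k l; unfold Pf5; rw [hs k l]; ring
  have z1 : ∀ i k l, Pf5 B i i k l = 0 := by intro i k l; have := s1 i i k l; omega
  have z2 : ∀ i k l, Pf5 B k i i l = 0 := by intro i k l; have := s2 k i i l; omega
  have z3 : ∀ i k l, Pf5 B k l i i = 0 := by intro i k l; have := s3 k l i i; omega
  have key : ∀ i j k l : Fin 5, i < j → j < k → k < l → n ∣ Pf5 B i j k l := by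
    intro i j k l hij hjk hkl
    have hc : (i = 0 ∧ j = 1 ∧ k = 2 ∧ l = 3) ∨ (i = 0 ∧ j = 1 ∧ k = 2 ∧ l = 4) ∨
        (i = 0 ∧ j = 1 ∧ k = 3 ∧ l = 4) ∨ (i = 0 ∧ j = 2 ∧ k = 3 ∧ l = 4) ∨
        (i = 1 ∧ j = 2 ∧ k = 3 ∧ l = 4) := by
      simp only [Fin.lt_def, Fin.ext_iff] at *
      have := l.isLt
      simp
      omega
    rcases hc with ⟨rfl, rfl, rfl, rfl⟩ | ⟨rfl, rfl, rfl, rfl⟩ | ⟨rfl, rfl, rfl, rfl⟩ |
      ⟨rfl, rfl, rfl, rfl⟩ | ⟨rfl, rfl, rfl, rfl⟩
    · exact h4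
    · exact h3
    · exact h2
    · exact h1
    · exact h0
  -- insert the last index
  have k4 : ∀ i j k l : Fin 5, i < j → j < k → n ∣ Pf5 B i j k l := by
    intro i j k l hij hjk
    rcases lt_trichotomy k l with h | h | h
    · exact key i j k l hij hjk h
    · subst h; rw [z3]; exact dvd_zero _
    · rw [s3, dvd_neg]
      rcases lt_trichotomy j l with h' | h' | h'
      · exact key i j l k hij h' h
      · subst h'; rw [z2]; exact dvd_zero _
      · rw [s2, dvd_neg]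
        rcases lt_trichotomy i l with h'' | h'' | h''
        · exact key i l j k h'' h' hjk
        · subst h''; rw [z1]; exact dvd_zero _
        · rw [s1, dvd_neg]; exact key l i j k h'' hij hjk
  have k3 : ∀ i j k l : Fin 5, i < j → n ∣ Pf5 B i j k l := by
    intro i j k l hij
    rcases lt_trichotomy j k with h | h | h
    · exact k4 i j k l hij h
    · subst h; rw [z2]; exact dvd_zero _
    · rw [s2, dvd_neg]
      rcases lt_trichotomy i k with h' | h' | h'
      · exact k4 i k j l h' h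
      · subst h'; rw [z1]; exact dvd_zero _
      · rw [s1, dvd_neg]; exact k4 k i j l h' hij
  intro i j k l
  rcases lt_trichotomy i j with h | h | h
  · exact k3 i j k l h
  · subst h; rw [z1]; exact dvd_zero _
  · rw [s1, dvd_neg]; exact k3 j i k l h

end Pool.Agent.PP5
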