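import Pool.Agent.PP5.EC
import Pool.Agent.PP5.ED

/-!
# PP5 section (a1): the core of the counting of `x` in `E_psi`
-/

namespace Pool.Agent.PP5

/-- exponents of `t1` of the coordinates -/
def ea : Fin 12 → ℤ := ![-2, 0, 2, -2, 0, 2, -1, -1, -1, 1, 1, 1]
/-- exponents of `t2` of the coordinates -/
def eb : Fin 12 → ℤ := ![-1, -1, -1, 1, 1, 1, -2, 0, 2, -2, 0, 2]
/-- exponents of `t1` of `x` -/
def xa : Fin 10 → ℤ := ![-2, 0, 2, 0, 0, 0, -1, 1, -1, 1]
/-- exponents of `t2` of `x` -/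
def xb : Fin 10 → ℤ := ![0, -2, 0, 2, 0, 0, -1, -1, 1, 1]

theorem sg_eq {t1 t2 : ℝ} (h1 : 0 < t1) (h2 : 0 < t2) (m : Fin 12) :
    sg t1 t2 m = t1 ^ (ea m) * t2 ^ (eb m) := by
  have h1' := h1.ne'
  have h2' := h2.ne'
  fin_cases m <;> simp [sg, ea, eb, zpow_neg] <;> norm_cast <;> field_simp

theorem tx_eq {t1 t2 : ℝ} (h1 : 0 < t1) (h2 : 0 < t2) (m : Fin 10) :
    tx t1 t2 m = t1 ^ (xa m) * t2 ^ (xb m) := by
  have h1' := h1.ne'
  have h2' := h2.ne'
  fin_cases m <;> simp [tx, xa, xb, zpow_neg] <;> norm_cast <;> field_simp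

theorem sg_pos {t1 t2 : ℝ} (h1 : 0 < t1) (h2 : 0 < t2) (m : Fin 12) : 0 < sg t1 t2 m := by
  rw [sg_eq h1 h2]; positivity

theorem tx_pos {t1 t2 : ℝ} (h1 : 0 < t1) (h2 : 0 < t2) (m : Fin 10) : 0 < tx t1 t2 m := by
  rw [tx_eq h1 h2]; positivity

theorem wt {t1 t2 : ℝ} (h1 : 0 < t1) (h2 : 0 < t2) {m i0 : Fin 12} {j k : Fin 10}
    (e1 : ea m + xa j = ea i0 + xa k) (e2 : eb m + xb j = eb i0 + xb k) :
    sg t1 t2 m * tx t1 t2 j = sg t1 t2 i0 * tx t1 t2 k := by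
  rw [sg_eq h1 h2, sg_eq h1 h2, tx_eq h1 h2, tx_eq h1 h2]
  have l1 : t1 ^ ea m * t2 ^ eb m * (t1 ^ xa j * t2 ^ xb j)
      = (t1 ^ ea m * t1 ^ xa j) * (t2 ^ eb m * t2 ^ xb j) := by ring
  have l2 : t1 ^ ea i0 * t2 ^ eb i0 * (t1 ^ xa k * t2 ^ xb k)
      = (t1 ^ ea i0 * t1 ^ xa k) * (t2 ^ eb i0 * t2 ^ xb k) := by ring
  rw [l1, l2, ← zpow_add₀ h1.ne', ← zpow_add₀ h1.ne', ← zpow_add₀ h2.ne', ← zpow_add₀ h2.ne',
    e1, e2]

theorem wt_prod {t1 t2 : ℝ} (h1 : 0 < t1) (h2 : 0 < t2) {i0 : Fin 12} (u : Fin 5 → Fin 10)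
    (e1 : ∑ j, xa (u j) = 2 * ea i0) (e2 : ∑ j, xb (u j) = 2 * eb i0) :
    ∏ j, tx t1 t2 (u j) = sg t1 t2 i0 ^ 2 := by
  rw [Fin.sum_univ_five] at e1 e2
  rw [Fin.prod_univ_five]
  simp only [tx_eq h1 h2, sg_eq h1 h2]
  have a1 : t1 ^ (xa (u 0)) * t1 ^ (xa (u 1)) * t1 ^ (xa (u 2)) * t1 ^ (xa (u 3)) * t1 ^ (xa (u 4))
      = (t1 ^ ea i0) ^ 2 := by
    rw [← zpow_add₀ h1.ne', ← zpow_add₀ h1.ne', ← zpow_add₀ h1.ne', ← zpow_add₀ h1.ne', e1,
      ← zpow_natCast, ← zpow_mul]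
    congr 1
    push_cast; ring
  have a2 : t2 ^ (xb (u 0)) * t2 ^ (xb (u 1)) * t2 ^ (xb (u 2)) * t2 ^ (xb (u 3)) * t2 ^ (xb (u 4))
      = (t2 ^ eb i0) ^ 2 := by
    rw [← zpow_add₀ h2.ne', ← zpow_add₀ h2.ne', ← zpow_add₀ h2.ne', ← zpow_add₀ h2.ne', e2,
      ← zpow_natCast, ← zpow_mul]
    congr 1
    push_cast; ring
  rw [mul_pow, ← a1, ← a2]
  ring

theorem core {P : Sp} {t1 t2 Y R : ℝ} (h1 : 0 < t1) (h2 : 0 < t2) (hR : 0 ≤ R) (i0 : Fin 12)
    (ha : P i0 ≠ 0) (hmax : ∀ i, |(P i : ℝ)| * sg t1 t2 i0 ≤ |(P i0 : ℝ)| * sg t1 t2 i)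
    (hY : |(P i0 : ℝ)| ≤ Y * sg t1 t2 i0) (B : Fin 5 → Fin 5 → ℤ) (hs : Skew B)
    (hpf : ∀ i j k l, P i0 ∣ Pf5 B i j k l) (u v : Fin 5 → Fin 10) (mm : Fin 5 → Fin 5 → Fin 12)
    (hB : ∀ k j, B k j = 0 ∨ |B k j| = |P (mm k j)|)
    (hx1 : ∀ k j, k ≠ j → ea (mm k j) + xa (u j) = ea i0 + xa (v k))
    (hx2 : ∀ k j, k ≠ j → eb (mm k j) + xb (u j) = eb i0 + xb (v k))
    (hs1 : ∑ j, xa (u j) = 2 * ea i0) (hs2 : ∑ j, xb (u j) = 2 * eb i0)
    (X : (Fin 5 → ℤ) → (Fin 5 → ℤ) → (Fin 10 → ℤ))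
    (hX1 : ∀ w z k, X w z (u k) = w k) (hX2 : ∀ w z k, |X w z (v k)| = |z k|)
    (hcov : ∀ j : Fin 10, (∃ k, j = u k) ∨ ∃ k, j = v k)
    (hE : ∀ w z, (∀ k, act B w k = P i0 * z k) → InE P (X w z) ∧ FF (X w z) = 0) :
    ∃ S : Finset (Fin 10 → ℤ), (∀ x ∈ S, InE P x ∧ FF x = 0 ∧ ∀ j, |(x j : ℝ)| ≤ 8 * R * tx t1 t2 j) ∧
      R ^ 5 / Y ^ 2 ≤ (S.card : ℝ) := by
  classical
  have hn : 0 < (P i0).natAbs := Int.natAbs_pos.mpr ha
  have haR : (0 : ℝ) < |(P i0 : ℝ)| := abs_pos.mpr (by exact_mod_cast ha)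
  have hsg := sg_pos h1 h2 (t1 := t1) (t2 := t2)
  have htx := tx_pos h1 h2 (t1 := t1) (t2 := t2)
  obtain ⟨S0, hS1, hS2, hS3⟩ := many_w (P i0).natAbs hn B hs
    (fun i j k l => Int.natAbs_dvd.mpr (hpf i j k l)) (fun j => R * tx t1 t2 (u j))
    (fun j => mul_nonneg hR (htx _).le)
  refine ⟨S0.image (fun w => X w (fun k => act B w k / P i0)), ?_, ?_⟩
  · intro x hx
    rw [Finset.mem_image] at hx
    obtain ⟨w, hw, rfl⟩ := hx
    have hz : ∀ k, act B w k = P i0 * (act B w k / P i0) := by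
      intro k
      exact (Int.mul_ediv_cancel' (Int.natAbs_dvd.mp (hS1 w hw k))).symm
    obtain ⟨hE1, hE2⟩ := hE w (fun k => act B w k / P i0) hz
    refine ⟨hE1, hE2, ?_⟩
    intro j
    rcases hcov j with ⟨k, rfl⟩ | ⟨k, rfl⟩
    · rw [hX1]
      have := hS2 w hw k
      have h3 : 0 ≤ R * tx t1 t2 (u k) := mul_nonneg hR (htx _).le
      nlinarith
    · have h3 : |((X w (fun k => act B w k / P i0) (v k) : ℤ) : ℝ)| = |((act B w k / P i0 : ℤ) : ℝ)| := by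
        exact_mod_cast congrArg (fun z : ℤ => (z : ℝ)) (hX2 w (fun k => act B w k / P i0) k)
      rw [h3]
      set z : ℤ := act B w k / P i0 with hzd
      have h4 : |(P i0 : ℝ)| * |(z : ℝ)| = |((act B w k : ℤ) : ℝ)| := by
        rw [hz k, ← hzd]; push_cast; rw [abs_mul]
      have h5 : |((act B w k : ℤ) : ℝ)| * sg t1 t2 i0 ≤
          |(P i0 : ℝ)| * (8 * R * tx t1 t2 (v k)) * sg t1 t2 i0 := by
        have hterm : ∀ j, |((B k j * w j : ℤ) : ℝ)| * sg t1 t2 i0 ≤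
            (if j = k then 0 else |(P i0 : ℝ)| * (2 * R * tx t1 t2 (v k)) * sg t1 t2 i0) := by
          intro j
          have hpos : 0 ≤ |(P i0 : ℝ)| * (2 * R * tx t1 t2 (v k)) * sg t1 t2 i0 := by
            have := htx (v k); have := hsg i0; positivity
          by_cases hjk : j = k
          · subst hjk
            rw [if_pos rfl]
            have : B j j = 0 := skew_self hs j
            rw [this]; simp
          · rw [if_neg hjk]
            rcases hB k j with h0 | h0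
            · rw [h0]; simpa using hpos
            · have h6 : |((B k j : ℤ) : ℝ)| = |(P (mm k j) : ℝ)| := by
                exact_mod_cast congrArg (fun z : ℤ => (z : ℝ)) h0
              have h7 := hmax (mm k j)
              have h8 := hS2 w hw j
              have h9 := wt h1 h2 (hx1 k j (Ne.symm hjk)) (hx2 k j (Ne.symm hjk))
              push_cast
              rw [abs_mul, h6]
              calc |(P (mm k j) : ℝ)| * |(w j : ℝ)| * sg t1 t2 i0
                  = (|(P (mm k j) : ℝ)| * sg t1 t2 i0) * |(w j : ℝ)| := by ring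
                _ ≤ (|(P i0 : ℝ)| * sg t1 t2 (mm k j)) * (2 * (R * tx t1 t2 (u j))) :=
                    mul_le_mul h7 h8 (abs_nonneg _) (mul_nonneg haR.le (hsg _).le)
                _ = |(P i0 : ℝ)| * (2 * R) * (sg t1 t2 (mm k j) * tx t1 t2 (u j)) := by ring
                _ = |(P i0 : ℝ)| * (2 * R * tx t1 t2 (v k)) * sg t1 t2 i0 := by rw [h9]; ring
        calc |((act B w k : ℤ) : ℝ)| * sg t1 t2 i0
            ≤ (∑ j, |((B k j * w j : ℤ) : ℝ)|) * sg t1 t2 i0 := by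
              refine mul_le_mul_of_nonneg_right ?_ (hsg _).le
              unfold act
              push_cast
              exact Finset.abs_sum_le_sum_abs _ _
          _ = ∑ j, |((B k j * w j : ℤ) : ℝ)| * sg t1 t2 i0 := Finset.sum_mul _ _ _
          _ ≤ ∑ j, (if j = k then 0 else |(P i0 : ℝ)| * (2 * R * tx t1 t2 (v k)) * sg t1 t2 i0) :=
              Finset.sum_le_sum (fun j _ => hterm j)
          _ = |(P i0 : ℝ)| * (8 * R * tx t1 t2 (v k)) * sg t1 t2 i0 := by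
              rw [Finset.sum_ite, Finset.sum_const_zero, zero_add, Finset.sum_const]
              have : (Finset.filter (fun x => ¬ x = k) (Finset.univ : Finset (Fin 5))).card = 4 := by
                rw [Finset.filter_not, Finset.card_sdiff_of_subset (Finset.filter_subset _ _)]
                rw [Finset.filter_eq' , if_pos (Finset.mem_univ _)]
                simp
              rw [this]
              simp only [nsmul_eq_mul]
              push_cast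
              ring
      rw [← h4] at h5
      have h10 := le_of_mul_le_mul_right h5 (hsg i0)
      exact le_of_mul_le_mul_left h10 haR
  · rw [Finset.card_image_of_injOn]
    · refine le_trans ?_ hS3
      rw [Finset.prod_mul_distrib, Finset.prod_const, wt_prod h1 h2 u hs1 hs2, Finset.card_univ,
        Fintype.card_fin]
      have hn2 : (((P i0).natAbs : ℕ) : ℝ) = |(P i0 : ℝ)| := by
        rw [Nat.cast_natAbs]; push_cast; rfl
      rw [hn2]
      have hYpos : 0 < Y := by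
        by_contra hc
        have : Y * sg t1 t2 i0 ≤ 0 := mul_nonpos_of_nonpos_of_nonneg (not_lt.mp hc) (hsg _).le
        linarith
      rw [div_le_div_iff₀ (by positivity) (by positivity)]
      have h11 : |(P i0 : ℝ)| ^ 2 ≤ (Y * sg t1 t2 i0) ^ 2 := pow_le_pow_left₀ haR.le hY 2
      have h12 : 0 ≤ R ^ 5 := by positivity
      nlinarith
    · intro w _ w' _ hww
      funext k
      have h3 := congrFun hww (u k)
      simp only [hX1] at h3
      exact h3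

end Pool.Agent.PP5
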