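import Pool.Agent.PP5.DB
import Pool.Agent.PP5.DD
import Pool.Agent.PP5.EE
import Pool.Agent.PP5.LDefs

/-!
# PP5, dual side: many points in `K_x` (sixteen coordinates), the core for one chart
-/

namespace Pool.Agent.PP5

/-- exponents of `t1` of the sixteen coordinates -/
def sa : Fin 16 → ℤ := ![-1, 1, 2, -2, -1, 1, 0, 0, -2, 2, -1, 1, -1, 1, 0, 0]
/-- exponents of `t2` of the sixteen coordinates -/
def sb : Fin 16 → ℤ := ![-2, 2, -1, 1, 0, 0, -1, 1, -1, 1, 2, -2, 0, 0, -1, 1]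

/-- the scales of the sixteen coordinates -/
noncomputable def sg16 (t1 t2 : ℝ) (i : Fin 16) : ℝ := t1 ^ (sa i) * t2 ^ (sb i)

theorem sg16_pos {t1 t2 : ℝ} (h1 : 0 < t1) (h2 : 0 < t2) (m : Fin 16) : 0 < sg16 t1 t2 m := by
  unfold sg16; positivity

theorem wt16 {t1 t2 : ℝ} (h1 : 0 < t1) (h2 : 0 < t2) {m i : Fin 16} {j k : Fin 10}
    (e1 : xa j + sa m = xa k + sa i) (e2 : xb j + sb m = xb k + sb i) :
    tx t1 t2 j * sg16 t1 t2 m = tx t1 t2 k * sg16 t1 t2 i := by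
  rw [tx_eq h1 h2, tx_eq h1 h2]
  unfold sg16
  have l1 : t1 ^ xa j * t2 ^ xb j * (t1 ^ sa m * t2 ^ sb m)
      = (t1 ^ xa j * t1 ^ sa m) * (t2 ^ xb j * t2 ^ sb m) := by ring
  have l2 : t1 ^ xa k * t2 ^ xb k * (t1 ^ sa i * t2 ^ sb i)
      = (t1 ^ xa k * t1 ^ sa i) * (t2 ^ xb k * t2 ^ sb i) := by ring
  rw [l1, l2, ← zpow_add₀ h1.ne', ← zpow_add₀ h1.ne', ← zpow_add₀ h2.ne', ← zpow_add₀ h2.ne',
    e1, e2]

theorem wt16_prod {t1 t2 : ℝ} (h1 : 0 < t1) (h2 : 0 < t2) {k : Fin 10} (a : Fin 8 → Fin 16)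
    (e1 : ∑ j, sa (a j) = 4 * xa k) (e2 : ∑ j, sb (a j) = 4 * xb k) :
    ∏ j, sg16 t1 t2 (a j) = tx t1 t2 k ^ 4 := by
  unfold sg16
  rw [tx_eq h1 h2, Finset.prod_mul_distrib]
  have a1 : ∀ (t : ℝ) (ht : 0 < t) (f : Fin 8 → ℤ), ∏ j, t ^ (f j) = t ^ (∑ j, f j) := by
    intro t ht f
    rw [Fin.prod_univ_eight, Fin.sum_univ_eight]
    rw [zpow_add₀ ht.ne', zpow_add₀ ht.ne', zpow_add₀ ht.ne', zpow_add₀ ht.ne', zpow_add₀ ht.ne',
      zpow_add₀ ht.ne', zpow_add₀ ht.ne']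
  rw [a1 t1 h1, a1 t2 h2, e1, e2, mul_pow, ← zpow_natCast, ← zpow_natCast, ← zpow_mul, ← zpow_mul]
  congr 1
  · congr 1; push_cast; ring
  · congr 1; push_cast; ring

theorem kcore {x : Fin 10 → ℤ} {t1 t2 M Y : ℝ} (h1 : 0 < t1) (h2 : 0 < t2) (hY : 0 ≤ Y) (j0 : Fin 10)
    (hx : x j0 ≠ 0) (hmax : ∀ j, |(x j : ℝ)| ≤ M * tx t1 t2 j) (hM : |(x j0 : ℝ)| = M * tx t1 t2 j0)
    (Mx : Fin 8 → Fin 8 → ℤ) (ε : Fin 8 → ℤ) (σ : Equiv.Perm (Fin 8))
    (hε : ∀ k, ε k = 1 ∨ ε k = -1)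
    (hiso : ∀ A B : Fin 8 → ℤ, x j0 ∣ ∑ k, ε k * ac8 Mx A k * ac8 Mx B (σ k))
    (a b : Fin 8 → Fin 16) (mm : Fin 8 → Fin 8 → Fin 10) (nz : Fin 8 → Fin 8 → Bool)
    (hz : ∀ k i, nz k i = false → Mx k i = 0)
    (hnz : ∀ k i, nz k i = true → |Mx k i| = |x (mm k i)|)
    (hw1 : ∀ k i, nz k i = true → xa (mm k i) + sa (a i) = xa j0 + sa (b k))
    (hw2 : ∀ k i, nz k i = true → xb (mm k i) + sb (a i) = xb j0 + sb (b k))
    (hs1 : ∑ j, sa (a j) = 4 * xa j0) (hs2 : ∑ j, sb (a j) = 4 * xb j0)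
    (X : (Fin 8 → ℤ) → (Fin 8 → ℤ) → (Fin 16 → ℤ))
    (hX1 : ∀ A z k, X A z (a k) = A k) (hX2 : ∀ A z k, X A z (b k) = z k)
    (hcov : ∀ i : Fin 16, (∃ k, i = a k) ∨ ∃ k, i = b k)
    (hE : ∀ A z, (∀ k, ac8 Mx A k = x j0 * z k) → PP5L.HH x (X A z) = 0) :
    ∃ S : Finset (Fin 16 → ℤ), (∀ s ∈ S, PP5L.HH x s = 0 ∧ ∀ i, |(s i : ℝ)| ≤ 16 * Y * sg16 t1 t2 i) ∧
      Y ^ 8 / M ^ 4 ≤ (S.card : ℝ) := by
  classical
  have hn : 0 < (x j0).natAbs := Int.natAbs_pos.mpr hx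
  have haR : (0 : ℝ) < |(x j0 : ℝ)| := abs_pos.mpr (by exact_mod_cast hx)
  have hsg := sg16_pos h1 h2 (t1 := t1) (t2 := t2)
  have htx := tx_pos h1 h2 (t1 := t1) (t2 := t2)
  have hMp : 0 < M := by
    by_contra hc
    have : M * tx t1 t2 j0 ≤ 0 := mul_nonpos_of_nonpos_of_nonneg (not_lt.mp hc) (htx _).le
    linarith
  obtain ⟨S0, hS1, hS2, hS3⟩ := many_A (x j0).natAbs hn Mx ε σ hε
    (fun A B => Int.natAbs_dvd.mpr (hiso A B)) (fun j => Y * sg16 t1 t2 (a j))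
    (fun j => mul_nonneg hY (hsg _).le)
  refine ⟨S0.image (fun A => X A (fun k => ac8 Mx A k / x j0)), ?_, ?_⟩
  · intro s hs
    rw [Finset.mem_image] at hs
    obtain ⟨A, hA, rfl⟩ := hs
    have hzz : ∀ k, ac8 Mx A k = x j0 * (ac8 Mx A k / x j0) := by
      intro k
      exact (Int.mul_ediv_cancel' (Int.natAbs_dvd.mp (hS1 A hA k))).symm
    refine ⟨hE A _ hzz, ?_⟩
    intro j
    rcases hcov j with ⟨k, rfl⟩ | ⟨k, rfl⟩
    · rw [hX1]
      have := hS2 A hA k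
      have h3 : 0 ≤ Y * sg16 t1 t2 (a k) := mul_nonneg hY (hsg _).le
      nlinarith
    · rw [hX2]
      set z : ℤ := ac8 Mx A k / x j0 with hzd
      have h4 : |(x j0 : ℝ)| * |(z : ℝ)| = |((ac8 Mx A k : ℤ) : ℝ)| := by
        rw [hzz k, ← hzd]; push_cast; rw [abs_mul]
      have h5 : |((ac8 Mx A k : ℤ) : ℝ)| ≤ |(x j0 : ℝ)| * (16 * Y * sg16 t1 t2 (b k)) := by
        have hterm : ∀ i, |((Mx k i * A i : ℤ) : ℝ)| ≤ |(x j0 : ℝ)| * (2 * Y * sg16 t1 t2 (b k)) := by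
          intro i
          have hpos : 0 ≤ |(x j0 : ℝ)| * (2 * Y * sg16 t1 t2 (b k)) := by
            have := hsg (b k); positivity
          cases hb : nz k i with
          | false =>
            rw [hz k i hb]; simpa using hpos
          | true =>
            have h6 : |((Mx k i : ℤ) : ℝ)| = |(x (mm k i) : ℝ)| := by
              exact_mod_cast congrArg (fun z : ℤ => (z : ℝ)) (hnz k i hb)
            have h7 := hmax (mm k i)
            have h8 := hS2 A hA i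
            have h9 := wt16 h1 h2 (hw1 k i hb) (hw2 k i hb)
            push_cast
            rw [abs_mul, h6]
            calc |(x (mm k i) : ℝ)| * |(A i : ℝ)|
                ≤ (M * tx t1 t2 (mm k i)) * (2 * (Y * sg16 t1 t2 (a i))) :=
                  mul_le_mul h7 h8 (abs_nonneg _) (mul_nonneg hMp.le (htx _).le)
              _ = 2 * Y * M * (tx t1 t2 (mm k i) * sg16 t1 t2 (a i)) := by ring
              _ = |(x j0 : ℝ)| * (2 * Y * sg16 t1 t2 (b k)) := by rw [h9, hM]; ring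
        calc |((ac8 Mx A k : ℤ) : ℝ)|
            ≤ ∑ i, |((Mx k i * A i : ℤ) : ℝ)| := by
              unfold ac8
              push_cast
              exact Finset.abs_sum_le_sum_abs _ _
          _ ≤ ∑ _i : Fin 8, |(x j0 : ℝ)| * (2 * Y * sg16 t1 t2 (b k)) :=
              Finset.sum_le_sum (fun i _ => hterm i)
          _ = |(x j0 : ℝ)| * (16 * Y * sg16 t1 t2 (b k)) := by
              rw [Finset.sum_const, Finset.card_univ, Fintype.card_fin, nsmul_eq_mul]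
              push_cast; ring
      rw [← h4] at h5
      exact le_of_mul_le_mul_left h5 haR
  · rw [Finset.card_image_of_injOn]
    · refine le_trans (le_of_eq ?_) hS3
      rw [Finset.prod_mul_distrib, Finset.prod_const, wt16_prod h1 h2 a hs1 hs2, Finset.card_univ,
        Fintype.card_fin]
      have hn2 : (((x j0).natAbs : ℕ) : ℝ) = |(x j0 : ℝ)| := by
        rw [Nat.cast_natAbs]; push_cast; rfl
      rw [hn2, hM, mul_pow]
      have := (htx j0).ne'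
      field_simp
    · intro A _ A' _ hww
      funext k
      have h3 := congrFun hww (a k)
      simp only [hX1] at h3
      exact h3

end Pool.Agent.PP5
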