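import Pool.Agent.PP5.DE

/-!
# PP5, dual side: many points in `K_x`, the charts 2 and 3
-/

namespace Pool.Agent.PP5

private def M2 (x : Fin 10 → ℤ) : Fin 8 → Fin 8 → ℤ :=
  ![![0, -(x 6), -(x 1), x 7, 0, x 4, 0, 0],
    ![-(x 6), 0, x 8, -(x 3), 0, 0, 0, x 4],
    ![-(x 1), -(x 8), 0, x 9, 0, 0, x 4, 0],
    ![-(x 7), -(x 3), x 9, 0, x 4, 0, 0, 0],
    ![0, 0, 0, x 5, 0, x 8, -(x 6), x 1],
    ![x 5, 0, 0, 0, -(x 8), 0, x 3, x 9],
    ![0, 0, x 5, 0, -(x 6), x 3, 0, x 7],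
    ![0, x 5, 0, 0, x 1, x 9, -(x 7), 0]]

private def s2 : Equiv.Perm (Fin 8) := ⟨![5, 7, 6, 4, 3, 0, 2, 1], ![5, 7, 6, 4, 3, 0, 2, 1], by decide, by decide⟩

private theorem iso2 {x : Fin 10 → ℤ} (hF : FF x = 0) (A B : Fin 8 → ℤ) :
    x 2 ∣ ∑ k, (![1, -1, -1, 1, 1, 1, -1, -1] : Fin 8 → ℤ) k * ac8 (M2 x) A k * ac8 (M2 x) B (s2 k) := by
  refine ⟨(1) * x 0 * ((A 0 * B 5 + A 5 * B 0) - (A 1 * B 7 + A 7 * B 1) - (A 2 * B 6 + A 6 * B 2) + (A 3 * B 4 + A 4 * B 3)), ?_⟩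
  unfold FF at hF
  simp only [ac8, M2, s2, Fin.sum_univ_eight, Equiv.coe_fn_mk, Matrix.cons_val]
  linear_combination (-1) * ((A 0 * B 5 + A 5 * B 0) - (A 1 * B 7 + A 7 * B 1) - (A 2 * B 6 + A 6 * B 2) + (A 3 * B 4 + A 4 * B 3)) * hF

private theorem eq2 {x : Fin 10 → ℤ} (hF : FF x = 0) (hx : x 2 ≠ 0) (A z : Fin 8 → ℤ)
    (h : ∀ k, ac8 (M2 x) A k = x 2 * z k) : PP5L.HH x ![z 0, A 0, A 1, z 1, z 2, A 2, A 3, z 3, z 4, A 4, z 5, A 5, z 6, A 6, z 7, A 7] = 0 := by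
  unfold FF at hF
  have h0 : 0 - x 6 * A 1 - x 1 * A 2 + x 7 * A 3 + x 4 * A 5 = x 2 * z 0 := by
    have := h 0
    simp only [ac8, M2, Fin.sum_univ_eight, Matrix.cons_val] at this
    linear_combination this
  have h1 : 0 - x 6 * A 0 + x 8 * A 2 - x 3 * A 3 + x 4 * A 7 = x 2 * z 1 := by
    have := h 1
    simp only [ac8, M2, Fin.sum_univ_eight, Matrix.cons_val] at this
    linear_combination this
  have h2 : 0 - x 1 * A 0 - x 8 * A 1 + x 9 * A 3 + x 4 * A 6 = x 2 * z 2 := by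
    have := h 2
    simp only [ac8, M2, Fin.sum_univ_eight, Matrix.cons_val] at this
    linear_combination this
  have h3 : 0 - x 7 * A 0 - x 3 * A 1 + x 9 * A 2 + x 4 * A 4 = x 2 * z 3 := by
    have := h 3
    simp only [ac8, M2, Fin.sum_univ_eight, Matrix.cons_val] at this
    linear_combination this
  have h4 : x 5 * A 3 + x 8 * A 5 - x 6 * A 6 + x 1 * A 7 = x 2 * z 4 := by
    have := h 4
    simp only [ac8, M2, Fin.sum_univ_eight, Matrix.cons_val] at this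
    linear_combination this
  have h5 : x 5 * A 0 - x 8 * A 4 + x 3 * A 6 + x 9 * A 7 = x 2 * z 5 := by
    have := h 5
    simp only [ac8, M2, Fin.sum_univ_eight, Matrix.cons_val] at this
    linear_combination this
  have h6 : x 5 * A 2 - x 6 * A 4 + x 3 * A 5 + x 7 * A 7 = x 2 * z 6 := by
    have := h 6
    simp only [ac8, M2, Fin.sum_univ_eight, Matrix.cons_val] at this
    linear_combination this
  have h7 : x 5 * A 1 + x 1 * A 4 + x 9 * A 5 - x 7 * A 6 = x 2 * z 7 := by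
    have := h 7
    simp only [ac8, M2, Fin.sum_univ_eight, Matrix.cons_val] at this
    linear_combination this
  clear h
  funext r
  fin_cases r
  · show PP5L.HH x ![z 0, A 0, A 1, z 1, z 2, A 2, A 3, z 3, z 4, A 4, z 5, A 5, z 6, A 6, z 7, A 7] 0 = 0
    simp only [PP5L.HH, Matrix.cons_val]
    linear_combination (-1) * h5
  · show PP5L.HH x ![z 0, A 0, A 1, z 1, z 2, A 2, A 3, z 3, z 4, A 4, z 5, A 5, z 6, A 6, z 7, A 7] 1 = 0
    simp only [PP5L.HH, Matrix.cons_val]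
    refine mul_left_cancel₀ hx ?_
    linear_combination (1) * A 5 * hF + x 5 * h0 - x 7 * h4 + x 1 * h6 + x 6 * h7
  · show PP5L.HH x ![z 0, A 0, A 1, z 1, z 2, A 2, A 3, z 3, z 4, A 4, z 5, A 5, z 6, A 6, z 7, A 7] 2 = 0
    simp only [PP5L.HH, Matrix.cons_val]
    refine mul_left_cancel₀ hx ?_
    linear_combination (-1) * A 7 * hF - x 5 * h1 - x 3 * h4 - x 6 * h5 + x 8 * h6
  · show PP5L.HH x ![z 0, A 0, A 1, z 1, z 2, A 2, A 3, z 3, z 4, A 4, z 5, A 5, z 6, A 6, z 7, A 7] 3 = 0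
    simp only [PP5L.HH, Matrix.cons_val]
    linear_combination (1) * h7
  · show PP5L.HH x ![z 0, A 0, A 1, z 1, z 2, A 2, A 3, z 3, z 4, A 4, z 5, A 5, z 6, A 6, z 7, A 7] 4 = 0
    simp only [PP5L.HH, Matrix.cons_val]
    linear_combination (1) * h6
  · show PP5L.HH x ![z 0, A 0, A 1, z 1, z 2, A 2, A 3, z 3, z 4, A 4, z 5, A 5, z 6, A 6, z 7, A 7] 5 = 0
    simp only [PP5L.HH, Matrix.cons_val]
    refine mul_left_cancel₀ hx ?_
    linear_combination (-1) * A 6 * hF - x 5 * h2 + x 9 * h4 - x 1 * h5 - x 8 * h7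
  · show PP5L.HH x ![z 0, A 0, A 1, z 1, z 2, A 2, A 3, z 3, z 4, A 4, z 5, A 5, z 6, A 6, z 7, A 7] 6 = 0
    simp only [PP5L.HH, Matrix.cons_val]
    refine mul_left_cancel₀ hx ?_
    linear_combination (1) * A 4 * hF + x 5 * h3 + x 7 * h5 - x 9 * h6 + x 3 * h7
  · show PP5L.HH x ![z 0, A 0, A 1, z 1, z 2, A 2, A 3, z 3, z 4, A 4, z 5, A 5, z 6, A 6, z 7, A 7] 7 = 0
    simp only [PP5L.HH, Matrix.cons_val]
    linear_combination (-1) * h4
  · show PP5L.HH x ![z 0, A 0, A 1, z 1, z 2, A 2, A 3, z 3, z 4, A 4, z 5, A 5, z 6, A 6, z 7, A 7] 8 = 0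
    simp only [PP5L.HH, Matrix.cons_val]
    linear_combination (-1) * h3
  · show PP5L.HH x ![z 0, A 0, A 1, z 1, z 2, A 2, A 3, z 3, z 4, A 4, z 5, A 5, z 6, A 6, z 7, A 7] 9 = 0
    simp only [PP5L.HH, Matrix.cons_val]
    refine mul_left_cancel₀ hx ?_
    linear_combination (1) * A 3 * hF - x 8 * h0 - x 1 * h1 + x 6 * h2 + x 4 * h4
  · show PP5L.HH x ![z 0, A 0, A 1, z 1, z 2, A 2, A 3, z 3, z 4, A 4, z 5, A 5, z 6, A 6, z 7, A 7] 10 = 0
    simp only [PP5L.HH, Matrix.cons_val]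
    linear_combination (-1) * h0
  · show PP5L.HH x ![z 0, A 0, A 1, z 1, z 2, A 2, A 3, z 3, z 4, A 4, z 5, A 5, z 6, A 6, z 7, A 7] 11 = 0
    simp only [PP5L.HH, Matrix.cons_val]
    refine mul_left_cancel₀ hx ?_
    linear_combination (1) * A 0 * hF - x 9 * h1 - x 3 * h2 + x 8 * h3 + x 4 * h5
  · show PP5L.HH x ![z 0, A 0, A 1, z 1, z 2, A 2, A 3, z 3, z 4, A 4, z 5, A 5, z 6, A 6, z 7, A 7] 12 = 0
    simp only [PP5L.HH, Matrix.cons_val]
    linear_combination (1) * h2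
  · show PP5L.HH x ![z 0, A 0, A 1, z 1, z 2, A 2, A 3, z 3, z 4, A 4, z 5, A 5, z 6, A 6, z 7, A 7] 13 = 0
    simp only [PP5L.HH, Matrix.cons_val]
    refine mul_left_cancel₀ hx ?_
    linear_combination (-1) * A 2 * hF + x 3 * h0 + x 7 * h1 - x 6 * h3 - x 4 * h6
  · show PP5L.HH x ![z 0, A 0, A 1, z 1, z 2, A 2, A 3, z 3, z 4, A 4, z 5, A 5, z 6, A 6, z 7, A 7] 14 = 0
    simp only [PP5L.HH, Matrix.cons_val]
    linear_combination (1) * h1
  · show PP5L.HH x ![z 0, A 0, A 1, z 1, z 2, A 2, A 3, z 3, z 4, A 4, z 5, A 5, z 6, A 6, z 7, A 7] 15 = 0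
    simp only [PP5L.HH, Matrix.cons_val]
    refine mul_left_cancel₀ hx ?_
    linear_combination (-1) * A 1 * hF + x 9 * h0 - x 7 * h2 + x 1 * h3 - x 4 * h7

theorem DF_ch2 {x : Fin 10 → ℤ} (hF : FF x = 0) {t1 t2 M Y : ℝ} (h1 : 0 < t1) (h2 : 0 < t2) (hY : 0 ≤ Y)
    (hx : x 2 ≠ 0) (hmax : ∀ j, |(x j : ℝ)| ≤ M * tx t1 t2 j) (hM : |(x 2 : ℝ)| = M * tx t1 t2 2) :
    ∃ S : Finset (Fin 16 → ℤ), (∀ s ∈ S, PP5L.HH x s = 0 ∧ ∀ i, |(s i : ℝ)| ≤ 16 * Y * sg16 t1 t2 i) ∧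
      Y ^ 8 / M ^ 4 ≤ (S.card : ℝ) := by
  refine kcore h1 h2 hY 2 hx hmax hM (M2 x) ![1, -1, -1, 1, 1, 1, -1, -1] s2 (by decide) (iso2 hF) ![1, 2, 5, 6, 9, 11, 13, 15] ![0, 3, 4, 7, 8, 10, 12, 14]
    ![![0, 6, 1, 7, 0, 4, 0, 0], ![6, 0, 8, 3, 0, 0, 0, 4], ![1, 8, 0, 9, 0, 0, 4, 0], ![7, 3, 9, 0, 4, 0, 0, 0], ![0, 0, 0, 5, 0, 8, 6, 1], ![5, 0, 0, 0, 8, 0, 3, 9], ![0, 0, 5, 0, 6, 3, 0, 7], ![0, 5, 0, 0, 1, 9, 7, 0]]
    ![![false, true, true, true, false, true, false, false], ![true, false, true, true, false, false, false, true], ![true, true, false, true, false, false, true, false], ![true, true, true, false, true, false, false, false], ![false, false, false, true, false, true, true, true], ![true, false, false, false, true, false, true, true], ![false, false, true, false, true, true, false, true], ![false, true, false, false, true, true, true, false]]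
    ?_ ?_ (by decide) (by decide) (by decide) (by decide) (fun A z => ![z 0, A 0, A 1, z 1, z 2, A 2, A 3, z 3, z 4, A 4, z 5, A 5, z 6, A 6, z 7, A 7]) ?_ ?_ (by decide) (eq2 hF hx)
  · intro k i h
    fin_cases k <;> fin_cases i <;> first | rfl | exact Bool.noConfusion h
  · intro k i h
    fin_cases k <;> fin_cases i <;> first | exact Bool.noConfusion h | rfl | exact abs_neg _
  · intro A z k
    fin_cases k <;> rfl
  · intro A z k
    fin_cases k <;> rfl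

private def M3 (x : Fin 10 → ℤ) : Fin 8 → Fin 8 → ℤ :=
  ![![0, -(x 7), -(x 0), x 6, 0, 0, x 4, 0],
    ![-(x 7), 0, x 9, -(x 2), x 4, 0, 0, 0],
    ![-(x 0), -(x 9), 0, x 8, 0, x 4, 0, 0],
    ![-(x 6), -(x 2), x 8, 0, 0, 0, 0, x 4],
    ![0, -(x 5), 0, 0, 0, -(x 6), x 8, x 0],
    ![0, 0, -(x 5), 0, x 6, 0, x 2, -(x 7)],
    ![-(x 5), 0, 0, 0, x 8, x 2, 0, -(x 9)],
    ![0, 0, 0, -(x 5), x 0, -(x 7), x 9, 0]]

private def s3 : Equiv.Perm (Fin 8) := ⟨![6, 4, 5, 7, 1, 2, 0, 3], ![6, 4, 5, 7, 1, 2, 0, 3], by decide, by decide⟩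

private theorem iso3 {x : Fin 10 → ℤ} (hF : FF x = 0) (A B : Fin 8 → ℤ) :
    x 3 ∣ ∑ k, (![1, -1, -1, 1, -1, -1, 1, 1] : Fin 8 → ℤ) k * ac8 (M3 x) A k * ac8 (M3 x) B (s3 k) := by
  refine ⟨(1) * x 1 * ((A 0 * B 6 + A 6 * B 0) - (A 1 * B 4 + A 4 * B 1) - (A 2 * B 5 + A 5 * B 2) + (A 3 * B 7 + A 7 * B 3)), ?_⟩
  unfold FF at hF
  simp only [ac8, M3, s3, Fin.sum_univ_eight, Equiv.coe_fn_mk, Matrix.cons_val]
  linear_combination (1) * ((A 0 * B 6 + A 6 * B 0) - (A 1 * B 4 + A 4 * B 1) - (A 2 * B 5 + A 5 * B 2) + (A 3 * B 7 + A 7 * B 3)) * hF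

private theorem eq3 {x : Fin 10 → ℤ} (hF : FF x = 0) (hx : x 3 ≠ 0) (A z : Fin 8 → ℤ)
    (h : ∀ k, ac8 (M3 x) A k = x 3 * z k) : PP5L.HH x ![z 0, A 0, z 1, A 1, z 2, A 2, z 3, A 3, z 4, A 4, A 5, z 5, A 6, z 6, z 7, A 7] = 0 := by
  unfold FF at hF
  have h0 : 0 - x 7 * A 1 - x 0 * A 2 + x 6 * A 3 + x 4 * A 6 = x 3 * z 0 := by
    have := h 0
    simp only [ac8, M3, Fin.sum_univ_eight, Matrix.cons_val] at this
    linear_combination this
  have h1 : 0 - x 7 * A 0 + x 9 * A 2 - x 2 * A 3 + x 4 * A 4 = x 3 * z 1 := by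
    have := h 1
    simp only [ac8, M3, Fin.sum_univ_eight, Matrix.cons_val] at this
    linear_combination this
  have h2 : 0 - x 0 * A 0 - x 9 * A 1 + x 8 * A 3 + x 4 * A 5 = x 3 * z 2 := by
    have := h 2
    simp only [ac8, M3, Fin.sum_univ_eight, Matrix.cons_val] at this
    linear_combination this
  have h3 : 0 - x 6 * A 0 - x 2 * A 1 + x 8 * A 2 + x 4 * A 7 = x 3 * z 3 := by
    have := h 3
    simp only [ac8, M3, Fin.sum_univ_eight, Matrix.cons_val] at this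
    linear_combination this
  have h4 : 0 - x 5 * A 1 - x 6 * A 5 + x 8 * A 6 + x 0 * A 7 = x 3 * z 4 := by
    have := h 4
    simp only [ac8, M3, Fin.sum_univ_eight, Matrix.cons_val] at this
    linear_combination this
  have h5 : 0 - x 5 * A 2 + x 6 * A 4 + x 2 * A 6 - x 7 * A 7 = x 3 * z 5 := by
    have := h 5
    simp only [ac8, M3, Fin.sum_univ_eight, Matrix.cons_val] at this
    linear_combination this
  have h6 : 0 - x 5 * A 0 + x 8 * A 4 + x 2 * A 5 - x 9 * A 7 = x 3 * z 6 := by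
    have := h 6
    simp only [ac8, M3, Fin.sum_univ_eight, Matrix.cons_val] at this
    linear_combination this
  have h7 : 0 - x 5 * A 3 + x 0 * A 4 - x 7 * A 5 + x 9 * A 6 = x 3 * z 7 := by
    have := h 7
    simp only [ac8, M3, Fin.sum_univ_eight, Matrix.cons_val] at this
    linear_combination this
  clear h
  funext r
  fin_cases r
  · show PP5L.HH x ![z 0, A 0, z 1, A 1, z 2, A 2, z 3, A 3, z 4, A 4, A 5, z 5, A 6, z 6, z 7, A 7] 0 = 0
    simp only [PP5L.HH, Matrix.cons_val]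
    linear_combination (1) * h6
  · show PP5L.HH x ![z 0, A 0, z 1, A 1, z 2, A 2, z 3, A 3, z 4, A 4, A 5, z 5, A 6, z 6, z 7, A 7] 1 = 0
    simp only [PP5L.HH, Matrix.cons_val]
    refine mul_left_cancel₀ hx ?_
    linear_combination (1) * A 6 * hF + x 5 * h0 - x 7 * h4 - x 0 * h5 + x 6 * h7
  · show PP5L.HH x ![z 0, A 0, z 1, A 1, z 2, A 2, z 3, A 3, z 4, A 4, A 5, z 5, A 6, z 6, z 7, A 7] 2 = 0
    simp only [PP5L.HH, Matrix.cons_val]
    linear_combination (-1) * h4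
  · show PP5L.HH x ![z 0, A 0, z 1, A 1, z 2, A 2, z 3, A 3, z 4, A 4, A 5, z 5, A 6, z 6, z 7, A 7] 3 = 0
    simp only [PP5L.HH, Matrix.cons_val]
    refine mul_left_cancel₀ hx ?_
    linear_combination (-1) * A 4 * hF - x 5 * h1 - x 9 * h5 + x 7 * h6 + x 2 * h7
  · show PP5L.HH x ![z 0, A 0, z 1, A 1, z 2, A 2, z 3, A 3, z 4, A 4, A 5, z 5, A 6, z 6, z 7, A 7] 4 = 0
    simp only [PP5L.HH, Matrix.cons_val]
    linear_combination (-1) * h5
  · show PP5L.HH x ![z 0, A 0, z 1, A 1, z 2, A 2, z 3, A 3, z 4, A 4, A 5, z 5, A 6, z 6, z 7, A 7] 5 = 0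
    simp only [PP5L.HH, Matrix.cons_val]
    refine mul_left_cancel₀ hx ?_
    linear_combination (-1) * A 5 * hF - x 5 * h2 + x 9 * h4 + x 0 * h6 - x 8 * h7
  · show PP5L.HH x ![z 0, A 0, z 1, A 1, z 2, A 2, z 3, A 3, z 4, A 4, A 5, z 5, A 6, z 6, z 7, A 7] 6 = 0
    simp only [PP5L.HH, Matrix.cons_val]
    linear_combination (1) * h7
  · show PP5L.HH x ![z 0, A 0, z 1, A 1, z 2, A 2, z 3, A 3, z 4, A 4, A 5, z 5, A 6, z 6, z 7, A 7] 7 = 0
    simp only [PP5L.HH, Matrix.cons_val]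
    refine mul_left_cancel₀ hx ?_
    linear_combination (1) * A 7 * hF + x 5 * h3 - x 2 * h4 + x 8 * h5 - x 6 * h6
  · show PP5L.HH x ![z 0, A 0, z 1, A 1, z 2, A 2, z 3, A 3, z 4, A 4, A 5, z 5, A 6, z 6, z 7, A 7] 8 = 0
    simp only [PP5L.HH, Matrix.cons_val]
    linear_combination (-1) * h1
  · show PP5L.HH x ![z 0, A 0, z 1, A 1, z 2, A 2, z 3, A 3, z 4, A 4, A 5, z 5, A 6, z 6, z 7, A 7] 9 = 0
    simp only [PP5L.HH, Matrix.cons_val]
    refine mul_left_cancel₀ hx ?_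
    linear_combination (-1) * A 1 * hF - x 8 * h0 + x 6 * h2 - x 0 * h3 + x 4 * h4
  · show PP5L.HH x ![z 0, A 0, z 1, A 1, z 2, A 2, z 3, A 3, z 4, A 4, A 5, z 5, A 6, z 6, z 7, A 7] 10 = 0
    simp only [PP5L.HH, Matrix.cons_val]
    refine mul_left_cancel₀ hx ?_
    linear_combination (-1) * A 2 * hF - x 2 * h0 - x 6 * h1 + x 7 * h3 + x 4 * h5
  · show PP5L.HH x ![z 0, A 0, z 1, A 1, z 2, A 2, z 3, A 3, z 4, A 4, A 5, z 5, A 6, z 6, z 7, A 7] 11 = 0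
    simp only [PP5L.HH, Matrix.cons_val]
    linear_combination (-1) * h2
  · show PP5L.HH x ![z 0, A 0, z 1, A 1, z 2, A 2, z 3, A 3, z 4, A 4, A 5, z 5, A 6, z 6, z 7, A 7] 12 = 0
    simp only [PP5L.HH, Matrix.cons_val]
    refine mul_left_cancel₀ hx ?_
    linear_combination (1) * A 0 * hF + x 8 * h1 + x 2 * h2 - x 9 * h3 - x 4 * h6
  · show PP5L.HH x ![z 0, A 0, z 1, A 1, z 2, A 2, z 3, A 3, z 4, A 4, A 5, z 5, A 6, z 6, z 7, A 7] 13 = 0
    simp only [PP5L.HH, Matrix.cons_val]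
    linear_combination (1) * h0
  · show PP5L.HH x ![z 0, A 0, z 1, A 1, z 2, A 2, z 3, A 3, z 4, A 4, A 5, z 5, A 6, z 6, z 7, A 7] 14 = 0
    simp only [PP5L.HH, Matrix.cons_val]
    linear_combination (1) * h3
  · show PP5L.HH x ![z 0, A 0, z 1, A 1, z 2, A 2, z 3, A 3, z 4, A 4, A 5, z 5, A 6, z 6, z 7, A 7] 15 = 0
    simp only [PP5L.HH, Matrix.cons_val]
    refine mul_left_cancel₀ hx ?_
    linear_combination (1) * A 3 * hF + x 9 * h0 + x 0 * h1 - x 7 * h2 - x 4 * h7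

theorem DF_ch3 {x : Fin 10 → ℤ} (hF : FF x = 0) {t1 t2 M Y : ℝ} (h1 : 0 < t1) (h2 : 0 < t2) (hY : 0 ≤ Y)
    (hx : x 3 ≠ 0) (hmax : ∀ j, |(x j : ℝ)| ≤ M * tx t1 t2 j) (hM : |(x 3 : ℝ)| = M * tx t1 t2 3) :
    ∃ S : Finset (Fin 16 → ℤ), (∀ s ∈ S, PP5L.HH x s = 0 ∧ ∀ i, |(s i : ℝ)| ≤ 16 * Y * sg16 t1 t2 i) ∧
      Y ^ 8 / M ^ 4 ≤ (S.card : ℝ) := by
  refine kcore h1 h2 hY 3 hx hmax hM (M3 x) ![1, -1, -1, 1, -1, -1, 1, 1] s3 (by decide) (iso3 hF) ![1, 3, 5, 7, 9, 10, 12, 15] ![0, 2, 4, 6, 8, 11, 13, 14]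
    ![![0, 7, 0, 6, 0, 0, 4, 0], ![7, 0, 9, 2, 4, 0, 0, 0], ![0, 9, 0, 8, 0, 4, 0, 0], ![6, 2, 8, 0, 0, 0, 0, 4], ![0, 5, 0, 0, 0, 6, 8, 0], ![0, 0, 5, 0, 6, 0, 2, 7], ![5, 0, 0, 0, 8, 2, 0, 9], ![0, 0, 0, 5, 0, 7, 9, 0]]
    ![![false, true, true, true, false, false, true, false], ![true, false, true, true, true, false, false, false], ![true, true, false, true, false, true, false, false], ![true, true, true, false, false, false, false, true], ![false, true, false, false, false, true, true, true], ![false, false, true, false, true, false, true, true], ![true, false, false, false, true, true, false, true], ![false, false, false, true, true, true, true, false]]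
    ?_ ?_ (by decide) (by decide) (by decide) (by decide) (fun A z => ![z 0, A 0, z 1, A 1, z 2, A 2, z 3, A 3, z 4, A 4, A 5, z 5, A 6, z 6, z 7, A 7]) ?_ ?_ (by decide) (eq3 hF hx)
  · intro k i h
    fin_cases k <;> fin_cases i <;> first | rfl | exact Bool.noConfusion h
  · intro k i h
    fin_cases k <;> fin_cases i <;> first | exact Bool.noConfusion h | rfl | exact abs_neg _
  · intro A z k
    fin_cases k <;> rfl
  · intro A z k
    fin_cases k <;> rfl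

end Pool.Agent.PP5
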