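import Pool.Agent.PP5.DFa
import Pool.Agent.PP5.DFb
import Pool.Agent.PP5.DFc
import Pool.Agent.PP5.DFd
import Pool.Agent.PP5.DFe

/-!
# PP5, dual side: many points in `K_x`, the ten charts

`many_K`: for `x ≠ 0` with `FF x = 0` and of weighted size `M` there are at least `Y ^ 8 / M ^ 4` vectors `s` of
`Z ^ 16` with `HH x s = 0` of weighted size at most `16 Y`.
-/

namespace Pool.Agent.PP5

/-- the weighted size of `x` is attained: `|x j0| = M * tx j0` -/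
theorem tx_max (t1 t2 : ℝ) (h1 : 0 < t1) (h2 : 0 < t2) (x : Fin 10 → ℤ) :
    ∃ j0 : Fin 10, |(x j0 : ℝ)| = nw (tx t1 t2) x * tx t1 t2 j0 := by
  obtain ⟨j0, hj0⟩ := Finite.exists_max (fun j : Fin 10 => |(x j : ℝ)| / tx t1 t2 j)
  refine ⟨j0, le_antisymm (le_nw (fun j => tx_pos h1 h2 j) x j0) ?_⟩
  have h3 : nw (tx t1 t2) x ≤ |(x j0 : ℝ)| / tx t1 t2 j0 := by
    rw [nw_le_iff (fun j => tx_pos h1 h2 j) (div_nonneg (abs_nonneg _) (tx_pos h1 h2 j0).le)]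
    intro i
    have := hj0 i
    rwa [div_le_iff₀ (tx_pos h1 h2 i)] at this
  rwa [le_div_iff₀ (tx_pos h1 h2 j0)] at h3

/-- **many points in `K_x`** -/
theorem many_K {x : Fin 10 → ℤ} (hF : FF x = 0) (hx : x ≠ 0) {t1 t2 Y : ℝ} (h1 : 0 < t1) (h2 : 0 < t2)
    (hY : 0 ≤ Y) :
    ∃ S : Finset (Fin 16 → ℤ), (∀ s ∈ S, PP5L.HH x s = 0 ∧ ∀ i, |(s i : ℝ)| ≤ 16 * Y * sg16 t1 t2 i) ∧
      Y ^ 8 / nw (tx t1 t2) x ^ 4 ≤ (S.card : ℝ) := by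
  have hw : ∀ j, 0 < tx t1 t2 j := fun j => tx_pos h1 h2 j
  obtain ⟨j0, hM⟩ := tx_max t1 t2 h1 h2 x
  have hmax := le_nw hw x
  have hp := nw_pos hw hx
  have hx0 : x j0 ≠ 0 := by
    intro h
    rw [h] at hM
    simp only [Int.cast_zero, abs_zero] at hM
    have := mul_pos hp (hw j0)
    linarith
  fin_cases j0
  · exact DF_ch0 hF h1 h2 hY hx0 hmax hM
  · exact DF_ch1 hF h1 h2 hY hx0 hmax hM
  · exact DF_ch2 hF h1 h2 hY hx0 hmax hM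
  · exact DF_ch3 hF h1 h2 hY hx0 hmax hM
  · exact DF_ch4 hF h1 h2 hY hx0 hmax hM
  · exact DF_ch5 hF h1 h2 hY hx0 hmax hM
  · exact DF_ch6 hF h1 h2 hY hx0 hmax hM
  · exact DF_ch7 hF h1 h2 hY hx0 hmax hM
  · exact DF_ch8 hF h1 h2 hY hx0 hmax hM
  · exact DF_ch9 hF h1 h2 hY hx0 hmax hM

end Pool.Agent.PP5
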