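import Pool.Agent.PP5.LDiv

namespace Pool.Agent.PP5L

open Matrix Module

theorem rank_nullity_gen {R M N : Type*} [CommRing R] [IsDomain R] [AddCommGroup M] [Module R M]
    [Module.Finite R M] [AddCommGroup N] [Module R N] (f : M →ₗ[R] N) :
    finrank R (LinearMap.range f) + finrank R (LinearMap.ker f) = finrank R M := by
  rw [← (LinearMap.ker f).finrank_quotient_add_finrank, f.quotKerEquivRange.finrank_eq]

/-- chart coordinates -/
def chartl (j : Fin 10) : (Fin 16 → ℤ) →ₗ[ℤ] (Fin 4 ⊕ Fin 4 → ℤ) where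
  toFun s := fun a => s (Sum.elim (cu j) (cw j) a)
  map_add' _ _ := rfl
  map_smul' _ _ := rfl

theorem chart_inj {x x' : Fin 10 → ℤ} (hF : FF x = 0) (h1 : bF x x' = 1) (j : Fin 10)
    (hj : x j ≠ 0) {s : Fin 16 → ℤ} (hs : s ∈ Kx x)
    (h0 : ∀ a, s (Sum.elim (cu j) (cw j) a) = 0) : s = 0 := by
  have hu : ∀ a, s (cu j a) = 0 := fun a => by simpa using h0 (Sum.inl a)
  have hw : ∀ a, s (cw j a) = 0 := fun a => by simpa using h0 (Sum.inr a)
  funext i
  have hb := Bd_Kx hF h1 hs (HP_mem_Kx hF (Pi.single i 1)) j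
  rw [Bd_chart] at hb
  simp only [hu, hw, zero_mul, add_zero, mul_zero, Finset.sum_const_zero] at hb
  have h2 : bx x' s (HP x (Pi.single i 1)) = 0 := (mul_eq_zero.1 hb.symm).resolve_right hj
  rw [bx_symm, bx_HP h1 _ hs] at h2
  simpa [dot, Pi.single_apply] using h2

theorem finrank_Kx_le {x x' : Fin 10 → ℤ} (hF : FF x = 0) (h1 : bF x x' = 1) :
    finrank ℤ (Kx x) ≤ 8 := by
  obtain ⟨j, hj⟩ := exists_coord_ne h1
  have hinj : Function.Injective ((chartl j).domRestrict (Kx x)) := by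
    rw [← LinearMap.ker_eq_bot, LinearMap.ker_eq_bot']
    intro s hs
    apply Subtype.ext
    exact chart_inj hF h1 j hj s.2 (fun a => congrFun hs a)
  have h := LinearMap.finrank_le_finrank_of_injective hinj
  simpa using h

theorem finrank_Kx {x x' : Fin 10 → ℤ} (hF : FF x = 0) (h1 : bF x x' = 1) :
    finrank ℤ (Kx x) = 8 := by
  apply le_antisymm (finrank_Kx_le hF h1)
  have hrn := rank_nullity_gen (HHl x : (Fin 16 → ℤ) →ₗ[ℤ] (Fin 16 → ℤ))
  have hle : LinearMap.range (HHl x : (Fin 16 → ℤ) →ₗ[ℤ] (Fin 16 → ℤ)) ≤ Kx (xhat x) := by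
    rintro _ ⟨s, rfl⟩
    rw [mem_Kx, HHl_apply]
    funext i
    rw [HP_xhat, HP_HH, hF]; simp
  have h8 : finrank ℤ (LinearMap.range (HHl x : (Fin 16 → ℤ) →ₗ[ℤ] (Fin 16 → ℤ))) ≤ 8 :=
    le_trans (Submodule.finrank_mono hle)
      (finrank_Kx_le (x' := xhat x') (by rw [FF_xhat, hF]) (by rw [bF_xhat, h1]))
  have h16 : finrank ℤ (Fin 16 → ℤ) = 16 := by simp
  have hk : finrank ℤ (Kx x) = finrank ℤ (LinearMap.ker (HHl x : (Fin 16 → ℤ) →ₗ[ℤ] (Fin 16 → ℤ))) := rfl
  omega

/-- the four conditions as a map -/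
def rhol : (Fin 16 → ℤ) →ₗ[ℤ] (Fin 4 → ℤ) where
  toFun s := fun i => dot s (rho i)
  map_add' s t := by funext i; simp [dot, add_mul, Finset.sum_add_distrib]
  map_smul' c s := by funext i; exact dot_smul_left c s (rho i)

theorem finrank_Lx {x x' : Fin 10 → ℤ} (hF : FF x = 0) (h1 : bF x x' = 1)
    (hD : (SS x).det ≠ 0) : finrank ℤ (Lx x) = 4 := by
  set f : Kx x →ₗ[ℤ] (Fin 4 → ℤ) := rhol.domRestrict (Kx x) with hf
  have hrn := rank_nullity_gen f
  rw [finrank_Kx hF h1] at hrn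
  have hr4 : finrank ℤ (LinearMap.range f) = 4 := by
    apply le_antisymm
    · have := Submodule.finrank_le (LinearMap.range f)
      simpa using this
    · have hle : LinearMap.range (Matrix.vecMulLinear (SS x)) ≤ LinearMap.range f := by
        rintro _ ⟨v, rfl⟩
        refine ⟨⟨∑ k, v k • HP x (rho k), Submodule.sum_mem _ fun k _ =>
          Submodule.smul_mem _ _ (HP_mem_Kx hF _)⟩, ?_⟩
        funext i
        simp only [hf, LinearMap.domRestrict_apply, rhol, LinearMap.coe_mk, AddHom.coe_mk,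
          dot_sum_left, SS_eq, Matrix.vecMulLinear_apply, Matrix.vecMul, dotProduct]
      have hinj : Function.Injective (Matrix.vecMulLinear (SS x)) := by
        rw [← LinearMap.ker_eq_bot, LinearMap.ker_eq_bot']
        intro v hv
        exact Matrix.eq_zero_of_vecMul_eq_zero hD hv
      have h4 : finrank ℤ (LinearMap.range (Matrix.vecMulLinear (SS x))) = 4 := by
        rw [LinearMap.finrank_range_of_inj hinj]; simp
      exact le_trans (le_of_eq h4.symm) (Submodule.finrank_mono hle)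
  have hker : finrank ℤ (LinearMap.ker f) = 4 := by omega
  have hmap : (LinearMap.ker f).map (Kx x).subtype = Lx x := by
    ext s
    constructor
    · rintro ⟨t, ht, rfl⟩
      have ht' := LinearMap.mem_ker.1 ht
      exact mem_Lx.2 ⟨mem_Kx.1 t.2, fun i => congrFun ht' i⟩
    · intro hs
      refine ⟨⟨s, Lx_le_Kx x hs⟩, ?_, rfl⟩
      have := (mem_Lx.1 hs).2
      exact LinearMap.mem_ker.2 (funext this)
  rw [← hmap, Submodule.finrank_map_subtype_eq, hker]

/-- a basis of `L_x` -/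
theorem exists_basis_Lx {x x' : Fin 10 → ℤ} (hF : FF x = 0) (h1 : bF x x' = 1)
    (hD : (SS x).det ≠ 0) : Nonempty (Basis (Fin 4) ℤ (Lx x)) := by
  have h := finrank_Lx hF h1 hD
  exact ⟨Module.finBasisOfFinrankEq ℤ (Lx x) h⟩

end Pool.Agent.PP5L
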