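import Pool.Agent.PP5.DF
import Pool.Agent.PP5.LRank

/-!
# PP5, dual side: the twelve coordinates inside the sixteen, many points in `L_x`
-/

namespace Pool.Agent.PP5

/-- place of the twelve coordinates among the sixteen -/
def ix : Fin 12 → Fin 16 := ![8, 6, 2, 3, 7, 9, 0, 4, 10, 11, 5, 1]
/-- the sixteen coordinates in terms of the twelve -/
def ex : Fin 16 → Fin 12 := ![6, 11, 2, 3, 7, 10, 1, 4, 0, 5, 8, 9, 7, 10, 1, 4]

/-- the embedding of the twelve-dimensional slice -/
def emb (P : Sp) : Fin 16 → ℤ := fun i => P (ex i)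

theorem ex_ix (i : Fin 12) : ex (ix i) = i := by fin_cases i <;> rfl

theorem emb_ix (P : Sp) (i : Fin 12) : emb P (ix i) = P i := by unfold emb; rw [ex_ix]

theorem emb_inj {P Q : Sp} (h : emb P = emb Q) : P = Q := by
  funext i
  rw [← emb_ix P i, ← emb_ix Q i, h]

theorem emb_add (P Q : Sp) : emb (P + Q) = emb P + emb Q := rfl

theorem emb_smul (c : ℤ) (P : Sp) : emb (c • P) = c • emb P := rfl

/-- the embedding as a homomorphism -/
def embh : Sp →+ (Fin 16 → ℤ) where
  toFun := emb
  map_zero' := rfl
  map_add' _ _ := rfl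

theorem sg_ex {t1 t2 : ℝ} (h1 : 0 < t1) (h2 : 0 < t2) (i : Fin 16) : sg t1 t2 (ex i) = sg16 t1 t2 i := by
  rw [sg_eq h1 h2]
  unfold sg16
  fin_cases i <;> rfl

theorem sg_ix {t1 t2 : ℝ} (h1 : 0 < t1) (h2 : 0 < t2) (i : Fin 12) : sg16 t1 t2 (ix i) = sg t1 t2 i := by
  rw [← sg_ex h1 h2, ex_ix]

theorem InE_iff (P : Sp) (x : Fin 10 → ℤ) : InE P x ↔ PP5L.HH x (emb P) = 0 := by
  constructor
  · intro h
    funext r
    fin_cases r
    · show PP5L.HH x (emb P) 0 = 0
      simp only [PP5L.HH, emb, ex, Matrix.cons_val]; linear_combination (-1) * h.e1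
    · show PP5L.HH x (emb P) 1 = 0
      simp only [PP5L.HH, emb, ex, Matrix.cons_val]; linear_combination (-1) * h.e2
    · show PP5L.HH x (emb P) 2 = 0
      simp only [PP5L.HH, emb, ex, Matrix.cons_val]; linear_combination h.e3
    · show PP5L.HH x (emb P) 3 = 0
      simp only [PP5L.HH, emb, ex, Matrix.cons_val]; linear_combination h.e4
    · show PP5L.HH x (emb P) 4 = 0
      simp only [PP5L.HH, emb, ex, Matrix.cons_val]; linear_combination h.e5
    · show PP5L.HH x (emb P) 5 = 0
      simp only [PP5L.HH, emb, ex, Matrix.cons_val]; linear_combination h.e6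
    · show PP5L.HH x (emb P) 6 = 0
      simp only [PP5L.HH, emb, ex, Matrix.cons_val]; linear_combination (-1) * h.e7
    · show PP5L.HH x (emb P) 7 = 0
      simp only [PP5L.HH, emb, ex, Matrix.cons_val]; linear_combination (-1) * h.e8
    · show PP5L.HH x (emb P) 8 = 0
      simp only [PP5L.HH, emb, ex, Matrix.cons_val]; linear_combination (-1) * h.e9
    · show PP5L.HH x (emb P) 9 = 0
      simp only [PP5L.HH, emb, ex, Matrix.cons_val]; linear_combination (-1) * h.e10
    · show PP5L.HH x (emb P) 10 = 0
      simp only [PP5L.HH, emb, ex, Matrix.cons_val]; linear_combination (-1) * h.e11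
    · show PP5L.HH x (emb P) 11 = 0
      simp only [PP5L.HH, emb, ex, Matrix.cons_val]; linear_combination (-1) * h.e12
    · show PP5L.HH x (emb P) 12 = 0
      simp only [PP5L.HH, emb, ex, Matrix.cons_val]; linear_combination h.e13
    · show PP5L.HH x (emb P) 13 = 0
      simp only [PP5L.HH, emb, ex, Matrix.cons_val]; linear_combination h.e14
    · show PP5L.HH x (emb P) 14 = 0
      simp only [PP5L.HH, emb, ex, Matrix.cons_val]; linear_combination h.e15
    · show PP5L.HH x (emb P) 15 = 0
      simp only [PP5L.HH, emb, ex, Matrix.cons_val]; linear_combination h.e16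
  · intro h
    have k : ∀ r, PP5L.HH x (emb P) r = 0 := fun r => congrFun h r
    refine ⟨?_, ?_, ?_, ?_, ?_, ?_, ?_, ?_, ?_, ?_, ?_, ?_, ?_, ?_, ?_, ?_⟩
    · have := k 0
      simp only [PP5L.HH, emb, ex, Matrix.cons_val] at this; linear_combination (-1) * this
    · have := k 1
      simp only [PP5L.HH, emb, ex, Matrix.cons_val] at this; linear_combination (-1) * this
    · have := k 2
      simp only [PP5L.HH, emb, ex, Matrix.cons_val] at this; linear_combination this
    · have := k 3
      simp only [PP5L.HH, emb, ex, Matrix.cons_val] at this; linear_combination this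
    · have := k 4
      simp only [PP5L.HH, emb, ex, Matrix.cons_val] at this; linear_combination this
    · have := k 5
      simp only [PP5L.HH, emb, ex, Matrix.cons_val] at this; linear_combination this
    · have := k 6
      simp only [PP5L.HH, emb, ex, Matrix.cons_val] at this; linear_combination (-1) * this
    · have := k 7
      simp only [PP5L.HH, emb, ex, Matrix.cons_val] at this; linear_combination (-1) * this
    · have := k 8
      simp only [PP5L.HH, emb, ex, Matrix.cons_val] at this; linear_combination (-1) * this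
    · have := k 9
      simp only [PP5L.HH, emb, ex, Matrix.cons_val] at this; linear_combination (-1) * this
    · have := k 10
      simp only [PP5L.HH, emb, ex, Matrix.cons_val] at this; linear_combination (-1) * this
    · have := k 11
      simp only [PP5L.HH, emb, ex, Matrix.cons_val] at this; linear_combination (-1) * this
    · have := k 12
      simp only [PP5L.HH, emb, ex, Matrix.cons_val] at this; linear_combination this
    · have := k 13
      simp only [PP5L.HH, emb, ex, Matrix.cons_val] at this; linear_combination this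
    · have := k 14
      simp only [PP5L.HH, emb, ex, Matrix.cons_val] at this; linear_combination this
    · have := k 15
      simp only [PP5L.HH, emb, ex, Matrix.cons_val] at this; linear_combination this

theorem dot_emb (P : Sp) (i : Fin 4) : PP5L.dot (emb P) (PP5L.rho i) = 0 := by
  fin_cases i <;>
    simp [PP5L.dot, PP5L.rho, emb, ex, Fin.sum_univ_succ]

theorem emb_mem {P : Sp} {x : Fin 10 → ℤ} : emb P ∈ PP5L.Lx x ↔ InE P x := by
  rw [PP5L.mem_Lx, InE_iff]
  exact ⟨fun h => h.1, fun h => ⟨h, dot_emb P⟩⟩

theorem emb_surj {s : Fin 16 → ℤ} (h : ∀ i : Fin 4, PP5L.dot s (PP5L.rho i) = 0) :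
    emb (fun i => s (ix i)) = s := by
  have h0 := h 0
  have h1 := h 1
  have h2 := h 2
  have h3 := h 3
  simp [PP5L.dot, PP5L.rho, Fin.sum_univ_succ] at h0 h1 h2 h3
  funext i
  fin_cases i <;> simp [emb, ex, ix] <;> first | rfl | omega

/-- the lattice `L_x` in the twelve coordinates -/
def ES (x : Fin 10 → ℤ) : AddSubgroup Sp := (PP5L.Lx x).toAddSubgroup.comap embh

theorem mem_ES {P : Sp} {x : Fin 10 → ℤ} : P ∈ ES x ↔ InE P x := emb_mem

end Pool.Agent.PP5
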