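import Pool.Agent.PP5.DJ

/-!
# PP5, dual side: the rank of `L_x` is four
-/

namespace Pool.Agent.PP5

open Module

/-- the vector `x = (l_i l_j)` -/
def ql (l : Fin 4 → ℤ) : Fin 10 → ℤ :=
  ![l 1 * l 1, l 3 * l 3, l 0 * l 0, l 2 * l 2, l 0 * l 1 + l 2 * l 3, l 0 * l 1 - l 2 * l 3,
    -(l 1 * l 3), -(l 0 * l 3), -(l 1 * l 2), -(l 0 * l 2)]

/-- the combination of the four conditions -/
def rl (l : Fin 4 → ℤ) : Fin 16 → ℤ :=
  ![0, 0, 0, 0, -(l 0), -(l 1), -(l 2), -(l 3), 0, 0, 0, 0, l 0, l 1, l 2, l 3]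

theorem ql_prop {x : Fin 10 → ℤ} {l : Fin 4 → ℤ} (h : PP5L.HP x (rl l) = 0) (k : Fin 4) (i : Fin 10) :
    (2 * (l k * l k)) * x i = (2 * x ((![2, 0, 3, 1] : Fin 4 → Fin 10) k)) * ql l i := by
  have h0 : l 1 * x 1 + l 3 * x 6 = 0 := by
    have := congrFun h 0
    simp only [PP5L.HP, rl, Matrix.cons_val, Pi.zero_apply] at this
    linear_combination this
  have h1 : l 0 * x 3 + l 2 * x 9 = 0 := by
    have := congrFun h 1
    simp only [PP5L.HP, rl, Matrix.cons_val, Pi.zero_apply] at this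
    linear_combination this
  have h2 : 0 - l 0 * x 7 - l 3 * x 2 = 0 := by
    have := congrFun h 2
    simp only [PP5L.HP, rl, Matrix.cons_val, Pi.zero_apply] at this
    linear_combination this
  have h3 : 0 - l 1 * x 8 - l 2 * x 0 = 0 := by
    have := congrFun h 3
    simp only [PP5L.HP, rl, Matrix.cons_val, Pi.zero_apply] at this
    linear_combination this
  have h4 : 0 - l 0 * x 0 + l 1 * x 4 + l 3 * x 8 = 0 := by
    have := congrFun h 4
    simp only [PP5L.HP, rl, Matrix.cons_val, Pi.zero_apply] at this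
    linear_combination this
  have h5 : l 0 * x 4 - l 1 * x 2 + l 2 * x 7 = 0 := by
    have := congrFun h 5
    simp only [PP5L.HP, rl, Matrix.cons_val, Pi.zero_apply] at this
    linear_combination this
  have h6 : 0 - l 0 * x 6 + l 2 * x 1 - l 3 * x 4 = 0 := by
    have := congrFun h 6
    simp only [PP5L.HP, rl, Matrix.cons_val, Pi.zero_apply] at this
    linear_combination this
  have h7 : 0 - l 1 * x 9 - l 2 * x 4 + l 3 * x 3 = 0 := by
    have := congrFun h 7
    simp only [PP5L.HP, rl, Matrix.cons_val, Pi.zero_apply] at this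
    linear_combination this
  have h8 : 0 - l 1 * x 6 - l 3 * x 0 = 0 := by
    have := congrFun h 8
    simp only [PP5L.HP, rl, Matrix.cons_val, Pi.zero_apply] at this
    linear_combination this
  have h9 : 0 - l 0 * x 9 - l 2 * x 2 = 0 := by
    have := congrFun h 9
    simp only [PP5L.HP, rl, Matrix.cons_val, Pi.zero_apply] at this
    linear_combination this
  have h10 : l 1 * x 3 + l 2 * x 8 = 0 := by
    have := congrFun h 10
    simp only [PP5L.HP, rl, Matrix.cons_val, Pi.zero_apply] at this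
    linear_combination this
  have h11 : l 0 * x 1 + l 3 * x 7 = 0 := by
    have := congrFun h 11
    simp only [PP5L.HP, rl, Matrix.cons_val, Pi.zero_apply] at this
    linear_combination this
  have h12 : l 0 * x 0 - l 1 * x 5 + l 2 * x 6 = 0 := by
    have := congrFun h 12
    simp only [PP5L.HP, rl, Matrix.cons_val, Pi.zero_apply] at this
    linear_combination this
  have h13 : 0 - l 0 * x 5 + l 1 * x 2 + l 3 * x 9 = 0 := by
    have := congrFun h 13
    simp only [PP5L.HP, rl, Matrix.cons_val, Pi.zero_apply] at this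
    linear_combination this
  have h14 : 0 - l 1 * x 7 - l 2 * x 1 - l 3 * x 5 = 0 := by
    have := congrFun h 14
    simp only [PP5L.HP, rl, Matrix.cons_val, Pi.zero_apply] at this
    linear_combination this
  have h15 : 0 - l 0 * x 8 - l 2 * x 5 - l 3 * x 3 = 0 := by
    have := congrFun h 15
    simp only [PP5L.HP, rl, Matrix.cons_val, Pi.zero_apply] at this
    linear_combination this
  clear h
  fin_cases k
  · fin_cases i
    · show (2 * (l 0 * l 0)) * x 0 = (2 * x 2) * ql l 0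
      simp only [ql, Matrix.cons_val]
      linear_combination (-1) * l 0 * h4 + (1) * l 1 * h5 + (1) * l 2 * h6 + (-1) * l 3 * h7 + (1) * l 0 * h12 + (-1) * l 1 * h13 + (1) * l 2 * h14 + (-1) * l 3 * h15
    · show (2 * (l 0 * l 0)) * x 1 = (2 * x 2) * ql l 1
      simp only [ql, Matrix.cons_val]
      linear_combination (2) * l 3 * h2 + (2) * l 0 * h11
    · show (2 * (l 0 * l 0)) * x 2 = (2 * x 2) * ql l 2
      simp only [ql, Matrix.cons_val]
      ring
    · show (2 * (l 0 * l 0)) * x 3 = (2 * x 2) * ql l 3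
      simp only [ql, Matrix.cons_val]
      linear_combination (2) * l 0 * h1 + (2) * l 2 * h9
    · show (2 * (l 0 * l 0)) * x 4 = (2 * x 2) * ql l 4
      simp only [ql, Matrix.cons_val]
      linear_combination (2) * l 2 * h2 + (2) * l 0 * h5
    · show (2 * (l 0 * l 0)) * x 5 = (2 * x 2) * ql l 5
      simp only [ql, Matrix.cons_val]
      linear_combination (-2) * l 3 * h9 + (-2) * l 0 * h13
    · show (2 * (l 0 * l 0)) * x 6 = (2 * x 2) * ql l 6
      simp only [ql, Matrix.cons_val]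
      linear_combination (-2) * l 3 * h5 + (-2) * l 0 * h6 + (2) * l 2 * h11
    · show (2 * (l 0 * l 0)) * x 7 = (2 * x 2) * ql l 7
      simp only [ql, Matrix.cons_val]
      linear_combination (-2) * l 0 * h2
    · show (2 * (l 0 * l 0)) * x 8 = (2 * x 2) * ql l 8
      simp only [ql, Matrix.cons_val]
      linear_combination (-2) * l 3 * h1 + (2) * l 2 * h13 + (-2) * l 0 * h15
    · show (2 * (l 0 * l 0)) * x 9 = (2 * x 2) * ql l 9
      simp only [ql, Matrix.cons_val]
      linear_combination (-2) * l 0 * h9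
  · fin_cases i
    · show (2 * (l 1 * l 1)) * x 0 = (2 * x 0) * ql l 0
      simp only [ql, Matrix.cons_val]
      ring
    · show (2 * (l 1 * l 1)) * x 1 = (2 * x 0) * ql l 1
      simp only [ql, Matrix.cons_val]
      linear_combination (2) * l 1 * h0 + (2) * l 3 * h8
    · show (2 * (l 1 * l 1)) * x 2 = (2 * x 0) * ql l 2
      simp only [ql, Matrix.cons_val]
      linear_combination (1) * l 0 * h4 + (-1) * l 1 * h5 + (-1) * l 2 * h6 + (1) * l 3 * h7 + (-1) * l 0 * h12 + (1) * l 1 * h13 + (-1) * l 2 * h14 + (1) * l 3 * h15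
    · show (2 * (l 1 * l 1)) * x 3 = (2 * x 0) * ql l 3
      simp only [ql, Matrix.cons_val]
      linear_combination (2) * l 2 * h3 + (2) * l 1 * h10
    · show (2 * (l 1 * l 1)) * x 4 = (2 * x 0) * ql l 4
      simp only [ql, Matrix.cons_val]
      linear_combination (2) * l 3 * h3 + (2) * l 1 * h4
    · show (2 * (l 1 * l 1)) * x 5 = (2 * x 0) * ql l 5
      simp only [ql, Matrix.cons_val]
      linear_combination (-2) * l 2 * h8 + (-2) * l 1 * h12
    · show (2 * (l 1 * l 1)) * x 6 = (2 * x 0) * ql l 6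
      simp only [ql, Matrix.cons_val]
      linear_combination (-2) * l 1 * h8
    · show (2 * (l 1 * l 1)) * x 7 = (2 * x 0) * ql l 7
      simp only [ql, Matrix.cons_val]
      linear_combination (-2) * l 2 * h0 + (2) * l 3 * h12 + (-2) * l 1 * h14
    · show (2 * (l 1 * l 1)) * x 8 = (2 * x 0) * ql l 8
      simp only [ql, Matrix.cons_val]
      linear_combination (-2) * l 1 * h3
    · show (2 * (l 1 * l 1)) * x 9 = (2 * x 0) * ql l 9
      simp only [ql, Matrix.cons_val]
      linear_combination (-2) * l 2 * h4 + (-2) * l 1 * h7 + (2) * l 3 * h10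
  · fin_cases i
    · show (2 * (l 2 * l 2)) * x 0 = (2 * x 3) * ql l 0
      simp only [ql, Matrix.cons_val]
      linear_combination (-2) * l 2 * h3 + (-2) * l 1 * h10
    · show (2 * (l 2 * l 2)) * x 1 = (2 * x 3) * ql l 1
      simp only [ql, Matrix.cons_val]
      linear_combination (1) * l 0 * h4 + (-1) * l 1 * h5 + (1) * l 2 * h6 + (-1) * l 3 * h7 + (1) * l 0 * h12 + (-1) * l 1 * h13 + (-1) * l 2 * h14 + (1) * l 3 * h15
    · show (2 * (l 2 * l 2)) * x 2 = (2 * x 3) * ql l 2
      simp only [ql, Matrix.cons_val]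
      linear_combination (-2) * l 0 * h1 + (-2) * l 2 * h9
    · show (2 * (l 2 * l 2)) * x 3 = (2 * x 3) * ql l 3
      simp only [ql, Matrix.cons_val]
      ring
    · show (2 * (l 2 * l 2)) * x 4 = (2 * x 3) * ql l 4
      simp only [ql, Matrix.cons_val]
      linear_combination (-2) * l 1 * h1 + (-2) * l 2 * h7
    · show (2 * (l 2 * l 2)) * x 5 = (2 * x 3) * ql l 5
      simp only [ql, Matrix.cons_val]
      linear_combination (-2) * l 0 * h10 + (-2) * l 2 * h15
    · show (2 * (l 2 * l 2)) * x 6 = (2 * x 3) * ql l 6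
      simp only [ql, Matrix.cons_val]
      linear_combination (2) * l 0 * h3 + (2) * l 2 * h12 + (-2) * l 1 * h15
    · show (2 * (l 2 * l 2)) * x 7 = (2 * x 3) * ql l 7
      simp only [ql, Matrix.cons_val]
      linear_combination (2) * l 2 * h5 + (2) * l 0 * h7 + (-2) * l 1 * h9
    · show (2 * (l 2 * l 2)) * x 8 = (2 * x 3) * ql l 8
      simp only [ql, Matrix.cons_val]
      linear_combination (2) * l 2 * h10
    · show (2 * (l 2 * l 2)) * x 9 = (2 * x 3) * ql l 9
      simp only [ql, Matrix.cons_val]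
      linear_combination (2) * l 2 * h1
  · fin_cases i
    · show (2 * (l 3 * l 3)) * x 0 = (2 * x 1) * ql l 0
      simp only [ql, Matrix.cons_val]
      linear_combination (-2) * l 1 * h0 + (-2) * l 3 * h8
    · show (2 * (l 3 * l 3)) * x 1 = (2 * x 1) * ql l 1
      simp only [ql, Matrix.cons_val]
      ring
    · show (2 * (l 3 * l 3)) * x 2 = (2 * x 1) * ql l 2
      simp only [ql, Matrix.cons_val]
      linear_combination (-2) * l 3 * h2 + (-2) * l 0 * h11
    · show (2 * (l 3 * l 3)) * x 3 = (2 * x 1) * ql l 3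
      simp only [ql, Matrix.cons_val]
      linear_combination (-1) * l 0 * h4 + (1) * l 1 * h5 + (-1) * l 2 * h6 + (1) * l 3 * h7 + (-1) * l 0 * h12 + (1) * l 1 * h13 + (1) * l 2 * h14 + (-1) * l 3 * h15
    · show (2 * (l 3 * l 3)) * x 4 = (2 * x 1) * ql l 4
      simp only [ql, Matrix.cons_val]
      linear_combination (-2) * l 0 * h0 + (-2) * l 3 * h6
    · show (2 * (l 3 * l 3)) * x 5 = (2 * x 1) * ql l 5
      simp only [ql, Matrix.cons_val]
      linear_combination (-2) * l 1 * h11 + (-2) * l 3 * h14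
    · show (2 * (l 3 * l 3)) * x 6 = (2 * x 1) * ql l 6
      simp only [ql, Matrix.cons_val]
      linear_combination (2) * l 3 * h0
    · show (2 * (l 3 * l 3)) * x 7 = (2 * x 1) * ql l 7
      simp only [ql, Matrix.cons_val]
      linear_combination (2) * l 3 * h11
    · show (2 * (l 3 * l 3)) * x 8 = (2 * x 1) * ql l 8
      simp only [ql, Matrix.cons_val]
      linear_combination (2) * l 3 * h4 + (2) * l 1 * h6 + (-2) * l 0 * h8
    · show (2 * (l 3 * l 3)) * x 9 = (2 * x 1) * ql l 9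
      simp only [ql, Matrix.cons_val]
      linear_combination (2) * l 1 * h2 + (2) * l 3 * h13 + (-2) * l 0 * h14

theorem InE_prop {P : Sp} {x q : Fin 10 → ℤ} {A B : ℤ} (hA : A ≠ 0) (h : ∀ i, B * x i = A * q i)
    (hE : InE P x) : InE P q := by
  refine ⟨?_, ?_, ?_, ?_, ?_, ?_, ?_, ?_, ?_, ?_, ?_, ?_, ?_, ?_, ?_, ?_⟩ <;> refine mul_left_cancel₀ hA ?_
  · linear_combination B * hE.e1 - P 4 * h 9 + P 5 * h 8 + P 8 * h 2 - P 10 * h 3 - P 11 * h 5
  · linear_combination B * hE.e2 + P 0 * h 7 - P 1 * h 6 - P 7 * h 1 + P 9 * h 0 - P 6 * h 5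
  · linear_combination B * hE.e3 - P 0 * h 3 - P 3 * h 5 + P 4 * h 0 + P 7 * h 8 - P 8 * h 6
  · linear_combination B * hE.e4 + P 1 * h 2 - P 2 * h 5 - P 5 * h 1 - P 9 * h 9 + P 10 * h 7
  · linear_combination B * hE.e5 - P 4 * h 7 + P 5 * h 6 + P 7 * h 2 - P 9 * h 3 - P 10 * h 5
  · linear_combination B * hE.e6 + P 0 * h 9 - P 1 * h 8 - P 7 * h 5 - P 8 * h 1 + P 10 * h 0
  · linear_combination B * hE.e7 - P 1 * h 3 - P 4 * h 5 + P 5 * h 0 + P 7 * h 9 - P 8 * h 7
  · linear_combination B * hE.e8 + P 0 * h 2 - P 1 * h 5 - P 4 * h 1 - P 9 * h 8 + P 10 * h 6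
  · linear_combination B * hE.e9 + P 2 * h 3 + P 4 * h 2 - P 5 * h 4 - P 10 * h 9 + P 11 * h 7
  · linear_combination B * hE.e10 - P 0 * h 4 + P 1 * h 0 + P 3 * h 1 - P 7 * h 6 + P 6 * h 8
  · linear_combination B * hE.e11 - P 1 * h 7 + P 2 * h 6 - P 9 * h 4 + P 10 * h 1 + P 6 * h 2
  · linear_combination B * hE.e12 + P 3 * h 9 - P 4 * h 8 + P 7 * h 3 - P 8 * h 4 + P 11 * h 0
  · linear_combination B * hE.e13 - P 1 * h 9 + P 2 * h 8 + P 7 * h 2 - P 10 * h 4 + P 11 * h 1
  · linear_combination B * hE.e14 + P 3 * h 7 - P 4 * h 6 - P 7 * h 4 + P 10 * h 0 + P 6 * h 3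
  · linear_combination B * hE.e15 + P 1 * h 3 + P 3 * h 2 - P 4 * h 4 - P 10 * h 8 + P 11 * h 6
  · linear_combination B * hE.e16 - P 1 * h 4 + P 2 * h 0 + P 4 * h 1 - P 7 * h 7 + P 6 * h 9

theorem no_ql {P : Sp} (hnd : ∀ v1 v2 w1 w2 : ℤ, (v1 ≠ 0 ∨ v2 ≠ 0) → (w1 ≠ 0 ∨ w2 ≠ 0) →
    Pf P v1 v2 w1 w2 = 0 → Rf P v1 v2 w1 w2 ≠ 0) {l : Fin 4 → ℤ} (hl : l ≠ 0) (hE : InE P (ql l)) : False := by
  have g1 := hE.e1
  have g2 := hE.e2
  have g3 := hE.e3
  have g4 := hE.e4
  have g5 := hE.e5
  have g6 := hE.e6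
  have g7 := hE.e7
  have g8 := hE.e8
  have g9 := hE.e9
  have g10 := hE.e10
  have g11 := hE.e11
  have g12 := hE.e12
  have g13 := hE.e13
  have g14 := hE.e14
  have g15 := hE.e15
  have g16 := hE.e16
  simp only [ql, Matrix.cons_val] at g1 g2 g3 g4 g5 g6 g7 g8 g9 g10 g11 g12 g13 g14 g15 g16
  by_cases hv : l 0 = 0 ∧ l 1 = 0
  · obtain ⟨h0, h1⟩ := hv
    have hw : l 2 ≠ 0 ∨ -(l 3) ≠ 0 := by
      by_contra hc
      push Not at hc
      apply hl
      funext i
      fin_cases i
      · exact h0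
      · exact h1
      · exact hc.1
      · show l 3 = 0
        have := hc.2
        omega
    rw [h0, h1] at g1 g2 g3 g4 g5 g6 g7 g8 g9 g10 g11 g12 g13 g14 g15 g16
    refine hnd 1 0 (l 2) (-(l 3)) (Or.inl one_ne_zero) hw ?_ ?_
    · unfold Pf
      have k1 : l 2 * (P 0 * l 2 - P 3 * l 3) = 0 := by linear_combination g3
      have k2 : l 3 * (P 0 * l 2 - P 3 * l 3) = 0 := by linear_combination g10
      have k3 : P 0 * l 2 - P 3 * l 3 = 0 := by
        rcases hw with h | h
        · exact (mul_eq_zero.mp k1).resolve_left h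
        · exact (mul_eq_zero.mp k2).resolve_left (fun h3 => h (by rw [h3]; rfl))
      linear_combination k3
    · unfold Rf
      linear_combination g6 - g14
  · have hv' : l 0 ≠ 0 ∨ -(l 1) ≠ 0 := by
      by_contra hc
      push Not at hc
      exact hv ⟨hc.1, by have := hc.2; omega⟩
    by_cases hw : l 2 = 0 ∧ l 3 = 0
    · obtain ⟨h2, h3⟩ := hw
      rw [h2, h3] at g1 g2 g3 g4 g5 g6 g7 g8 g9 g10 g11 g12 g13 g14 g15 g16
      refine hnd (l 0) (-(l 1)) 1 0 hv' (Or.inl one_ne_zero) ?_ ?_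
      · unfold Pf
        linear_combination -g8 - g16
      · unfold Rf
        have k1 : l 1 * (P 6 * l 0 - P 9 * l 1) = 0 := by linear_combination g2
        have k2 : l 0 * (P 6 * l 0 - P 9 * l 1) = 0 := by linear_combination -g11
        have k3 : P 6 * l 0 - P 9 * l 1 = 0 := by
          rcases hv' with h | h
          · exact (mul_eq_zero.mp k2).resolve_left h
          · exact (mul_eq_zero.mp k1).resolve_left (fun h3 => h (by rw [h3]; rfl))
        linear_combination k3
    · have hw' : l 2 ≠ 0 ∨ -(l 3) ≠ 0 := by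
        by_contra hc
        push Not at hc
        exact hw ⟨hc.1, by have := hc.2; omega⟩
      refine hnd (l 0) (-(l 1)) (l 2) (-(l 3)) hv' hw' ?_ ?_
      · unfold Pf
        linear_combination l 0 * g6 + l 3 * g7 + l 1 * g13 + l 3 * g15
      · unfold Rf
        linear_combination -(l 1) * g5 - l 3 * g7 - l 0 * g14 - l 3 * g15

theorem sum_rho (s : Fin 16 → ℤ) (l : Fin 4 → ℤ) :
    ∑ i, l i * PP5L.dot s (PP5L.rho i) = PP5L.dot s (rl l) := by
  simp only [dif_dot, dif, Fin.sum_univ_four, Matrix.cons_val]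
  simp [PP5L.dot, rl, Fin.sum_univ_succ]
  ring

theorem rank4 {P : Sp} (hnd : ∀ v1 v2 w1 w2 : ℤ, (v1 ≠ 0 ∨ v2 ≠ 0) → (w1 ≠ 0 ∨ w2 ≠ 0) →
    Pf P v1 v2 w1 w2 = 0 → Rf P v1 v2 w1 w2 ≠ 0) {x : Fin 10 → ℤ} (hE : InE P x) (hF : FF x = 0)
    (hp : ∀ p : ℕ, p.Prime → ∃ j, ¬ (p : ℤ) ∣ x j) : finrank ℤ (PP5L.Lx x) = 4 := by
  obtain ⟨x', h1⟩ := PP5L.exists_partner hp
  have hF' : PP5L.FF x = 0 := by rw [FF_eq]; exact hF
  have hx : x ≠ 0 := by
    rintro rfl
    obtain ⟨j, hj⟩ := hp 2 Nat.prime_two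
    exact hj (dvd_zero _)
  set f : PP5L.Kx x →ₗ[ℤ] (Fin 4 → ℤ) := PP5L.rhol.domRestrict (PP5L.Kx x) with hf
  have hrn := PP5L.rank_nullity_gen f
  rw [PP5L.finrank_Kx hF' h1] at hrn
  -- no linear form vanishes on the range
  have hno : ∀ l : Fin 4 → ℤ, (∀ r ∈ LinearMap.range f, ∑ i, l i * r i = 0) → l = 0 := by
    intro l hl
    by_contra hl0
    have h2 : PP5L.HP x (rl l) = 0 := by
      funext r
      have h3 := hl (f ⟨PP5L.HP x (Pi.single r 1), PP5L.HP_mem_Kx hF' _⟩) ⟨_, rfl⟩
      have h4 : ∑ i, l i * f ⟨PP5L.HP x (Pi.single r 1), PP5L.HP_mem_Kx hF' _⟩ i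
          = PP5L.dot (PP5L.HP x (Pi.single r 1)) (rl l) := by
        simp only [hf, LinearMap.domRestrict_apply, PP5L.rhol, LinearMap.coe_mk, AddHom.coe_mk]
        exact sum_rho _ _
      rw [h4, PP5L.dot_HP_symm, PP5L.dot_comm] at h3
      simpa [PP5L.dot, Pi.single_apply] using h3
    have h5 : ∃ k, l k ≠ 0 := by
      by_contra hc
      push Not at hc
      exact hl0 (funext hc)
    obtain ⟨k, hk⟩ := h5
    have h6 := ql_prop h2 k
    have hB : (2 * (l k * l k)) ≠ 0 := mul_ne_zero two_ne_zero (mul_ne_zero hk hk)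
    have hA : (2 * x ((![2, 0, 3, 1] : Fin 4 → Fin 10) k)) ≠ 0 := by
      intro hA
      apply hx
      funext i
      have h7 := h6 i
      rw [hA, zero_mul] at h7
      exact (mul_eq_zero.mp h7).resolve_left hB
    exact no_ql hnd hl0 (InE_prop hA h6 hE)
  have hr4 : finrank ℤ (LinearMap.range f) = 4 := by
    apply le_antisymm
    · have := Submodule.finrank_le (LinearMap.range f)
      simpa using this
    · let b := Module.finBasis ℤ (LinearMap.range f)
      let T : (Fin 4 → ℤ) →ₗ[ℤ] (Fin (finrank ℤ (LinearMap.range f)) → ℤ) :=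
        { toFun := fun l j => ∑ i, l i * (b j : Fin 4 → ℤ) i
          map_add' := fun l m => by
            funext j
            simp only [Pi.add_apply, add_mul, Finset.sum_add_distrib]
          map_smul' := fun c l => by
            funext j
            simp only [Pi.smul_apply, smul_eq_mul, Finset.mul_sum, mul_assoc, RingHom.id_apply] }
      have hinj : Function.Injective T := by
        rw [← LinearMap.ker_eq_bot, LinearMap.ker_eq_bot']
        intro l hl
        apply hno
        intro r hr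
        have h8 := b.sum_repr ⟨r, hr⟩
        have h9 : r = ∑ j, (b.repr ⟨r, hr⟩ j) • (b j : Fin 4 → ℤ) := by
          have := congrArg (LinearMap.range f).subtype h8
          rw [map_sum] at this
          exact this.symm
        rw [h9]
        simp only [Finset.sum_apply, Pi.smul_apply, smul_eq_mul, Finset.mul_sum]
        rw [Finset.sum_comm]
        refine Finset.sum_eq_zero (fun j _ => ?_)
        have h10 : ∑ i, l i * (b j : Fin 4 → ℤ) i = 0 := congrFun hl j
        calc ∑ i, l i * ((b.repr ⟨r, hr⟩ j) * (b j : Fin 4 → ℤ) i)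
            = (b.repr ⟨r, hr⟩ j) * ∑ i, l i * (b j : Fin 4 → ℤ) i := by
              rw [Finset.mul_sum]; exact Finset.sum_congr rfl (fun i _ => by ring)
          _ = 0 := by rw [h10, mul_zero]
      have := LinearMap.finrank_le_finrank_of_injective hinj
      simpa using this
  have hker : finrank ℤ (LinearMap.ker f) = 4 := by omega
  have hmap : (LinearMap.ker f).map (PP5L.Kx x).subtype = PP5L.Lx x := by
    ext s
    constructor
    · rintro ⟨t, ht, rfl⟩
      have ht' := LinearMap.mem_ker.1 ht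
      exact PP5L.mem_Lx.2 ⟨PP5L.mem_Kx.1 t.2, fun i => congrFun ht' i⟩
    · intro hs
      refine ⟨⟨s, PP5L.Lx_le_Kx x hs⟩, ?_, rfl⟩
      have := (PP5L.mem_Lx.1 hs).2
      exact LinearMap.mem_ker.2 (funext this)
  rw [← hmap, Submodule.finrank_map_subtype_eq, hker]

end Pool.Agent.PP5
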