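import Pool.Agent.PP5.E2Sum
import Pool.Agent.FTL.LFn
import Pool.Agent.FTL.LNc
import Pool.Agent.FTA.Main

/-!
# PP5/E2Res: the final statement, from `Box` and `Ftp`
-/

set_option autoImplicit false

namespace Pool.Agent.PP5

open Pool.Agent.FTA Pool.Agent.FTL NumberField

theorem fin5 {c C θ C' η : ℝ} (hθ : 0 < θ) (hη : 0 < η) (hC : 0 ≤ C) (hC' : 0 ≤ C')
    (hbox : Box c C θ) (hftp : Ftp (2 * c) C' η) (H : Type) [CommGroup H] (hH : Nat.card H = 5) :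
    ∃ B : ℝ, ∀ ε : ℝ, 0 < ε → ∃ X0 : ℝ, ∀ X : ℝ, X0 ≤ X →
      ({K : IntermediateField ℚ ℂ | ∃ _ : NumberField K, Module.finrank ℚ K = 2 ∧
        (∃ x : K, (x : ℂ).im ≠ 0) ∧ |((NumberField.discr K : ℤ) : ℝ)| ≤ X}).Finite ∧
      X ^ (-ε) ≤
      (∑ᶠ K ∈ {K : IntermediateField ℚ ℂ | ∃ _ : NumberField K, Module.finrank ℚ K = 2 ∧
        (∃ x : K, (x : ℂ).im ≠ 0) ∧ |((NumberField.discr K : ℤ) : ℝ)| ≤ X},
        (Nat.card {f : ↥(Subgroup.closure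
          {g : ClassGroup (NumberField.RingOfIntegers K) | ∃ n : ℕ, g ^ (5 ^ n) = 1}) →* H //
            Function.Surjective f} : ℝ)) /
        ({K : IntermediateField ℚ ℂ | ∃ _ : NumberField K, Module.finrank ℚ K = 2 ∧
          (∃ x : K, (x : ℂ).im ≠ 0) ∧ |((NumberField.discr K : ℤ) : ℝ)| ≤ X}).ncard ∧
      (∑ᶠ K ∈ {K : IntermediateField ℚ ℂ | ∃ _ : NumberField K, Module.finrank ℚ K = 2 ∧
        (∃ x : K, (x : ℂ).im ≠ 0) ∧ |((NumberField.discr K : ℤ) : ℝ)| ≤ X},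
        (Nat.card {f : ↥(Subgroup.closure
          {g : ClassGroup (NumberField.RingOfIntegers K) | ∃ n : ℕ, g ^ (5 ^ n) = 1}) →* H //
            Function.Surjective f} : ℝ)) /
        ({K : IntermediateField ℚ ℂ | ∃ _ : NumberField K, Module.finrank ℚ K = 2 ∧
          (∃ x : K, (x : ℂ).im ≠ 0) ∧ |((NumberField.discr K : ℤ) : ℝ)| ≤ X}).ncard ≤ B := by
  obtain ⟨B0, hB0, hC⟩ := tot hθ hη hC hC' hbox hftp
  refine ⟨32 * B0, ?_⟩
  intro ε hε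
  obtain ⟨X1, hX1, hl⟩ := lfn H hH ε hε
  refine ⟨max X1 (10 ^ 5), ?_⟩
  intro X hX
  have hXa : X1 ≤ X := (le_max_left _ _).trans hX
  have hXc : (10 : ℝ) ^ 5 ≤ X := (le_max_right _ _).trans hX
  have hX0 : (0 : ℝ) < X := by linarith [show (0 : ℝ) < 10 ^ 5 by norm_num]
  have hX1' : (1 : ℝ) ≤ X := by linarith
  rw [set_eq X hX0.le]
  have hlow := hl X hXa
  have hup := hC ⌊X⌋₊ (Nat.le_floor (by exact_mod_cast hX1'))
  have hsur := surBound X H hH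
  have hfl : X / 2 ≤ (⌊X⌋₊ : ℝ) := by
    have := Nat.lt_floor_add_one X
    linarith
  have hfl2 : (⌊X⌋₊ : ℝ) ≤ X := Nat.floor_le hX0.le
  have hN1 : X / 32 ≤ ((IQ ⌊X⌋₊).ncard : ℝ) := by
    have h := lnc ⌊X⌋₊ (by
      apply Nat.le_floor
      push_cast
      linarith)
    linarith
  have hN2 : ((IQ ⌊X⌋₊).ncard : ℝ) ≤ X := by
    have h := famCard ⌊X⌋₊
    have h' : ((IQ ⌊X⌋₊).ncard : ℝ) ≤ (⌊X⌋₊ : ℝ) := by exact_mod_cast h
    linarith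
  have hN0 : (0 : ℝ) < ((IQ ⌊X⌋₊).ncard : ℝ) := by linarith
  refine ⟨famFin _, ?_, ?_⟩
  · rw [le_div_iff₀ hN0]
    refine le_trans ?_ hlow
    rw [Real.rpow_sub hX0, Real.rpow_one, Real.rpow_neg hX0.le, div_eq_inv_mul]
    exact mul_le_mul_of_nonneg_left hN2 (inv_nonneg.2 (Real.rpow_nonneg hX0.le _))
  · rw [div_le_iff₀ hN0]
    refine (hsur.trans hup).trans ?_
    have h1 : B0 * (⌊X⌋₊ : ℝ) ≤ B0 * X := mul_le_mul_of_nonneg_left hfl2 hB0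
    have h2 : B0 * (X / 32) ≤ B0 * ((IQ ⌊X⌋₊).ncard : ℝ) := mul_le_mul_of_nonneg_left hN1 hB0
    linarith

end Pool.Agent.PP5
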