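import Mathlib

/-!
# PP5 section (a1): the classes of `B w` modulo `n` for a skew `5 x 5` matrix with Pfaffians `= 0 mod n`

`Cls n B N`: the vectors `w` of `Z^5` fall into at most `N` classes such that `B (w - w') = 0 mod n`
inside a class.  Main result `cls_sq`: if `B` is skew and all its `4 x 4` Pfaffians vanish mod `n` then
`Cls n B (n^2)`.
-/

namespace Pool.Agent.PP5

/-- `B` is skew-symmetric. -/
def Skew (B : Fin 5 → Fin 5 → ℤ) : Prop := ∀ i j, B i j = - B j i

/-- The `4 x 4` Pfaffian of `B` with the indices `i, j, k, l`. -/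
def Pf5 (B : Fin 5 → Fin 5 → ℤ) (i j k l : Fin 5) : ℤ :=
  B i j * B k l - B i k * B j l + B i l * B j k

/-- The `i`-th coordinate of `B w`. -/
def act (B : Fin 5 → Fin 5 → ℤ) (w : Fin 5 → ℤ) (i : Fin 5) : ℤ := ∑ j, B i j * w j

/-- At most `N` classes modulo `M`. -/
def Cls (M : ℕ) (B : Fin 5 → Fin 5 → ℤ) (N : ℕ) : Prop :=
  ∃ f : (Fin 5 → ℤ) → Fin N, ∀ w w', f w = f w' → ∀ i, (M : ℤ) ∣ act B (w - w') i

theorem act_sub (B : Fin 5 → Fin 5 → ℤ) (w w' : Fin 5 → ℤ) (i : Fin 5) :
    act B (w - w') i = act B w i - act B w' i := by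
  unfold act
  rw [← Finset.sum_sub_distrib]
  refine Finset.sum_congr rfl (fun j _ => ?_)
  simp only [Pi.sub_apply]
  ring

theorem skew_self {B : Fin 5 → Fin 5 → ℤ} (h : Skew B) (i : Fin 5) : B i i = 0 := by
  have := h i i
  omega

/-- the pivot identity -/
theorem pivot {B : Fin 5 → Fin 5 → ℤ} (i0 j0 l : Fin 5) (d : Fin 5 → ℤ) :
    B i0 j0 * act B d l = (∑ m, Pf5 B i0 j0 l m * d m) + B i0 l * act B d j0 - B j0 l * act B d i0 := by
  unfold act Pf5
  simp only [Fin.sum_univ_five]
  ring

theorem cls_one (B : Fin 5 → Fin 5 → ℤ) : Cls 1 B 1 := by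
  refine ⟨fun _ => 0, fun w w' _ i => ?_⟩
  simp

theorem cls_mono {M : ℕ} {B : Fin 5 → Fin 5 → ℤ} {N N' : ℕ} (h : Cls M B N) (hN : N ≤ N') :
    Cls M B N' := by
  obtain ⟨f, hf⟩ := h
  refine ⟨fun w => Fin.castLE hN (f w), fun w w' hw i => hf w w' ?_ i⟩
  exact Fin.castLE_injective hN hw

/-- residues modulo `n` as elements of `Fin n` -/
noncomputable def rs (n : ℕ) (hn : 0 < n) (z : ℤ) : Fin n :=
  ⟨(z % n).toNat, by
    have h1 : 0 ≤ z % n := Int.emod_nonneg _ (by omega)
    have h2 : z % n < n := Int.emod_lt_of_pos _ (by omega)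
    omega⟩

theorem rs_eq {n : ℕ} (hn : 0 < n) {z z' : ℤ} (h : rs n hn z = rs n hn z') : (n : ℤ) ∣ z - z' := by
  have h1 : 0 ≤ z % n := Int.emod_nonneg _ (by omega)
  have h1' : 0 ≤ z' % n := Int.emod_nonneg _ (by omega)
  have h2 : (z % n).toNat = (z' % n).toNat := by
    have := congrArg Fin.val h
    simpa [rs] using this
  have h3 : z % n = z' % n := by omega
  exact Int.ModEq.dvd (Int.ModEq.symm h3)

theorem cls_mul {M1 M2 : ℕ} {B : Fin 5 → Fin 5 → ℤ} {N1 N2 : ℕ} (hc : Nat.Coprime M1 M2)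
    (h1 : Cls M1 B N1) (h2 : Cls M2 B N2) : Cls (M1 * M2) B (N1 * N2) := by
  obtain ⟨f, hf⟩ := h1
  obtain ⟨g, hg⟩ := h2
  refine ⟨fun w => finProdFinEquiv (f w, g w), fun w w' hw i => ?_⟩
  have := finProdFinEquiv.injective hw
  rw [Prod.mk.injEq] at this
  have hd1 := hf w w' this.1 i
  have hd2 := hg w w' this.2 i
  push_cast
  exact IsCoprime.mul_dvd (Nat.isCoprime_iff_coprime.mpr hc) hd1 hd2

/-- exact Plucker relations, prime powers -/
theorem cls_exact {p : ℕ} (hp : p.Prime) (k : ℕ) :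
    ∀ B : Fin 5 → Fin 5 → ℤ, Skew B → (∀ i j m l, Pf5 B i j m l = 0) → Cls (p ^ k) B (p ^ (2 * k)) := by
  induction k with
  | zero => intro B _ _; simpa using cls_one B
  | succ k ih =>
    intro B hs hP
    have hp0 : (0 : ℤ) < p := by exact_mod_cast hp.pos
    by_cases h : ∀ i j, (p : ℤ) ∣ B i j
    · choose B' hB' using h
      have hs' : Skew B' := by
        intro i j
        have := hs i j
        rw [hB' i j, hB' j i] at this
        have h2 : (p : ℤ) * B' i j = p * (- B' j i) := by linarith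
        exact mul_left_cancel₀ hp0.ne' h2
      have hP' : ∀ i j m l, Pf5 B' i j m l = 0 := by
        intro i j m l
        have := hP i j m l
        unfold Pf5 at this ⊢
        rw [hB' i j, hB' m l, hB' i m, hB' j l, hB' i l, hB' j m] at this
        have h2 : (p : ℤ) ^ 2 * (B' i j * B' m l - B' i m * B' j l + B' i l * B' j m) = (p : ℤ) ^ 2 * 0 := by
          linear_combination this
        exact mul_left_cancel₀ (by positivity) h2
      obtain ⟨f, hf⟩ := ih B' hs' hP'
      have hle : p ^ (2 * k) ≤ p ^ (2 * (k + 1)) := Nat.pow_le_pow_right hp.pos (by omega)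
      refine ⟨fun w => Fin.castLE hle (f w), fun w w' hw i => ?_⟩
      have h3 := hf w w' (Fin.castLE_injective hle hw) i
      have h4 : act B (w - w') i = p * act B' (w - w') i := by
        unfold act
        rw [Finset.mul_sum]
        refine Finset.sum_congr rfl (fun j _ => ?_)
        rw [hB' i j]; ring
      rw [h4]
      push_cast at h3 ⊢
      rw [pow_succ']
      exact mul_dvd_mul_left _ h3
    · simp only [not_forall] at h
      obtain ⟨i0, j0, h0⟩ := h
      have hpos : 0 < p ^ (k + 1) := Nat.pow_pos hp.pos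
      have hcop : IsCoprime ((p ^ (k + 1) : ℕ) : ℤ) (B i0 j0) := by
        push_cast
        refine IsCoprime.pow_left ?_
        have hpp : Prime (p : ℤ) := Nat.prime_iff_prime_int.mp hp
        exact (Prime.coprime_iff_not_dvd hpp).mpr h0
      have hN : p ^ (k + 1) * p ^ (k + 1) = p ^ (2 * (k + 1)) := by
        rw [← pow_add]; congr 1; ring
      rw [← hN]
      refine ⟨fun w => finProdFinEquiv (rs _ hpos (act B w i0), rs _ hpos (act B w j0)), fun w w' hw i => ?_⟩
      have := finProdFinEquiv.injective hw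
      rw [Prod.mk.injEq] at this
      have h1 := rs_eq hpos this.1
      have h2 := rs_eq hpos this.2
      rw [← act_sub] at h1 h2
      have h3 : ((p ^ (k + 1) : ℕ) : ℤ) ∣ B i0 j0 * act B (w - w') i := by
        rw [pivot]
        have : ∑ m, Pf5 B i0 j0 i m * (w - w') m = 0 := by
          refine Finset.sum_eq_zero (fun m _ => ?_)
          rw [hP]; ring
        rw [this]
        exact dvd_sub (dvd_add (dvd_zero _) (Dvd.dvd.mul_left h2 _)) (Dvd.dvd.mul_left h1 _)
      exact hcop.dvd_of_dvd_mul_left h3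

/-- six pairwise distinct elements of `Fin 5` do not exist -/
theorem no_six {a b i j k l : Fin 5} (h : [a, b, i, j, k, l].Nodup) : False := by
  have := h.length_le_card
  simp at this

/-- the matrix of the Pfaffians through a pivot satisfies the exact Plucker relations -/
theorem pf_pf {B : Fin 5 → Fin 5 → ℤ} (hs : Skew B) {i0 j0 : Fin 5} (h0 : i0 ≠ j0) (i j k l : Fin 5) :
    Pf5 (fun a b => Pf5 B i0 j0 a b) i j k l = 0 := by
  have hsC : ∀ a b, Pf5 B i0 j0 a b = - Pf5 B i0 j0 b a := by
    intro a b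
    unfold Pf5
    rw [hs a b]; ring
  have hC1 : ∀ b, Pf5 B i0 j0 i0 b = 0 := by
    intro b
    unfold Pf5
    rw [skew_self hs i0, hs j0 i0]; ring
  have hC2 : ∀ b, Pf5 B i0 j0 j0 b = 0 := by
    intro b
    unfold Pf5
    rw [skew_self hs j0]; ring
  have hC3 : ∀ b, Pf5 B i0 j0 b i0 = 0 := by intro b; rw [hsC, hC1]; ring
  have hC4 : ∀ b, Pf5 B i0 j0 b j0 = 0 := by intro b; rw [hsC, hC2]; ring
  have hC5 : ∀ b, Pf5 B i0 j0 b b = 0 := by intro b; have := hsC b b; omega
  show Pf5 B i0 j0 i j * Pf5 B i0 j0 k l - Pf5 B i0 j0 i k * Pf5 B i0 j0 j l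
    + Pf5 B i0 j0 i l * Pf5 B i0 j0 j k = 0
  by_cases h1 : i0 = i
  · subst h1; rw [hC1, hC1, hC1]; ring
  by_cases h2 : i0 = j
  · subst h2; rw [hC3 i, hC1, hC1]; ring
  by_cases h3 : i0 = k
  · subst h3; rw [hC1, hC3 i, hC3 j]; ring
  by_cases h4 : i0 = l
  · subst h4; rw [hC3 k, hC3 j, hC3 i]; ring
  by_cases h5 : j0 = i
  · subst h5; rw [hC2, hC2, hC2]; ring
  by_cases h6 : j0 = j
  · subst h6; rw [hC4 i, hC2, hC2]; ring
  by_cases h7 : j0 = k
  · subst h7; rw [hC2, hC4 i, hC4 j]; ring
  by_cases h8 : j0 = l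
  · subst h8; rw [hC4 k, hC4 j, hC4 i]; ring
  by_cases h9 : i = j
  · subst h9; rw [hC5]; ring
  by_cases h10 : i = k
  · subst h10; rw [hC5, hsC j i]; ring
  by_cases h11 : i = l
  · subst h11; rw [hC5 i, hsC j i, hsC j k, hsC k i, hsC k j]; ring_nf
  by_cases h12 : j = k
  · subst h12; rw [hC5]; ring
  by_cases h13 : j = l
  · subst h13; rw [hC5, hsC k j]; ring
  by_cases h14 : k = l
  · subst h14; rw [hC5]; ring
  exact (no_six (a := i0) (b := j0) (i := i) (j := j) (k := k) (l := l) (by
    simp [h0, h1, h2, h3, h4, h5, h6, h7, h8, h9, h10, h11, h12, h13, h14])).elim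

theorem cls_pp {p : ℕ} (hp : p.Prime) (k : ℕ) :
    ∀ (e : ℕ) (B : Fin 5 → Fin 5 → ℤ), e ≤ k → Skew B → (∀ i j m l, ((p ^ e : ℕ) : ℤ) ∣ Pf5 B i j m l) →
      Cls (p ^ k) B (p ^ (4 * k - 2 * e)) := by
  induction k with
  | zero =>
    intro e B he _ _
    have : e = 0 := by omega
    subst this
    simpa using cls_one B
  | succ k ih =>
    intro e B he hs hP
    have hp0 : (0 : ℤ) < p := by exact_mod_cast hp.pos
    by_cases h : ∀ i j, (p : ℤ) ∣ B i j
    · choose B' hB' using h
      have hs' : Skew B' := by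
        intro i j
        have := hs i j
        rw [hB' i j, hB' j i] at this
        have h2 : (p : ℤ) * B' i j = p * (- B' j i) := by linarith
        exact mul_left_cancel₀ hp0.ne' h2
      have hP' : ∀ i j m l, ((p ^ (e - 2) : ℕ) : ℤ) ∣ Pf5 B' i j m l := by
        intro i j m l
        by_cases he2 : e < 2
        · have : e - 2 = 0 := by omega
          rw [this]; simp
        · have h5 := hP i j m l
          have h6 : Pf5 B i j m l = (p : ℤ) ^ 2 * Pf5 B' i j m l := by
            unfold Pf5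
            rw [hB' i j, hB' m l, hB' i m, hB' j l, hB' i l, hB' j m]
            ring
          rw [h6] at h5
          have h7 : ((p ^ e : ℕ) : ℤ) = (p : ℤ) ^ 2 * ((p ^ (e - 2) : ℕ) : ℤ) := by
            push_cast
            rw [← pow_add]; congr 1; omega
          rw [h7] at h5
          exact (mul_dvd_mul_iff_left (by positivity)).mp h5
      obtain ⟨f, hf⟩ := ih (e - 2) B' (by omega) hs' hP'
      have hle : p ^ (4 * k - 2 * (e - 2)) ≤ p ^ (4 * (k + 1) - 2 * e) :=
        Nat.pow_le_pow_right hp.pos (by omega)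
      refine ⟨fun w => Fin.castLE hle (f w), fun w w' hw i => ?_⟩
      have h3 := hf w w' (Fin.castLE_injective hle hw) i
      have h4 : act B (w - w') i = p * act B' (w - w') i := by
        unfold act
        rw [Finset.mul_sum]
        refine Finset.sum_congr rfl (fun j _ => ?_)
        rw [hB' i j]; ring
      rw [h4]
      push_cast at h3 ⊢
      rw [pow_succ']
      exact mul_dvd_mul_left _ h3
    · simp only [not_forall] at h
      obtain ⟨i0, j0, h0⟩ := h
      have hij : i0 ≠ j0 := by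
        intro h1
        subst h1
        rw [skew_self hs] at h0
        exact h0 (dvd_zero _)
      have hpos : 0 < p ^ (k + 1) := Nat.pow_pos hp.pos
      have hcop : IsCoprime ((p ^ (k + 1) : ℕ) : ℤ) (B i0 j0) := by
        push_cast
        refine IsCoprime.pow_left ?_
        have hpp : Prime (p : ℤ) := Nat.prime_iff_prime_int.mp hp
        exact (Prime.coprime_iff_not_dvd hpp).mpr h0
      have hpe : (0 : ℤ) < ((p ^ e : ℕ) : ℤ) := by exact_mod_cast Nat.pow_pos hp.pos
      have hP0 := fun a b => hP i0 j0 a b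
      choose C' hC' using hP0
      have hsC : Skew C' := by
        intro a b
        have h1 : Pf5 B i0 j0 a b = - Pf5 B i0 j0 b a := by
          unfold Pf5
          rw [hs a b]; ring
        rw [hC' a b, hC' b a] at h1
        have h2 : ((p ^ e : ℕ) : ℤ) * C' a b = ((p ^ e : ℕ) : ℤ) * (- C' b a) := by linarith
        exact mul_left_cancel₀ hpe.ne' h2
      have hPC : ∀ a b m l, Pf5 C' a b m l = 0 := by
        intro a b m l
        have h1 := pf_pf hs hij a b m l
        have h2 : Pf5 (fun a b => Pf5 B i0 j0 a b) a b m l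
            = ((p ^ e : ℕ) : ℤ) ^ 2 * Pf5 C' a b m l := by
          show Pf5 B i0 j0 a b * Pf5 B i0 j0 m l - Pf5 B i0 j0 a m * Pf5 B i0 j0 b l
            + Pf5 B i0 j0 a l * Pf5 B i0 j0 b m = _
          rw [hC' a b, hC' m l, hC' a m, hC' b l, hC' a l, hC' b m]
          unfold Pf5
          ring
        rw [h2] at h1
        rcases mul_eq_zero.mp h1 with h3 | h3
        · exact absurd h3 (by positivity)
        · exact h3
      obtain ⟨g, hg⟩ := cls_exact hp (k + 1 - e) C' hsC hPC
      have hN : p ^ (k + 1) * p ^ (k + 1) * p ^ (2 * (k + 1 - e)) = p ^ (4 * (k + 1) - 2 * e) := by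
        rw [← pow_add, ← pow_add]; congr 1; omega
      rw [← hN]
      refine ⟨fun w => finProdFinEquiv (finProdFinEquiv (rs _ hpos (act B w i0), rs _ hpos (act B w j0)), g w),
        fun w w' hw i => ?_⟩
      have h10 := finProdFinEquiv.injective hw
      rw [Prod.mk.injEq] at h10
      have h11 := finProdFinEquiv.injective h10.1
      rw [Prod.mk.injEq] at h11
      have h1 := rs_eq hpos h11.1
      have h2 := rs_eq hpos h11.2
      rw [← act_sub] at h1 h2
      have h12 := hg w w' h10.2 i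
      have h13 : ((p ^ (k + 1) : ℕ) : ℤ) ∣ ∑ m, Pf5 B i0 j0 i m * (w - w') m := by
        have h14 : ∑ m, Pf5 B i0 j0 i m * (w - w') m = ((p ^ e : ℕ) : ℤ) * act C' (w - w') i := by
          unfold act
          rw [Finset.mul_sum]
          refine Finset.sum_congr rfl (fun m _ => ?_)
          rw [hC' i m]; ring
        rw [h14]
        have h15 : ((p ^ (k + 1) : ℕ) : ℤ) = ((p ^ e : ℕ) : ℤ) * ((p ^ (k + 1 - e) : ℕ) : ℤ) := by
          push_cast
          rw [← pow_add]; congr 1; omega
        rw [h15]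
        exact mul_dvd_mul_left _ h12
      have h3 : ((p ^ (k + 1) : ℕ) : ℤ) ∣ B i0 j0 * act B (w - w') i := by
        rw [pivot]
        exact dvd_sub (dvd_add h13 (Dvd.dvd.mul_left h2 _)) (Dvd.dvd.mul_left h1 _)
      exact hcop.dvd_of_dvd_mul_left h3

/-- **The class lemma.** -/
theorem cls_sq (n : ℕ) (hn : 0 < n) (B : Fin 5 → Fin 5 → ℤ) (hs : Skew B)
    (hP : ∀ i j k l, (n : ℤ) ∣ Pf5 B i j k l) : Cls n B (n ^ 2) := by
  induction n using Nat.recOnPosPrimePosCoprime with
  | prime_pow p k hp hk =>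
    have := cls_pp hp k k B le_rfl hs hP
    have h2 : p ^ (4 * k - 2 * k) = (p ^ k) ^ 2 := by
      rw [← pow_mul]; congr 1; omega
    rwa [h2] at this
  | zero => omega
  | one => simpa using cls_one B
  | coprime a b ha hb hab iha ihb =>
    have h1 := iha (by omega) (fun i j k l => (Dvd.intro _ (by push_cast; rfl)).trans (hP i j k l))
    have h2 := ihb (by omega) (fun i j k l => (Dvd.intro_left _ (by push_cast; rfl)).trans (hP i j k l))
    rw [mul_pow]
    exact cls_mul hab h1 h2

end Pool.Agent.PP5
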