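import Pool.Agent.PP5.EA

/-!
# PP5 section (a1): many `w` in a box with `B w = 0 mod n`
-/

namespace Pool.Agent.PP5

theorem box_card (r : Fin 5 → ℝ) (hr : ∀ i, 0 ≤ r i) :
    (∏ i, r i) ≤ ((Fintype.piFinset (fun i => Finset.Icc (-⌊r i⌋) ⌊r i⌋)).card : ℝ) := by
  rw [Fintype.card_piFinset]
  push_cast
  refine Finset.prod_le_prod (fun i _ => hr i) (fun i _ => ?_)
  rw [Int.card_Icc]
  have h0 : 0 ≤ ⌊r i⌋ := Int.floor_nonneg.mpr (hr i)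
  have h1 : r i < ⌊r i⌋ + 1 := Int.lt_floor_add_one (r i)
  have h2 : (((⌊r i⌋ + 1 - -⌊r i⌋).toNat : ℕ) : ℤ) = ⌊r i⌋ + 1 - -⌊r i⌋ := Int.toNat_of_nonneg (by omega)
  have h3 : (((⌊r i⌋ + 1 - -⌊r i⌋).toNat : ℕ) : ℝ) = (⌊r i⌋ : ℝ) + 1 + ⌊r i⌋ := by
    have : (((⌊r i⌋ + 1 - -⌊r i⌋).toNat : ℕ) : ℝ) = (((⌊r i⌋ + 1 - -⌊r i⌋ : ℤ)) : ℝ) := by
      exact_mod_cast congrArg (fun z : ℤ => (z : ℝ)) h2
    rw [this]; push_cast; ring
  rw [h3]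
  have h4 : (0 : ℝ) ≤ ⌊r i⌋ := by exact_mod_cast h0
  linarith

/-- **Pigeonhole.** -/
theorem many_w (n : ℕ) (hn : 0 < n) (B : Fin 5 → Fin 5 → ℤ) (hs : Skew B)
    (hP : ∀ i j k l, (n : ℤ) ∣ Pf5 B i j k l) (r : Fin 5 → ℝ) (hr : ∀ i, 0 ≤ r i) :
    ∃ S : Finset (Fin 5 → ℤ), (∀ w ∈ S, ∀ i, (n : ℤ) ∣ act B w i) ∧
      (∀ w ∈ S, ∀ i, |(w i : ℝ)| ≤ 2 * r i) ∧ (∏ i, r i) / (n : ℝ) ^ 2 ≤ (S.card : ℝ) := by
  classical
  obtain ⟨f, hf⟩ := cls_sq n hn B hs hP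
  have hn2 : 0 < n ^ 2 := Nat.pow_pos hn
  haveI : NeZero (n ^ 2) := ⟨hn2.ne'⟩
  have hn2R : (0 : ℝ) < (n : ℝ) ^ 2 := by positivity
  set X := Fintype.piFinset (fun i => Finset.Icc (-⌊r i⌋) ⌊r i⌋) with hX
  have hb : (Finset.univ : Finset (Fin (n ^ 2))).card • ((∏ i, r i) / (n : ℝ) ^ 2) ≤ (X.card : ℝ) := by
    rw [Finset.card_univ, Fintype.card_fin, nsmul_eq_mul]
    push_cast
    rw [mul_div_cancel₀ _ hn2R.ne']
    exact box_card r hr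
  obtain ⟨y, _, hy⟩ := Finset.exists_le_card_fiber_of_nsmul_le_card_of_maps_to
    (s := X) (t := (Finset.univ : Finset (Fin (n ^ 2)))) (f := f) (fun _ _ => Finset.mem_univ _)
    ⟨0, Finset.mem_univ _⟩ hb
  set Y := X.filter (fun x => f x = y) with hY
  by_cases hYe : Y.Nonempty
  · obtain ⟨w0, hw0⟩ := hYe
    refine ⟨Y.image (fun w => w - w0), ?_, ?_, ?_⟩
    · intro w hw i
      rw [Finset.mem_image] at hw
      obtain ⟨z, hz, rfl⟩ := hw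
      refine hf z w0 ?_ i
      rw [(Finset.mem_filter.mp hz).2, (Finset.mem_filter.mp hw0).2]
    · intro w hw i
      rw [Finset.mem_image] at hw
      obtain ⟨z, hz, rfl⟩ := hw
      have h1 := (Fintype.mem_piFinset.mp (Finset.mem_filter.mp hz).1) i
      have h2 := (Fintype.mem_piFinset.mp (Finset.mem_filter.mp hw0).1) i
      rw [Finset.mem_Icc] at h1 h2
      have h3 : (⌊r i⌋ : ℝ) ≤ r i := Int.floor_le (r i)
      have h4 : |(z - w0) i| ≤ 2 * ⌊r i⌋ := by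
        rw [Pi.sub_apply, abs_le]; constructor <;> linarith [h1.1, h1.2, h2.1, h2.2]
      have h5 : |(((z - w0) i : ℤ) : ℝ)| ≤ 2 * (⌊r i⌋ : ℝ) := by exact_mod_cast h4
      linarith
    · rw [Finset.card_image_of_injective _ (sub_left_injective)]
      exact hy
  · rw [Finset.not_nonempty_iff_eq_empty] at hYe
    rw [hYe] at hy
    refine ⟨∅, by simp, by simp, ?_⟩
    simpa using hy

end Pool.Agent.PP5
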