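import Pool.Agent.PP5.EB
import Pool.Agent.PP5.Defs

/-!
# PP5 section (a1): the sixteen equations of `E_psi`

`InE P x`: the vector `x` of `Z^10` kills the point `P` (helper24's sixteen equations in the slice).
`FF x`: the quadratic form of `Z^10`.  For each of the twelve coordinates `a` of `P` the vectors `w` of `Z^5`
with `B_a w = 0 mod a` give vectors `x` with `InE P x` and `FF x = 0`.
-/

namespace Pool.Agent.PP5

/-- the sixteen equations (`x i` is `x_(i+1)`) -/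
structure InE (P : Sp) (x : Fin 10 → ℤ) : Prop where
  e1 : P 4 * x 9 - P 5 * x 8 - P 8 * x 2 + P 10 * x 3 + P 11 * x 5 = 0
  e2 : -(P 0 * x 7) + P 1 * x 6 + P 7 * x 1 - P 9 * x 0 + P 6 * x 5 = 0
  e3 : P 0 * x 3 + P 3 * x 5 - P 4 * x 0 - P 7 * x 8 + P 8 * x 6 = 0
  e4 : -(P 1 * x 2) + P 2 * x 5 + P 5 * x 1 + P 9 * x 9 - P 10 * x 7 = 0
  e5 : P 4 * x 7 - P 5 * x 6 - P 7 * x 2 + P 9 * x 3 + P 10 * x 5 = 0
  e6 : -(P 0 * x 9) + P 1 * x 8 + P 7 * x 5 + P 8 * x 1 - P 10 * x 0 = 0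
  e7 : P 1 * x 3 + P 4 * x 5 - P 5 * x 0 - P 7 * x 9 + P 8 * x 7 = 0
  e8 : -(P 0 * x 2) + P 1 * x 5 + P 4 * x 1 + P 9 * x 8 - P 10 * x 6 = 0
  e9 : -(P 2 * x 3) - P 4 * x 2 + P 5 * x 4 + P 10 * x 9 - P 11 * x 7 = 0
  e10 : P 0 * x 4 - P 1 * x 0 - P 3 * x 1 + P 7 * x 6 - P 6 * x 8 = 0
  e11 : P 1 * x 7 - P 2 * x 6 + P 9 * x 4 - P 10 * x 1 - P 6 * x 2 = 0
  e12 : -(P 3 * x 9) + P 4 * x 8 - P 7 * x 3 + P 8 * x 4 - P 11 * x 0 = 0
  e13 : P 1 * x 9 - P 2 * x 8 - P 7 * x 2 + P 10 * x 4 - P 11 * x 1 = 0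
  e14 : -(P 3 * x 7) + P 4 * x 6 + P 7 * x 4 - P 10 * x 0 - P 6 * x 3 = 0
  e15 : -(P 1 * x 3) - P 3 * x 2 + P 4 * x 4 + P 10 * x 8 - P 11 * x 6 = 0
  e16 : P 1 * x 4 - P 2 * x 0 - P 4 * x 1 + P 7 * x 7 - P 6 * x 9 = 0

/-- the quadratic form of `Z^10` -/
def FF (x : Fin 10 → ℤ) : ℤ := x 0 * x 2 - x 9 * x 6 - x 1 * x 3 - x 4 * x 5 + x 7 * x 8

/-- the scales of the ten coordinates -/
noncomputable def tx (t1 t2 : ℝ) : Fin 10 → ℝ :=
  ![1 / t1 ^ 2, 1 / t2 ^ 2, t1 ^ 2, t2 ^ 2, 1, 1, 1 / (t1 * t2), t1 / t2, t2 / t1, t1 * t2]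

/-- the skew matrix of the neighbours of the coordinate `c`; the rows are `x[1, 2, 6, 7, 9]` -/
def B_c (P : Sp) : Fin 5 → Fin 5 → ℤ :=
  ![![0, P 4, P 1, -(P 10), P 9],
    ![-(P 4), 0, P 3, P 8, -(P 7)],
    ![-(P 1), -(P 3), 0, P 7, -(P 6)],
    ![P 10, -(P 8), -(P 7), 0, -(P 1)],
    ![-(P 9), P 7, P 6, P 1, 0]]

theorem e_c {P : Sp} (hq : Qd P) (ha : P 0 ≠ 0) {w0 w1 w2 w3 w4 z0 z1 z2 z3 z4 : ℤ}
    (h0 : P 1 * w2 + P 4 * w1 + P 9 * w4 - P 10 * w3 = P 0 * z0)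
    (h1 : P 3 * w2 - P 4 * w0 - P 7 * w4 + P 8 * w3 = P 0 * z1)
    (h2 : -(P 1 * w0) - P 3 * w1 + P 7 * w3 - P 6 * w4 = P 0 * z2)
    (h3 : -(P 1 * w4) - P 7 * w2 - P 8 * w1 + P 10 * w0 = P 0 * z3)
    (h4 : P 1 * w3 + P 7 * w1 - P 9 * w0 + P 6 * w2 = P 0 * z4)
    : InE P ![w0, w1, z0, (-z1), (-z2), w2, w3, z4, w4, (-z3)] ∧ FF ![w0, w1, z0, (-z1), (-z2), w2, w3, z4, w4, (-z3)] = 0 := by
  refine ⟨⟨?_, ?_, ?_, ?_, ?_, ?_, ?_, ?_, ?_, ?_, ?_, ?_, ?_, ?_, ?_, ?_⟩, ?_⟩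
  · refine mul_left_cancel₀ ha ?_
    simp only [Matrix.cons_val]
    linear_combination w2 * hq.h9 - w4 * hq.h6 - (-(P 8)) * h0 - (-(P 10)) * h1 - (-(P 4)) * h3
  · refine mul_left_cancel₀ ha ?_
    simp only [Matrix.cons_val]
    linear_combination -1 * (-(P 0)) * h4
  · refine mul_left_cancel₀ ha ?_
    simp only [Matrix.cons_val]
    linear_combination -1 * (-(P 0)) * h1
  · refine mul_left_cancel₀ ha ?_
    simp only [Matrix.cons_val]
    linear_combination w1 * hq.h6 - w2 * hq.h2 - (-(P 1)) * h0 - (-(P 9)) * h3 - (-(P 10)) * h4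
  · refine mul_left_cancel₀ ha ?_
    simp only [Matrix.cons_val]
    linear_combination w2 * hq.h7 - w3 * hq.h6 - (-(P 7)) * h0 - (-(P 9)) * h1 - (P 4) * h4
  · refine mul_left_cancel₀ ha ?_
    simp only [Matrix.cons_val]
    linear_combination -1 * (P 0) * h3
  · refine mul_left_cancel₀ ha ?_
    simp only [Matrix.cons_val]
    linear_combination -1 * w0 * hq.h6 + w2 * hq.h1 - (-(P 1)) * h1 - (P 7) * h3 - (P 8) * h4
  · refine mul_left_cancel₀ ha ?_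
    simp only [Matrix.cons_val]
    linear_combination -1 * (-(P 0)) * h0
  · refine mul_left_cancel₀ ha ?_
    simp only [Matrix.cons_val]
    linear_combination w0 * hq.h3 - w1 * hq.h4 - w2 * hq.h5 - w3 * hq.h10 + w4 * hq.h8 - (-(P 4)) * h0 - (P 2) * h1 - (-(P 5)) * h2 - (-(P 10)) * h3 - (-(P 11)) * h4
  · refine mul_left_cancel₀ ha ?_
    simp only [Matrix.cons_val]
    linear_combination -1 * (-(P 0)) * h2
  · refine mul_left_cancel₀ ha ?_
    simp only [Matrix.cons_val]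
    linear_combination -1 * w1 * hq.h7 + w3 * hq.h2 - (-(P 6)) * h0 - (-(P 9)) * h2 - (P 1) * h4
  · refine mul_left_cancel₀ ha ?_
    simp only [Matrix.cons_val]
    linear_combination -1 * w0 * hq.h9 + w4 * hq.h1 - (P 7) * h1 - (-(P 8)) * h2 - (P 3) * h3
  · refine mul_left_cancel₀ ha ?_
    simp only [Matrix.cons_val]
    linear_combination -1 * w1 * hq.h9 + w4 * hq.h2 - (-(P 7)) * h0 - (-(P 10)) * h2 - (-(P 1)) * h3
  · refine mul_left_cancel₀ ha ?_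
    simp only [Matrix.cons_val]
    linear_combination -1 * w0 * hq.h7 + w3 * hq.h1 - (P 6) * h1 - (-(P 7)) * h2 - (-(P 3)) * h4
  · refine mul_left_cancel₀ ha ?_
    simp only [Matrix.cons_val]
    linear_combination -1 * w3 * hq.h9 + w4 * hq.h7 - (-(P 3)) * h0 - (P 1) * h1 - (-(P 4)) * h2
  · refine mul_left_cancel₀ ha ?_
    simp only [Matrix.cons_val]
    linear_combination w0 * hq.h2 - w1 * hq.h1 - (-(P 1)) * h2 - (P 6) * h3 - (P 7) * h4
  · refine mul_left_cancel₀ ha ?_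
    simp only [FF, Matrix.cons_val]
    linear_combination -1 * w0 * h0 - w1 * h1 - w2 * h2 - w3 * h3 - w4 * h4

/-- the skew matrix of the neighbours of the coordinate `p2`; the rows are `x[2, 3, 5, 7, 9]` -/
def B_p2 (P : Sp) : Fin 5 → Fin 5 → ℤ :=
  ![![0, P 3, -(P 4), P 11, -(P 10)],
    ![-(P 3), 0, P 0, P 7, -(P 6)],
    ![P 4, -(P 0), 0, -(P 10), P 9],
    ![-(P 11), -(P 7), P 10, 0, -(P 2)],
    ![P 10, P 6, -(P 9), P 2, 0]]

theorem e_p2 {P : Sp} (hq : Qd P) (ha : P 1 ≠ 0) {w0 w1 w2 w3 w4 z0 z1 z2 z3 z4 : ℤ}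
    (h0 : P 3 * w1 - P 4 * w2 - P 10 * w4 + P 11 * w3 = P 1 * z0)
    (h1 : P 0 * w2 - P 3 * w0 + P 7 * w3 - P 6 * w4 = P 1 * z1)
    (h2 : -(P 0 * w1) + P 4 * w0 + P 9 * w4 - P 10 * w3 = P 1 * z2)
    (h3 : -(P 2 * w4) - P 7 * w1 + P 10 * w2 - P 11 * w0 = P 1 * z3)
    (h4 : P 2 * w3 - P 9 * w2 + P 10 * w0 + P 6 * w1 = P 1 * z4)
    : InE P ![z1, w0, w1, (-z0), w2, (-z2), w3, z4, w4, (-z3)] ∧ FF ![z1, w0, w1, (-z0), w2, (-z2), w3, z4, w4, (-z3)] = 0 := by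
  refine ⟨⟨?_, ?_, ?_, ?_, ?_, ?_, ?_, ?_, ?_, ?_, ?_, ?_, ?_, ?_, ?_, ?_⟩, ?_⟩
  · refine mul_left_cancel₀ ha ?_
    simp only [Matrix.cons_val]
    linear_combination w1 * hq.h9 - w4 * hq.h3 - (-(P 10)) * h0 - (-(P 11)) * h2 - (-(P 4)) * h3
  · refine mul_left_cancel₀ ha ?_
    simp only [Matrix.cons_val]
    linear_combination -1 * w0 * hq.h7 + w3 * hq.h2 - (-(P 9)) * h1 - (-(P 6)) * h2 - (-(P 0)) * h4
  · refine mul_left_cancel₀ ha ?_
    simp only [Matrix.cons_val]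
    linear_combination -1 * w3 * hq.h9 + w4 * hq.h7 - (-(P 0)) * h0 - (-(P 4)) * h1 - (-(P 3)) * h2
  · refine mul_left_cancel₀ ha ?_
    simp only [Matrix.cons_val]
    linear_combination w0 * hq.h3 - w1 * hq.h2 - (-(P 2)) * h2 - (-(P 9)) * h3 - (-(P 10)) * h4
  · refine mul_left_cancel₀ ha ?_
    simp only [Matrix.cons_val]
    linear_combination w1 * hq.h7 - w3 * hq.h3 - (-(P 9)) * h0 - (-(P 10)) * h2 - (P 4) * h4
  · refine mul_left_cancel₀ ha ?_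
    simp only [Matrix.cons_val]
    linear_combination -1 * w0 * hq.h9 + w4 * hq.h2 - (-(P 10)) * h1 - (-(P 7)) * h2 - (P 0) * h3
  · refine mul_left_cancel₀ ha ?_
    simp only [Matrix.cons_val]
    linear_combination -1 * w0 * hq.h4 + w1 * hq.h1 - w2 * hq.h6 - w3 * hq.h10 + w4 * hq.h8 - (-(P 1)) * h0 - (-(P 5)) * h1 - (-(P 4)) * h2 - (P 7) * h3 - (P 8) * h4
  · refine mul_left_cancel₀ ha ?_
    simp only [Matrix.cons_val]
    linear_combination -1 * (-(P 1)) * h2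
  · refine mul_left_cancel₀ ha ?_
    simp only [Matrix.cons_val]
    linear_combination -1 * w1 * hq.h5 + w2 * hq.h3 - (P 2) * h0 - (-(P 10)) * h3 - (-(P 11)) * h4
  · refine mul_left_cancel₀ ha ?_
    simp only [Matrix.cons_val]
    linear_combination -1 * (-(P 1)) * h1
  · refine mul_left_cancel₀ ha ?_
    simp only [Matrix.cons_val]
    linear_combination -1 * (P 1) * h4
  · refine mul_left_cancel₀ ha ?_
    simp only [Matrix.cons_val]
    linear_combination -1 * w2 * hq.h9 + w4 * hq.h5 - (P 7) * h0 - (-(P 11)) * h1 - (P 3) * h3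
  · refine mul_left_cancel₀ ha ?_
    simp only [Matrix.cons_val]
    linear_combination -1 * (-(P 1)) * h3
  · refine mul_left_cancel₀ ha ?_
    simp only [Matrix.cons_val]
    linear_combination -1 * w2 * hq.h7 + w3 * hq.h5 - (P 6) * h0 - (-(P 10)) * h1 - (-(P 3)) * h4
  · refine mul_left_cancel₀ ha ?_
    simp only [Matrix.cons_val]
    linear_combination -1 * (P 1) * h0
  · refine mul_left_cancel₀ ha ?_
    simp only [Matrix.cons_val]
    linear_combination -1 * w0 * hq.h5 + w2 * hq.h2 - (-(P 2)) * h1 - (P 6) * h3 - (P 7) * h4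
  · refine mul_left_cancel₀ ha ?_
    simp only [FF, Matrix.cons_val]
    linear_combination -1 * w0 * h0 - w1 * h1 - w2 * h2 - w3 * h3 - w4 * h4

/-- the skew matrix of the neighbours of the coordinate `p3`; the rows are `x[2, 3, 5, 8, 10]` -/
def B_p3 (P : Sp) : Fin 5 → Fin 5 → ℤ :=
  ![![0, P 4, -(P 5), P 11, -(P 10)],
    ![-(P 4), 0, P 1, P 7, -(P 6)],
    ![P 5, -(P 1), 0, -(P 10), P 9],
    ![-(P 11), -(P 7), P 10, 0, P 1],
    ![P 10, P 6, -(P 9), -(P 1), 0]]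

theorem e_p3 {P : Sp} (hq : Qd P) (ha : P 2 ≠ 0) {w0 w1 w2 w3 w4 z0 z1 z2 z3 z4 : ℤ}
    (h0 : P 4 * w1 - P 5 * w2 - P 10 * w4 + P 11 * w3 = P 2 * z0)
    (h1 : P 1 * w2 - P 4 * w0 + P 7 * w3 - P 6 * w4 = P 2 * z1)
    (h2 : -(P 1 * w1) + P 5 * w0 + P 9 * w4 - P 10 * w3 = P 2 * z2)
    (h3 : P 1 * w4 - P 7 * w1 + P 10 * w2 - P 11 * w0 = P 2 * z3)
    (h4 : -(P 1 * w3) - P 9 * w2 + P 10 * w0 + P 6 * w1 = P 2 * z4)
    : InE P ![z1, w0, w1, (-z0), w2, (-z2), (-z4), w3, z3, w4] ∧ FF ![z1, w0, w1, (-z0), w2, (-z2), (-z4), w3, z3, w4] = 0 := by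
  refine ⟨⟨?_, ?_, ?_, ?_, ?_, ?_, ?_, ?_, ?_, ?_, ?_, ?_, ?_, ?_, ?_, ?_⟩, ?_⟩
  · refine mul_left_cancel₀ ha ?_
    simp only [Matrix.cons_val]
    linear_combination w1 * hq.h10 - w4 * hq.h3 - (-(P 10)) * h0 - (-(P 11)) * h2 - (-(P 5)) * h3
  · refine mul_left_cancel₀ ha ?_
    simp only [Matrix.cons_val]
    linear_combination -1 * w0 * hq.h8 + w3 * hq.h2 - (-(P 9)) * h1 - (-(P 6)) * h2 - (-(P 1)) * h4
  · refine mul_left_cancel₀ ha ?_
    simp only [Matrix.cons_val]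
    linear_combination w0 * hq.h4 - w1 * hq.h1 + w2 * hq.h6 - w3 * hq.h9 + w4 * hq.h7 - (-(P 0)) * h0 - (-(P 4)) * h1 - (-(P 3)) * h2 - (-(P 7)) * h3 - (-(P 8)) * h4
  · refine mul_left_cancel₀ ha ?_
    simp only [Matrix.cons_val]
    linear_combination -1 * (-(P 2)) * h2
  · refine mul_left_cancel₀ ha ?_
    simp only [Matrix.cons_val]
    linear_combination w1 * hq.h8 - w3 * hq.h3 - (-(P 9)) * h0 - (-(P 10)) * h2 - (P 5) * h4
  · refine mul_left_cancel₀ ha ?_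
    simp only [Matrix.cons_val]
    linear_combination -1 * w0 * hq.h10 + w4 * hq.h2 - (-(P 10)) * h1 - (-(P 7)) * h2 - (P 1) * h3
  · refine mul_left_cancel₀ ha ?_
    simp only [Matrix.cons_val]
    linear_combination -1 * w3 * hq.h10 + w4 * hq.h8 - (-(P 1)) * h0 - (-(P 5)) * h1 - (-(P 4)) * h2
  · refine mul_left_cancel₀ ha ?_
    simp only [Matrix.cons_val]
    linear_combination -1 * w0 * hq.h3 + w1 * hq.h2 - (-(P 1)) * h2 - (P 9) * h3 - (P 10) * h4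
  · refine mul_left_cancel₀ ha ?_
    simp only [Matrix.cons_val]
    linear_combination -1 * (P 2) * h0
  · refine mul_left_cancel₀ ha ?_
    simp only [Matrix.cons_val]
    linear_combination w0 * hq.h5 - w2 * hq.h2 - (-(P 1)) * h1 - (-(P 6)) * h3 - (-(P 7)) * h4
  · refine mul_left_cancel₀ ha ?_
    simp only [Matrix.cons_val]
    linear_combination -1 * (P 2) * h4
  · refine mul_left_cancel₀ ha ?_
    simp only [Matrix.cons_val]
    linear_combination -1 * w2 * hq.h10 + w4 * hq.h5 - (P 7) * h0 - (-(P 11)) * h1 - (P 4) * h3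
  · refine mul_left_cancel₀ ha ?_
    simp only [Matrix.cons_val]
    linear_combination -1 * (-(P 2)) * h3
  · refine mul_left_cancel₀ ha ?_
    simp only [Matrix.cons_val]
    linear_combination -1 * w2 * hq.h8 + w3 * hq.h5 - (P 6) * h0 - (-(P 10)) * h1 - (-(P 4)) * h4
  · refine mul_left_cancel₀ ha ?_
    simp only [Matrix.cons_val]
    linear_combination w1 * hq.h5 - w2 * hq.h3 - (P 1) * h0 - (P 10) * h3 - (P 11) * h4
  · refine mul_left_cancel₀ ha ?_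
    simp only [Matrix.cons_val]
    linear_combination -1 * (-(P 2)) * h1
  · refine mul_left_cancel₀ ha ?_
    simp only [FF, Matrix.cons_val]
    linear_combination -1 * w0 * h0 - w1 * h1 - w2 * h2 - w3 * h3 - w4 * h4

/-- the skew matrix of the neighbours of the coordinate `q1`; the rows are `x[1, 4, 5, 7, 9]` -/
def B_q1 (P : Sp) : Fin 5 → Fin 5 → ℤ :=
  ![![0, -(P 1), P 4, -(P 11), P 10],
    ![P 1, 0, -(P 0), -(P 7), P 6],
    ![-(P 4), P 0, 0, P 8, -(P 7)],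
    ![P 11, P 7, -(P 8), 0, -(P 4)],
    ![-(P 10), -(P 6), P 7, P 4, 0]]

theorem e_q1 {P : Sp} (hq : Qd P) (ha : P 3 ≠ 0) {w0 w1 w2 w3 w4 z0 z1 z2 z3 z4 : ℤ}
    (h0 : -(P 1 * w1) + P 4 * w2 + P 10 * w4 - P 11 * w3 = P 3 * z0)
    (h1 : -(P 0 * w2) + P 1 * w0 - P 7 * w3 + P 6 * w4 = P 3 * z1)
    (h2 : P 0 * w1 - P 4 * w0 - P 7 * w4 + P 8 * w3 = P 3 * z2)
    (h3 : -(P 4 * w4) + P 7 * w1 - P 8 * w2 + P 11 * w0 = P 3 * z3)
    (h4 : P 4 * w3 + P 7 * w2 - P 10 * w0 - P 6 * w1 = P 3 * z4)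
    : InE P ![w0, (-z1), z0, w1, w2, (-z2), w3, z4, w4, (-z3)] ∧ FF ![w0, (-z1), z0, w1, w2, (-z2), w3, z4, w4, (-z3)] = 0 := by
  refine ⟨⟨?_, ?_, ?_, ?_, ?_, ?_, ?_, ?_, ?_, ?_, ?_, ?_, ?_, ?_, ?_, ?_⟩, ?_⟩
  · refine mul_left_cancel₀ ha ?_
    simp only [Matrix.cons_val]
    linear_combination -1 * w1 * hq.h9 + w4 * hq.h4 - (-(P 8)) * h0 - (-(P 11)) * h2 - (-(P 4)) * h3
  · refine mul_left_cancel₀ ha ?_
    simp only [Matrix.cons_val]
    linear_combination w0 * hq.h7 - w3 * hq.h1 - (-(P 7)) * h1 - (-(P 6)) * h2 - (-(P 0)) * h4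
  · refine mul_left_cancel₀ ha ?_
    simp only [Matrix.cons_val]
    linear_combination -1 * (-(P 3)) * h2
  · refine mul_left_cancel₀ ha ?_
    simp only [Matrix.cons_val]
    linear_combination -1 * w0 * hq.h3 + w1 * hq.h2 + w2 * hq.h6 + w3 * hq.h10 - w4 * hq.h8 - (-(P 1)) * h0 - (-(P 5)) * h1 - (-(P 2)) * h2 - (-(P 9)) * h3 - (-(P 10)) * h4
  · refine mul_left_cancel₀ ha ?_
    simp only [Matrix.cons_val]
    linear_combination -1 * w1 * hq.h7 + w3 * hq.h4 - (-(P 7)) * h0 - (-(P 10)) * h2 - (P 4) * h4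
  · refine mul_left_cancel₀ ha ?_
    simp only [Matrix.cons_val]
    linear_combination w0 * hq.h9 - w4 * hq.h1 - (-(P 8)) * h1 - (-(P 7)) * h2 - (P 0) * h3
  · refine mul_left_cancel₀ ha ?_
    simp only [Matrix.cons_val]
    linear_combination w0 * hq.h4 - w1 * hq.h1 - (-(P 4)) * h2 - (P 7) * h3 - (P 8) * h4
  · refine mul_left_cancel₀ ha ?_
    simp only [Matrix.cons_val]
    linear_combination w3 * hq.h9 - w4 * hq.h7 - (-(P 0)) * h0 - (-(P 4)) * h1 - (-(P 1)) * h2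
  · refine mul_left_cancel₀ ha ?_
    simp only [Matrix.cons_val]
    linear_combination w1 * hq.h5 - w2 * hq.h4 - (-(P 4)) * h0 - (-(P 10)) * h3 - (-(P 11)) * h4
  · refine mul_left_cancel₀ ha ?_
    simp only [Matrix.cons_val]
    linear_combination -1 * (P 3) * h1
  · refine mul_left_cancel₀ ha ?_
    simp only [Matrix.cons_val]
    linear_combination -1 * w2 * hq.h7 + w3 * hq.h5 - (-(P 6)) * h0 - (P 10) * h1 - (P 1) * h4
  · refine mul_left_cancel₀ ha ?_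
    simp only [Matrix.cons_val]
    linear_combination -1 * (P 3) * h3
  · refine mul_left_cancel₀ ha ?_
    simp only [Matrix.cons_val]
    linear_combination -1 * w2 * hq.h9 + w4 * hq.h5 - (-(P 7)) * h0 - (P 11) * h1 - (-(P 1)) * h3
  · refine mul_left_cancel₀ ha ?_
    simp only [Matrix.cons_val]
    linear_combination -1 * (-(P 3)) * h4
  · refine mul_left_cancel₀ ha ?_
    simp only [Matrix.cons_val]
    linear_combination -1 * (-(P 3)) * h0
  · refine mul_left_cancel₀ ha ?_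
    simp only [Matrix.cons_val]
    linear_combination w0 * hq.h5 - w2 * hq.h1 - (P 4) * h1 - (P 6) * h3 - (P 7) * h4
  · refine mul_left_cancel₀ ha ?_
    simp only [FF, Matrix.cons_val]
    linear_combination -1 * w0 * h0 - w1 * h1 - w2 * h2 - w3 * h3 - w4 * h4

/-- the skew matrix of the neighbours of the coordinate `q2`; the rows are `x[1, 4, 5, 8, 10]` -/
def B_q2 (P : Sp) : Fin 5 → Fin 5 → ℤ :=
  ![![0, -(P 2), P 5, -(P 11), P 10],
    ![P 2, 0, -(P 1), -(P 7), P 6],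
    ![-(P 5), P 1, 0, P 8, -(P 7)],
    ![P 11, P 7, -(P 8), 0, P 3],
    ![-(P 10), -(P 6), P 7, -(P 3), 0]]

theorem e_q2 {P : Sp} (hq : Qd P) (ha : P 4 ≠ 0) {w0 w1 w2 w3 w4 z0 z1 z2 z3 z4 : ℤ}
    (h0 : -(P 2 * w1) + P 5 * w2 + P 10 * w4 - P 11 * w3 = P 4 * z0)
    (h1 : -(P 1 * w2) + P 2 * w0 - P 7 * w3 + P 6 * w4 = P 4 * z1)
    (h2 : P 1 * w1 - P 5 * w0 - P 7 * w4 + P 8 * w3 = P 4 * z2)
    (h3 : P 3 * w4 + P 7 * w1 - P 8 * w2 + P 11 * w0 = P 4 * z3)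
    (h4 : -(P 3 * w3) + P 7 * w2 - P 10 * w0 - P 6 * w1 = P 4 * z4)
    : InE P ![w0, (-z1), z0, w1, w2, (-z2), (-z4), w3, z3, w4] ∧ FF ![w0, (-z1), z0, w1, w2, (-z2), (-z4), w3, z3, w4] = 0 := by
  refine ⟨⟨?_, ?_, ?_, ?_, ?_, ?_, ?_, ?_, ?_, ?_, ?_, ?_, ?_, ?_, ?_, ?_⟩, ?_⟩
  · refine mul_left_cancel₀ ha ?_
    simp only [Matrix.cons_val]
    linear_combination -1 * w1 * hq.h10 + w4 * hq.h4 - (-(P 8)) * h0 - (-(P 11)) * h2 - (-(P 5)) * h3
  · refine mul_left_cancel₀ ha ?_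
    simp only [Matrix.cons_val]
    linear_combination w0 * hq.h8 - w3 * hq.h1 - (-(P 7)) * h1 - (-(P 6)) * h2 - (-(P 1)) * h4
  · refine mul_left_cancel₀ ha ?_
    simp only [Matrix.cons_val]
    linear_combination -1 * w0 * hq.h4 + w1 * hq.h1 - (-(P 3)) * h2 - (-(P 7)) * h3 - (-(P 8)) * h4
  · refine mul_left_cancel₀ ha ?_
    simp only [Matrix.cons_val]
    linear_combination w3 * hq.h10 - w4 * hq.h8 - (-(P 1)) * h0 - (-(P 5)) * h1 - (-(P 2)) * h2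
  · refine mul_left_cancel₀ ha ?_
    simp only [Matrix.cons_val]
    linear_combination -1 * w1 * hq.h8 + w3 * hq.h4 - (-(P 7)) * h0 - (-(P 10)) * h2 - (P 5) * h4
  · refine mul_left_cancel₀ ha ?_
    simp only [Matrix.cons_val]
    linear_combination w0 * hq.h10 - w4 * hq.h1 - (-(P 8)) * h1 - (-(P 7)) * h2 - (P 1) * h3
  · refine mul_left_cancel₀ ha ?_
    simp only [Matrix.cons_val]
    linear_combination -1 * (-(P 4)) * h2
  · refine mul_left_cancel₀ ha ?_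
    simp only [Matrix.cons_val]
    linear_combination w0 * hq.h3 - w1 * hq.h2 - w2 * hq.h6 + w3 * hq.h9 - w4 * hq.h7 - (-(P 0)) * h0 - (-(P 4)) * h1 - (-(P 1)) * h2 - (P 9) * h3 - (P 10) * h4
  · refine mul_left_cancel₀ ha ?_
    simp only [Matrix.cons_val]
    linear_combination -1 * (-(P 4)) * h0
  · refine mul_left_cancel₀ ha ?_
    simp only [Matrix.cons_val]
    linear_combination -1 * w0 * hq.h5 + w2 * hq.h1 - (P 3) * h1 - (-(P 6)) * h3 - (-(P 7)) * h4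
  · refine mul_left_cancel₀ ha ?_
    simp only [Matrix.cons_val]
    linear_combination -1 * w2 * hq.h8 + w3 * hq.h5 - (-(P 6)) * h0 - (P 10) * h1 - (P 2) * h4
  · refine mul_left_cancel₀ ha ?_
    simp only [Matrix.cons_val]
    linear_combination -1 * (P 4) * h3
  · refine mul_left_cancel₀ ha ?_
    simp only [Matrix.cons_val]
    linear_combination -1 * w2 * hq.h10 + w4 * hq.h5 - (-(P 7)) * h0 - (P 11) * h1 - (-(P 2)) * h3
  · refine mul_left_cancel₀ ha ?_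
    simp only [Matrix.cons_val]
    linear_combination -1 * (-(P 4)) * h4
  · refine mul_left_cancel₀ ha ?_
    simp only [Matrix.cons_val]
    linear_combination -1 * w1 * hq.h5 + w2 * hq.h4 - (-(P 3)) * h0 - (P 10) * h3 - (P 11) * h4
  · refine mul_left_cancel₀ ha ?_
    simp only [Matrix.cons_val]
    linear_combination -1 * (P 4) * h1
  · refine mul_left_cancel₀ ha ?_
    simp only [FF, Matrix.cons_val]
    linear_combination -1 * w0 * h0 - w1 * h1 - w2 * h2 - w3 * h3 - w4 * h4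

/-- the skew matrix of the neighbours of the coordinate `q3`; the rows are `x[3, 4, 6, 8, 10]` -/
def B_q3 (P : Sp) : Fin 5 → Fin 5 → ℤ :=
  ![![0, P 1, P 4, P 8, -(P 7)],
    ![-(P 1), 0, P 2, -(P 10), P 9],
    ![-(P 4), -(P 2), 0, -(P 11), P 10],
    ![-(P 8), P 10, P 11, 0, P 4],
    ![P 7, -(P 9), -(P 10), -(P 4), 0]]

theorem e_q3 {P : Sp} (hq : Qd P) (ha : P 5 ≠ 0) {w0 w1 w2 w3 w4 z0 z1 z2 z3 z4 : ℤ}
    (h0 : P 1 * w1 + P 4 * w2 - P 7 * w4 + P 8 * w3 = P 5 * z0)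
    (h1 : -(P 1 * w0) + P 2 * w2 + P 9 * w4 - P 10 * w3 = P 5 * z1)
    (h2 : -(P 2 * w1) - P 4 * w0 + P 10 * w4 - P 11 * w3 = P 5 * z2)
    (h3 : P 4 * w4 - P 8 * w0 + P 10 * w1 + P 11 * w2 = P 5 * z3)
    (h4 : -(P 4 * w3) + P 7 * w0 - P 9 * w1 - P 10 * w2 = P 5 * z4)
    : InE P ![z0, (-z1), w0, w1, (-z2), w2, (-z4), w3, z3, w4] ∧ FF ![z0, (-z1), w0, w1, (-z2), w2, (-z4), w3, z3, w4] = 0 := by
  refine ⟨⟨?_, ?_, ?_, ?_, ?_, ?_, ?_, ?_, ?_, ?_, ?_, ?_, ?_, ?_, ?_, ?_⟩, ?_⟩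
  · refine mul_left_cancel₀ ha ?_
    simp only [Matrix.cons_val]
    linear_combination -1 * (-(P 5)) * h3
  · refine mul_left_cancel₀ ha ?_
    simp only [Matrix.cons_val]
    linear_combination w2 * hq.h8 - w3 * hq.h6 - (-(P 9)) * h0 - (-(P 7)) * h1 - (-(P 1)) * h4
  · refine mul_left_cancel₀ ha ?_
    simp only [Matrix.cons_val]
    linear_combination w1 * hq.h6 - w2 * hq.h4 - (-(P 4)) * h0 - (-(P 7)) * h3 - (-(P 8)) * h4
  · refine mul_left_cancel₀ ha ?_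
    simp only [Matrix.cons_val]
    linear_combination -1 * (-(P 5)) * h1
  · refine mul_left_cancel₀ ha ?_
    simp only [Matrix.cons_val]
    linear_combination -1 * (P 5) * h4
  · refine mul_left_cancel₀ ha ?_
    simp only [Matrix.cons_val]
    linear_combination w2 * hq.h10 - w4 * hq.h6 - (-(P 10)) * h0 - (-(P 8)) * h1 - (P 1) * h3
  · refine mul_left_cancel₀ ha ?_
    simp only [Matrix.cons_val]
    linear_combination -1 * (-(P 5)) * h0
  · refine mul_left_cancel₀ ha ?_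
    simp only [Matrix.cons_val]
    linear_combination -1 * w0 * hq.h6 + w2 * hq.h3 - (-(P 4)) * h1 - (P 9) * h3 - (P 10) * h4
  · refine mul_left_cancel₀ ha ?_
    simp only [Matrix.cons_val]
    linear_combination -1 * (-(P 5)) * h2
  · refine mul_left_cancel₀ ha ?_
    simp only [Matrix.cons_val]
    linear_combination w0 * hq.h1 - w1 * hq.h2 - w2 * hq.h5 + w3 * hq.h9 - w4 * hq.h7 - (-(P 1)) * h0 - (P 3) * h1 - (-(P 0)) * h2 - (-(P 6)) * h3 - (-(P 7)) * h4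
  · refine mul_left_cancel₀ ha ?_
    simp only [Matrix.cons_val]
    linear_combination -1 * w0 * hq.h8 + w3 * hq.h3 - (P 10) * h1 - (-(P 9)) * h2 - (P 2) * h4
  · refine mul_left_cancel₀ ha ?_
    simp only [Matrix.cons_val]
    linear_combination -1 * w1 * hq.h10 + w4 * hq.h4 - (-(P 11)) * h0 - (-(P 8)) * h2 - (P 4) * h3
  · refine mul_left_cancel₀ ha ?_
    simp only [Matrix.cons_val]
    linear_combination -1 * w0 * hq.h10 + w4 * hq.h3 - (P 11) * h1 - (-(P 10)) * h2 - (-(P 2)) * h3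
  · refine mul_left_cancel₀ ha ?_
    simp only [Matrix.cons_val]
    linear_combination -1 * w1 * hq.h8 + w3 * hq.h4 - (-(P 10)) * h0 - (-(P 7)) * h2 - (-(P 4)) * h4
  · refine mul_left_cancel₀ ha ?_
    simp only [Matrix.cons_val]
    linear_combination w0 * hq.h4 - w1 * hq.h3 - (-(P 4)) * h2 - (P 10) * h3 - (P 11) * h4
  · refine mul_left_cancel₀ ha ?_
    simp only [Matrix.cons_val]
    linear_combination w3 * hq.h10 - w4 * hq.h8 - (-(P 2)) * h0 - (P 4) * h1 - (-(P 1)) * h2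
  · refine mul_left_cancel₀ ha ?_
    simp only [FF, Matrix.cons_val]
    linear_combination -1 * w0 * h0 - w1 * h1 - w2 * h2 - w3 * h3 - w4 * h4

/-- the skew matrix of the neighbours of the coordinate `v`; the rows are `x[1, 2, 5, 7, 8]` -/
def B_v (P : Sp) : Fin 5 → Fin 5 → ℤ :=
  ![![0, -(P 10), P 9, -(P 2), P 1],
    ![P 10, 0, -(P 7), -(P 4), P 3],
    ![-(P 9), P 7, 0, P 1, -(P 0)],
    ![P 2, P 4, -(P 1), 0, -(P 7)],
    ![-(P 1), -(P 3), P 0, P 7, 0]]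

theorem e_v {P : Sp} (hq : Qd P) (ha : P 6 ≠ 0) {w0 w1 w2 w3 w4 z0 z1 z2 z3 z4 : ℤ}
    (h0 : P 1 * w4 - P 2 * w3 + P 9 * w2 - P 10 * w1 = P 6 * z0)
    (h1 : P 3 * w4 - P 4 * w3 - P 7 * w2 + P 10 * w0 = P 6 * z1)
    (h2 : -(P 0 * w4) + P 1 * w3 + P 7 * w1 - P 9 * w0 = P 6 * z2)
    (h3 : -(P 1 * w2) + P 2 * w0 + P 4 * w1 - P 7 * w4 = P 6 * z3)
    (h4 : P 0 * w2 - P 1 * w0 - P 3 * w1 + P 7 * w3 = P 6 * z4)
    : InE P ![w0, w1, z0, (-z1), w2, (-z2), w3, w4, z4, (-z3)] ∧ FF ![w0, w1, z0, (-z1), w2, (-z2), w3, w4, z4, (-z3)] = 0 := by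
  refine ⟨⟨?_, ?_, ?_, ?_, ?_, ?_, ?_, ?_, ?_, ?_, ?_, ?_, ?_, ?_, ?_, ?_⟩, ?_⟩
  · refine mul_left_cancel₀ ha ?_
    simp only [Matrix.cons_val]
    linear_combination w0 * hq.h3 - w1 * hq.h4 - w2 * hq.h6 - w3 * hq.h10 + w4 * hq.h9 - (-(P 8)) * h0 - (-(P 10)) * h1 - (-(P 11)) * h2 - (-(P 4)) * h3 - (-(P 5)) * h4
  · refine mul_left_cancel₀ ha ?_
    simp only [Matrix.cons_val]
    linear_combination -1 * (-(P 6)) * h2
  · refine mul_left_cancel₀ ha ?_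
    simp only [Matrix.cons_val]
    linear_combination -1 * w0 * hq.h7 + w3 * hq.h1 - (-(P 0)) * h1 - (-(P 3)) * h2 - (-(P 7)) * h4
  · refine mul_left_cancel₀ ha ?_
    simp only [Matrix.cons_val]
    linear_combination w1 * hq.h8 - w4 * hq.h2 - (-(P 1)) * h0 - (-(P 2)) * h2 - (-(P 9)) * h3
  · refine mul_left_cancel₀ ha ?_
    simp only [Matrix.cons_val]
    linear_combination -1 * w3 * hq.h8 + w4 * hq.h7 - (-(P 7)) * h0 - (-(P 9)) * h1 - (-(P 10)) * h2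
  · refine mul_left_cancel₀ ha ?_
    simp only [Matrix.cons_val]
    linear_combination -1 * w0 * hq.h2 + w1 * hq.h1 - (-(P 7)) * h2 - (P 0) * h3 - (P 1) * h4
  · refine mul_left_cancel₀ ha ?_
    simp only [Matrix.cons_val]
    linear_combination -1 * w0 * hq.h8 + w4 * hq.h1 - (-(P 1)) * h1 - (-(P 4)) * h2 - (P 7) * h3
  · refine mul_left_cancel₀ ha ?_
    simp only [Matrix.cons_val]
    linear_combination w1 * hq.h7 - w3 * hq.h2 - (-(P 0)) * h0 - (-(P 1)) * h2 - (P 9) * h4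
  · refine mul_left_cancel₀ ha ?_
    simp only [Matrix.cons_val]
    linear_combination w2 * hq.h8 - w4 * hq.h5 - (-(P 4)) * h0 - (P 2) * h1 - (-(P 10)) * h3
  · refine mul_left_cancel₀ ha ?_
    simp only [Matrix.cons_val]
    linear_combination -1 * (-(P 6)) * h4
  · refine mul_left_cancel₀ ha ?_
    simp only [Matrix.cons_val]
    linear_combination -1 * (-(P 6)) * h0
  · refine mul_left_cancel₀ ha ?_
    simp only [Matrix.cons_val]
    linear_combination -1 * w0 * hq.h5 + w2 * hq.h1 - (P 7) * h1 - (P 3) * h3 - (P 4) * h4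
  · refine mul_left_cancel₀ ha ?_
    simp only [Matrix.cons_val]
    linear_combination -1 * w1 * hq.h5 + w2 * hq.h2 - (-(P 7)) * h0 - (-(P 1)) * h3 - (-(P 2)) * h4
  · refine mul_left_cancel₀ ha ?_
    simp only [Matrix.cons_val]
    linear_combination -1 * (P 6) * h1
  · refine mul_left_cancel₀ ha ?_
    simp only [Matrix.cons_val]
    linear_combination w2 * hq.h7 - w3 * hq.h5 - (-(P 3)) * h0 - (P 1) * h1 - (P 10) * h4
  · refine mul_left_cancel₀ ha ?_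
    simp only [Matrix.cons_val]
    linear_combination -1 * (P 6) * h3
  · refine mul_left_cancel₀ ha ?_
    simp only [FF, Matrix.cons_val]
    linear_combination -1 * w0 * h0 - w1 * h1 - w2 * h2 - w3 * h3 - w4 * h4

/-- the skew matrix of the neighbours of the coordinate `r2`; the rows are `x[1, 2, 5, 9, 10]` -/
def B_r2 (P : Sp) : Fin 5 → Fin 5 → ℤ :=
  ![![0, -(P 11), P 10, -(P 2), P 1],
    ![P 11, 0, -(P 8), -(P 4), P 3],
    ![-(P 10), P 8, 0, P 1, -(P 0)],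
    ![P 2, P 4, -(P 1), 0, P 6],
    ![-(P 1), -(P 3), P 0, -(P 6), 0]]

theorem e_r2 {P : Sp} (hq : Qd P) (ha : P 7 ≠ 0) {w0 w1 w2 w3 w4 z0 z1 z2 z3 z4 : ℤ}
    (h0 : P 1 * w4 - P 2 * w3 + P 10 * w2 - P 11 * w1 = P 7 * z0)
    (h1 : P 3 * w4 - P 4 * w3 - P 8 * w2 + P 11 * w0 = P 7 * z1)
    (h2 : -(P 0 * w4) + P 1 * w3 + P 8 * w1 - P 10 * w0 = P 7 * z2)
    (h3 : -(P 1 * w2) + P 2 * w0 + P 4 * w1 + P 6 * w4 = P 7 * z3)
    (h4 : P 0 * w2 - P 1 * w0 - P 3 * w1 - P 6 * w3 = P 7 * z4)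
    : InE P ![w0, w1, z0, (-z1), w2, (-z2), (-z4), z3, w3, w4] ∧ FF ![w0, w1, z0, (-z1), w2, (-z2), (-z4), z3, w3, w4] = 0 := by
  refine ⟨⟨?_, ?_, ?_, ?_, ?_, ?_, ?_, ?_, ?_, ?_, ?_, ?_, ?_, ?_, ?_, ?_⟩, ?_⟩
  · refine mul_left_cancel₀ ha ?_
    simp only [Matrix.cons_val]
    linear_combination -1 * w3 * hq.h10 + w4 * hq.h9 - (-(P 8)) * h0 - (-(P 10)) * h1 - (-(P 11)) * h2
  · refine mul_left_cancel₀ ha ?_
    simp only [Matrix.cons_val]
    linear_combination w0 * hq.h2 - w1 * hq.h1 - (-(P 6)) * h2 - (-(P 0)) * h3 - (-(P 1)) * h4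
  · refine mul_left_cancel₀ ha ?_
    simp only [Matrix.cons_val]
    linear_combination -1 * w0 * hq.h9 + w3 * hq.h1 - (-(P 0)) * h1 - (-(P 3)) * h2 - (-(P 8)) * h4
  · refine mul_left_cancel₀ ha ?_
    simp only [Matrix.cons_val]
    linear_combination w1 * hq.h10 - w4 * hq.h2 - (-(P 1)) * h0 - (-(P 2)) * h2 - (-(P 10)) * h3
  · refine mul_left_cancel₀ ha ?_
    simp only [Matrix.cons_val]
    linear_combination -1 * w0 * hq.h3 + w1 * hq.h4 + w2 * hq.h6 - w3 * hq.h8 + w4 * hq.h7 - (-(P 7)) * h0 - (-(P 9)) * h1 - (-(P 10)) * h2 - (P 4) * h3 - (P 5) * h4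
  · refine mul_left_cancel₀ ha ?_
    simp only [Matrix.cons_val]
    linear_combination -1 * (-(P 7)) * h2
  · refine mul_left_cancel₀ ha ?_
    simp only [Matrix.cons_val]
    linear_combination -1 * w0 * hq.h10 + w4 * hq.h1 - (-(P 1)) * h1 - (-(P 4)) * h2 - (P 8) * h3
  · refine mul_left_cancel₀ ha ?_
    simp only [Matrix.cons_val]
    linear_combination w1 * hq.h9 - w3 * hq.h2 - (-(P 0)) * h0 - (-(P 1)) * h2 - (P 10) * h4
  · refine mul_left_cancel₀ ha ?_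
    simp only [Matrix.cons_val]
    linear_combination w2 * hq.h10 - w4 * hq.h5 - (-(P 4)) * h0 - (P 2) * h1 - (-(P 11)) * h3
  · refine mul_left_cancel₀ ha ?_
    simp only [Matrix.cons_val]
    linear_combination -1 * (-(P 7)) * h4
  · refine mul_left_cancel₀ ha ?_
    simp only [Matrix.cons_val]
    linear_combination w1 * hq.h5 - w2 * hq.h2 - (-(P 6)) * h0 - (P 1) * h3 - (P 2) * h4
  · refine mul_left_cancel₀ ha ?_
    simp only [Matrix.cons_val]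
    linear_combination -1 * (P 7) * h1
  · refine mul_left_cancel₀ ha ?_
    simp only [Matrix.cons_val]
    linear_combination -1 * (-(P 7)) * h0
  · refine mul_left_cancel₀ ha ?_
    simp only [Matrix.cons_val]
    linear_combination w0 * hq.h5 - w2 * hq.h1 - (P 6) * h1 - (-(P 3)) * h3 - (-(P 4)) * h4
  · refine mul_left_cancel₀ ha ?_
    simp only [Matrix.cons_val]
    linear_combination w2 * hq.h9 - w3 * hq.h5 - (-(P 3)) * h0 - (P 1) * h1 - (P 11) * h4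
  · refine mul_left_cancel₀ ha ?_
    simp only [Matrix.cons_val]
    linear_combination -1 * (P 7) * h3
  · refine mul_left_cancel₀ ha ?_
    simp only [FF, Matrix.cons_val]
    linear_combination -1 * w0 * h0 - w1 * h1 - w2 * h2 - w3 * h3 - w4 * h4

/-- the skew matrix of the neighbours of the coordinate `r3`; the rows are `x[1, 4, 6, 9, 10]` -/
def B_r3 (P : Sp) : Fin 5 → Fin 5 → ℤ :=
  ![![0, P 10, P 11, -(P 5), P 4],
    ![-(P 10), 0, P 7, P 1, -(P 0)],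
    ![-(P 11), -(P 7), 0, P 4, -(P 3)],
    ![P 5, -(P 1), -(P 4), 0, P 7],
    ![-(P 4), P 0, P 3, -(P 7), 0]]

theorem e_r3 {P : Sp} (hq : Qd P) (ha : P 8 ≠ 0) {w0 w1 w2 w3 w4 z0 z1 z2 z3 z4 : ℤ}
    (h0 : P 4 * w4 - P 5 * w3 + P 10 * w1 + P 11 * w2 = P 8 * z0)
    (h1 : -(P 0 * w4) + P 1 * w3 + P 7 * w2 - P 10 * w0 = P 8 * z1)
    (h2 : -(P 3 * w4) + P 4 * w3 - P 7 * w1 - P 11 * w0 = P 8 * z2)
    (h3 : -(P 1 * w1) - P 4 * w2 + P 5 * w0 + P 7 * w4 = P 8 * z3)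
    (h4 : P 0 * w1 + P 3 * w2 - P 4 * w0 - P 7 * w3 = P 8 * z4)
    : InE P ![w0, (-z1), z0, w1, (-z2), w2, (-z4), z3, w3, w4] ∧ FF ![w0, (-z1), z0, w1, (-z2), w2, (-z4), z3, w3, w4] = 0 := by
  refine ⟨⟨?_, ?_, ?_, ?_, ?_, ?_, ?_, ?_, ?_, ?_, ?_, ?_, ?_, ?_, ?_, ?_⟩, ?_⟩
  · refine mul_left_cancel₀ ha ?_
    simp only [Matrix.cons_val]
    linear_combination -1 * (-(P 8)) * h0
  · refine mul_left_cancel₀ ha ?_
    simp only [Matrix.cons_val]
    linear_combination -1 * w0 * hq.h6 + w2 * hq.h1 - (-(P 7)) * h1 - (-(P 0)) * h3 - (-(P 1)) * h4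
  · refine mul_left_cancel₀ ha ?_
    simp only [Matrix.cons_val]
    linear_combination -1 * (-(P 8)) * h4
  · refine mul_left_cancel₀ ha ?_
    simp only [Matrix.cons_val]
    linear_combination -1 * w2 * hq.h10 + w4 * hq.h6 - (-(P 1)) * h0 - (-(P 5)) * h1 - (-(P 10)) * h3
  · refine mul_left_cancel₀ ha ?_
    simp only [Matrix.cons_val]
    linear_combination w1 * hq.h6 - w2 * hq.h4 - (-(P 7)) * h0 - (P 4) * h3 - (P 5) * h4
  · refine mul_left_cancel₀ ha ?_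
    simp only [Matrix.cons_val]
    linear_combination -1 * (-(P 8)) * h1
  · refine mul_left_cancel₀ ha ?_
    simp only [Matrix.cons_val]
    linear_combination -1 * (P 8) * h3
  · refine mul_left_cancel₀ ha ?_
    simp only [Matrix.cons_val]
    linear_combination -1 * w2 * hq.h9 + w3 * hq.h6 - (-(P 0)) * h0 - (-(P 4)) * h1 - (P 10) * h4
  · refine mul_left_cancel₀ ha ?_
    simp only [Matrix.cons_val]
    linear_combination w1 * hq.h10 - w4 * hq.h4 - (-(P 4)) * h0 - (-(P 5)) * h2 - (-(P 11)) * h3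
  · refine mul_left_cancel₀ ha ?_
    simp only [Matrix.cons_val]
    linear_combination w0 * hq.h9 - w3 * hq.h1 - (P 3) * h1 - (-(P 0)) * h2 - (-(P 7)) * h4
  · refine mul_left_cancel₀ ha ?_
    simp only [Matrix.cons_val]
    linear_combination w0 * hq.h3 - w1 * hq.h2 - w2 * hq.h5 + w3 * hq.h8 - w4 * hq.h7 - (-(P 6)) * h0 - (P 10) * h1 - (-(P 9)) * h2 - (P 1) * h3 - (P 2) * h4
  · refine mul_left_cancel₀ ha ?_
    simp only [Matrix.cons_val]
    linear_combination -1 * (-(P 8)) * h2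
  · refine mul_left_cancel₀ ha ?_
    simp only [Matrix.cons_val]
    linear_combination w3 * hq.h10 - w4 * hq.h9 - (-(P 7)) * h0 - (P 11) * h1 - (-(P 10)) * h2
  · refine mul_left_cancel₀ ha ?_
    simp only [Matrix.cons_val]
    linear_combination w0 * hq.h4 - w1 * hq.h1 - (-(P 7)) * h2 - (-(P 3)) * h3 - (-(P 4)) * h4
  · refine mul_left_cancel₀ ha ?_
    simp only [Matrix.cons_val]
    linear_combination w1 * hq.h9 - w3 * hq.h4 - (-(P 3)) * h0 - (-(P 4)) * h2 - (P 11) * h4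
  · refine mul_left_cancel₀ ha ?_
    simp only [Matrix.cons_val]
    linear_combination w0 * hq.h10 - w4 * hq.h1 - (P 4) * h1 - (-(P 1)) * h2 - (P 7) * h3
  · refine mul_left_cancel₀ ha ?_
    simp only [FF, Matrix.cons_val]
    linear_combination -1 * w0 * h0 - w1 * h1 - w2 * h2 - w3 * h3 - w4 * h4

/-- the skew matrix of the neighbours of the coordinate `s1`; the rows are `x[2, 3, 6, 7, 8]` -/
def B_s1 (P : Sp) : Fin 5 → Fin 5 → ℤ :=
  ![![0, -(P 7), P 10, -(P 5), P 4],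
    ![P 7, 0, P 6, P 1, -(P 0)],
    ![-(P 10), -(P 6), 0, -(P 2), P 1],
    ![P 5, -(P 1), P 2, 0, -(P 10)],
    ![-(P 4), P 0, -(P 1), P 10, 0]]

theorem e_s1 {P : Sp} (hq : Qd P) (ha : P 9 ≠ 0) {w0 w1 w2 w3 w4 z0 z1 z2 z3 z4 : ℤ}
    (h0 : P 4 * w4 - P 5 * w3 - P 7 * w1 + P 10 * w2 = P 9 * z0)
    (h1 : -(P 0 * w4) + P 1 * w3 + P 7 * w0 + P 6 * w2 = P 9 * z1)
    (h2 : P 1 * w4 - P 2 * w3 - P 10 * w0 - P 6 * w1 = P 9 * z2)
    (h3 : -(P 1 * w1) + P 2 * w2 + P 5 * w0 - P 10 * w4 = P 9 * z3)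
    (h4 : P 0 * w1 - P 1 * w2 - P 4 * w0 + P 10 * w3 = P 9 * z4)
    : InE P ![z1, w0, w1, (-z0), (-z2), w2, w3, w4, z4, (-z3)] ∧ FF ![z1, w0, w1, (-z0), (-z2), w2, w3, w4, z4, (-z3)] = 0 := by
  refine ⟨⟨?_, ?_, ?_, ?_, ?_, ?_, ?_, ?_, ?_, ?_, ?_, ?_, ?_, ?_, ?_, ?_⟩, ?_⟩
  · refine mul_left_cancel₀ ha ?_
    simp only [Matrix.cons_val]
    linear_combination -1 * w1 * hq.h6 + w2 * hq.h3 - (-(P 10)) * h0 - (-(P 4)) * h3 - (-(P 5)) * h4
  · refine mul_left_cancel₀ ha ?_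
    simp only [Matrix.cons_val]
    linear_combination -1 * (-(P 9)) * h1
  · refine mul_left_cancel₀ ha ?_
    simp only [Matrix.cons_val]
    linear_combination -1 * w2 * hq.h7 + w3 * hq.h6 - (-(P 0)) * h0 - (-(P 4)) * h1 - (-(P 7)) * h4
  · refine mul_left_cancel₀ ha ?_
    simp only [Matrix.cons_val]
    linear_combination -1 * (-(P 9)) * h3
  · refine mul_left_cancel₀ ha ?_
    simp only [Matrix.cons_val]
    linear_combination -1 * (-(P 9)) * h0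
  · refine mul_left_cancel₀ ha ?_
    simp only [Matrix.cons_val]
    linear_combination w0 * hq.h6 - w2 * hq.h2 - (-(P 10)) * h1 - (P 0) * h3 - (P 1) * h4
  · refine mul_left_cancel₀ ha ?_
    simp only [Matrix.cons_val]
    linear_combination -1 * w2 * hq.h8 + w4 * hq.h6 - (-(P 1)) * h0 - (-(P 5)) * h1 - (P 7) * h3
  · refine mul_left_cancel₀ ha ?_
    simp only [Matrix.cons_val]
    linear_combination -1 * (P 9) * h4
  · refine mul_left_cancel₀ ha ?_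
    simp only [Matrix.cons_val]
    linear_combination w1 * hq.h8 - w4 * hq.h3 - (P 2) * h0 - (-(P 5)) * h2 - (-(P 10)) * h3
  · refine mul_left_cancel₀ ha ?_
    simp only [Matrix.cons_val]
    linear_combination w0 * hq.h7 - w3 * hq.h2 - (-(P 1)) * h1 - (-(P 0)) * h2 - (-(P 6)) * h4
  · refine mul_left_cancel₀ ha ?_
    simp only [Matrix.cons_val]
    linear_combination -1 * (-(P 9)) * h2
  · refine mul_left_cancel₀ ha ?_
    simp only [Matrix.cons_val]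
    linear_combination -1 * w0 * hq.h4 + w1 * hq.h1 - w2 * hq.h5 - w3 * hq.h10 + w4 * hq.h9 - (P 7) * h0 - (-(P 11)) * h1 - (-(P 8)) * h2 - (P 3) * h3 - (P 4) * h4
  · refine mul_left_cancel₀ ha ?_
    simp only [Matrix.cons_val]
    linear_combination -1 * w0 * hq.h3 + w1 * hq.h2 - (-(P 10)) * h2 - (-(P 1)) * h3 - (-(P 2)) * h4
  · refine mul_left_cancel₀ ha ?_
    simp only [Matrix.cons_val]
    linear_combination -1 * w3 * hq.h8 + w4 * hq.h7 - (P 6) * h0 - (-(P 10)) * h1 - (-(P 7)) * h2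
  · refine mul_left_cancel₀ ha ?_
    simp only [Matrix.cons_val]
    linear_combination w1 * hq.h7 - w3 * hq.h3 - (P 1) * h0 - (-(P 4)) * h2 - (P 10) * h4
  · refine mul_left_cancel₀ ha ?_
    simp only [Matrix.cons_val]
    linear_combination w0 * hq.h8 - w4 * hq.h2 - (-(P 2)) * h1 - (-(P 1)) * h2 - (P 6) * h3
  · refine mul_left_cancel₀ ha ?_
    simp only [FF, Matrix.cons_val]
    linear_combination -1 * w0 * h0 - w1 * h1 - w2 * h2 - w3 * h3 - w4 * h4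

/-- the skew matrix of the neighbours of the coordinate `s2`; the rows are `x[3, 4, 5, 7, 8]` -/
def B_s2 (P : Sp) : Fin 5 → Fin 5 → ℤ :=
  ![![0, -(P 6), P 7, P 4, -(P 3)],
    ![P 6, 0, -(P 9), P 2, -(P 1)],
    ![-(P 7), P 9, 0, -(P 5), P 4],
    ![-(P 4), -(P 2), P 5, 0, -(P 11)],
    ![P 3, P 1, -(P 4), P 11, 0]]

theorem e_s2 {P : Sp} (hq : Qd P) (ha : P 10 ≠ 0) {w0 w1 w2 w3 w4 z0 z1 z2 z3 z4 : ℤ}
    (h0 : -(P 3 * w4) + P 4 * w3 + P 7 * w2 - P 6 * w1 = P 10 * z0)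
    (h1 : -(P 1 * w4) + P 2 * w3 - P 9 * w2 + P 6 * w0 = P 10 * z1)
    (h2 : P 4 * w4 - P 5 * w3 - P 7 * w0 + P 9 * w1 = P 10 * z2)
    (h3 : -(P 2 * w1) - P 4 * w0 + P 5 * w2 - P 11 * w4 = P 10 * z3)
    (h4 : P 1 * w1 + P 3 * w0 - P 4 * w2 + P 11 * w3 = P 10 * z4)
    : InE P ![z0, (-z1), w0, w1, w2, (-z2), w3, w4, z4, (-z3)] ∧ FF ![z0, (-z1), w0, w1, w2, (-z2), w3, w4, z4, (-z3)] = 0 := by
  refine ⟨⟨?_, ?_, ?_, ?_, ?_, ?_, ?_, ?_, ?_, ?_, ?_, ?_, ?_, ?_, ?_, ?_⟩, ?_⟩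
  · refine mul_left_cancel₀ ha ?_
    simp only [Matrix.cons_val]
    linear_combination w0 * hq.h4 - w1 * hq.h3 - (-(P 11)) * h2 - (-(P 4)) * h3 - (-(P 5)) * h4
  · refine mul_left_cancel₀ ha ?_
    simp only [Matrix.cons_val]
    linear_combination w3 * hq.h8 - w4 * hq.h7 - (-(P 9)) * h0 - (-(P 7)) * h1 - (-(P 6)) * h2
  · refine mul_left_cancel₀ ha ?_
    simp only [Matrix.cons_val]
    linear_combination w1 * hq.h7 - w3 * hq.h4 - (-(P 4)) * h0 - (-(P 3)) * h2 - (-(P 7)) * h4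
  · refine mul_left_cancel₀ ha ?_
    simp only [Matrix.cons_val]
    linear_combination -1 * w0 * hq.h8 + w4 * hq.h3 - (-(P 5)) * h1 - (-(P 2)) * h2 - (-(P 9)) * h3
  · refine mul_left_cancel₀ ha ?_
    simp only [Matrix.cons_val]
    linear_combination -1 * (-(P 10)) * h2
  · refine mul_left_cancel₀ ha ?_
    simp only [Matrix.cons_val]
    linear_combination -1 * w0 * hq.h1 + w1 * hq.h2 + w2 * hq.h6 + w3 * hq.h10 - w4 * hq.h9 - (-(P 10)) * h0 - (-(P 8)) * h1 - (-(P 7)) * h2 - (P 0) * h3 - (P 1) * h4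
  · refine mul_left_cancel₀ ha ?_
    simp only [Matrix.cons_val]
    linear_combination w1 * hq.h8 - w4 * hq.h4 - (-(P 5)) * h0 - (-(P 4)) * h2 - (P 7) * h3
  · refine mul_left_cancel₀ ha ?_
    simp only [Matrix.cons_val]
    linear_combination -1 * w0 * hq.h7 + w3 * hq.h3 - (-(P 4)) * h1 - (-(P 1)) * h2 - (P 9) * h4
  · refine mul_left_cancel₀ ha ?_
    simp only [Matrix.cons_val]
    linear_combination -1 * (-(P 10)) * h3
  · refine mul_left_cancel₀ ha ?_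
    simp only [Matrix.cons_val]
    linear_combination w2 * hq.h7 - w3 * hq.h5 - (-(P 1)) * h0 - (P 3) * h1 - (-(P 6)) * h4
  · refine mul_left_cancel₀ ha ?_
    simp only [Matrix.cons_val]
    linear_combination -1 * (P 10) * h1
  · refine mul_left_cancel₀ ha ?_
    simp only [Matrix.cons_val]
    linear_combination w1 * hq.h5 - w2 * hq.h4 - (-(P 11)) * h0 - (P 3) * h3 - (P 4) * h4
  · refine mul_left_cancel₀ ha ?_
    simp only [Matrix.cons_val]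
    linear_combination w0 * hq.h5 - w2 * hq.h3 - (P 11) * h1 - (-(P 1)) * h3 - (-(P 2)) * h4
  · refine mul_left_cancel₀ ha ?_
    simp only [Matrix.cons_val]
    linear_combination -1 * (-(P 10)) * h0
  · refine mul_left_cancel₀ ha ?_
    simp only [Matrix.cons_val]
    linear_combination -1 * (P 10) * h4
  · refine mul_left_cancel₀ ha ?_
    simp only [Matrix.cons_val]
    linear_combination w2 * hq.h8 - w4 * hq.h5 - (-(P 2)) * h0 - (P 4) * h1 - (P 6) * h3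
  · refine mul_left_cancel₀ ha ?_
    simp only [FF, Matrix.cons_val]
    linear_combination -1 * w0 * h0 - w1 * h1 - w2 * h2 - w3 * h3 - w4 * h4

/-- the skew matrix of the neighbours of the coordinate `s3`; the rows are `x[3, 4, 5, 9, 10]` -/
def B_s3 (P : Sp) : Fin 5 → Fin 5 → ℤ :=
  ![![0, -(P 7), P 8, P 4, -(P 3)],
    ![P 7, 0, -(P 10), P 2, -(P 1)],
    ![-(P 8), P 10, 0, -(P 5), P 4],
    ![-(P 4), -(P 2), P 5, 0, P 10],
    ![P 3, P 1, -(P 4), -(P 10), 0]]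

theorem e_s3 {P : Sp} (hq : Qd P) (ha : P 11 ≠ 0) {w0 w1 w2 w3 w4 z0 z1 z2 z3 z4 : ℤ}
    (h0 : -(P 3 * w4) + P 4 * w3 - P 7 * w1 + P 8 * w2 = P 11 * z0)
    (h1 : -(P 1 * w4) + P 2 * w3 + P 7 * w0 - P 10 * w2 = P 11 * z1)
    (h2 : P 4 * w4 - P 5 * w3 - P 8 * w0 + P 10 * w1 = P 11 * z2)
    (h3 : -(P 2 * w1) - P 4 * w0 + P 5 * w2 + P 10 * w4 = P 11 * z3)
    (h4 : P 1 * w1 + P 3 * w0 - P 4 * w2 - P 10 * w3 = P 11 * z4)
    : InE P ![z0, (-z1), w0, w1, w2, (-z2), (-z4), z3, w3, w4] ∧ FF ![z0, (-z1), w0, w1, w2, (-z2), (-z4), z3, w3, w4] = 0 := by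
  refine ⟨⟨?_, ?_, ?_, ?_, ?_, ?_, ?_, ?_, ?_, ?_, ?_, ?_, ?_, ?_, ?_, ?_⟩, ?_⟩
  · refine mul_left_cancel₀ ha ?_
    simp only [Matrix.cons_val]
    linear_combination -1 * (-(P 11)) * h2
  · refine mul_left_cancel₀ ha ?_
    simp only [Matrix.cons_val]
    linear_combination w0 * hq.h1 - w1 * hq.h2 - w2 * hq.h6 + w3 * hq.h8 - w4 * hq.h7 - (-(P 9)) * h0 - (-(P 7)) * h1 - (-(P 6)) * h2 - (-(P 0)) * h3 - (-(P 1)) * h4
  · refine mul_left_cancel₀ ha ?_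
    simp only [Matrix.cons_val]
    linear_combination w1 * hq.h9 - w3 * hq.h4 - (-(P 4)) * h0 - (-(P 3)) * h2 - (-(P 8)) * h4
  · refine mul_left_cancel₀ ha ?_
    simp only [Matrix.cons_val]
    linear_combination -1 * w0 * hq.h10 + w4 * hq.h3 - (-(P 5)) * h1 - (-(P 2)) * h2 - (-(P 10)) * h3
  · refine mul_left_cancel₀ ha ?_
    simp only [Matrix.cons_val]
    linear_combination -1 * w0 * hq.h4 + w1 * hq.h3 - (-(P 10)) * h2 - (P 4) * h3 - (P 5) * h4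
  · refine mul_left_cancel₀ ha ?_
    simp only [Matrix.cons_val]
    linear_combination w3 * hq.h10 - w4 * hq.h9 - (-(P 10)) * h0 - (-(P 8)) * h1 - (-(P 7)) * h2
  · refine mul_left_cancel₀ ha ?_
    simp only [Matrix.cons_val]
    linear_combination w1 * hq.h10 - w4 * hq.h4 - (-(P 5)) * h0 - (-(P 4)) * h2 - (P 8) * h3
  · refine mul_left_cancel₀ ha ?_
    simp only [Matrix.cons_val]
    linear_combination -1 * w0 * hq.h9 + w3 * hq.h3 - (-(P 4)) * h1 - (-(P 1)) * h2 - (P 10) * h4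
  · refine mul_left_cancel₀ ha ?_
    simp only [Matrix.cons_val]
    linear_combination -1 * (-(P 11)) * h3
  · refine mul_left_cancel₀ ha ?_
    simp only [Matrix.cons_val]
    linear_combination w2 * hq.h9 - w3 * hq.h5 - (-(P 1)) * h0 - (P 3) * h1 - (-(P 7)) * h4
  · refine mul_left_cancel₀ ha ?_
    simp only [Matrix.cons_val]
    linear_combination -1 * w0 * hq.h5 + w2 * hq.h3 - (P 10) * h1 - (P 1) * h3 - (P 2) * h4
  · refine mul_left_cancel₀ ha ?_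
    simp only [Matrix.cons_val]
    linear_combination -1 * (-(P 11)) * h0
  · refine mul_left_cancel₀ ha ?_
    simp only [Matrix.cons_val]
    linear_combination -1 * (P 11) * h1
  · refine mul_left_cancel₀ ha ?_
    simp only [Matrix.cons_val]
    linear_combination -1 * w1 * hq.h5 + w2 * hq.h4 - (-(P 10)) * h0 - (-(P 3)) * h3 - (-(P 4)) * h4
  · refine mul_left_cancel₀ ha ?_
    simp only [Matrix.cons_val]
    linear_combination -1 * (P 11) * h4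
  · refine mul_left_cancel₀ ha ?_
    simp only [Matrix.cons_val]
    linear_combination w2 * hq.h10 - w4 * hq.h5 - (-(P 2)) * h0 - (P 4) * h1 - (P 7) * h3
  · refine mul_left_cancel₀ ha ?_
    simp only [FF, Matrix.cons_val]
    linear_combination -1 * w0 * h0 - w1 * h1 - w2 * h2 - w3 * h3 - w4 * h4

end Pool.Agent.PP5
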