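import Pool.Agent.PP5.LSq

namespace Pool.Agent.PP5L

open Matrix

theorem dot_smul_left (c : ℤ) (s t : Fin 16 → ℤ) : dot (c • s) t = c * dot s t := by
  simp only [dot, Pi.smul_apply, smul_eq_mul, Finset.mul_sum, mul_assoc]

theorem dot_sum_left {ι : Type*} (S : Finset ι) (c : ι → ℤ) (v : ι → Fin 16 → ℤ) (t : Fin 16 → ℤ) :
    dot (∑ i ∈ S, c i • v i) t = ∑ i ∈ S, c i * dot (v i) t := by
  have h := map_sum (dotl.flip t : (Fin 16 → ℤ) →ₗ[ℤ] ℤ) (fun i => c i • v i) S
  simp only [LinearMap.flip_apply, dotl_apply, dot_smul_left] at h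
  exact h

theorem bx_sum_left {ι : Type*} (x' : Fin 10 → ℤ) (S : Finset ι) (c : ι → ℤ) (v : ι → Fin 16 → ℤ)
    (t : Fin 16 → ℤ) : bx x' (∑ i ∈ S, c i • v i) t = ∑ i ∈ S, c i * bx x' (v i) t := by
  have h := map_sum ((bxl x').flip t : (Fin 16 → ℤ) →ₗ[ℤ] ℤ) (fun i => c i • v i) S
  simp only [LinearMap.flip_apply, bxl_apply, bx_smul_left] at h
  exact h

/-- projection of `det S * HP x s` to `L_x` -/
theorem proj_mem {x : Fin 10 → ℤ} (hF : FF x = 0) (s : Fin 16 → ℤ) :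
    ∃ c : Fin 4 → ℤ, (SS x).det • HP x s - ∑ k, c k • HP x (rho k) ∈ Lx x := by
  set w : Fin 4 → ℤ := fun i => dot (HP x s) (rho i) with hw
  refine ⟨(SS x).adjugate.mulVec w, ?_⟩
  rw [mem_Lx]
  constructor
  · rw [← mem_Kx]
    exact Submodule.sub_mem _ (Submodule.smul_mem _ _ (HP_mem_Kx hF s))
      (Submodule.sum_mem _ fun k _ => Submodule.smul_mem _ _ (HP_mem_Kx hF _))
  · intro i
    have e1 : dot ((SS x).det • HP x s - ∑ k, (SS x).adjugate.mulVec w k • HP x (rho k)) (rho i) =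
        (SS x).det * dot (HP x s) (rho i) - ∑ k, (SS x).adjugate.mulVec w k * dot (HP x (rho k)) (rho i) := by
      rw [← dot_sum_left]
      simp [dot, sub_mul, Finset.sum_sub_distrib, Finset.mul_sum, mul_assoc]
    rw [e1]
    have e2 : ∑ k, (SS x).adjugate.mulVec w k * dot (HP x (rho k)) (rho i) =
        ((SS x).adjugate.mulVec w ᵥ* SS x) i := by
      simp only [Matrix.vecMul, dotProduct, SS_eq]
    have hsymm : (SS x)ᵀ = SS x := by
      ext a b; fin_cases a <;> fin_cases b <;> simp [SS]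
    have e3 : ((SS x).adjugate.mulVec w ᵥ* SS x) = (SS x).det • w := by
      have : ((SS x).adjugate.mulVec w ᵥ* SS x) = (SS x)ᵀ.mulVec ((SS x).adjugate.mulVec w) := by
        rw [Matrix.mulVec_transpose]
      rw [this, hsymm, Matrix.mulVec_mulVec, Matrix.mul_adjugate, Matrix.smul_mulVec,
        Matrix.one_mulVec]
    rw [e2, e3]
    simp [hw]

/-- (L3) a prime dividing the Gram determinant of a basis of `L_x` divides `det S(x)` -/
theorem prime_dvd_det {x x' : Fin 10 → ℤ} (hF : FF x = 0) (h1 : bF x x' = 1)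
    (b : Module.Basis (Fin 4) ℤ (Lx x)) (G : Matrix (Fin 4) (Fin 4) ℤ)
    (hG : ∀ i j, G i j = bx x' (b i) (b j)) (l : ℕ) (hl : l.Prime) (hd : (l : ℤ) ∣ G.det) :
    (l : ℤ) ∣ (SS x).det := by
  by_contra hnd
  have : Fact l.Prime := ⟨hl⟩
  have hlZ : Prime (l : ℤ) := Nat.prime_iff_prime_int.1 hl
  -- a kernel vector modulo l
  have hdet0 : (G.map (Int.castRingHom (ZMod l))).det = 0 := by
    have : (G.map (Int.castRingHom (ZMod l))).det = Int.castRingHom (ZMod l) G.det := by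
      rw [RingHom.map_det]; rfl
    rw [this]
    exact (ZMod.intCast_zmod_eq_zero_iff_dvd _ _).2 hd
  obtain ⟨v, hv0, hv⟩ := Matrix.exists_mulVec_eq_zero_iff.2 hdet0
  set n : Fin 4 → ℤ := fun i => ((v i).val : ℤ) with hn
  have hnv : ∀ i, ((n i : ℤ) : ZMod l) = v i := by
    intro i; simp [hn]
  have hGn : ∀ j, (l : ℤ) ∣ ∑ i, n i * G i j := by
    intro j
    rw [← ZMod.intCast_zmod_eq_zero_iff_dvd]
    have := congrFun hv j
    simp only [Matrix.mulVec, dotProduct, Matrix.map_apply, Pi.zero_apply, Int.coe_castRingHom] at this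
    push_cast
    rw [← this]
    refine Finset.sum_congr rfl (fun i _ => ?_)
    rw [hnv, hG i j, hG j i, bx_symm, mul_comm]
  set ψ : Fin 16 → ℤ := ∑ i, n i • (b i : Fin 16 → ℤ) with hψ
  have hψL : ψ ∈ Lx x := Submodule.sum_mem _ fun i _ => Submodule.smul_mem _ _ (b i).2
  -- b_x(ψ, φ) is divisible by l for all φ in L_x
  have hL : ∀ φ ∈ Lx x, (l : ℤ) ∣ bx x' ψ φ := by
    intro φ hφ
    have hrep := b.sum_repr ⟨φ, hφ⟩
    have hrep2 : φ = ∑ j, (b.repr ⟨φ, hφ⟩ j) • (b j : Fin 16 → ℤ) := by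
      have := congrArg (Subtype.val) hrep
      simp only [AddSubmonoidClass.coe_finsetSum, SetLike.val_smul] at this
      exact this.symm
    rw [bx_symm, hrep2, bx_sum_left]
    apply Finset.dvd_sum
    intro j _
    apply Dvd.dvd.mul_left
    rw [bx_symm, hψ, bx_sum_left]
    simp only [← hG]
    exact hGn j
  -- hence dot ψ s divisible by l
  have hall : ∀ s : Fin 16 → ℤ, (l : ℤ) ∣ dot ψ s := by
    intro s
    obtain ⟨c, hc⟩ := proj_mem hF s
    have h2 := hL _ hc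
    have e1 : bx x' ψ ((SS x).det • HP x s - ∑ k, c k • HP x (rho k)) =
        (SS x).det * dot ψ s := by
      rw [bx_symm]
      have : bx x' ((SS x).det • HP x s - ∑ k, c k • HP x (rho k)) ψ =
          (SS x).det * bx x' (HP x s) ψ - ∑ k, c k * bx x' (HP x (rho k)) ψ := by
        rw [← bx_sum_left]
        have := map_sub ((bxl x').flip ψ : (Fin 16 → ℤ) →ₗ[ℤ] ℤ) ((SS x).det • HP x s)
          (∑ k, c k • HP x (rho k))
        simp only [LinearMap.flip_apply, bxl_apply] at this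
        rw [this, bx_smul_left]
      rw [this, bx_HP h1 _ (Lx_le_Kx x hψL), Finset.sum_eq_zero, sub_zero, dot_comm s ψ]
      intro k _
      rw [bx_HP_rho h1 hψL, mul_zero]
    rw [e1] at h2
    exact (hlZ.dvd_or_dvd h2).resolve_left hnd
  have hcoord : ∀ i, (l : ℤ) ∣ ψ i := by
    intro i
    have := hall (Pi.single i 1)
    simpa [dot, Pi.single_apply] using this
  choose ψ' hψ' using hcoord
  have hψeq : ψ = (l : ℤ) • ψ' := by
    funext i; simpa using hψ' i
  have hl0 : (l : ℤ) ≠ 0 := by exact_mod_cast hl.ne_zero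
  have hψ'L : ψ' ∈ Lx x := saturated_Lx hl0 (by rw [← hψeq]; exact hψL)
  have hrepr : ∀ i, n i = (l : ℤ) * b.repr ⟨ψ', hψ'L⟩ i := by
    intro i
    have e1 : (⟨ψ, hψL⟩ : Lx x) = ∑ i, n i • b i := by
      apply Subtype.ext
      simp [hψ]
    have e2 : (⟨ψ, hψL⟩ : Lx x) = (l : ℤ) • ⟨ψ', hψ'L⟩ := by
      apply Subtype.ext
      simp [hψeq]
    have e3 : b.repr (⟨ψ, hψL⟩ : Lx x) i = n i := by
      rw [e1]
      simp [Finsupp.single_apply]
    rw [← e3, e2, map_smul]
    rfl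
  apply hv0
  funext i
  rw [← hnv i, hrepr i]
  simp

end Pool.Agent.PP5L
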