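import Pool.Agent.PP5.LLin

namespace Pool.Agent.PP5L

/-- the kernel lattice `K_x` (rank 8) -/
def Kx (x : Fin 10 → ℤ) : Submodule ℤ (Fin 16 → ℤ) := LinearMap.ker (HHl x)

/-- the lattice `L_x` (rank 4): `K_x` cut by the four conditions `R2 = r2, S2 = s2, P2 = p2, Q2 = q2` -/
def Lx (x : Fin 10 → ℤ) : Submodule ℤ (Fin 16 → ℤ) :=
  Kx x ⊓ ⨅ i : Fin 4, LinearMap.ker (dotl (rho i))

theorem mem_Kx {x : Fin 10 → ℤ} {s : Fin 16 → ℤ} : s ∈ Kx x ↔ HH x s = 0 := by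
  simp [Kx]

theorem mem_Lx {x : Fin 10 → ℤ} {s : Fin 16 → ℤ} :
    s ∈ Lx x ↔ HH x s = 0 ∧ ∀ i, dot s (rho i) = 0 := by
  simp only [Lx, Submodule.mem_inf, mem_Kx, Submodule.mem_iInf, LinearMap.mem_ker, dotl_apply]
  constructor
  · rintro ⟨h1, h2⟩; exact ⟨h1, fun i => by rw [dot_comm]; exact h2 i⟩
  · rintro ⟨h1, h2⟩; exact ⟨h1, fun i => by rw [dot_comm]; exact h2 i⟩

theorem Lx_le_Kx (x : Fin 10 → ℤ) : Lx x ≤ Kx x := inf_le_left

/-- `x` is isotropic -/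
def Iso (x : Fin 10 → ℤ) : Prop := FF x = 0

/-- the integral bilinear form on `K_x` (`x'` with `bF x x' = 1`) -/
def bx (x' : Fin 10 → ℤ) (s t : Fin 16 → ℤ) : ℤ := dot (HH x' s) t

theorem HP_mem_Kx {x : Fin 10 → ℤ} (hF : FF x = 0) (s : Fin 16 → ℤ) : HP x s ∈ Kx x := by
  rw [mem_Kx]; funext i; rw [HH_HP, hF]; simp

theorem Kx_eq_HP {x x' : Fin 10 → ℤ} (h1 : bF x x' = 1) {s : Fin 16 → ℤ} (hs : s ∈ Kx x) :
    HP x (HH x' s) = s := by
  rw [mem_Kx] at hs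
  funext i
  have := HP_HH_pol x x' s i
  rw [hs, h1] at this
  have h0 : HP x' (0 : Fin 16 → ℤ) i = 0 := by
    have := HP_smul x' (0 : ℤ) (0 : Fin 16 → ℤ)
    simp at this
    rw [this]; rfl
  rw [h0] at this
  linarith

theorem Bd_Kx {x x' : Fin 10 → ℤ} (hF : FF x = 0) (h1 : bF x x' = 1) {s t : Fin 16 → ℤ}
    (hs : s ∈ Kx x) (ht : t ∈ Kx x) (j : Fin 10) : Bd s t j = bx x' s t * x j := by
  have e := Bd_HP x (HH x' s) (HH x' t) j
  rw [Kx_eq_HP h1 hs, Kx_eq_HP h1 ht, hF] at e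
  rw [e, bx, dot_HH_symm]; ring

theorem Qd_Kx {x x' : Fin 10 → ℤ} (hF : FF x = 0) (h1 : bF x x' = 1) {s : Fin 16 → ℤ}
    (hs : s ∈ Kx x) (j : Fin 10) : Qd s j = PP x (HH x' s) * x j := by
  have e := Qd_HP x (HH x' s) j
  rw [Kx_eq_HP h1 hs, hF] at e
  rw [e]; ring

theorem bx_symm (x' : Fin 10 → ℤ) (s t : Fin 16 → ℤ) : bx x' s t = bx x' t s := by
  rw [bx, bx, dot_HH_symm, dot_comm]

/-- the form is even -/
theorem bx_self {x x' : Fin 10 → ℤ} (h1 : bF x x' = 1) {s : Fin 16 → ℤ}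
    (hs : s ∈ Kx x) : bx x' s s = 2 * PP x (HH x' s) := by
  rw [← dot_HP_self, Kx_eq_HP h1 hs, bx, dot_comm]

theorem bx_HP {x x' : Fin 10 → ℤ} (h1 : bF x x' = 1) (s : Fin 16 → ℤ) {t : Fin 16 → ℤ}
    (ht : t ∈ Kx x) : bx x' (HP x s) t = dot s t := by
  have e : HH x' (HP x s) = s - HH x (HP x' s) := by
    funext i
    have := HH_HP_pol x x' s i
    rw [h1] at this
    simp only [Pi.sub_apply]; linarith
  have ht' := mem_Kx.1 ht
  rw [bx, e]
  have h2 : dot (s - HH x (HP x' s)) t = dot s t - dot (HH x (HP x' s)) t := by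
    simp [dot, sub_mul, Finset.sum_sub_distrib]
  rw [h2, dot_HH_symm, ht']
  simp [dot]

theorem bx_add_left (x' : Fin 10 → ℤ) (s s' t : Fin 16 → ℤ) :
    bx x' (s + s') t = bx x' s t + bx x' s' t := by
  simp only [bx, HH_add, dot, Pi.add_apply, add_mul, Finset.sum_add_distrib]

theorem bx_smul_left (x' : Fin 10 → ℤ) (c : ℤ) (s t : Fin 16 → ℤ) :
    bx x' (c • s) t = c * bx x' s t := by
  simp only [bx, HH_smul, dot, Pi.smul_apply, smul_eq_mul, Finset.mul_sum, mul_assoc]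

/-- the bilinear form as a linear map -/
def bxl (x' : Fin 10 → ℤ) : (Fin 16 → ℤ) →ₗ[ℤ] (Fin 16 → ℤ) →ₗ[ℤ] ℤ :=
  LinearMap.mk₂ ℤ (bx x') (bx_add_left x') (bx_smul_left x')
    (fun a b c => by rw [bx_symm, bx_add_left, bx_symm x' b, bx_symm x' c])
    (fun c a b => by rw [bx_symm, bx_smul_left, bx_symm x' b]; rfl)

@[simp] theorem bxl_apply (x' : Fin 10 → ℤ) (s t : Fin 16 → ℤ) : bxl x' s t = bx x' s t := rfl

theorem saturated_Kx {x : Fin 10 → ℤ} {c : ℤ} (hc : c ≠ 0) {s : Fin 16 → ℤ}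
    (h : c • s ∈ Kx x) : s ∈ Kx x := by
  rw [mem_Kx] at h ⊢
  rw [HH_smul] at h
  exact (smul_eq_zero.1 h).resolve_left hc

theorem saturated_Lx {x : Fin 10 → ℤ} {c : ℤ} (hc : c ≠ 0) {s : Fin 16 → ℤ}
    (h : c • s ∈ Lx x) : s ∈ Lx x := by
  rw [mem_Lx] at h ⊢
  obtain ⟨h1, h2⟩ := h
  refine ⟨mem_Kx.1 (saturated_Kx hc (mem_Kx.2 h1)), fun i => ?_⟩
  have := h2 i
  have e : dot (c • s) (rho i) = c * dot s (rho i) := by
    simp only [dot, Pi.smul_apply, smul_eq_mul, Finset.mul_sum, mul_assoc]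
  rw [e] at this
  exact (mul_eq_zero.1 this).resolve_left hc

/-- Bezout: a primitive vector has a partner -/
theorem exists_partner {x : Fin 10 → ℤ} (h : ∀ p : ℕ, p.Prime → ∃ j, ¬ (p : ℤ) ∣ x j) :
    ∃ x', bF x x' = 1 := by
  have hI : Ideal.span (Set.range x) = ⊤ := by
    by_contra hne
    obtain ⟨M, hM, hle⟩ := Ideal.exists_le_maximal _ hne
    obtain ⟨g, hg⟩ := (IsPrincipalIdealRing.principal M).principal
    have hMg : M = Ideal.span {g} := hg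
    have hgp : Prime g := by
      have hne0 : g ≠ 0 := by
        rintro rfl
        rw [hMg] at hM
        have : (Ideal.span {(0 : ℤ)}) = ⊥ := by simp
        rw [this] at hM
        have h2 : (⊥ : Ideal ℤ) < Ideal.span {(2 : ℤ)} := by
          rw [bot_lt_iff_ne_bot]; simp
        have h3 : Ideal.span {(2 : ℤ)} = ⊤ := hM.1.2 _ h2
        rw [Ideal.span_singleton_eq_top] at h3
        exact absurd h3 (by decide)
      rw [← Ideal.span_singleton_prime hne0, ← hMg]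
      exact hM.isPrime
    obtain ⟨j, hj⟩ := h g.natAbs (Int.prime_iff_natAbs_prime.1 hgp)
    apply hj
    rw [Int.natAbs_dvd]
    have : x j ∈ M := hle (Ideal.subset_span ⟨j, rfl⟩)
    rwa [hMg, Ideal.mem_span_singleton] at this
  have h1 : (1 : ℤ) ∈ Ideal.span (Set.range x) := by rw [hI]; trivial
  rw [Ideal.mem_span_range_iff_exists_fun] at h1
  obtain ⟨c, hc⟩ := h1
  refine ⟨xhat c, ?_⟩
  have : bF x (xhat c) = ∑ i, c i * x i := by
    simp [bF, xhat, Fin.sum_univ_succ]; ring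
  rw [this, hc]

end Pool.Agent.PP5L
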