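import Pool.Agent.PP5.LDefs

namespace Pool.Agent.PP5L

variable {R : Type*} [CommRing R]

theorem HP_add (x : Fin 10 → R) (s t : Fin 16 → R) : HP x (s + t) = HP x s + HP x t := by
  funext i
  rw [Pi.add_apply]
  fin_cases i <;> (simp only [Fin.zero_eta, Fin.mk_one, Fin.reduceFinMk, HP, Matrix.cons_val]; simp only [Pi.add_apply]; ring)

theorem HP_smul (x : Fin 10 → R) (c : R) (s : Fin 16 → R) : HP x (c • s) = c • HP x s := by
  funext i
  rw [Pi.smul_apply, smul_eq_mul]
  fin_cases i <;> (simp only [Fin.zero_eta, Fin.mk_one, Fin.reduceFinMk, HP, Matrix.cons_val]; simp only [Pi.smul_apply, smul_eq_mul]; ring)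

end Pool.Agent.PP5L
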