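import Pool.Agent.PP5.LDefs

namespace Pool.Agent.PP5L

variable {R : Type*} [CommRing R]

theorem HH_xhat (x : Fin 10 → R) (s : Fin 16 → R) : HP (xhat x) s = HH x s := by
  funext i
  fin_cases i <;> (simp only [Fin.zero_eta, Fin.mk_one, Fin.reduceFinMk, HP, HH, Matrix.cons_val]; simp only [xhat, Matrix.cons_val]; ring)

theorem xhat_xhat (x : Fin 10 → R) : xhat (xhat x) = x := by
  funext i; fin_cases i <;> simp [xhat]

theorem FF_xhat (x : Fin 10 → R) : FF (xhat x) = FF x := by
  simp [FF, xhat]; ring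

theorem bF_xhat (x y : Fin 10 → R) : bF (xhat x) (xhat y) = bF x y := by
  simp [bF, xhat]; ring

theorem bF_symm (x y : Fin 10 → R) : bF x y = bF y x := by
  simp [bF]; ring

theorem dot_HP_self (x : Fin 10 → R) (s : Fin 16 → R) : dot (HP x s) s = 2 * PP x s := by
  simp [dot, HP, PP, Qd, Fin.sum_univ_succ]; ring

end Pool.Agent.PP5L
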