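import Pool.Agent.PP5.LDefs

namespace Pool.Agent.PP5L


/-! ## the ten charts -/

def cu : Fin 10 → Fin 4 → Fin 16 := ![![0, 3, 4, 7], ![0, 2, 4, 6], ![1, 2, 5, 6], ![1, 3, 5, 7], ![0, 2, 4, 6], ![8, 10, 12, 14], ![0, 3, 5, 6], ![0, 2, 5, 7], ![1, 3, 4, 6], ![1, 2, 4, 7]]
def cw : Fin 10 → Fin 4 → Fin 16 := ![![10, 14, 12, 8], ![13, 8, 11, 14], ![11, 15, 13, 9], ![12, 9, 10, 15], ![1, 3, 5, 7], ![9, 11, 13, 15], ![15, 11, 8, 12], ![9, 12, 14, 11], ![8, 13, 15, 10], ![14, 10, 9, 13]]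
def ce : Fin 10 → Fin 4 → ℤ := ![![1, -1, -1, 1], ![1, -1, -1, 1], ![1, -1, -1, 1], ![1, -1, -1, 1], ![1, -1, -1, 1], ![1, 1, -1, -1], ![1, -1, 1, -1], ![1, -1, 1, -1], ![1, -1, 1, -1], ![1, -1, 1, -1]]

theorem Bd_chart (s t : Fin 16 → ℤ) (j : Fin 10) :
    Bd s t j = ∑ a, ce j a * (s (cu j a) * t (cw j a) + s (cw j a) * t (cu j a)) := by
  fin_cases j <;> simp [Bd, cu, cw, ce, Fin.sum_univ_succ] <;> ring

theorem ce_sq (j : Fin 10) (a : Fin 4) : ce j a * ce j a = 1 := by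
  revert j a; decide

end Pool.Agent.PP5L
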