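import Pool.Agent.PP5.LIda
import Pool.Agent.PP5.LIdb
import Pool.Agent.PP5.LIdc
import Pool.Agent.PP5.LId2a
import Pool.Agent.PP5.LId2b
import Pool.Agent.PP5.LId2c
import Pool.Agent.PP5.LId2d
import Pool.Agent.PP5.LLina
import Pool.Agent.PP5.LLinb
import Pool.Agent.PP5.LLinc
import Pool.Agent.PP5.LLind

namespace Pool.Agent.PP5L

section lin
variable {R : Type*} [CommRing R]

/-- `HP x` as a linear map -/

def HPl (x : Fin 10 → R) : (Fin 16 → R) →ₗ[R] (Fin 16 → R) where
  toFun := HP x
  map_add' := HP_add x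
  map_smul' := HP_smul x

/-- `HH x` as a linear map -/

def HHl (x : Fin 10 → R) : (Fin 16 → R) →ₗ[R] (Fin 16 → R) where
  toFun := HH x
  map_add' := HH_add x
  map_smul' := HH_smul x

/-- `dot` as a bilinear map -/

def dotl : (Fin 16 → R) →ₗ[R] (Fin 16 → R) →ₗ[R] R :=
  LinearMap.mk₂ R dot
    (fun a b c => by simp [dot, add_mul, Finset.sum_add_distrib])
    (fun a b c => by simp [dot, Finset.mul_sum, mul_assoc])
    (fun a b c => by simp [dot, mul_add, Finset.sum_add_distrib])
    (fun a b c => by simp [dot, Finset.mul_sum, mul_left_comm])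

@[simp] theorem HPl_apply (x : Fin 10 → R) (s : Fin 16 → R) : HPl x s = HP x s := rfl

@[simp] theorem HHl_apply (x : Fin 10 → R) (s : Fin 16 → R) : HHl x s = HH x s := rfl

@[simp] theorem dotl_apply (s t : Fin 16 → R) : dotl s t = dot s t := rfl

theorem dot_comm (s t : Fin 16 → R) : dot s t = dot t s := by
  simp only [dot]; exact Finset.sum_congr rfl (fun i _ => mul_comm _ _)

theorem HP_xhat (x : Fin 10 → R) (s : Fin 16 → R) : HH (xhat x) s = HP x s := by
  rw [← HH_xhat, xhat_xhat]

end lin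


end Pool.Agent.PP5L
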