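import Pool.Agent.PP5.LRank

namespace Pool.Agent.PP5L

open Matrix Module

/-- Summary of section (a2): for a primitive isotropic `x` with `det S(x) ≠ 0` the lattice `L_x` has a basis;
for every basis `b` there is an integral even symmetric Gram matrix `G` with `B_j(b_i, b_k) = G i k * x_j`,
`det G * det S(x)` is a nonzero square and every prime divisor of `det G` divides `det S(x)`. -/
theorem Lx_summary {x : Fin 10 → ℤ} (hF : FF x = 0)
    (hp : ∀ p : ℕ, p.Prime → ∃ j, ¬ (p : ℤ) ∣ x j) (hD : (SS x).det ≠ 0) :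
    Nonempty (Basis (Fin 4) ℤ (Lx x)) ∧
    ∀ b : Basis (Fin 4) ℤ (Lx x), ∃ G : Matrix (Fin 4) (Fin 4) ℤ,
      (∀ i k, G i k = G k i) ∧ (∀ i, (2 : ℤ) ∣ G i i) ∧
      (∀ i k j, Bd (b i : Fin 16 → ℤ) (b k) j = G i k * x j) ∧
      (∃ m : ℤ, m ≠ 0 ∧ G.det * (SS x).det = m ^ 2) ∧
      (∀ l : ℕ, l.Prime → (l : ℤ) ∣ G.det → (l : ℤ) ∣ (SS x).det) := by
  obtain ⟨x', h1⟩ := exists_partner hp
  refine ⟨exists_basis_Lx hF h1 hD, fun b => ?_⟩
  set G : Matrix (Fin 4) (Fin 4) ℤ := Matrix.of fun i k => bx x' (b i) (b k) with hG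
  have hGe : ∀ i k, G i k = bx x' (b i) (b k) := fun i k => rfl
  have hl3 := prime_dvd_det hF h1 b G hGe
  refine ⟨G, fun i k => bx_symm _ _ _, fun i => ?_, fun i k j => ?_, ?_, fun l hl hd => hl3 l hl hd⟩
  · rw [hGe, bx_self h1 (Lx_le_Kx x (b i).2)]; exact dvd_mul_right _ _
  · exact Bd_Kx hF h1 (Lx_le_Kx x (b i).2) (Lx_le_Kx x (b k).2) j
  · obtain ⟨m, hm⟩ := det_mul_isSquare hF h1 (fun i => (b i : Fin 16 → ℤ)) (fun i => (b i).2) G hGe
    refine ⟨m, ?_, hm⟩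
    rintro rfl
    have h0 : G.det = 0 := by
      have : G.det * (SS x).det = 0 := by rw [hm]; ring
      exact (mul_eq_zero.1 this).resolve_right hD
    -- then every prime divides `det S(x) ≠ 0`
    have hall : ∀ l : ℕ, l.Prime → (l : ℤ) ∣ (SS x).det := fun l hl => hl3 l hl (by rw [h0]; exact dvd_zero _)
    obtain ⟨p, hpge, hpp⟩ := Nat.exists_infinite_primes ((SS x).det.natAbs + 1)
    have h2 := hall p hpp
    rw [Int.natCast_dvd] at h2
    have h3 := Nat.le_of_dvd (Int.natAbs_pos.2 hD) h2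
    omega

end Pool.Agent.PP5L
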