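import Pool.Agent.PP5.LKx

namespace Pool.Agent.PP5L

open Matrix

theorem exists_coord_ne {x x' : Fin 10 → ℤ} (h1 : bF x x' = 1) : ∃ j, x j ≠ 0 := by
  by_contra h
  push Not at h
  have : bF x x' = 0 := by simp [bF, h]
  omega

theorem bx_HP_rho {x x' : Fin 10 → ℤ} (h1 : bF x x' = 1) {t : Fin 16 → ℤ} (ht : t ∈ Lx x)
    (i : Fin 4) : bx x' (HP x (rho i)) t = 0 := by
  rw [bx_HP h1 _ (Lx_le_Kx x ht), dot_comm]
  exact (mem_Lx.1 ht).2 i

/-- the chart determinant identity: for 8 vectors of `K_x`, `x_j^8 det Gram = (det of the chart coordinates)^2` -/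
theorem chart_det {x x' : Fin 10 → ℤ} (hF : FF x = 0) (h1 : bF x x' = 1)
    (e : Fin 4 ⊕ Fin 4 → Fin 16 → ℤ) (he : ∀ a, e a ∈ Kx x) (j : Fin 10) :
    (x j) ^ 8 * (Matrix.of fun a c => bx x' (e a) (e c)).det =
      ((Matrix.of fun a c => e c (Sum.elim (cu j) (cw j) a)).det) ^ 2 := by
  set Gr : Matrix (Fin 4 ⊕ Fin 4) (Fin 4 ⊕ Fin 4) ℤ := Matrix.of fun a c => bx x' (e a) (e c) with hGr
  set M : Matrix (Fin 4 ⊕ Fin 4) (Fin 4 ⊕ Fin 4) ℤ :=
    Matrix.of fun a c => e c (Sum.elim (cu j) (cw j) a) with hM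
  set Dg : Matrix (Fin 4 ⊕ Fin 4) (Fin 4 ⊕ Fin 4) ℤ :=
    Matrix.diagonal (Sum.elim (ce j) (ce j)) with hDg
  have hprod : (x j) • Gr = Mᵀ * (Dg * (M.submatrix (Equiv.sumComm (Fin 4) (Fin 4)) id)) := by
    ext a c
    have hb := Bd_Kx hF h1 (he a) (he c) j
    rw [Bd_chart] at hb
    rw [Matrix.mul_apply, hDg]
    simp only [hGr, hM, Matrix.smul_apply, Matrix.of_apply, smul_eq_mul,
      Matrix.transpose_apply, Matrix.diagonal_mul, Fintype.sum_sum_type, Sum.elim_inl, Sum.elim_inr,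
      Matrix.submatrix_apply, Equiv.sumComm_apply, Sum.swap_inl, Sum.swap_inr, id]
    rw [mul_comm, ← hb, ← Finset.sum_add_distrib]
    exact Finset.sum_congr rfl (fun i _ => by ring)
  have hdetD : Dg.det = 1 := by
    rw [hDg, Matrix.det_diagonal, Fintype.prod_sum_type]
    simp only [Sum.elim_inl, Sum.elim_inr]
    rw [← Finset.prod_mul_distrib]
    exact Finset.prod_eq_one (fun i _ => ce_sq j i)
  have hperm : (M.submatrix (Equiv.sumComm (Fin 4) (Fin 4)) id).det = M.det := by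
    have := Matrix.det_permute (Equiv.sumComm (Fin 4) (Fin 4)) M
    have hs : Equiv.Perm.sign (Equiv.sumComm (Fin 4) (Fin 4)) = 1 := by decide
    rw [hs] at this
    simpa using this
  have hd := congrArg Matrix.det hprod
  rw [Matrix.det_smul, Matrix.det_mul, Matrix.det_mul, Matrix.det_transpose, hdetD, hperm] at hd
  have hc : Fintype.card (Fin 4 ⊕ Fin 4) = 8 := by simp
  rw [hc] at hd
  rw [hd]; ring

/-- (L2) `det G * det S(x)` is a square -/
theorem det_mul_isSquare {x x' : Fin 10 → ℤ} (hF : FF x = 0) (h1 : bF x x' = 1)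
    (b : Fin 4 → Fin 16 → ℤ) (hb : ∀ i, b i ∈ Lx x) (G : Matrix (Fin 4) (Fin 4) ℤ)
    (hG : ∀ i j, G i j = bx x' (b i) (b j)) : ∃ k : ℤ, G.det * (SS x).det = k ^ 2 := by
  obtain ⟨j, hj⟩ := exists_coord_ne h1
  set e : Fin 4 ⊕ Fin 4 → Fin 16 → ℤ := Sum.elim b (fun i => HP x (rho i)) with he
  have hmem : ∀ a, e a ∈ Kx x := by
    rintro (a | a)
    · exact Lx_le_Kx x (hb a)
    · exact HP_mem_Kx hF _
  have hGr : (Matrix.of fun a c => bx x' (e a) (e c)) = Matrix.fromBlocks G 0 0 (SS x) := by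
    ext a c
    rcases a with a | a <;> rcases c with c | c
    · simp [he, hG]
    · simp only [he, Matrix.of_apply, Sum.elim_inl, Sum.elim_inr, Matrix.fromBlocks_apply₁₂,
        Matrix.zero_apply]
      rw [bx_symm]; exact bx_HP_rho h1 (hb a) c
    · simp only [he, Matrix.of_apply, Sum.elim_inl, Sum.elim_inr, Matrix.fromBlocks_apply₂₁,
        Matrix.zero_apply]
      exact bx_HP_rho h1 (hb c) a
    · simp only [he, Matrix.of_apply, Sum.elim_inr, Matrix.fromBlocks_apply₂₂]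
      rw [bx_HP h1 _ (HP_mem_Kx hF _), ← SS_eq, dot_HP_symm]
  have hc := chart_det hF h1 e hmem j
  rw [hGr, Matrix.det_fromBlocks_zero₂₁] at hc
  set m := (Matrix.of fun a c => e c (Sum.elim (cu j) (cw j) a)).det with hm
  have hdiv : ((x j) ^ 4) ^ 2 ∣ m ^ 2 := by
    rw [← hc, ← pow_mul]; exact Dvd.intro _ rfl
  have hdiv2 : (x j) ^ 4 ∣ m := (Int.pow_dvd_pow_iff two_ne_zero).1 hdiv
  obtain ⟨k, hk⟩ := hdiv2
  refine ⟨k, ?_⟩
  have hx8 : (x j) ^ 8 ≠ 0 := pow_ne_zero _ hj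
  apply mul_left_cancel₀ hx8
  rw [hc, hk]; ring

end Pool.Agent.PP5L
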