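import Pool.Agent.PP5.LRank

/-!
# (L5') content of `adj G` divides the content of `adj S(x)`

`K_x` is unimodular; complete a basis of `L_x` to a basis of `K_x`.
-/

namespace Pool.Agent.PP5L

open Matrix Module

/-- abstract linear algebra: `U` integral symmetric block matrix of determinant one with inverse `V` -/
theorem adj_block {ι : Type*} [Fintype ι] [DecidableEq ι] {κ : Type*} [Fintype κ] [DecidableEq κ]
    (G : Matrix ι ι ℤ) (B : Matrix ι κ ℤ) (B' : Matrix κ ι ℤ) (E : Matrix κ κ ℤ)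
    (X : Matrix ι ι ℤ) (Y : Matrix ι κ ℤ) (Y' : Matrix κ ι ℤ) (W : Matrix κ κ ℤ)
    (h : Matrix.fromBlocks G B B' E * Matrix.fromBlocks X Y Y' W = 1)
    (h' : Matrix.fromBlocks X Y Y' W * Matrix.fromBlocks G B B' E = 1)
    (hU : (Matrix.fromBlocks G B B' E).det = 1) (hG : G.det ≠ 0) :
    W.adjugate = G.det • E - B' * G.adjugate * B := by
  rw [Matrix.fromBlocks_multiply, ← Matrix.fromBlocks_one, Matrix.fromBlocks_inj] at h h'
  obtain ⟨h11, h12, h21, h22⟩ := h
  obtain ⟨k11, k12, k21, k22⟩ := h'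
  -- det W = det G
  have hdet : W.det = G.det := by
    have e1 : Matrix.fromBlocks G B B' E * Matrix.fromBlocks 1 Y 0 W =
        Matrix.fromBlocks G 0 B' 1 := by
      rw [Matrix.fromBlocks_multiply, Matrix.fromBlocks_inj]
      refine ⟨by simp, h12, by simp, h22⟩
    have e2 := congrArg Matrix.det e1
    rw [Matrix.det_mul, hU, Matrix.det_fromBlocks_zero₂₁, Matrix.det_fromBlocks_zero₁₂,
      Matrix.det_one, Matrix.det_one] at e2
    simpa using e2
  have hWX : W * (G.det • E - B' * G.adjugate * B) = G.det • (1 : Matrix κ κ ℤ) := by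
    have a1 : W * B' = -(Y' * G) := by
      rw [eq_neg_iff_add_eq_zero, add_comm]; exact k21
    have a2 : W * E = 1 - Y' * B := by
      rw [eq_sub_iff_add_eq, add_comm]; exact k22
    rw [Matrix.mul_sub, Matrix.mul_smul, a2, ← Matrix.mul_assoc, ← Matrix.mul_assoc, a1,
      Matrix.neg_mul, Matrix.mul_assoc Y' G, Matrix.mul_adjugate, Matrix.mul_smul, Matrix.mul_one,
      Matrix.neg_mul, Matrix.smul_mul, smul_sub]
    abel
  have hWW : W * W.adjugate = G.det • (1 : Matrix κ κ ℤ) := by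
    rw [Matrix.mul_adjugate, hdet]
  have hz : W * (W.adjugate - (G.det • E - B' * G.adjugate * B)) = 0 := by
    rw [Matrix.mul_sub, hWW, hWX, sub_self]
  have hz2 := congrArg (fun M => W.adjugate * M) hz
  simp only [← Matrix.mul_assoc, Matrix.adjugate_mul, Matrix.smul_mul, Matrix.one_mul,
    Matrix.mul_zero] at hz2
  have hz3 := (smul_eq_zero.1 hz2).resolve_left (by rw [hdet]; exact hG)
  exact sub_eq_zero.1 hz3


/-- the explicit retraction onto `K_x` -/
def retr {x : Fin 10 → ℤ} (hF : FF x = 0) (x' : Fin 10 → ℤ) : (Fin 16 → ℤ) →ₗ[ℤ] Kx x :=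
  LinearMap.codRestrict (Kx x) ((HPl x).comp (HHl x')) (fun s => HP_mem_Kx hF _)

theorem retr_apply {x x' : Fin 10 → ℤ} (hF : FF x = 0) (h1 : bF x x' = 1) (t : Kx x) :
    retr hF x' t = t := by
  apply Subtype.ext
  exact Kx_eq_HP h1 t.2

/-- every functional on `K_x` is `b_x(φ, ·)` -/
theorem functional_Kx {x x' : Fin 10 → ℤ} (hF : FF x = 0) (h1 : bF x x' = 1)
    (f : Kx x →ₗ[ℤ] ℤ) : ∃ φ ∈ Kx x, ∀ t : Kx x, bx x' φ t = f t := by
  set s : Fin 16 → ℤ := fun i => f (retr hF x' (Pi.single i 1)) with hs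
  refine ⟨HP x s, HP_mem_Kx hF s, fun t => ?_⟩
  rw [bx_HP h1 _ t.2]
  have h2 := LinearMap.pi_apply_eq_sum_univ (f.comp (retr hF x')) (t : Fin 16 → ℤ)
  simp only [LinearMap.comp_apply, retr_apply hF h1, smul_eq_mul] at h2
  rw [h2]
  simp only [dot, hs]
  refine Finset.sum_congr rfl (fun i _ => ?_)
  rw [mul_comm]
  congr 3
  funext j
  simp [Pi.single_apply, eq_comm]

theorem bx_nondeg {x x' : Fin 10 → ℤ} (hF : FF x = 0) (h1 : bF x x' = 1) {s : Fin 16 → ℤ}
    (hs : s ∈ Kx x) (h : ∀ t ∈ Kx x, bx x' s t = 0) : s = 0 := by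
  funext i
  have h2 := h _ (HP_mem_Kx hF (Pi.single i 1))
  rw [bx_symm, bx_HP h1 _ hs] at h2
  simpa [dot, Pi.single_apply] using h2

end Pool.Agent.PP5L
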