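import Pool.Agent.PP5.LDefs

namespace Pool.Agent.PP5L

/-- shift in the coordinates `2, 3, 9` -/
def sh (x : Fin 10 → ℤ) (v : Fin 3 → ℤ) (t : ℤ) : Fin 10 → ℤ :=
  ![x 0, x 1, x 2 + t * v 0, x 3 + t * v 1, x 4, x 5, x 6, x 7, x 8, x 9 + t * v 2]

/-- explicit determinant -/
theorem det_SS (x : Fin 10 → ℤ) : (SS x).det =
    16 * x 0 * x 1 * x 2 * x 3 + 4 * x 0 * x 1 * x 9 ^ 2 + 4 * x 2 * x 3 * x 6 ^ 2
      - 4 * x 0 * x 2 * (x 4 - x 5) ^ 2 - 4 * x 1 * x 3 * (x 4 + x 5) ^ 2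
      + 4 * x 0 * x 3 * x 7 ^ 2 + 4 * x 1 * x 2 * x 8 ^ 2
      + ((x 4 + x 5) * (x 4 - x 5)) ^ 2 + (x 6 * x 9) ^ 2 + (x 7 * x 8) ^ 2
      - 4 * x 0 * x 7 * x 9 * (x 4 - x 5) - 4 * x 2 * x 6 * x 8 * (x 4 - x 5)
      - 4 * x 3 * x 6 * x 7 * (x 4 + x 5) - 4 * x 1 * x 8 * x 9 * (x 4 + x 5)
      + 2 * (x 4 + x 5) * (x 4 - x 5) * x 6 * x 9 + 2 * (x 4 + x 5) * (x 4 - x 5) * x 7 * x 8
      - 2 * x 6 * x 7 * x 8 * x 9 := by
  rw [Matrix.det_succ_row_zero]
  simp [SS, Fin.sum_univ_succ, Matrix.det_fin_three, Fin.succAbove, Matrix.submatrix]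
  ring


/-- leading coefficient along `v` -/
def lead (x : Fin 10 → ℤ) (v : Fin 3 → ℤ) : ℤ :=
  (4 * v 0 * v 1 + v 2 ^ 2) * (4 * x 0 * x 1 + x 6 ^ 2)

/-- linear coefficient along `v` -/
def linc (x : Fin 10 → ℤ) (v : Fin 3 → ℤ) : ℤ :=
  (SS (sh x v 1)).det - (SS x).det - lead x v

theorem det_sh (x : Fin 10 → ℤ) (v : Fin 3 → ℤ) (t : ℤ) :
    (SS (sh x v t)).det = lead x v * t ^ 2 + linc x v * t + (SS x).det := by
  simp only [linc, det_SS, lead, sh]
  simp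
  ring

theorem FF_sh (x : Fin 10 → ℤ) (v : Fin 3 → ℤ) (t : ℤ)
    (hv : x 0 * v 0 - x 1 * v 1 - x 6 * v 2 = 0) : FF (sh x v t) = FF x := by
  simp only [FF, sh]
  simp
  linear_combination t * hv

theorem det_bound {x : Fin 10 → ℤ} {N : ℤ} (h : ∀ j, |x j| ≤ N) :
    |(SS x).det| ≤ 24 * (2 * N) ^ 4 := by
  have hN : 0 ≤ N := (abs_nonneg _).trans (h 0)
  have h2 : ∀ i j, |SS x i j| ≤ 2 * N := by
    have a1 : ∀ j k, |x j + x k| ≤ 2 * N := fun j k => by
      have := abs_add_le (x j) (x k); have := h j; have := h k; omega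
    have a2 : ∀ j k, |x j - x k| ≤ 2 * N := fun j k => by
      have := abs_sub (x j) (x k); have := h j; have := h k; omega
    have a3 : ∀ j, |2 * x j| ≤ 2 * N := fun j => by
      rw [abs_mul, abs_two]; have := h j; omega
    have a4 : ∀ j, |x j| ≤ 2 * N := fun j => by have := h j; omega
    intro i j
    fin_cases i <;> fin_cases j <;> simp [SS, abs_neg] <;>
      first
        | exact a4 _
        | (rw [show -(x 5) + -(x 4) = -(x 4 + x 5) by ring, abs_neg]; exact a1 _ _)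
        | (have := a3 0; rw [abs_mul, abs_two] at this; omega)
        | (have := a3 1; rw [abs_mul, abs_two] at this; omega)
        | (have := a3 2; rw [abs_mul, abs_two] at this; omega)
        | (have := a3 3; rw [abs_mul, abs_two] at this; omega)
        | exact a2 _ _
  have h3 := Matrix.det_le (A := SS x) (abv := AbsoluteValue.abs) (x := 2 * N)
    (fun i j => by simpa using h2 i j)
  simpa [Nat.factorial] using h3

end Pool.Agent.PP5L
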