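import Pool.Agent.FTA.DivB

namespace Pool.Agent.PP5L

/-- the integer box -/
noncomputable def bxN (N : ℕ) : Finset ℤ := Finset.Icc (-(N : ℤ)) N

theorem mem_bxN {N : ℕ} {a : ℤ} : a ∈ bxN N ↔ |a| ≤ N := by
  rw [bxN, Finset.mem_Icc, abs_le]

theorem card_bxN (N : ℕ) : (bxN N).card = 2 * N + 1 := by
  rw [bxN, Int.card_Icc]; omega

/-- crude count of `a b = k` in a box -/
theorem prod_crude (N : ℕ) (k : ℤ) (S : Finset (ℤ × ℤ))
    (hS : ∀ p ∈ S, p.1 * p.2 = k ∧ |p.1| ≤ N ∧ |p.2| ≤ N) : S.card ≤ 4 * N + 2 := by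
  have h1 : (S.filter (fun p => p.1 = 0)).card ≤ 2 * N + 1 := by
    rw [← card_bxN]
    apply Finset.card_le_card_of_injOn (fun p => p.2)
    · intro p hp
      have hp' := Finset.mem_filter.1 hp
      exact mem_bxN.2 (hS p hp'.1).2.2
    · intro p hp q hq h
      have hp' := Finset.mem_filter.1 hp
      have hq' := Finset.mem_filter.1 hq
      exact Prod.ext (by rw [hp'.2, hq'.2]) h
  have h2 : (S.filter (fun p => ¬ p.1 = 0)).card ≤ 2 * N + 1 := by
    rw [← card_bxN]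
    apply Finset.card_le_card_of_injOn (fun p => p.1)
    · intro p hp
      have hp' := Finset.mem_filter.1 hp
      exact mem_bxN.2 (hS p hp'.1).2.1
    · intro p hp q hq h
      have hp' := Finset.mem_filter.1 hp
      have hq' := Finset.mem_filter.1 hq
      have e1 := (hS p hp'.1).1
      have e2 := (hS q hq'.1).1
      simp only at h
      rw [h] at e1
      exact Prod.ext h (mul_left_cancel₀ hq'.2 (by rw [e1, e2]))
  have h3 := Finset.card_filter_add_card_filter_not (s := S) (fun p => p.1 = 0)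
  omega

/-- divisor count of `a b = m` -/
theorem prod_div {ε : ℝ} (hε : 0 < ε) : ∃ C : ℝ, 0 < C ∧ ∀ (m : ℤ) (S : Finset (ℤ × ℤ)), m ≠ 0 →
    (∀ p ∈ S, p.1 * p.2 = m) → (S.card : ℝ) ≤ C * |(m : ℝ)| ^ ε := by
  obtain ⟨c, hc, hdiv⟩ := FTA.divisor_bound hε
  refine ⟨2 * c, by positivity, fun m S hm hS => ?_⟩
  have hinj : Set.InjOn (fun p : ℤ × ℤ => p.1) S := by
    intro p hp q hq h
    have e1 := hS p hp
    have e2 := hS q hq
    simp only at h
    have hq0 : q.1 ≠ 0 := by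
      intro h0; rw [h0, zero_mul] at e2; exact hm e2.symm
    rw [h] at e1
    exact Prod.ext h (mul_left_cancel₀ hq0 (by rw [e1, e2]))
  have h1 : S.card ≤ 2 * m.natAbs.divisors.card := by
    rw [← Finset.card_image_of_injOn hinj]
    set T := S.image (fun p : ℤ × ℤ => p.1) with hT
    have hfib : ∀ b ∈ T.image Int.natAbs, (T.filter (fun a => a.natAbs = b)).card ≤ 2 := by
      intro b _
      have hsub : T.filter (fun a => a.natAbs = b) ⊆ {(b : ℤ), -(b : ℤ)} := by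
        intro a ha
        have := (Finset.mem_filter.1 ha).2
        rw [Finset.mem_insert, Finset.mem_singleton]
        omega
      exact (Finset.card_le_card hsub).trans Finset.card_le_two
    have h2 := Finset.card_le_mul_card_image (f := Int.natAbs) T 2 hfib
    have h3 : T.image Int.natAbs ⊆ m.natAbs.divisors := by
      intro b hb
      rw [Finset.mem_image] at hb
      obtain ⟨a, ha, rfl⟩ := hb
      rw [hT, Finset.mem_image] at ha
      obtain ⟨p, hp, rfl⟩ := ha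
      rw [Nat.mem_divisors]
      exact ⟨Int.natAbs_dvd_natAbs.2 ⟨p.2, (hS p hp).symm⟩, Int.natAbs_ne_zero.2 hm⟩
    exact h2.trans (Nat.mul_le_mul_left 2 (Finset.card_le_card h3))
  have h2 := hdiv m.natAbs (Int.natAbs_ne_zero.2 hm)
  have h3 : ((m.natAbs : ℕ) : ℝ) = |(m : ℝ)| := by
    rw [Nat.cast_natAbs]; push_cast; rfl
  rw [h3] at h2
  have h4 : (S.card : ℝ) ≤ 2 * (m.natAbs.divisors.card : ℝ) := by exact_mod_cast h1
  linarith

/-- four variables: `a b - c d = n` -/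
theorem four_count {ε : ℝ} (hε : 0 < ε) (K : ℝ) (hK : 1 ≤ K) : ∃ C : ℝ, 0 < C ∧
    ∀ (N : ℕ) (n : ℤ) (S : Finset ((ℤ × ℤ) × (ℤ × ℤ))), 1 ≤ N → |(n : ℝ)| ≤ K * (N : ℝ) ^ 2 →
    (∀ p ∈ S, p.1.1 * p.1.2 - p.2.1 * p.2.2 = n ∧ |p.1.1| ≤ N ∧ |p.1.2| ≤ N ∧ |p.2.1| ≤ N ∧
      |p.2.2| ≤ N) → (S.card : ℝ) ≤ C * (N : ℝ) ^ (2 + ε) := by
  obtain ⟨c, hc, hpd⟩ := prod_div (ε := ε / 2) (by positivity)
  refine ⟨9 * (c * (2 * K) ^ (ε / 2)) + 36, by positivity, ?_⟩
  intro N n S hN hn hS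
  have hN1 : (1 : ℝ) ≤ N := by exact_mod_cast hN
  have hN0 : (0 : ℝ) ≤ N := by linarith
  set P : Finset (ℤ × ℤ) := bxN N ×ˢ bxN N with hP
  have hmaps : ∀ p ∈ S, p.2 ∈ P := by
    intro p hp
    obtain ⟨-, -, -, h3, h4⟩ := hS p hp
    exact Finset.mem_product.2 ⟨mem_bxN.2 h3, mem_bxN.2 h4⟩
  have hcard := Finset.card_eq_sum_card_fiberwise hmaps
  set P0 := P.filter (fun q => q.1 * q.2 = -n) with hP0
  set P1 := P.filter (fun q => ¬ q.1 * q.2 = -n) with hP1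
  have hsplit : ∑ q ∈ P, ((S.filter (fun p => p.2 = q)).card : ℝ) =
      ∑ q ∈ P0, ((S.filter (fun p => p.2 = q)).card : ℝ) +
      ∑ q ∈ P1, ((S.filter (fun p => p.2 = q)).card : ℝ) :=
    (Finset.sum_filter_add_sum_filter_not P _ _).symm
  have hinj : ∀ q, Set.InjOn (fun p : (ℤ × ℤ) × (ℤ × ℤ) => p.1) (S.filter (fun p => p.2 = q)) := by
    intro q p hp p' hp' h
    have h1 := (Finset.mem_filter.1 hp).2
    have h2 := (Finset.mem_filter.1 hp').2
    exact Prod.ext h (by rw [h1, h2])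
  have hP0c : (P0.card : ℝ) ≤ 6 * N := by
    have := prod_crude N (-n) P0 (by
      intro q hq
      have hq' := Finset.mem_filter.1 hq
      have := Finset.mem_product.1 hq'.1
      exact ⟨hq'.2, mem_bxN.1 this.1, mem_bxN.1 this.2⟩)
    have h2 : (P0.card : ℝ) ≤ 4 * N + 2 := by exact_mod_cast this
    linarith
  have hf0 : ∀ q ∈ P0, ((S.filter (fun p => p.2 = q)).card : ℝ) ≤ 6 * N := by
    intro q hq
    rw [← Finset.card_image_of_injOn (hinj q)]
    have := prod_crude N (n + q.1 * q.2) ((S.filter (fun p => p.2 = q)).image (fun p => p.1)) (by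
      intro r hr
      rw [Finset.mem_image] at hr
      obtain ⟨p, hp, rfl⟩ := hr
      have hp' := Finset.mem_filter.1 hp
      obtain ⟨h1, h2, h3, -⟩ := hS p hp'.1
      refine ⟨?_, h2, h3⟩
      rw [← hp'.2]; linarith)
    have h2 : ((((S.filter (fun p => p.2 = q)).image (fun p => p.1)).card : ℕ) : ℝ) ≤ 4 * N + 2 := by
      exact_mod_cast this
    linarith
  have hf1 : ∀ q ∈ P1, ((S.filter (fun p => p.2 = q)).card : ℝ) ≤
      c * (2 * K) ^ (ε / 2) * (N : ℝ) ^ ε := by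
    intro q hq
    have hq' := Finset.mem_filter.1 hq
    have hqP := Finset.mem_product.1 hq'.1
    rw [← Finset.card_image_of_injOn (hinj q)]
    have hm : n + q.1 * q.2 ≠ 0 := by
      intro h; exact hq'.2 (by linarith)
    refine (hpd (n + q.1 * q.2) _ hm ?_).trans ?_
    · intro r hr
      rw [Finset.mem_image] at hr
      obtain ⟨p, hp, rfl⟩ := hr
      have hp' := Finset.mem_filter.1 hp
      obtain ⟨h1, h2, h3, -⟩ := hS p hp'.1
      rw [← hp'.2]; linarith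
    · rw [mul_assoc c]
      apply mul_le_mul_of_nonneg_left _ hc.le
      have hmb : |((n + q.1 * q.2 : ℤ) : ℝ)| ≤ 2 * K * (N : ℝ) ^ 2 := by
        push_cast
        have e1 : |(q.1 : ℝ) * q.2| ≤ (N : ℝ) ^ 2 := by
          rw [abs_mul, sq]
          have a1 : |(q.1 : ℝ)| ≤ N := by exact_mod_cast mem_bxN.1 hqP.1
          have a2 : |(q.2 : ℝ)| ≤ N := by exact_mod_cast mem_bxN.1 hqP.2
          exact mul_le_mul a1 a2 (abs_nonneg _) hN0
        have e2 : (N : ℝ) ^ 2 ≤ K * (N : ℝ) ^ 2 := le_mul_of_one_le_left (by positivity) hK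
        calc |(n : ℝ) + q.1 * q.2| ≤ |(n : ℝ)| + |(q.1 : ℝ) * q.2| := abs_add_le _ _
          _ ≤ 2 * K * (N : ℝ) ^ 2 := by linarith
      calc |((n + q.1 * q.2 : ℤ) : ℝ)| ^ (ε / 2) ≤ (2 * K * (N : ℝ) ^ 2) ^ (ε / 2) :=
            Real.rpow_le_rpow (abs_nonneg _) hmb (by positivity)
        _ = (2 * K) ^ (ε / 2) * (N : ℝ) ^ ε := by
            rw [Real.mul_rpow (by positivity) (by positivity), ← Real.rpow_natCast (N : ℝ) 2,
              ← Real.rpow_mul hN0]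
            congr 2; push_cast; ring
  have hP1c : (P1.card : ℝ) ≤ 9 * (N : ℝ) ^ 2 := by
    have h1 : P1.card ≤ P.card := Finset.card_filter_le _ _
    rw [hP, Finset.card_product, card_bxN] at h1
    have h2 : (P1.card : ℝ) ≤ (2 * N + 1) * (2 * N + 1) := by exact_mod_cast h1
    nlinarith
  have hNe : (1 : ℝ) ≤ (N : ℝ) ^ ε := Real.one_le_rpow hN1 hε.le
  have hNsplit : (N : ℝ) ^ (2 + ε) = (N : ℝ) ^ 2 * (N : ℝ) ^ ε := by
    rw [Real.rpow_add (by linarith)]; norm_num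
  have hc' : (S.card : ℝ) = ∑ q ∈ P, ((S.filter (fun p => p.2 = q)).card : ℝ) := by
    exact_mod_cast hcard
  rw [hc', hsplit, hNsplit]
  have s0 : ∑ q ∈ P0, ((S.filter (fun p => p.2 = q)).card : ℝ) ≤ 36 * (N : ℝ) ^ 2 := by
    calc ∑ q ∈ P0, ((S.filter (fun p => p.2 = q)).card : ℝ) ≤ ∑ _q ∈ P0, (6 * N : ℝ) :=
          Finset.sum_le_sum hf0
      _ = P0.card * (6 * N : ℝ) := by rw [Finset.sum_const, nsmul_eq_mul]
      _ ≤ 6 * N * (6 * N) := mul_le_mul_of_nonneg_right hP0c (by positivity)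
      _ = _ := by ring
  have s1 : ∑ q ∈ P1, ((S.filter (fun p => p.2 = q)).card : ℝ) ≤
      9 * (N : ℝ) ^ 2 * (c * (2 * K) ^ (ε / 2) * (N : ℝ) ^ ε) := by
    calc ∑ q ∈ P1, ((S.filter (fun p => p.2 = q)).card : ℝ) ≤
          ∑ _q ∈ P1, (c * (2 * K) ^ (ε / 2) * (N : ℝ) ^ ε) := Finset.sum_le_sum hf1
      _ = P1.card * (c * (2 * K) ^ (ε / 2) * (N : ℝ) ^ ε) := by rw [Finset.sum_const, nsmul_eq_mul]
      _ ≤ _ := mul_le_mul_of_nonneg_right hP1c (by positivity)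
  have s2 : 36 * (N : ℝ) ^ 2 ≤ 36 * ((N : ℝ) ^ 2 * (N : ℝ) ^ ε) := by
    have : (0 : ℝ) ≤ (N : ℝ) ^ 2 := by positivity
    nlinarith
  nlinarith

end Pool.Agent.PP5L
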