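import Pool.Agent.PP5.SPellE
import Pool.Agent.FTA.DivB

namespace Pool.Agent.PP5L

/-- `∑ log` is dominated by powers: `1 + 5 log z ≤ C z^ε` -/
theorem log_le_pow {ε : ℝ} (hε : 0 < ε) : ∃ C : ℝ, 0 < C ∧ ∀ z : ℝ, 1 ≤ z →
    1 + 5 * Real.log z ≤ C * z ^ ε := by
  refine ⟨1 + 5 / ε, by positivity, fun z hz => ?_⟩
  have h1 := Real.log_le_rpow_div (by linarith : 0 ≤ z) hε
  have h2 : (1 : ℝ) ≤ z ^ ε := Real.one_le_rpow hz hε.le
  have h3 : 5 * Real.log z ≤ 5 / ε * z ^ ε := by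
    calc 5 * Real.log z ≤ 5 * (z ^ ε / ε) := by linarith
      _ = _ := by ring
  nlinarith

/-- the number of `t` in a box with `a t^2 + b t + c` a square, nonzero discriminant -/
theorem quad_sq_count {ε : ℝ} (hε : 0 < ε) : ∃ C : ℝ, 0 < C ∧ ∀ (a b c : ℤ) (L : ℝ) (S : Finset ℤ),
    1 ≤ L → |(a : ℝ)| ≤ L → |(b : ℝ)| ≤ L → |(c : ℝ)| ≤ L → a ≠ 0 → b ^ 2 - 4 * a * c ≠ 0 →
    (∀ t ∈ S, |(t : ℝ)| ≤ L ∧ IsSquare (a * t ^ 2 + b * t + c)) → (S.card : ℝ) ≤ C * L ^ ε := by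
  obtain ⟨c1, hc1, hdiv⟩ := FTA.divisor_bound (ε := ε / 8) (by positivity)
  obtain ⟨c2, hc2, hlog⟩ := log_le_pow (ε := ε / 32) (by positivity)
  refine ⟨(c1 * 5 ^ (ε / 8)) ^ 2 * (25 * (c2 * (2000 : ℝ) ^ (ε / 32))), by positivity, ?_⟩
  intro a b c L S hL ha hb hc ha0 hΔ hS
  have hL0 : 0 ≤ L := by linarith
  -- the image
  choose! z hz using fun t (ht : t ∈ S) => (hS t ht).2
  set g : ℤ → ℤ × ℤ := fun t => (2 * a * t + b, z t) with hg
  have hinj : Set.InjOn g S := by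
    intro t _ t' _ h
    simp only [hg, Prod.mk.injEq] at h
    have : 2 * a * t = 2 * a * t' := by linarith [h.1]
    exact mul_left_cancel₀ (by simp [ha0] : (2 * a : ℤ) ≠ 0) this
  set B : ℝ := 3 * L ^ 2 with hB
  have hLsq : 1 ≤ L ^ 2 := one_le_pow₀ hL
  have hLL : L ≤ L ^ 2 := by nlinarith
  have hB1 : 1 ≤ B := by rw [hB]; linarith
  have hbound := pell_count (4 * a) (b ^ 2 - 4 * a * c) (by simp [ha0]) hΔ B hB1 (S.image g) (by
    intro p hp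
    rw [Finset.mem_image] at hp
    obtain ⟨t, ht, rfl⟩ := hp
    obtain ⟨htL, -⟩ := hS t ht
    have hzt := hz t ht
    have h2t : |2 * (a : ℝ) * t| ≤ 2 * L ^ 2 := by
      rw [abs_mul, abs_mul, abs_two]
      have := mul_le_mul ha htL (abs_nonneg _) hL0
      nlinarith
    refine ⟨?_, ?_, ?_⟩
    · simp only [hg]
      have : z t ^ 2 = a * t ^ 2 + b * t + c := by rw [hzt]; ring
      rw [this]; ring
    · simp only [hg]; push_cast
      calc |2 * (a : ℝ) * t + b| ≤ |2 * (a : ℝ) * t| + |(b : ℝ)| := abs_add_le _ _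
        _ ≤ B := by rw [hB]; linarith
    · simp only [hg]
      have h3 : ((z t : ℤ) : ℝ) ^ 2 = a * t ^ 2 + b * t + c := by
        have : z t ^ 2 = a * t ^ 2 + b * t + c := by rw [hzt]; ring
        exact_mod_cast this
      have h4 : ((z t : ℤ) : ℝ) ^ 2 ≤ B ^ 2 := by
        have e1 : |(a : ℝ) * t ^ 2| ≤ L ^ 3 := by
          rw [abs_mul, abs_pow]
          calc |(a : ℝ)| * |(t : ℝ)| ^ 2 ≤ L * L ^ 2 :=
                mul_le_mul ha (pow_le_pow_left₀ (abs_nonneg _) htL 2) (by positivity) hL0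
            _ = L ^ 3 := by ring
        have e2 : |(b : ℝ) * t| ≤ L ^ 2 := by
          rw [abs_mul]
          calc |(b : ℝ)| * |(t : ℝ)| ≤ L * L := mul_le_mul hb htL (abs_nonneg _) hL0
            _ = L ^ 2 := by ring
        have e3 : (a : ℝ) * t ^ 2 + b * t + c ≤ L ^ 3 + L ^ 2 + L := by
          linarith [le_abs_self ((a : ℝ) * t ^ 2), le_abs_self ((b : ℝ) * t), le_abs_self (c : ℝ)]
        have e4 : L ^ 3 ≤ L ^ 4 := pow_le_pow_right₀ hL (by norm_num)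
        have e5 : L ^ 2 ≤ L ^ 4 := pow_le_pow_right₀ hL (by norm_num)
        have e6 : L ≤ L ^ 4 := le_self_pow₀ hL (by norm_num)
        have e7 : B ^ 2 = 9 * L ^ 4 := by rw [hB]; ring
        rw [h3, e7]; nlinarith
      exact abs_le_of_sq_le_sq h4 (by linarith))
  rw [Finset.card_image_of_injOn hinj] at hbound
  refine hbound.trans ?_
  -- divisor part
  have hΔL : (((b ^ 2 - 4 * a * c).natAbs : ℕ) : ℝ) ≤ 5 * L ^ 2 := by
    have e : (((b ^ 2 - 4 * a * c).natAbs : ℕ) : ℝ) = |(b : ℝ) ^ 2 - 4 * a * c| := by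
      rw [Nat.cast_natAbs]; push_cast; rfl
    rw [e]
    have e1 : |(b : ℝ) ^ 2| ≤ L ^ 2 := by
      rw [abs_pow]; exact pow_le_pow_left₀ (abs_nonneg _) hb 2
    have e2 : |4 * (a : ℝ) * c| ≤ 4 * L ^ 2 := by
      rw [abs_mul, abs_mul, abs_of_pos (by norm_num : (0 : ℝ) < 4)]
      have := mul_le_mul ha hc (abs_nonneg _) hL0
      nlinarith
    calc |(b : ℝ) ^ 2 - 4 * a * c| ≤ |(b : ℝ) ^ 2| + |4 * (a : ℝ) * c| := abs_sub _ _
      _ ≤ 5 * L ^ 2 := by linarith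
  have hd1 : (((b ^ 2 - 4 * a * c).natAbs.divisors.card : ℕ) : ℝ) ≤ c1 * 5 ^ (ε / 8) * L ^ (ε / 4) := by
    refine (hdiv _ (Int.natAbs_ne_zero.2 hΔ)).trans ?_
    rw [mul_assoc c1 _ _]
    apply mul_le_mul_of_nonneg_left _ hc1.le
    calc (((b ^ 2 - 4 * a * c).natAbs : ℕ) : ℝ) ^ (ε / 8) ≤ (5 * L ^ 2) ^ (ε / 8) :=
          Real.rpow_le_rpow (Nat.cast_nonneg _) hΔL (by positivity)
      _ = 5 ^ (ε / 8) * L ^ (ε / 4) := by
          rw [Real.mul_rpow (by norm_num) (by positivity), ← Real.rpow_natCast L 2, ← Real.rpow_mul hL0]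
          congr 2; push_cast; ring
  -- logarithmic part
  have hz1 : 2 * (1 + |((4 * a : ℤ) : ℝ)|) * (|((4 * a : ℤ) : ℝ)| * B) ^ 2 ≤ 2000 * L ^ 8 := by
    have e1 : |((4 * a : ℤ) : ℝ)| ≤ 4 * L := by
      push_cast; rw [abs_mul, abs_of_pos (by norm_num : (0 : ℝ) < 4)]; linarith
    have e0 : 0 ≤ |((4 * a : ℤ) : ℝ)| := abs_nonneg _
    have e2 : 1 + |((4 * a : ℤ) : ℝ)| ≤ 5 * L := by linarith
    have e3 : (|((4 * a : ℤ) : ℝ)| * B) ^ 2 ≤ (4 * L * B) ^ 2 :=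
      pow_le_pow_left₀ (by positivity) (mul_le_mul_of_nonneg_right e1 (by positivity)) 2
    have e4 : (4 * L * B) ^ 2 = 144 * L ^ 6 := by rw [hB]; ring
    rw [e4] at e3
    calc 2 * (1 + |((4 * a : ℤ) : ℝ)|) * (|((4 * a : ℤ) : ℝ)| * B) ^ 2
        ≤ 2 * (5 * L) * (144 * L ^ 6) := by
          apply mul_le_mul _ e3 (sq_nonneg _) (by positivity)
          linarith
      _ = 1440 * L ^ 7 := by ring
      _ ≤ 2000 * L ^ 8 := by
          have : L ^ 7 ≤ L ^ 8 := pow_le_pow_right₀ hL (by norm_num)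
          have h7 : 0 ≤ L ^ 7 := by positivity
          nlinarith
  have hz0 : 1 ≤ 2 * (1 + |((4 * a : ℤ) : ℝ)|) * (|((4 * a : ℤ) : ℝ)| * B) ^ 2 := by
    have e1 : (1 : ℝ) ≤ |((4 * a : ℤ) : ℝ)| := by
      have : (1 : ℤ) ≤ |4 * a| := Int.one_le_abs (by simp [ha0])
      exact_mod_cast this
    have e2 : 1 ≤ |((4 * a : ℤ) : ℝ)| * B := by nlinarith
    have e3 : 1 ≤ (|((4 * a : ℤ) : ℝ)| * B) ^ 2 := one_le_pow₀ e2
    nlinarith
  have hl1 : 1 + 5 * Real.log (2 * (1 + |((4 * a : ℤ) : ℝ)|) * (|((4 * a : ℤ) : ℝ)| * B) ^ 2) ≤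
      c2 * (2000 : ℝ) ^ (ε / 32) * L ^ (ε / 4) := by
    refine (hlog _ hz0).trans ?_
    rw [mul_assoc c2 _ _]
    apply mul_le_mul_of_nonneg_left _ hc2.le
    calc (2 * (1 + |((4 * a : ℤ) : ℝ)|) * (|((4 * a : ℤ) : ℝ)| * B) ^ 2) ^ (ε / 32)
        ≤ (2000 * L ^ 8) ^ (ε / 32) := Real.rpow_le_rpow (by linarith) hz1 (by positivity)
      _ = 2000 ^ (ε / 32) * L ^ (ε / 4) := by
          rw [Real.mul_rpow (by norm_num) (by positivity), ← Real.rpow_natCast L 8, ← Real.rpow_mul hL0]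
          congr 2; push_cast; ring
  have hl0 : 0 ≤ 1 + 5 * Real.log (2 * (1 + |((4 * a : ℤ) : ℝ)|) * (|((4 * a : ℤ) : ℝ)| * B) ^ 2) := by
    have := Real.log_nonneg hz0; linarith
  have hfin : L ^ (ε / 4) * L ^ (ε / 4) * L ^ (ε / 4) ≤ L ^ ε := by
    rw [← Real.rpow_add (by linarith), ← Real.rpow_add (by linarith)]
    exact Real.rpow_le_rpow_of_exponent_le hL (by linarith)
  calc (((b ^ 2 - 4 * a * c).natAbs.divisors.card : ℕ) : ℝ) ^ 2 *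
        (25 * (1 + 5 * Real.log (2 * (1 + |((4 * a : ℤ) : ℝ)|) * (|((4 * a : ℤ) : ℝ)| * B) ^ 2)))
      ≤ (c1 * 5 ^ (ε / 8) * L ^ (ε / 4)) ^ 2 * (25 * (c2 * (2000 : ℝ) ^ (ε / 32) * L ^ (ε / 4))) := by
        apply mul_le_mul
        · exact pow_le_pow_left₀ (Nat.cast_nonneg _) hd1 2
        · linarith
        · linarith
        · positivity
    _ = (c1 * 5 ^ (ε / 8)) ^ 2 * (25 * (c2 * (2000 : ℝ) ^ (ε / 32))) *
          (L ^ (ε / 4) * L ^ (ε / 4) * L ^ (ε / 4)) := by ring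
    _ ≤ _ := mul_le_mul_of_nonneg_left hfin (by positivity)

end Pool.Agent.PP5L
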