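import Pool.Agent.PP5.SW3
import Pool.Agent.PP5.SDet
import Pool.Agent.PP5.SQuad

namespace Pool.Agent.PP5L

/-- `w(x) = (x6, (x0, x1))` -/
def wx (x : Fin 10 → ℤ) : ℤ × (ℤ × ℤ) := (x 6, (x 0, x 1))

/-- `(x2, (x3, x9))` -/
def ux (x : Fin 10 → ℤ) : ℤ × (ℤ × ℤ) := (x 2, (x 3, x 9))

theorem fix_w {ε : ℝ} (hε : 0 < ε) : ∃ C : ℝ, 0 < C ∧ ∀ (N : ℕ) (X : Finset (Fin 10 → ℤ))
    (w : ℤ × (ℤ × ℤ)) (A : Finset (ℤ × (ℤ × ℤ))), 1 ≤ N →
    (∀ x ∈ X, (∀ j, |x j| ≤ 4 * N) ∧ |x 0| ≤ N ∧ |x 1| ≤ N ∧ |x 6| ≤ N ∧ |x 4| ≤ N ∧ |x 5| ≤ N ∧ |x 7| ≤ N ∧ |x 8| ≤ N ∧ FF x = 0 ∧ wx x = w ∧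
      ux x ∈ A) → (X.card : ℝ) ≤ A.card * (C * (N : ℝ) ^ (2 + ε)) := by
  obtain ⟨c, hc, h4⟩ := four_count hε 12 (by norm_num)
  refine ⟨c, hc, ?_⟩
  intro N X w A hN hX
  have hN1 : (1 : ℝ) ≤ N := by exact_mod_cast hN
  have hN0 : (0 : ℝ) ≤ N := by linarith
  have hmaps : ∀ x ∈ X, ux x ∈ A := fun x hx => (hX x hx).2.2.2.2.2.2.2.2.2.2
  have hcard := Finset.card_eq_sum_card_fiberwise hmaps
  have hfib : ∀ u ∈ A, ((X.filter (fun x => ux x = u)).card : ℝ) ≤ c * (N : ℝ) ^ (2 + ε) := by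
    intro u _
    have hinj : Set.InjOn (fun x : Fin 10 → ℤ => ((x 4, x 5), (x 7, x 8)))
        (X.filter (fun x => ux x = u)) := by
      intro x hx y hy h
      obtain ⟨hx1, hx2⟩ := Finset.mem_filter.1 hx
      obtain ⟨hy1, hy2⟩ := Finset.mem_filter.1 hy
      have ex := (hX x hx1).2.2.2.2.2.2.2.2.2.1
      have ey := (hX y hy1).2.2.2.2.2.2.2.2.2.1
      simp only [wx, ux, Prod.mk.injEq] at ex ey hx2 hy2 h
      rw [← ey] at ex
      rw [← hy2] at hx2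
      simp only [Prod.mk.injEq] at ex hx2
      funext j
      fin_cases j
      · exact ex.2.1
      · exact ex.2.2
      · exact hx2.1
      · exact hx2.2.1
      · exact h.1.1
      · exact h.1.2
      · exact ex.1
      · exact h.2.1
      · exact h.2.2
      · exact hx2.2.2
    rw [← Finset.card_image_of_injOn hinj]
    rcases (X.filter (fun x => ux x = u)).eq_empty_or_nonempty with h0 | ⟨x0, hx0⟩
    · rw [h0]; simp; positivity
    · obtain ⟨hx0X, hx0u⟩ := Finset.mem_filter.1 hx0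
      have hx0' := hX x0 hx0X
      apply h4 N (w.2.1 * u.1 - w.2.2 * u.2.1 - w.1 * u.2.2) _ hN
      · rw [← hx0u, ← hx0'.2.2.2.2.2.2.2.2.2.1]
        simp only [wx, ux]; push_cast
        have b2 : |(x0 2 : ℝ)| ≤ 4 * N := by exact_mod_cast hx0'.1 2
        have b3 : |(x0 3 : ℝ)| ≤ 4 * N := by exact_mod_cast hx0'.1 3
        have b9 : |(x0 9 : ℝ)| ≤ 4 * N := by exact_mod_cast hx0'.1 9
        have b0 : |(x0 0 : ℝ)| ≤ N := by exact_mod_cast hx0'.2.1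
        have b1 : |(x0 1 : ℝ)| ≤ N := by exact_mod_cast hx0'.2.2.1
        have b6 : |(x0 6 : ℝ)| ≤ N := by exact_mod_cast hx0'.2.2.2.1
        have c1 : |(x0 0 : ℝ) * x0 2| ≤ N * (4 * N) := by
          rw [abs_mul]; exact mul_le_mul b0 b2 (abs_nonneg _) hN0
        have c2 : |(x0 1 : ℝ) * x0 3| ≤ N * (4 * N) := by
          rw [abs_mul]; exact mul_le_mul b1 b3 (abs_nonneg _) hN0
        have c3 : |(x0 6 : ℝ) * x0 9| ≤ N * (4 * N) := by
          rw [abs_mul]; exact mul_le_mul b6 b9 (abs_nonneg _) hN0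
        have d1 := abs_sub ((x0 0 : ℝ) * x0 2 - x0 1 * x0 3) ((x0 6 : ℝ) * x0 9)
        have d2 := abs_sub ((x0 0 : ℝ) * x0 2) ((x0 1 : ℝ) * x0 3)
        nlinarith
      · intro p hp
        rw [Finset.mem_image] at hp
        obtain ⟨x, hx, rfl⟩ := hp
        obtain ⟨hxX, hxu⟩ := Finset.mem_filter.1 hx
        obtain ⟨-, -, -, -, a4, a5, a7, a8, hF, hw, -⟩ := hX x hxX
        refine ⟨?_, a4, a5, a7, a8⟩
        rw [← hxu, ← hw]
        simp only [FF] at hF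
        simp only [wx, ux]
        linarith
  have hc1 : (X.card : ℝ) = ∑ u ∈ A, ((X.filter (fun x => ux x = u)).card : ℝ) := by
    exact_mod_cast hcard
  rw [hc1]
  calc _ ≤ ∑ _u ∈ A, (c * (N : ℝ) ^ (2 + ε)) := Finset.sum_le_sum hfib
    _ = _ := by rw [Finset.sum_const, nsmul_eq_mul]

attribute [local instance] Matrix.seminormedAddCommGroup in
/-- Siegel vector -/
theorem siegel3 (N : ℕ) (hN : 1 ≤ N) (w : ℤ × (ℤ × ℤ)) (h1 : |w.1| ≤ N) (h2 : |w.2.1| ≤ N)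
    (h3 : |w.2.2| ≤ N) : ∃ v : Fin 3 → ℤ, v ≠ 0 ∧ w.2.1 * v 0 - w.2.2 * v 1 - w.1 * v 2 = 0 ∧
      ∀ i, |v i| ≤ (Nat.sqrt (3 * N) : ℕ) := by
  set A : Matrix (Fin 1) (Fin 3) ℤ := !![w.2.1, -w.2.2, -w.1] with hA
  obtain ⟨t, ht0, htA, htn⟩ := Int.Matrix.exists_ne_zero_int_vec_norm_le A (by simp) (by simp)
  refine ⟨t, ht0, ?_, fun i => ?_⟩
  · have := congrFun htA 0
    simp [hA, Matrix.mulVec, dotProduct, Fin.sum_univ_succ] at this
    linarith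
  · have hAn : ‖A‖ ≤ N := by
      rw [Matrix.norm_le_iff (by positivity)]
      intro a b
      have e : ∀ z : ℤ, |z| ≤ (N : ℤ) → ‖z‖ ≤ (N : ℝ) := by
        intro z hz
        rw [Int.norm_eq_abs]; exact_mod_cast hz
      fin_cases a; fin_cases b
      · simpa [hA] using e _ h2
      · have := e (-w.2.2) (by rwa [abs_neg]); simpa [hA] using this
      · have := e (-w.1) (by rwa [abs_neg]); simpa [hA] using this
    have h5 : ‖t‖ ≤ √(3 * N) := by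
      refine htn.trans ?_
      rw [Real.sqrt_eq_rpow]
      have e1 : ((Fintype.card (Fin 1) : ℝ) / ((Fintype.card (Fin 3) : ℝ) - Fintype.card (Fin 1))) = 1 / 2 := by
        simp; norm_num
      rw [e1]
      apply Real.rpow_le_rpow (by positivity) _ (by norm_num)
      have : max 1 ‖A‖ ≤ N := max_le (by exact_mod_cast hN) hAn
      rw [Fintype.card_fin]; push_cast; linarith
    have h6 : ‖t i‖ ≤ √(3 * N) := (norm_le_pi_norm t i).trans h5
    rw [Int.norm_eq_abs] at h6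
    have h7 : |(t i : ℝ)| ^ 2 ≤ 3 * N := by
      have := pow_le_pow_left₀ (abs_nonneg _) h6 2
      rwa [Real.sq_sqrt (by positivity)] at this
    have h8 : (t i).natAbs ^ 2 ≤ 3 * N := by
      have e : (((t i).natAbs : ℕ) : ℝ) = |(t i : ℝ)| := by rw [Nat.cast_natAbs]; push_cast; rfl
      rw [← e] at h7
      exact_mod_cast h7
    have h9 : (t i).natAbs ≤ Nat.sqrt (3 * N) := Nat.le_sqrt'.2 h8
    rw [Int.abs_eq_natAbs]
    exact_mod_cast h9

end Pool.Agent.PP5L
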