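import Pool.Agent.PP5.SFix

namespace Pool.Agent.PP5L

/-- positions of the three moving coordinates -/
def cidx : Fin 3 → Fin 10 := ![2, 3, 9]

theorem sh_cidx (x : Fin 10 → ℤ) (v : Fin 3 → ℤ) (t : ℤ) (i : Fin 3) :
    sh x v t (cidx i) = x (cidx i) + t * v i := by
  fin_cases i <;> simp [sh, cidx]

theorem sh_sh (x : Fin 10 → ℤ) (v : Fin 3 → ℤ) (s t : ℤ) :
    sh (sh x v s) v t = sh x v (s + t) := by
  funext j; fin_cases j <;> simp [sh] <;> ring

theorem sh_zero (x : Fin 10 → ℤ) (v : Fin 3 → ℤ) : sh x v 0 = x := by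
  funext j; fin_cases j <;> simp [sh]

theorem wx_sh (x : Fin 10 → ℤ) (v : Fin 3 → ℤ) (t : ℤ) : wx (sh x v t) = wx x := by
  simp [wx, sh]

/-- the box of labels -/
noncomputable def boxA (N : ℕ) (k : Fin 3) (m : ℤ) : Finset (ℤ × (ℤ × ℤ)) :=
  match k with
  | 0 => Finset.Ico 0 m ×ˢ (bxN N ×ˢ bxN N)
  | 1 => bxN N ×ˢ (Finset.Ico 0 m ×ˢ bxN N)
  | 2 => bxN N ×ˢ (bxN N ×ˢ Finset.Ico 0 m)

theorem card_boxA (N : ℕ) (k : Fin 3) (m : ℤ) : (boxA N k m).card = m.toNat * (2 * N + 1) ^ 2 := by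
  fin_cases k <;> simp only [boxA, Finset.card_product, card_bxN, Int.card_Ico, sub_zero] <;> ring

theorem mem_boxA (N : ℕ) (k : Fin 3) (m : ℤ) (x : Fin 10 → ℤ) (h : ∀ i, |x (cidx i)| ≤ N)
    (h0 : 0 ≤ x (cidx k)) (h1 : x (cidx k) < m) : ux x ∈ boxA N k m := by
  have a0 := h 0
  have a1 := h 1
  have a2 := h 2
  fin_cases k <;> simp [boxA, ux, mem_bxN, cidx] at * <;> refine ⟨?_, ?_, ?_⟩ <;>
    first
      | assumption
      | exact ⟨h0, h1⟩

theorem square_zero_disc {a b c : ℤ} (ha : ¬ IsSquare a) (hΔ : b ^ 2 - 4 * a * c = 0) {t : ℤ}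
    (h : IsSquare (a * t ^ 2 + b * t + c)) : 2 * a * t + b = 0 := by
  obtain ⟨z, hz⟩ := h
  have h1 : a * (2 * z) ^ 2 = (2 * a * t + b) ^ 2 := by
    have : a * (2 * z) ^ 2 = 4 * a * (z * z) := by ring
    rw [this, ← hz]; linear_combination -hΔ
  by_contra hne
  have hz0 : 2 * z ≠ 0 := by
    intro h0
    rw [h0] at h1
    apply hne
    have : (2 * a * t + b) ^ 2 = 0 := by rw [← h1]; ring
    exact pow_eq_zero_iff two_ne_zero |>.1 this
  have h2 : (2 * z) ^ 2 ∣ (2 * a * t + b) ^ 2 := ⟨a, by rw [← h1]; ring⟩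
  obtain ⟨k, hk⟩ := (Int.pow_dvd_pow_iff two_ne_zero).1 h2
  apply ha
  refine ⟨k, ?_⟩
  have h3 : (2 * z) ^ 2 ≠ 0 := pow_ne_zero 2 hz0
  apply mul_left_cancel₀ h3
  calc (2 * z) ^ 2 * a = a * (2 * z) ^ 2 := by ring
    _ = (2 * a * t + b) ^ 2 := h1
    _ = (2 * z) ^ 2 * (k * k) := by rw [hk]; ring

theorem good_w {ε : ℝ} (hε : 0 < ε) : ∃ C : ℝ, 0 < C ∧ ∀ (N : ℕ) (X : Finset (Fin 10 → ℤ))
    (w : ℤ × (ℤ × ℤ)) (v : Fin 3 → ℤ), 1 ≤ N → v ≠ 0 →
    w.2.1 * v 0 - w.2.2 * v 1 - w.1 * v 2 = 0 → (∀ i, |v i| ≤ (Nat.sqrt (3 * N) : ℕ)) →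
    (4 * v 0 * v 1 + v 2 ^ 2) * (4 * w.2.1 * w.2.2 + w.1 ^ 2) ≠ 0 →
    ¬ IsSquare ((4 * v 0 * v 1 + v 2 ^ 2) * (4 * w.2.1 * w.2.2 + w.1 ^ 2)) →
    (∀ x ∈ X, (∀ j, |x j| ≤ N) ∧ FF x = 0 ∧ wx x = w ∧ IsSquare (SS x).det) →
    (X.card : ℝ) ≤ C * (N : ℝ) ^ (9 / 2 + ε) := by
  obtain ⟨c1, hc1, hfix⟩ := fix_w (ε := ε / 2) (by positivity)
  obtain ⟨c2, hc2, hquad⟩ := quad_sq_count (ε := ε / 8) (by positivity)
  refine ⟨(c2 + 1) * (10 ^ 6 : ℝ) ^ (ε / 8) * (162 * c1), by positivity, ?_⟩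
  intro N X w v hN hv0 hwv hvV ha0 hns hX
  have hN1 : (1 : ℝ) ≤ N := by exact_mod_cast hN
  have hN0 : (0 : ℝ) ≤ N := by linarith
  have hNZ : (1 : ℤ) ≤ N := by exact_mod_cast hN
  set V : ℕ := Nat.sqrt (3 * N) with hV
  have hVsq : V * V ≤ 3 * N := Nat.sqrt_le (3 * N)
  have hVN : V ≤ 2 * N := by nlinarith
  -- the maximal coordinate
  obtain ⟨k, hk⟩ := Finite.exists_max (fun i => |v i|)
  have hvk : v k ≠ 0 := by
    intro h0
    apply hv0
    funext i
    have := hk i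
    rw [h0, abs_zero] at this
    simpa using this
  set τ : (Fin 10 → ℤ) → ℤ := fun x => x (cidx k) / v k with hτ
  set lam : (Fin 10 → ℤ) → (Fin 10 → ℤ) := fun x => sh x v (-(τ x)) with hlam
  have hback : ∀ x, sh (lam x) v (τ x) = x := by
    intro x; rw [hlam]; simp only; rw [sh_sh]; rw [neg_add_cancel, sh_zero]
  -- size of τ
  have hτb : ∀ x ∈ X, |τ x| * |v k| ≤ N + V := by
    intro x hx
    have h1 := Int.emod_add_mul_ediv (x (cidx k)) (v k)
    have h2 : 0 ≤ x (cidx k) % v k := Int.emod_nonneg _ hvk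
    have h3 : x (cidx k) % v k < |v k| := Int.emod_lt_abs _ hvk
    have h4 := (hX x hx).1 (cidx k)
    have h5 := hvV k
    have h6 : v k * τ x = x (cidx k) - x (cidx k) % v k := by simp only [hτ]; linarith
    rw [← abs_mul, mul_comm, h6]
    have := abs_sub (x (cidx k)) (x (cidx k) % v k)
    rw [abs_of_nonneg h2] at this
    omega
  have hlb : ∀ x ∈ X, ∀ i, |lam x (cidx i)| ≤ 4 * N := by
    intro x hx i
    simp only [hlam]
    rw [sh_cidx]
    have h1 := (hX x hx).1 (cidx i)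
    have h2 : |-(τ x) * v i| ≤ |τ x| * |v k| := by
      rw [abs_mul, abs_neg]
      exact mul_le_mul_of_nonneg_left (hk i) (abs_nonneg _)
    have h3 := hτb x hx
    have h4 := abs_add_le (x (cidx i)) (-(τ x) * v i)
    omega
  set Y := X.image lam with hY
  have hYp : ∀ y ∈ Y, (∀ j, |y j| ≤ 4 * N) ∧ |y 0| ≤ N ∧ |y 1| ≤ N ∧ |y 6| ≤ N ∧ |y 4| ≤ N ∧
      |y 5| ≤ N ∧ |y 7| ≤ N ∧ |y 8| ≤ N ∧ FF y = 0 ∧ wx y = w ∧ ux y ∈ boxA (4 * N) k |v k| := by
    intro y hy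
    rw [hY, Finset.mem_image] at hy
    obtain ⟨x, hx, rfl⟩ := hy
    obtain ⟨hb, hF, hw, -⟩ := hX x hx
    have hwv' : x 0 * v 0 - x 1 * v 1 - x 6 * v 2 = 0 := by
      rw [← hw] at hwv; simpa [wx] using hwv
    have b2 := hlb x hx 0
    have b3 := hlb x hx 1
    have b9 := hlb x hx 2
    refine ⟨?_, ?_, ?_, ?_, ?_, ?_, ?_, ?_, ?_, ?_, ?_⟩
    · intro j
      have e : ∀ z : ℤ, |z| ≤ (N : ℤ) → |z| ≤ 4 * (N : ℤ) := fun z hz => by omega
      fin_cases j
      · exact e _ (hb 0)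
      · exact e _ (hb 1)
      · exact b2
      · exact b3
      · exact e _ (hb 4)
      · exact e _ (hb 5)
      · exact e _ (hb 6)
      · exact e _ (hb 7)
      · exact e _ (hb 8)
      · exact b9
    · exact hb 0
    · exact hb 1
    · exact hb 6
    · exact hb 4
    · exact hb 5
    · exact hb 7
    · exact hb 8
    · simp only [hlam]; rw [FF_sh _ _ _ hwv', hF]
    · simp only [hlam]; rw [wx_sh, hw]
    · apply mem_boxA
      · intro i; push_cast; exact hlb x hx i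
      · simp only [hlam]; rw [sh_cidx]
        have h1 := Int.emod_add_mul_ediv (x (cidx k)) (v k)
        have h2 : 0 ≤ x (cidx k) % v k := Int.emod_nonneg _ hvk
        simp only [hτ]; linarith
      · simp only [hlam]; rw [sh_cidx]
        have h1 := Int.emod_add_mul_ediv (x (cidx k)) (v k)
        have h3 : x (cidx k) % v k < |v k| := Int.emod_lt_abs _ hvk
        simp only [hτ]; linarith
  have hYc := hfix N Y w (boxA (4 * N) k |v k|) hN hYp
  -- number of labels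
  have hAc : ((boxA (4 * N) k |v k|).card : ℝ) ≤ 162 * (N : ℝ) ^ (5 / 2 : ℝ) := by
    rw [card_boxA]
    have h1 : (|v k|).toNat ≤ V := by have := hvV k; omega
    have h2 : (V : ℝ) ≤ 2 * (N : ℝ) ^ (1 / 2 : ℝ) := by
      rw [← Real.sqrt_eq_rpow]
      have : (V : ℝ) ^ 2 ≤ (2 * √(N : ℝ)) ^ 2 := by
        rw [mul_pow, Real.sq_sqrt hN0]
        have : ((V * V : ℕ) : ℝ) ≤ ((3 * N : ℕ) : ℝ) := by exact_mod_cast hVsq
        push_cast at this
        nlinarith
      exact le_of_sq_le_sq this (by positivity)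
    have h3 : (((|v k|).toNat : ℕ) : ℝ) ≤ 2 * (N : ℝ) ^ (1 / 2 : ℝ) :=
      le_trans (by exact_mod_cast h1) h2
    have h4 : ((2 * (4 * N) + 1 : ℕ) : ℝ) ^ 2 ≤ 81 * (N : ℝ) ^ 2 := by
      push_cast; nlinarith
    have h5 : (N : ℝ) ^ (5 / 2 : ℝ) = (N : ℝ) ^ (1 / 2 : ℝ) * (N : ℝ) ^ 2 := by
      rw [← Real.rpow_natCast (N : ℝ) 2, ← Real.rpow_add (by linarith)]; norm_num
    push_cast at h4 ⊢
    rw [h5]
    calc (((|v k|).toNat : ℕ) : ℝ) * (2 * (4 * (N : ℝ)) + 1) ^ 2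
        ≤ (2 * (N : ℝ) ^ (1 / 2 : ℝ)) * (81 * (N : ℝ) ^ 2) :=
          mul_le_mul h3 h4 (by positivity) (by positivity)
      _ = _ := by ring
  -- fibers
  set L : ℝ := 10 ^ 6 * (N : ℝ) ^ 4 with hL
  have hN4 : (1 : ℝ) ≤ (N : ℝ) ^ 4 := one_le_pow₀ hN1
  have hL1 : 1 ≤ L := by rw [hL]; linarith
  have hfib : ∀ y ∈ Y, ((X.filter (fun x => lam x = y)).card : ℝ) ≤ (c2 + 1) * L ^ (ε / 8) := by
    intro y hy
    obtain ⟨hyb, hy0, hy1, hy6, -, -, -, -, -, hyw, -⟩ := hYp y hy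
    have hinj : Set.InjOn τ (X.filter (fun x => lam x = y)) := by
      intro x hx x' hx' h
      have e1 := (Finset.mem_filter.1 hx).2
      have e2 := (Finset.mem_filter.1 hx').2
      rw [← hback x, ← hback x', e1, e2, h]
    rw [← Finset.card_image_of_injOn hinj]
    have hL2 : 1 ≤ L ^ (ε / 8) := Real.one_le_rpow hL1 (by positivity)
    have hlead : lead y v = (4 * v 0 * v 1 + v 2 ^ 2) * (4 * w.2.1 * w.2.2 + w.1 ^ 2) := by
      rw [← hyw]; simp [lead, wx]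
    have hT : ∀ t ∈ (X.filter (fun x => lam x = y)).image τ, |(t : ℝ)| ≤ L ∧
        IsSquare (lead y v * t ^ 2 + linc y v * t + (SS y).det) := by
      intro t ht
      rw [Finset.mem_image] at ht
      obtain ⟨x, hx, rfl⟩ := ht
      obtain ⟨hxX, hxy⟩ := Finset.mem_filter.1 hx
      constructor
      · have h1 := hτb x hxX
        have h2 : 1 ≤ |v k| := Int.one_le_abs hvk
        have h3 : |τ x| ≤ 3 * N := by
          have : |τ x| ≤ |τ x| * |v k| := le_mul_of_one_le_right (abs_nonneg _) h2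
          omega
        have h4 : |(τ x : ℝ)| ≤ 3 * N := by exact_mod_cast h3
        have h5 : (N : ℝ) ≤ (N : ℝ) ^ 4 := le_self_pow₀ hN1 (by norm_num)
        rw [hL]; linarith
      · rw [← det_sh, ← hxy, hback]
        exact (hX x hxX).2.2.2
    by_cases hΔ : linc y v ^ 2 - 4 * lead y v * (SS y).det = 0
    · -- at most one element
      have h1 : ((X.filter (fun x => lam x = y)).image τ).card ≤ 1 := by
        rw [Finset.card_le_one]
        intro t ht t' ht'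
        have e1 := square_zero_disc (by rw [hlead]; exact hns) hΔ (hT t ht).2
        have e2 := square_zero_disc (by rw [hlead]; exact hns) hΔ (hT t' ht').2
        have e3 : 2 * lead y v * t = 2 * lead y v * t' := by linarith
        exact mul_left_cancel₀ (by rw [hlead]; simpa using ha0) e3
      have h2 : ((((X.filter (fun x => lam x = y)).image τ).card : ℕ) : ℝ) ≤ 1 := by
        exact_mod_cast h1
      have : (0 : ℝ) ≤ c2 * L ^ (ε / 8) := by positivity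
      nlinarith
    · have hv : ∀ i, |v i| ≤ 2 * (N : ℤ) := fun i => by have := hvV i; omega
      have hdy : |(SS y).det| ≤ 24 * (2 * (4 * (N : ℤ))) ^ 4 := det_bound hyb
      have hdy1 : |(SS (sh y v 1)).det| ≤ 24 * (2 * (6 * (N : ℤ))) ^ 4 := by
        apply det_bound
        intro j
        have hyj := hyb j
        have v0 := hv 0
        have v1 := hv 1
        have v2 := hv 2
        have b2 := hyb 2
        have b3 := hyb 3
        have b9 := hyb 9
        have e : ∀ a b : ℤ, |a| ≤ 4 * (N : ℤ) → |b| ≤ 2 * (N : ℤ) → |a + 1 * b| ≤ 6 * (N : ℤ) := by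
          intro a b h1 h2
          rw [one_mul]
          have := abs_add_le a b; omega
        have e' : ∀ z : ℤ, |z| ≤ 4 * (N : ℤ) → |z| ≤ 6 * (N : ℤ) := fun z hz => by omega
        fin_cases j
        · exact e' _ (hyb 0)
        · exact e' _ (hyb 1)
        · exact e _ _ b2 v0
        · exact e _ _ b3 v1
        · exact e' _ (hyb 4)
        · exact e' _ (hyb 5)
        · exact e' _ (hyb 6)
        · exact e' _ (hyb 7)
        · exact e' _ (hyb 8)
        · exact e _ _ b9 v2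
      have hN4Z : (0 : ℤ) ≤ (N : ℤ) ^ 4 := by positivity
      have hla : |lead y v| ≤ 75 * (N : ℤ) ^ 4 := by
        simp only [lead]
        rw [abs_mul]
        have hVV : ∀ i j, |v i * v j| ≤ 3 * (N : ℤ) := by
          intro i j
          rw [abs_mul]
          have := mul_le_mul (hvV i) (hvV j) (abs_nonneg _) (by positivity : (0 : ℤ) ≤ (V : ℤ))
          have h2 : (V : ℤ) * V ≤ 3 * N := by exact_mod_cast hVsq
          omega
        have f1 : |4 * v 0 * v 1 + v 2 ^ 2| ≤ 15 * (N : ℤ) := by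
          have a1 := hVV 0 1
          have a2 := hVV 2 2
          have a3 := abs_add_le (4 * (v 0 * v 1)) (v 2 * v 2)
          rw [abs_mul 4, abs_of_pos (by norm_num : (0 : ℤ) < 4)] at a3
          have a4 : 4 * v 0 * v 1 + v 2 ^ 2 = 4 * (v 0 * v 1) + v 2 * v 2 := by ring
          rw [a4]; omega
        have f2 : |4 * y 0 * y 1 + y 6 ^ 2| ≤ 5 * (N : ℤ) ^ 2 := by
          have a1 : |y 0 * y 1| ≤ (N : ℤ) ^ 2 := by
            rw [abs_mul, sq]; exact mul_le_mul hy0 hy1 (abs_nonneg _) (by positivity)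
          have a2 : |y 6 * y 6| ≤ (N : ℤ) ^ 2 := by
            rw [abs_mul, sq]; exact mul_le_mul hy6 hy6 (abs_nonneg _) (by positivity)
          have a3 := abs_add_le (4 * (y 0 * y 1)) (y 6 * y 6)
          rw [abs_mul 4, abs_of_pos (by norm_num : (0 : ℤ) < 4)] at a3
          have a4 : 4 * y 0 * y 1 + y 6 ^ 2 = 4 * (y 0 * y 1) + y 6 * y 6 := by ring
          rw [a4]; omega
        calc |4 * v 0 * v 1 + v 2 ^ 2| * |4 * y 0 * y 1 + y 6 ^ 2|
            ≤ (15 * (N : ℤ)) * (5 * (N : ℤ) ^ 2) := mul_le_mul f1 f2 (abs_nonneg _) (by positivity)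
          _ = 75 * (N : ℤ) ^ 3 := by ring
          _ ≤ 75 * (N : ℤ) ^ 4 := by
              have : (N : ℤ) ^ 3 ≤ (N : ℤ) ^ 4 := pow_le_pow_right₀ hNZ (by norm_num)
              omega
      have hli : |linc y v| ≤ 10 ^ 6 * (N : ℤ) ^ 4 := by
        simp only [linc]
        have a1 := abs_sub ((SS (sh y v 1)).det - (SS y).det) (lead y v)
        have a2 := abs_sub ((SS (sh y v 1)).det) ((SS y).det)
        have e1 : 24 * (2 * (6 * (N : ℤ))) ^ 4 = 497664 * (N : ℤ) ^ 4 := by ring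
        have e2 : 24 * (2 * (4 * (N : ℤ))) ^ 4 = 98304 * (N : ℤ) ^ 4 := by ring
        rw [e1] at hdy1
        rw [e2] at hdy
        linarith
      have hdy' : |(SS y).det| ≤ 10 ^ 6 * (N : ℤ) ^ 4 := by
        have e2 : 24 * (2 * (4 * (N : ℤ))) ^ 4 = 98304 * (N : ℤ) ^ 4 := by ring
        rw [e2] at hdy; linarith
      have hla' : |lead y v| ≤ 10 ^ 6 * (N : ℤ) ^ 4 := by linarith
      have hq := hquad (lead y v) (linc y v) ((SS y).det) L
        ((X.filter (fun x => lam x = y)).image τ) hL1 (by rw [hL]; exact_mod_cast hla')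
        (by rw [hL]; exact_mod_cast hli) (by rw [hL]; exact_mod_cast hdy')
        (by rw [hlead]; exact ha0) hΔ hT
      refine hq.trans ?_
      apply mul_le_mul_of_nonneg_right _ (by positivity)
      linarith
  have hsum : (X.card : ℝ) = ∑ y ∈ Y, ((X.filter (fun x => lam x = y)).card : ℝ) := by
    have := Finset.card_eq_sum_card_image lam X
    exact_mod_cast this
  have hLe : L ^ (ε / 8) = (10 ^ 6 : ℝ) ^ (ε / 8) * (N : ℝ) ^ (ε / 2) := by
    rw [hL, Real.mul_rpow (by norm_num) (by positivity), ← Real.rpow_natCast (N : ℝ) 4,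
      ← Real.rpow_mul hN0]
    congr 2; push_cast; ring
  have hfin : (N : ℝ) ^ (ε / 2) * ((N : ℝ) ^ (5 / 2 : ℝ) * (N : ℝ) ^ (2 + ε / 2)) =
      (N : ℝ) ^ (9 / 2 + ε) := by
    rw [← Real.rpow_add (by linarith), ← Real.rpow_add (by linarith)]; congr 1; ring
  rw [hsum]
  calc ∑ y ∈ Y, ((X.filter (fun x => lam x = y)).card : ℝ)
      ≤ ∑ _y ∈ Y, ((c2 + 1) * L ^ (ε / 8)) := Finset.sum_le_sum hfib
    _ = Y.card * ((c2 + 1) * L ^ (ε / 8)) := by rw [Finset.sum_const, nsmul_eq_mul]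
    _ ≤ ((boxA (4 * N) k |v k|).card * (c1 * (N : ℝ) ^ (2 + ε / 2))) * ((c2 + 1) * L ^ (ε / 8)) :=
        mul_le_mul_of_nonneg_right hYc (by positivity)
    _ ≤ (162 * (N : ℝ) ^ (5 / 2 : ℝ) * (c1 * (N : ℝ) ^ (2 + ε / 2))) * ((c2 + 1) * L ^ (ε / 8)) := by
        apply mul_le_mul_of_nonneg_right _ (by positivity)
        exact mul_le_mul_of_nonneg_right hAc (by positivity)
    _ = (c2 + 1) * (10 ^ 6 : ℝ) ^ (ε / 8) * (162 * c1) *
          ((N : ℝ) ^ (ε / 2) * ((N : ℝ) ^ (5 / 2 : ℝ) * (N : ℝ) ^ (2 + ε / 2))) := by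
        rw [hLe]; ring
    _ = _ := by rw [hfin]

end Pool.Agent.PP5L
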