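import Pool.Agent.PP5.SGood

namespace Pool.Agent.PP5L

theorem orth_count (N : ℕ) (v : Fin 3 → ℤ) (hv : v ≠ 0) (S : Finset (ℤ × (ℤ × ℤ)))
    (hS : ∀ w ∈ S, |w.1| ≤ N ∧ |w.2.1| ≤ N ∧ |w.2.2| ≤ N ∧
      w.2.1 * v 0 - w.2.2 * v 1 - w.1 * v 2 = 0) : S.card ≤ (2 * N + 1) ^ 2 := by
  have hP : ((bxN N) ×ˢ (bxN N)).card = (2 * N + 1) ^ 2 := by
    rw [Finset.card_product, card_bxN]; ring
  rw [← hP]
  by_cases h0 : v 0 = 0
  · by_cases h1 : v 1 = 0
    · have h2 : v 2 ≠ 0 := by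
        intro h2; apply hv; funext i; fin_cases i <;> assumption
      apply Finset.card_le_card_of_injOn (fun w => (w.2.1, w.2.2))
      · intro w hw
        exact Finset.mem_product.2 ⟨mem_bxN.2 (hS w hw).2.1, mem_bxN.2 (hS w hw).2.2.1⟩
      · intro w hw w' hw' h
        simp only [Prod.mk.injEq] at h
        have e1 := (hS w hw).2.2.2
        have e2 := (hS w' hw').2.2.2
        refine Prod.ext (mul_right_cancel₀ h2 ?_) (Prod.ext h.1 h.2)
        rw [h.1, h.2] at e1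
        linarith
    · apply Finset.card_le_card_of_injOn (fun w => (w.1, w.2.1))
      · intro w hw
        exact Finset.mem_product.2 ⟨mem_bxN.2 (hS w hw).1, mem_bxN.2 (hS w hw).2.1⟩
      · intro w hw w' hw' h
        simp only [Prod.mk.injEq] at h
        have e1 := (hS w hw).2.2.2
        have e2 := (hS w' hw').2.2.2
        refine Prod.ext h.1 (Prod.ext h.2 (mul_right_cancel₀ h1 ?_))
        rw [h.1, h.2] at e1
        linarith
  · apply Finset.card_le_card_of_injOn (fun w => (w.1, w.2.2))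
    · intro w hw
      exact Finset.mem_product.2 ⟨mem_bxN.2 (hS w hw).1, mem_bxN.2 (hS w hw).2.2.1⟩
    · intro w hw w' hw' h
      simp only [Prod.mk.injEq] at h
      have e1 := (hS w hw).2.2.2
      have e2 := (hS w' hw').2.2.2
      refine Prod.ext h.1 (Prod.ext (mul_right_cancel₀ h0 ?_) h.2)
      rw [h.1, h.2] at e1
      linarith

/-- the form `4 v0 v1 + v2^2` -/
def fv (v : Fin 3 → ℤ) : ℤ := 4 * v 0 * v 1 + v 2 ^ 2

/-- the form `4 a b + c^2` -/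
def mw (w : ℤ × (ℤ × ℤ)) : ℤ := 4 * w.2.1 * w.2.2 + w.1 ^ 2

theorem bad_count {ε : ℝ} (hε : 0 < ε) : ∃ C : ℝ, 0 < C ∧ ∀ (N : ℕ) (vf : ℤ × (ℤ × ℤ) → Fin 3 → ℤ)
    (S : Finset (ℤ × (ℤ × ℤ))), 1 ≤ N →
    (∀ w ∈ S, |w.1| ≤ N ∧ |w.2.1| ≤ N ∧ |w.2.2| ≤ N ∧ vf w ≠ 0 ∧
      w.2.1 * vf w 0 - w.2.2 * vf w 1 - w.1 * vf w 2 = 0 ∧
      (∀ i, |vf w i| ≤ (Nat.sqrt (3 * N) : ℕ)) ∧
      (w.2.1 * w.2.2 = 0 ∨ mw w = 0 ∨ fv (vf w) = 0 ∨ IsSquare (fv (vf w) * mw w))) →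
    (S.card : ℝ) ≤ C * (N : ℝ) ^ (5 / 2 + ε) := by
  obtain ⟨c1, hc1, hiso⟩ := iso_count hε
  obtain ⟨c2, hc2, hsq⟩ := sqw_count hε
  refine ⟨18 + c1 + 9 * (c1 * (2 * 2 ^ ε)) + c2 * 4, by positivity, ?_⟩
  intro N vf S hN hS
  have hN1 : (1 : ℝ) ≤ N := by exact_mod_cast hN
  have hN0 : (0 : ℝ) ≤ N := by linarith
  set V : ℕ := Nat.sqrt (3 * N) with hV
  have hVsq : V * V ≤ 3 * N := Nat.sqrt_le (3 * N)
  have hV1 : 1 ≤ V := by rw [hV, Nat.le_sqrt]; omega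
  have hVr : (V : ℝ) ≤ 2 * (N : ℝ) ^ (1 / 2 : ℝ) := by
    rw [← Real.sqrt_eq_rpow]
    have : (V : ℝ) ^ 2 ≤ (2 * √(N : ℝ)) ^ 2 := by
      rw [mul_pow, Real.sq_sqrt hN0]
      have : ((V * V : ℕ) : ℝ) ≤ ((3 * N : ℕ) : ℝ) := by exact_mod_cast hVsq
      push_cast at this
      nlinarith
    exact le_of_sq_le_sq this (by positivity)
  set S1 := S.filter (fun w => w.2.1 * w.2.2 = 0) with hS1
  set S2 := S.filter (fun w => mw w = 0) with hS2
  set S3 := S.filter (fun w => fv (vf w) = 0) with hS3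
  set S4 := S.filter (fun w => w.2.1 * w.2.2 ≠ 0 ∧ mw w ≠ 0 ∧ fv (vf w) ≠ 0 ∧
    IsSquare (fv (vf w) * mw w)) with hS4
  have hcov : S ⊆ S1 ∪ S2 ∪ S3 ∪ S4 := by
    intro w hw
    have h := (hS w hw).2.2.2.2.2.2
    simp only [hS1, hS2, hS3, hS4, Finset.mem_union, Finset.mem_filter]
    by_cases h1 : w.2.1 * w.2.2 = 0
    · exact Or.inl (Or.inl (Or.inl ⟨hw, h1⟩))
    by_cases h2 : mw w = 0
    · exact Or.inl (Or.inl (Or.inr ⟨hw, h2⟩))
    by_cases h3 : fv (vf w) = 0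
    · exact Or.inl (Or.inr ⟨hw, h3⟩)
    rcases h with h | h | h | h
    · exact absurd h h1
    · exact absurd h h2
    · exact absurd h h3
    · exact Or.inr ⟨hw, h1, h2, h3, h⟩
  have hle : (S.card : ℝ) ≤ S1.card + S2.card + S3.card + S4.card := by
    have h1 := Finset.card_le_card hcov
    have h2 := Finset.card_union_le (S1 ∪ S2 ∪ S3) S4
    have h3 := Finset.card_union_le (S1 ∪ S2) S3
    have h4 := Finset.card_union_le S1 S2
    have : S.card ≤ S1.card + S2.card + S3.card + S4.card := by omega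
    exact_mod_cast this
  have hpow : ∀ a : ℝ, a ≤ 5 / 2 + ε → (N : ℝ) ^ a ≤ (N : ℝ) ^ (5 / 2 + ε) :=
    fun a ha => Real.rpow_le_rpow_of_exponent_le hN1 ha
  -- S1
  have b1 : (S1.card : ℝ) ≤ 18 * (N : ℝ) ^ (5 / 2 + ε) := by
    have hmaps : ∀ w ∈ S1, w.1 ∈ bxN N := fun w hw =>
      mem_bxN.2 (hS w (Finset.mem_filter.1 hw).1).1
    have hcard := Finset.card_eq_sum_card_fiberwise hmaps
    have hfib : ∀ q ∈ bxN N, (S1.filter (fun w => w.1 = q)).card ≤ 4 * N + 2 := by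
      intro q _
      have hinj : Set.InjOn (fun w : ℤ × (ℤ × ℤ) => w.2) (S1.filter (fun w => w.1 = q)) := by
        intro p hp p' hp' h
        exact Prod.ext (by rw [(Finset.mem_filter.1 hp).2, (Finset.mem_filter.1 hp').2]) h
      rw [← Finset.card_image_of_injOn hinj]
      apply prod_crude N 0
      intro r hr
      rw [Finset.mem_image] at hr
      obtain ⟨w, hw, rfl⟩ := hr
      have hw1 := Finset.mem_filter.1 (Finset.mem_filter.1 hw).1
      have := hS w hw1.1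
      exact ⟨hw1.2, this.2.1, this.2.2.1⟩
    have h1 : S1.card ≤ (2 * N + 1) * (4 * N + 2) := by
      rw [hcard]
      calc _ ≤ ∑ _q ∈ bxN N, (4 * N + 2) := Finset.sum_le_sum hfib
        _ = _ := by rw [Finset.sum_const, card_bxN]; rfl
    have h2 : (S1.card : ℝ) ≤ (2 * N + 1) * (4 * N + 2) := by exact_mod_cast h1
    have h3 : (N : ℝ) ^ (2 : ℝ) ≤ (N : ℝ) ^ (5 / 2 + ε) := hpow 2 (by linarith)
    have h4 : (N : ℝ) ^ (2 : ℝ) = (N : ℝ) ^ 2 := by norm_num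
    rw [h4] at h3
    nlinarith
  -- S2
  have b2 : (S2.card : ℝ) ≤ c1 * (N : ℝ) ^ (5 / 2 + ε) := by
    have h1 := hiso N S2 hN (by
      intro w hw
      obtain ⟨hw1, hw2⟩ := Finset.mem_filter.1 hw
      have := hS w hw1
      exact ⟨this.1, this.2.1, this.2.2.1, hw2⟩)
    refine h1.trans (mul_le_mul_of_nonneg_left (hpow _ (by linarith)) hc1.le)
  -- S3
  have b3 : (S3.card : ℝ) ≤ 9 * (c1 * (2 * 2 ^ ε)) * (N : ℝ) ^ (5 / 2 + ε) := by
    set g : ℤ × (ℤ × ℤ) → ℤ × (ℤ × ℤ) := fun w => (vf w 2, (vf w 0, vf w 1)) with hg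
    have hfib : ∀ q ∈ S3.image g, ((S3.filter (fun w => g w = q)).card : ℝ) ≤ 9 * (N : ℝ) ^ 2 := by
      intro q hq
      rw [Finset.mem_image] at hq
      obtain ⟨w0, hw0, hw0q⟩ := hq
      have hw0S := (Finset.mem_filter.1 hw0).1
      have h1 := orth_count N (vf w0) (hS w0 hw0S).2.2.2.1 (S3.filter (fun w => g w = q)) (by
        intro w hw
        obtain ⟨hw1, hw2⟩ := Finset.mem_filter.1 hw
        have hwS := (Finset.mem_filter.1 hw1).1
        obtain ⟨a1, a2, a3, -, a5, -⟩ := hS w hwS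
        rw [← hw0q] at hw2
        simp only [hg, Prod.mk.injEq] at hw2
        refine ⟨a1, a2, a3, ?_⟩
        rw [← hw2.1, ← hw2.2.1, ← hw2.2.2]; exact a5)
      have h2 : ((S3.filter (fun w => g w = q)).card : ℝ) ≤ (2 * N + 1) ^ 2 := by exact_mod_cast h1
      nlinarith
    have himg := hiso V (S3.image g) hV1 (by
      intro q hq
      rw [Finset.mem_image] at hq
      obtain ⟨w, hw, rfl⟩ := hq
      obtain ⟨hwS, hw0⟩ := Finset.mem_filter.1 hw
      have h6 := (hS w hwS).2.2.2.2.2.1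
      refine ⟨h6 2, h6 0, h6 1, ?_⟩
      simpa [fv] using hw0)
    have hsum : (S3.card : ℝ) = ∑ q ∈ S3.image g, ((S3.filter (fun w => g w = q)).card : ℝ) := by
      have := Finset.card_eq_sum_card_image g S3
      exact_mod_cast this
    have hVp : (V : ℝ) ^ (1 + ε) ≤ 2 * 2 ^ ε * (N : ℝ) ^ (1 / 2 + ε) := by
      calc (V : ℝ) ^ (1 + ε) ≤ (2 * (N : ℝ) ^ (1 / 2 : ℝ)) ^ (1 + ε) :=
            Real.rpow_le_rpow (Nat.cast_nonneg _) hVr (by linarith)
        _ = 2 * 2 ^ ε * (N : ℝ) ^ ((1 / 2 : ℝ) * (1 + ε)) := by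
            rw [Real.mul_rpow (by norm_num) (by positivity), ← Real.rpow_mul hN0,
              Real.rpow_add (by norm_num), Real.rpow_one]
        _ ≤ _ := by
            apply mul_le_mul_of_nonneg_left _ (by positivity)
            exact Real.rpow_le_rpow_of_exponent_le hN1 (by linarith)
    rw [hsum]
    calc _ ≤ ∑ _q ∈ S3.image g, 9 * (N : ℝ) ^ 2 := Finset.sum_le_sum hfib
      _ = (S3.image g).card * (9 * (N : ℝ) ^ 2) := by rw [Finset.sum_const, nsmul_eq_mul]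
      _ ≤ (c1 * (2 * 2 ^ ε * (N : ℝ) ^ (1 / 2 + ε))) * (9 * (N : ℝ) ^ 2) := by
          apply mul_le_mul_of_nonneg_right _ (by positivity)
          exact himg.trans (mul_le_mul_of_nonneg_left hVp hc1.le)
      _ = 9 * (c1 * (2 * 2 ^ ε)) * ((N : ℝ) ^ (1 / 2 + ε) * (N : ℝ) ^ 2) := by ring
      _ = _ := by
          congr 1
          rw [← Real.rpow_natCast (N : ℝ) 2, ← Real.rpow_add (by linarith)]
          congr 1; push_cast; ring
  -- S4
  have b4 : (S4.card : ℝ) ≤ c2 * 4 * (N : ℝ) ^ (5 / 2 + ε) := by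
    have h1 := hsq N (15 * N) (fun w => fv (vf w)) S4 hN (by
      intro w hw
      obtain ⟨hwS, h1, h2, h3, h4⟩ := Finset.mem_filter.1 hw
      obtain ⟨a1, a2, a3, -, -, a6, -⟩ := hS w hwS
      refine ⟨a1, a2, a3, h1, h3, ?_, h2, h4⟩
      have hVV : ∀ i j, |vf w i * vf w j| ≤ 3 * (N : ℤ) := by
        intro i j
        rw [abs_mul]
        have := mul_le_mul (a6 i) (a6 j) (abs_nonneg _) (by positivity : (0 : ℤ) ≤ (V : ℤ))
        have h2 : (V : ℤ) * V ≤ 3 * N := by exact_mod_cast hVsq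
        omega
      have e1 := hVV 0 1
      have e2 := hVV 2 2
      have e3 := abs_add_le (4 * (vf w 0 * vf w 1)) (vf w 2 * vf w 2)
      rw [abs_mul 4, abs_of_pos (by norm_num : (0 : ℤ) < 4)] at e3
      have e4 : fv (vf w) = 4 * (vf w 0 * vf w 1) + vf w 2 * vf w 2 := by simp only [fv]; ring
      rw [e4]; push_cast; omega)
    have h2 : √((15 * N : ℕ) : ℝ) ≤ 4 * (N : ℝ) ^ (1 / 2 : ℝ) := by
      rw [← Real.sqrt_eq_rpow]
      push_cast
      rw [Real.sqrt_mul (by norm_num)]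
      apply mul_le_mul_of_nonneg_right _ (Real.sqrt_nonneg _)
      rw [Real.sqrt_le_left (by norm_num)]; norm_num
    refine h1.trans ?_
    calc c2 * (N : ℝ) ^ (2 + ε) * √((15 * N : ℕ) : ℝ)
        ≤ c2 * (N : ℝ) ^ (2 + ε) * (4 * (N : ℝ) ^ (1 / 2 : ℝ)) :=
          mul_le_mul_of_nonneg_left h2 (by positivity)
      _ = c2 * 4 * ((N : ℝ) ^ (2 + ε) * (N : ℝ) ^ (1 / 2 : ℝ)) := by ring
      _ = _ := by
          congr 1
          rw [← Real.rpow_add (by linarith)]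
          congr 1; ring
  have : (S.card : ℝ) ≤ (18 + c1 + 9 * (c1 * (2 * 2 ^ ε)) + c2 * 4) * (N : ℝ) ^ (5 / 2 + ε) := by
    linarith
  exact this

/-- (a3): the number of isotropic `x` in the box of side `N` with `det S(x)` a square (or zero) -/
theorem sq_x_count {ε : ℝ} (hε : 0 < ε) : ∃ C : ℝ, 0 < C ∧ ∀ (N : ℕ) (X : Finset (Fin 10 → ℤ)),
    1 ≤ N → (∀ x ∈ X, (∀ j, |x j| ≤ N) ∧ FF x = 0 ∧ IsSquare (SS x).det) →
    (X.card : ℝ) ≤ C * (N : ℝ) ^ (15 / 2 + ε) := by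
  obtain ⟨c1, hc1, hgood⟩ := good_w hε
  obtain ⟨c2, hc2, hbad⟩ := bad_count (ε := ε / 2) (by positivity)
  obtain ⟨c3, hc3, hfix⟩ := fix_w (ε := ε / 2) (by positivity)
  refine ⟨27 * c1 + c2 * (27 * c3), by positivity, ?_⟩
  intro N X hN hX
  have hN1 : (1 : ℝ) ≤ N := by exact_mod_cast hN
  have hN0 : (0 : ℝ) ≤ N := by linarith
  set W := X.image wx with hW
  have hWb : ∀ w ∈ W, |w.1| ≤ N ∧ |w.2.1| ≤ N ∧ |w.2.2| ≤ N := by
    intro w hw
    rw [hW, Finset.mem_image] at hw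
    obtain ⟨x, hx, rfl⟩ := hw
    have := (hX x hx).1
    exact ⟨this 6, this 0, this 1⟩
  choose! vf hv0 hvo hvV using fun w (hw : w ∈ W) =>
    siegel3 N hN w (hWb w hw).1 (hWb w hw).2.1 (hWb w hw).2.2
  set Bad : ℤ × (ℤ × ℤ) → Prop := fun w => w.2.1 * w.2.2 = 0 ∨ mw w = 0 ∨ fv (vf w) = 0 ∨
    IsSquare (fv (vf w) * mw w) with hBad
  classical
  have hsum : (X.card : ℝ) = ∑ w ∈ W, ((X.filter (fun x => wx x = w)).card : ℝ) := by
    have := Finset.card_eq_sum_card_image wx X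
    exact_mod_cast this
  have hsplit : ∑ w ∈ W, ((X.filter (fun x => wx x = w)).card : ℝ) =
      ∑ w ∈ W.filter Bad, ((X.filter (fun x => wx x = w)).card : ℝ) +
      ∑ w ∈ W.filter (fun w => ¬ Bad w), ((X.filter (fun x => wx x = w)).card : ℝ) :=
    (Finset.sum_filter_add_sum_filter_not W _ _).symm
  have hWc : ((W.filter (fun w => ¬ Bad w)).card : ℝ) ≤ 27 * (N : ℝ) ^ 3 := by
    have h1 : W.filter (fun w => ¬ Bad w) ⊆ bxN N ×ˢ (bxN N ×ˢ bxN N) := by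
      intro w hw
      have := hWb w (Finset.mem_filter.1 hw).1
      exact Finset.mem_product.2 ⟨mem_bxN.2 this.1, Finset.mem_product.2
        ⟨mem_bxN.2 this.2.1, mem_bxN.2 this.2.2⟩⟩
    have h2 := Finset.card_le_card h1
    rw [Finset.card_product, Finset.card_product, card_bxN] at h2
    have h3 : ((W.filter (fun w => ¬ Bad w)).card : ℝ) ≤ (2 * N + 1) * ((2 * N + 1) * (2 * N + 1)) := by
      exact_mod_cast h2
    have h4 : (2 * (N : ℝ) + 1) ≤ 3 * N := by linarith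
    calc _ ≤ (2 * (N : ℝ) + 1) * ((2 * N + 1) * (2 * N + 1)) := h3
      _ ≤ (3 * N) * ((3 * N) * (3 * N)) := by gcongr
      _ = _ := by ring
  have hg : ∀ w ∈ W.filter (fun w => ¬ Bad w), ((X.filter (fun x => wx x = w)).card : ℝ) ≤
      c1 * (N : ℝ) ^ (9 / 2 + ε) := by
    intro w hw
    obtain ⟨hwW, hnb⟩ := Finset.mem_filter.1 hw
    simp only [hBad, not_or] at hnb
    obtain ⟨n1, n2, n3, n4⟩ := hnb
    apply hgood N _ w (vf w) hN (hv0 w hwW) (hvo w hwW) (hvV w hwW)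
    · exact mul_ne_zero n3 n2
    · exact n4
    · intro x hx
      obtain ⟨hx1, hx2⟩ := Finset.mem_filter.1 hx
      exact ⟨(hX x hx1).1, (hX x hx1).2.1, hx2, (hX x hx1).2.2⟩
  have hb : ∀ w ∈ W.filter Bad, ((X.filter (fun x => wx x = w)).card : ℝ) ≤
      27 * c3 * (N : ℝ) ^ (5 + ε / 2) := by
    intro w hw
    have h1 := hfix N (X.filter (fun x => wx x = w)) w (bxN N ×ˢ (bxN N ×ˢ bxN N)) hN (by
      intro x hx
      obtain ⟨hx1, hx2⟩ := Finset.mem_filter.1 hx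
      have hb := (hX x hx1).1
      refine ⟨fun j => ?_, hb 0, hb 1, hb 6, hb 4, hb 5, hb 7, hb 8, (hX x hx1).2.1, hx2, ?_⟩
      · have := hb j; omega
      · exact Finset.mem_product.2 ⟨mem_bxN.2 (hb 2), Finset.mem_product.2
          ⟨mem_bxN.2 (hb 3), mem_bxN.2 (hb 9)⟩⟩)
    rw [Finset.card_product, Finset.card_product, card_bxN] at h1
    have h2 : (((2 * N + 1) * ((2 * N + 1) * (2 * N + 1)) : ℕ) : ℝ) ≤ 27 * (N : ℝ) ^ 3 := by
      push_cast
      have h4 : (2 * (N : ℝ) + 1) ≤ 3 * N := by linarith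
      calc (2 * (N : ℝ) + 1) * ((2 * N + 1) * (2 * N + 1)) ≤ (3 * N) * ((3 * N) * (3 * N)) := by gcongr
        _ = _ := by ring
    calc _ ≤ (((2 * N + 1) * ((2 * N + 1) * (2 * N + 1)) : ℕ) : ℝ) * (c3 * (N : ℝ) ^ (2 + ε / 2)) := h1
      _ ≤ 27 * (N : ℝ) ^ 3 * (c3 * (N : ℝ) ^ (2 + ε / 2)) :=
          mul_le_mul_of_nonneg_right h2 (by positivity)
      _ = 27 * c3 * ((N : ℝ) ^ 3 * (N : ℝ) ^ (2 + ε / 2)) := by ring
      _ = _ := by
          congr 1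
          rw [← Real.rpow_natCast (N : ℝ) 3, ← Real.rpow_add (by linarith)]
          congr 1; push_cast; ring
  have hbc := hbad N vf (W.filter Bad) hN (by
    intro w hw
    obtain ⟨hwW, hbw⟩ := Finset.mem_filter.1 hw
    obtain ⟨a1, a2, a3⟩ := hWb w hwW
    exact ⟨a1, a2, a3, hv0 w hwW, hvo w hwW, hvV w hwW, hbw⟩)
  have hG : ∑ w ∈ W.filter (fun w => ¬ Bad w), ((X.filter (fun x => wx x = w)).card : ℝ) ≤
      27 * c1 * (N : ℝ) ^ (15 / 2 + ε) := by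
    calc _ ≤ ∑ _w ∈ W.filter (fun w => ¬ Bad w), (c1 * (N : ℝ) ^ (9 / 2 + ε)) :=
          Finset.sum_le_sum hg
      _ = (W.filter (fun w => ¬ Bad w)).card * (c1 * (N : ℝ) ^ (9 / 2 + ε)) := by
          rw [Finset.sum_const, nsmul_eq_mul]
      _ ≤ 27 * (N : ℝ) ^ 3 * (c1 * (N : ℝ) ^ (9 / 2 + ε)) :=
          mul_le_mul_of_nonneg_right hWc (by positivity)
      _ = 27 * c1 * ((N : ℝ) ^ 3 * (N : ℝ) ^ (9 / 2 + ε)) := by ring
      _ = _ := by
          congr 1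
          rw [← Real.rpow_natCast (N : ℝ) 3, ← Real.rpow_add (by linarith)]
          congr 1; push_cast; ring
  have hB : ∑ w ∈ W.filter Bad, ((X.filter (fun x => wx x = w)).card : ℝ) ≤
      c2 * (27 * c3) * (N : ℝ) ^ (15 / 2 + ε) := by
    calc _ ≤ ∑ _w ∈ W.filter Bad, (27 * c3 * (N : ℝ) ^ (5 + ε / 2)) := Finset.sum_le_sum hb
      _ = (W.filter Bad).card * (27 * c3 * (N : ℝ) ^ (5 + ε / 2)) := by
          rw [Finset.sum_const, nsmul_eq_mul]
      _ ≤ c2 * (N : ℝ) ^ (5 / 2 + ε / 2) * (27 * c3 * (N : ℝ) ^ (5 + ε / 2)) :=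
          mul_le_mul_of_nonneg_right hbc (by positivity)
      _ = c2 * (27 * c3) * ((N : ℝ) ^ (5 / 2 + ε / 2) * (N : ℝ) ^ (5 + ε / 2)) := by ring
      _ = _ := by
          congr 1
          rw [← Real.rpow_add (by linarith)]
          congr 1; ring
  rw [hsum, hsplit]
  linarith

end Pool.Agent.PP5L
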