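import Mathlib

/-!
# Solutions of `X^2 - d Y^2 = 4` in a box
-/

namespace Pool.Agent.PP5L

/-- a set of positive integers with ratio `≥ 5/4` between any two has at most `1 + 5 log B` elements -/
theorem gap_card (S : Finset ℕ) (B : ℝ) (h1 : ∀ x ∈ S, 1 ≤ x ∧ (x : ℝ) ≤ B)
    (hg : ∀ x ∈ S, ∀ y ∈ S, x < y → 5 * x ≤ 4 * y) (hB : 1 ≤ B) :
    (S.card : ℝ) ≤ 1 + 5 * Real.log B := by
  have hlog : (1 : ℝ) / 5 ≤ Real.log (5 / 4) := by
    have := Real.one_sub_inv_le_log_of_pos (x := 5 / 4) (by norm_num)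
    norm_num at this ⊢
    linarith
  have hL0 : 0 ≤ Real.log B := Real.log_nonneg hB
  set f : ℕ → ℕ := fun x => ⌊5 * Real.log x⌋₊ with hf
  have hinj : Set.InjOn f S := by
    intro x hx y hy hxy
    by_contra hne
    have key : ∀ u ∈ S, ∀ v ∈ S, u < v → f u < f v := by
      intro u hu v hv huv
      have h54 := hg u hu v hv huv
      have hu1 : (1 : ℝ) ≤ u := by exact_mod_cast (h1 u hu).1
      have hv1 : (1 : ℝ) ≤ v := by exact_mod_cast (h1 v hv).1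
      have h54' : (5 / 4 : ℝ) * u ≤ v := by
        have : (5 : ℝ) * u ≤ 4 * v := by exact_mod_cast h54
        linarith
      have h2 : Real.log (5 / 4) + Real.log u ≤ Real.log v := by
        rw [← Real.log_mul (by norm_num) (by positivity)]
        exact Real.log_le_log (by positivity) h54'
      have h3 : 5 * Real.log u + 1 ≤ 5 * Real.log v := by linarith
      simp only [hf]
      have h4 : 0 ≤ 5 * Real.log (u : ℝ) := by
        have := Real.log_nonneg hu1; linarith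
      have h5 : ⌊5 * Real.log (u : ℝ)⌋₊ + 1 = ⌊5 * Real.log (u : ℝ) + 1⌋₊ :=
        (Nat.floor_add_one h4).symm
      calc ⌊5 * Real.log (u : ℝ)⌋₊ < ⌊5 * Real.log (u : ℝ)⌋₊ + 1 := Nat.lt_succ_self _
        _ = ⌊5 * Real.log (u : ℝ) + 1⌋₊ := h5
        _ ≤ ⌊5 * Real.log (v : ℝ)⌋₊ := Nat.floor_le_floor h3
    rcases lt_or_gt_of_ne hne with h | h
    · exact absurd hxy (ne_of_lt (key x hx y hy h))
    · exact absurd hxy.symm (ne_of_lt (key y hy x hx h))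
  have hmaps : ∀ x ∈ S, f x ∈ Finset.range (⌊5 * Real.log B⌋₊ + 1) := by
    intro x hx
    rw [Finset.mem_range]
    have hx1 : (1 : ℝ) ≤ x := by exact_mod_cast (h1 x hx).1
    have : Real.log x ≤ Real.log B := Real.log_le_log (by positivity) (h1 x hx).2
    exact Nat.lt_succ_of_le (Nat.floor_le_floor (by linarith))
  have hc := Finset.card_le_card_of_injOn f hmaps hinj
  rw [Finset.card_range] at hc
  have h6 : ((⌊5 * Real.log B⌋₊ : ℕ) : ℝ) ≤ 5 * Real.log B := Nat.floor_le (by positivity)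
  have : (S.card : ℝ) ≤ ((⌊5 * Real.log B⌋₊ + 1 : ℕ) : ℝ) := by exact_mod_cast hc
  push_cast at this
  linarith

/-- gap principle for positive solutions -/
theorem pell4_gap (d X1 Y1 X2 Y2 : ℤ) (hd : 1 ≤ d) (hX1 : 0 < X1) (hX2 : 0 < X2) (hY1 : 0 ≤ Y1)
    (hY2 : 0 ≤ Y2) (h1 : X1 ^ 2 - d * Y1 ^ 2 = 4) (h2 : X2 ^ 2 - d * Y2 ^ 2 = 4) (hlt : X1 < X2) :
    5 * X1 ≤ 4 * X2 := by
  -- T2 = X1 X2 - d Y1 Y2 > 0, U2 = X1 Y2 - X2 Y1 ≥ 0, T2^2 - d U2^2 = 16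
  have hid : (X1 * X2 - d * Y1 * Y2) ^ 2 - d * (X1 * Y2 - X2 * Y1) ^ 2 = 16 := by
    have : (X1 * X2 - d * Y1 * Y2) ^ 2 - d * (X1 * Y2 - X2 * Y1) ^ 2 =
      (X1 ^ 2 - d * Y1 ^ 2) * (X2 ^ 2 - d * Y2 ^ 2) := by ring
    rw [this, h1, h2]; norm_num
  have hU : 0 < X1 * Y2 - X2 * Y1 := by
    have hsq : (X2 * Y1) ^ 2 < (X1 * Y2) ^ 2 := by
      have e1 : d * (X1 * Y2) ^ 2 = X1 ^ 2 * (X2 ^ 2 - 4) := by
        have : d * Y2 ^ 2 = X2 ^ 2 - 4 := by linarith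
        calc d * (X1 * Y2) ^ 2 = X1 ^ 2 * (d * Y2 ^ 2) := by ring
          _ = _ := by rw [this]
      have e2 : d * (X2 * Y1) ^ 2 = X2 ^ 2 * (X1 ^ 2 - 4) := by
        have : d * Y1 ^ 2 = X1 ^ 2 - 4 := by linarith
        calc d * (X2 * Y1) ^ 2 = X2 ^ 2 * (d * Y1 ^ 2) := by ring
          _ = _ := by rw [this]
      have e3 : d * (X2 * Y1) ^ 2 < d * (X1 * Y2) ^ 2 := by
        rw [e1, e2]; nlinarith
      exact lt_of_mul_lt_mul_left e3 (by omega)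
    have h3 : X2 * Y1 < X1 * Y2 :=
      lt_of_pow_lt_pow_left₀ 2 (by positivity) hsq
    linarith
  have hT : 0 < X1 * X2 - d * Y1 * Y2 := by
    have hsq : (d * Y1 * Y2) ^ 2 < (X1 * X2) ^ 2 := by
      have e1 : (d * Y1 * Y2) ^ 2 = (X1 ^ 2 - 4) * (X2 ^ 2 - 4) := by
        have a : d * Y1 ^ 2 = X1 ^ 2 - 4 := by linarith
        have b : d * Y2 ^ 2 = X2 ^ 2 - 4 := by linarith
        calc (d * Y1 * Y2) ^ 2 = (d * Y1 ^ 2) * (d * Y2 ^ 2) := by ring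
          _ = _ := by rw [a, b]
      have a : 0 ≤ X1 ^ 2 - 4 := by nlinarith [sq_nonneg Y1]
      rw [e1, mul_pow]; nlinarith [sq_nonneg Y2, pow_pos hX1 2, pow_pos hX2 2]
    have h3 : d * Y1 * Y2 < X1 * X2 := lt_of_pow_lt_pow_left₀ 2 (by positivity) hsq
    linarith
  have hT5 : 5 ≤ X1 * X2 - d * Y1 * Y2 := by
    by_contra hlt5
    push Not at hlt5
    have h4 : X1 * X2 - d * Y1 * Y2 ≤ 4 := by omega
    have h5 : (X1 * X2 - d * Y1 * Y2) ^ 2 ≤ 16 := by nlinarith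
    have h6 : 0 < d * (X1 * Y2 - X2 * Y1) ^ 2 := by positivity
    linarith
  have hfin : 4 * X2 = (X1 * X2 - d * Y1 * Y2) * X1 + d * (X1 * Y2 - X2 * Y1) * Y1 := by
    have : (X1 * X2 - d * Y1 * Y2) * X1 + d * (X1 * Y2 - X2 * Y1) * Y1 =
      X2 * (X1 ^ 2 - d * Y1 ^ 2) := by ring
    rw [this, h1]; ring
  rw [hfin]
  have h7 : 0 ≤ d * (X1 * Y2 - X2 * Y1) * Y1 := by positivity
  nlinarith

end Pool.Agent.PP5L
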