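import Pool.Agent.PP5.SPellA

namespace Pool.Agent.PP5L

theorem pell4_card (d : ℤ) (hd : d ≠ 0) (B : ℝ) (hB : 1 ≤ B) (S : Finset (ℤ × ℤ))
    (hS : ∀ p ∈ S, p.1 ^ 2 - d * p.2 ^ 2 = 4 ∧ |(p.1 : ℝ)| ≤ B) :
    (S.card : ℝ) ≤ 25 * (1 + 5 * Real.log B) := by
  have hL0 : 0 ≤ Real.log B := Real.log_nonneg hB
  rcases lt_or_gt_of_ne hd with hneg | hpos
  · -- definite
    have hsub : S ⊆ (Finset.Icc (-2 : ℤ) 2) ×ˢ (Finset.Icc (-2 : ℤ) 2) := by
      intro p hp
      obtain ⟨h, -⟩ := hS p hp
      rw [Finset.mem_product, Finset.mem_Icc, Finset.mem_Icc]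
      have hx : p.1 ^ 2 ≤ 2 ^ 2 := by nlinarith [sq_nonneg p.2]
      have hy : p.2 ^ 2 ≤ 2 ^ 2 := by nlinarith [sq_nonneg p.1, sq_nonneg p.2]
      exact ⟨abs_le_of_sq_le_sq' hx (by norm_num), abs_le_of_sq_le_sq' hy (by norm_num)⟩
    have h25 := Finset.card_le_card hsub
    rw [Finset.card_product] at h25
    have : ((Finset.Icc (-2 : ℤ) 2).card : ℕ) = 5 := by decide
    rw [this] at h25
    have : (S.card : ℝ) ≤ 25 := by exact_mod_cast h25
    linarith
  · -- indefinite
    set T : Finset ℕ := S.image (fun p => p.1.natAbs) with hT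
    have hTc : (T.card : ℝ) ≤ 1 + 5 * Real.log B := by
      apply gap_card T B _ _ hB
      · intro x hx
        rw [hT, Finset.mem_image] at hx
        obtain ⟨p, hp, rfl⟩ := hx
        obtain ⟨h, hb⟩ := hS p hp
        refine ⟨?_, ?_⟩
        · have : p.1 ≠ 0 := by
            intro h0
            rw [h0] at h
            nlinarith [sq_nonneg p.2]
          omega
        · have : ((p.1.natAbs : ℕ) : ℝ) = |(p.1 : ℝ)| := by
            rw [Nat.cast_natAbs]; push_cast; rfl
          rw [this]; exact hb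
      · intro x hx y hy hlt
        rw [hT, Finset.mem_image] at hx hy
        obtain ⟨p, hp, rfl⟩ := hx
        obtain ⟨q, hq, rfl⟩ := hy
        obtain ⟨h, -⟩ := hS p hp
        obtain ⟨h', -⟩ := hS q hq
        have hp0 : p.1 ≠ 0 := by
          intro h0; rw [h0] at h; nlinarith [sq_nonneg p.2]
        have hq0 : q.1 ≠ 0 := by
          intro h0; rw [h0] at h'; nlinarith [sq_nonneg q.2]
        have := pell4_gap d |p.1| |p.2| |q.1| |q.2| (by omega) (abs_pos.2 hp0) (abs_pos.2 hq0)
          (abs_nonneg _) (abs_nonneg _) (by rw [sq_abs, sq_abs]; exact h)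
          (by rw [sq_abs, sq_abs]; exact h')
          (by rw [Int.abs_eq_natAbs, Int.abs_eq_natAbs]; exact_mod_cast hlt)
        rw [Int.abs_eq_natAbs, Int.abs_eq_natAbs] at this
        exact_mod_cast this
    have hfib : ∀ t ∈ T, (S.filter (fun p => p.1.natAbs = t)).card ≤ 4 := by
      intro t ht
      by_contra hgt
      push Not at hgt
      obtain ⟨p, hp⟩ : (S.filter (fun p => p.1.natAbs = t)).Nonempty :=
        Finset.card_pos.1 (by omega)
      rw [Finset.mem_filter] at hp
      have hsub : S.filter (fun p => p.1.natAbs = t) ⊆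
          ({p.1, -p.1} : Finset ℤ) ×ˢ ({p.2, -p.2} : Finset ℤ) := by
        intro q hq
        rw [Finset.mem_filter] at hq
        rw [Finset.mem_product]
        simp only [Finset.mem_insert, Finset.mem_singleton]
        have h1 : q.1 = p.1 ∨ q.1 = -p.1 := Int.natAbs_eq_natAbs_iff.1 (by rw [hq.2, hp.2])
        refine ⟨h1, ?_⟩
        have e1 := (hS p hp.1).1
        have e2 := (hS q hq.1).1
        have e3 : q.1 ^ 2 = p.1 ^ 2 := by rcases h1 with h | h <;> rw [h]; ring
        have e4 : d * q.2 ^ 2 = d * p.2 ^ 2 := by linarith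
        have e5 : q.2 ^ 2 = p.2 ^ 2 := mul_left_cancel₀ hd e4
        exact sq_eq_sq_iff_eq_or_eq_neg.1 e5
      have h4 := Finset.card_le_card hsub
      rw [Finset.card_product] at h4
      have ha : ({p.1, -p.1} : Finset ℤ).card ≤ 2 := Finset.card_le_two
      have hb : ({p.2, -p.2} : Finset ℤ).card ≤ 2 := Finset.card_le_two
      have : ({p.1, -p.1} : Finset ℤ).card * ({p.2, -p.2} : Finset ℤ).card ≤ 2 * 2 :=
        Nat.mul_le_mul ha hb
      omega
    have hle : S.card ≤ 4 * T.card := by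
      have := Finset.card_le_mul_card_image (f := fun p : ℤ × ℤ => p.1.natAbs) S 4
        (fun b hb => hfib b hb)
      simpa [hT] using this
    have : (S.card : ℝ) ≤ 4 * T.card := by exact_mod_cast hle
    nlinarith

end Pool.Agent.PP5L
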