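import Pool.Agent.PP5.SPellB

namespace Pool.Agent.PP5L

theorem dvd_two_of_sq_dvd {g d : ℤ} (hd : Squarefree d) (h : g * g ∣ 4 * d) : g ∣ 2 := by
  by_cases h2 : (2 : ℤ) ∣ g
  · obtain ⟨g', rfl⟩ := h2
    have h3 : g' * g' ∣ d := by
      have : 4 * (g' * g') ∣ 4 * d := by
        have e : 2 * g' * (2 * g') = 4 * (g' * g') := by ring
        rwa [e] at h
      exact (mul_dvd_mul_iff_left (by norm_num : (4 : ℤ) ≠ 0)).1 this
    have hu := hd g' h3
    rcases Int.isUnit_iff.1 hu with h4 | h4 <;> rw [h4] <;> norm_num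
  · have hcop : IsCoprime g 2 := by
      exact ((Int.prime_two.coprime_iff_not_dvd).2 h2).symm
    have h4 : IsCoprime (g * g) 4 := by
      have : (4 : ℤ) = 2 * 2 := by norm_num
      rw [this]
      exact (hcop.mul_left hcop).mul_right (hcop.mul_left hcop)
    have h5 : g * g ∣ d := h4.dvd_of_dvd_mul_left h
    have hu := hd g h5
    exact hu.dvd

theorem cop_of_gcd (N A N' a' : ℤ) (h0 : (Int.gcd N A : ℤ) ≠ 0) (hN : N = (Int.gcd N A : ℤ) * N')
    (hA : A = (Int.gcd N A : ℤ) * a') : IsCoprime N' a' := by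
  obtain ⟨r, s, hrs⟩ : ∃ r s : ℤ, (Int.gcd N A : ℤ) = N * r + A * s :=
    ⟨_, _, Int.gcd_eq_gcd_ab N A⟩
  generalize (Int.gcd N A : ℤ) = δ at *
  refine ⟨r, s, ?_⟩
  apply mul_left_cancel₀ h0
  rw [hN, hA] at hrs
  rw [mul_one]
  conv_rhs => rw [hrs]
  ring

theorem class_dvd (d N u0 w0 ua wa ub wb : ℤ) (hd : Squarefree d) (hN : N ≠ 0)
    (h0 : u0 ^ 2 - d * w0 ^ 2 = N) (ha : ua ^ 2 - d * wa ^ 2 = N) (hb : ub ^ 2 - d * wb ^ 2 = N)
    (c0 : IsCoprime w0 N) (ca : IsCoprime wa N) 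
    (hδ : Int.gcd N (ua * w0 - u0 * wa) = Int.gcd N (ub * w0 - u0 * wb)) :
    N ∣ 2 * (ua * wb - ub * wa) := by
  set δ : ℤ := (Int.gcd N (ua * w0 - u0 * wa) : ℤ) with hδd
  have hδ0 : δ ≠ 0 := by
    rw [hδd]; intro h
    have : Int.gcd N (ua * w0 - u0 * wa) = 0 := by exact_mod_cast h
    exact hN (Int.gcd_eq_zero_iff.1 this).1
  obtain ⟨N', hN'⟩ : δ ∣ N := Int.gcd_dvd_left _ _
  obtain ⟨a', ha'⟩ : δ ∣ ua * w0 - u0 * wa := Int.gcd_dvd_right _ _
  obtain ⟨b', hb'⟩ : δ ∣ ub * w0 - u0 * wb := by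
    rw [hδd, hδ]; exact Int.gcd_dvd_right _ _
  have hcopa : IsCoprime N' a' := by
    exact cop_of_gcd N (ua * w0 - u0 * wa) N' a' hδ0 hN' ha'
  have hcopb : IsCoprime N' b' := by
    rw [hδd, hδ] at hδ0 hN' hb'
    exact cop_of_gcd N (ub * w0 - u0 * wb) N' b' hδ0 hN' hb'
  have hBa : N' ∣ ua * w0 + u0 * wa := by
    have h1 : N ∣ (ua * w0 - u0 * wa) * (ua * w0 + u0 * wa) := by
      refine ⟨w0 ^ 2 - wa ^ 2, ?_⟩
      have e1 : ua ^ 2 = N + d * wa ^ 2 := by linarith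
      have e2 : u0 ^ 2 = N + d * w0 ^ 2 := by linarith
      calc (ua * w0 - u0 * wa) * (ua * w0 + u0 * wa) = ua ^ 2 * w0 ^ 2 - u0 ^ 2 * wa ^ 2 := by ring
        _ = _ := by rw [e1, e2]; ring
    rw [ha', hN', mul_assoc] at h1
    exact hcopa.dvd_of_dvd_mul_left ((mul_dvd_mul_iff_left hδ0).1 h1)
  have hBb : N' ∣ ub * w0 + u0 * wb := by
    have h1 : N ∣ (ub * w0 - u0 * wb) * (ub * w0 + u0 * wb) := by
      refine ⟨w0 ^ 2 - wb ^ 2, ?_⟩
      have e1 : ub ^ 2 = N + d * wb ^ 2 := by linarith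
      have e2 : u0 ^ 2 = N + d * w0 ^ 2 := by linarith
      calc (ub * w0 - u0 * wb) * (ub * w0 + u0 * wb) = ub ^ 2 * w0 ^ 2 - u0 ^ 2 * wb ^ 2 := by ring
        _ = _ := by rw [e1, e2]; ring
    rw [hb', hN', mul_assoc] at h1
    exact hcopb.dvd_of_dvd_mul_left ((mul_dvd_mul_iff_left hδ0).1 h1)
  have hδZ : δ ∣ ua * wb - ub * wa := by
    have h1 : δ ∣ w0 * (ua * wb - ub * wa) := by
      refine ⟨wb * a' - wa * b', ?_⟩
      have : w0 * (ua * wb - ub * wa) = wb * (ua * w0 - u0 * wa) - wa * (ub * w0 - u0 * wb) := by ring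
      rw [this, ha', hb']; ring
    have hc : IsCoprime δ w0 := (c0.of_isCoprime_of_dvd_right ⟨N', hN'⟩).symm
    exact hc.dvd_of_dvd_mul_left h1
  have hN'N : N' ∣ N := ⟨δ, by rw [hN']; ring⟩
  have hN'Z : N' ∣ ua * wb - ub * wa := by
    have h1 : N' ∣ w0 * (ua * wb - ub * wa) := by
      have : w0 * (ua * wb - ub * wa) = wb * (ua * w0 + u0 * wa) - wa * (ub * w0 + u0 * wb) := by ring
      rw [this]
      exact dvd_sub (Dvd.dvd.mul_left hBa _) (Dvd.dvd.mul_left hBb _)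
    have hc : IsCoprime N' w0 := (c0.of_isCoprime_of_dvd_right hN'N).symm
    exact hc.dvd_of_dvd_mul_left h1
  set g : ℤ := (Int.gcd δ N' : ℤ) with hg
  have hgδ : g ∣ δ := Int.gcd_dvd_left _ _
  have hgN' : g ∣ N' := Int.gcd_dvd_right _ _
  have hg2 : g ∣ 2 := by
    apply dvd_two_of_sq_dvd hd
    have h1 : g ∣ 2 * u0 * wa := by
      have e : 2 * u0 * wa = (ua * w0 + u0 * wa) - (ua * w0 - u0 * wa) := by ring
      rw [e]
      exact dvd_sub (hgN'.trans hBa) (by rw [ha']; exact Dvd.dvd.mul_right hgδ _)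
    have hgN : g ∣ N := hgN'.trans hN'N
    have h2 : g ∣ 2 * u0 := by
      have hc : IsCoprime g wa := (ca.of_isCoprime_of_dvd_right hgN).symm
      exact hc.dvd_of_dvd_mul_right h1
    have hggN : g * g ∣ N := by rw [hN']; exact mul_dvd_mul hgδ hgN'
    obtain ⟨k, hk⟩ := h2
    have h3 : g * g ∣ w0 * w0 * (4 * d) := by
      have e : w0 * w0 * (4 * d) = (2 * u0) * (2 * u0) - 4 * N := by rw [← h0]; ring
      rw [e, hk]
      exact dvd_sub ⟨k * k, by ring⟩ (Dvd.dvd.mul_left hggN _)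
    have hc : IsCoprime (g * g) (w0 * w0) := by
      have hc1 : IsCoprime g w0 := (c0.of_isCoprime_of_dvd_right hgN).symm
      exact (hc1.mul_left hc1).mul_right (hc1.mul_left hc1)
    exact hc.dvd_of_dvd_mul_left h3
  have hgZ : N ∣ g * (ua * wb - ub * wa) := by
    have hbez := Int.gcd_eq_gcd_ab δ N'
    rw [← hg] at hbez
    rw [hbez, hN', add_mul]
    refine dvd_add ?_ ?_
    · rw [mul_assoc]; exact mul_dvd_mul_left _ (Dvd.dvd.mul_left hN'Z _)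
    · rw [mul_assoc, mul_comm δ N']; exact mul_dvd_mul_left _ (Dvd.dvd.mul_left hδZ _)
  exact hgZ.trans (mul_dvd_mul_right hg2 _)

end Pool.Agent.PP5L
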