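import Pool.Agent.PP5.SPellC

namespace Pool.Agent.PP5L

/-- primitive solutions of `u^2 - d w^2 = N` in a box, `d` squarefree -/
theorem prim_count (d N : ℤ) (hd : Squarefree d) (hN : N ≠ 0) (B : ℝ) (hB : 1 ≤ B)
    (S : Finset (ℤ × ℤ))
    (hS : ∀ p ∈ S, p.1 ^ 2 - d * p.2 ^ 2 = N ∧ IsCoprime p.1 p.2 ∧ |(p.1 : ℝ)| ≤ B ∧ |(p.2 : ℝ)| ≤ B) :
    (S.card : ℝ) ≤ (N.natAbs.divisors.card : ℝ) *
      (25 * (1 + 5 * Real.log (2 * (1 + |(d : ℝ)|) * B ^ 2))) := by
  have hd0 : d ≠ 0 := hd.ne_zero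
  rcases S.eq_empty_or_nonempty with rfl | ⟨p0, hp0⟩
  · have h1 : (1 : ℝ) ≤ 2 * (1 + |(d : ℝ)|) * B ^ 2 := by
      have : (1 : ℝ) ≤ B ^ 2 := one_le_pow₀ hB
      nlinarith [abs_nonneg (d : ℝ)]
    have := Real.log_nonneg h1
    simp only [Finset.card_empty, Nat.cast_zero]
    positivity
  have hcopN : ∀ p ∈ S, IsCoprime p.2 N := by
    intro p hp
    obtain ⟨h, hc, -⟩ := hS p hp
    have h2 : IsCoprime p.2 (p.1 ^ 2 + p.2 * (-(d * p.2))) :=
      (IsCoprime.pow_right hc.symm).add_mul_left_right _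
    have e : p.1 ^ 2 + p.2 * (-(d * p.2)) = N := by rw [← h]; ring
    rwa [e] at h2
  set B' : ℝ := 2 * (1 + |(d : ℝ)|) * B ^ 2 with hB'
  have hB'1 : 1 ≤ B' := by
    have : (1 : ℝ) ≤ B ^ 2 := one_le_pow₀ hB
    rw [hB']; nlinarith [abs_nonneg (d : ℝ)]
  set f : ℤ × ℤ → ℕ := fun p => Int.gcd N (p.1 * p0.2 - p0.1 * p.2) with hf
  have hfib : ∀ t ∈ S.image f, ((S.filter (fun p => f p = t)).card : ℝ) ≤
      25 * (1 + 5 * Real.log B') := by
    intro t ht
    rw [Finset.mem_image] at ht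
    obtain ⟨α, hα, hαt⟩ := ht
    have key : ∀ β ∈ S.filter (fun p => f p = t), N ∣ 2 * (α.1 * β.2 - β.1 * α.2) ∧
        N ∣ 2 * (α.1 * β.1 - d * α.2 * β.2) := by
      intro β hβ
      rw [Finset.mem_filter] at hβ
      have h1 := class_dvd d N p0.1 p0.2 α.1 α.2 β.1 β.2 hd hN (hS p0 hp0).1 (hS α hα).1
        (hS β hβ.1).1 (hcopN p0 hp0) (hcopN α hα) (by
          have : f α = f β := by rw [hαt, hβ.2]
          simpa [hf] using this)
      refine ⟨h1, ?_⟩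
      have h2 : N ∣ β.2 * (2 * (α.1 * β.1 - d * α.2 * β.2)) := by
        have e : β.2 * (2 * (α.1 * β.1 - d * α.2 * β.2)) =
            2 * (α.1 * β.2 - β.1 * α.2) * β.1 + 2 * α.2 * N := by
          rw [← (hS β hβ.1).1]; ring
        rw [e]
        exact dvd_add (Dvd.dvd.mul_right h1 _) (Dvd.intro_left _ rfl)
      exact (hcopN β hβ.1).symm.dvd_of_dvd_mul_left h2
    set g : ℤ × ℤ → ℤ × ℤ := fun β => (2 * (α.1 * β.1 - d * α.2 * β.2) / N,
      2 * (α.1 * β.2 - β.1 * α.2) / N) with hg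
    have hinj : Set.InjOn g (S.filter (fun p => f p = t)) := by
      intro β hβ γ hγ hβγ
      obtain ⟨⟨k1, hk1⟩, ⟨l1, hl1⟩⟩ := key β hβ
      obtain ⟨⟨k2, hk2⟩, ⟨l2, hl2⟩⟩ := key γ hγ
      simp only [hg, Prod.mk.injEq] at hβγ
      rw [hk1, hl1, hk2, hl2, Int.mul_ediv_cancel_left _ hN, Int.mul_ediv_cancel_left _ hN,
        Int.mul_ediv_cancel_left _ hN, Int.mul_ediv_cancel_left _ hN] at hβγ
      obtain ⟨hl, hk⟩ := hβγ
      have hNα := (hS α hα).1
      have e1 : 2 * (α.1 * β.1 - d * α.2 * β.2) = 2 * (α.1 * γ.1 - d * α.2 * γ.2) := by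
        rw [hl1, hl2, hl]
      have e2 : 2 * (α.1 * β.2 - β.1 * α.2) = 2 * (α.1 * γ.2 - γ.1 * α.2) := by
        rw [hk1, hk2, hk]
      have e1' := mul_left_cancel₀ (two_ne_zero : (2 : ℤ) ≠ 0) e1
      have e2' := mul_left_cancel₀ (two_ne_zero : (2 : ℤ) ≠ 0) e2
      have f1 : N * β.1 = N * γ.1 := by
        rw [← hNα]; linear_combination α.1 * e1' + d * α.2 * e2'
      have f2 : N * β.2 = N * γ.2 := by
        rw [← hNα]; linear_combination α.2 * e1' + α.1 * e2'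
      exact Prod.ext (mul_left_cancel₀ hN f1) (mul_left_cancel₀ hN f2)
    rw [← Finset.card_image_of_injOn hinj]
    apply pell4_card d hd0 B' hB'1
    intro q hq
    rw [Finset.mem_image] at hq
    obtain ⟨β, hβ, rfl⟩ := hq
    obtain ⟨⟨k1, hk1⟩, ⟨l1, hl1⟩⟩ := key β hβ
    have hβS : β ∈ S := (Finset.mem_filter.1 hβ).1
    simp only [hg]
    rw [hk1, hl1, Int.mul_ediv_cancel_left _ hN, Int.mul_ediv_cancel_left _ hN]
    constructor
    · have hNN : N * N ≠ 0 := mul_ne_zero hN hN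
      apply mul_left_cancel₀ hNN
      have e : N * N * (l1 ^ 2 - d * k1 ^ 2) = (N * l1) ^ 2 - d * (N * k1) ^ 2 := by ring
      rw [e, ← hk1, ← hl1]
      nth_rewrite 1 [← (hS α hα).1]
      rw [← (hS β hβS).1]; ring
    · have e : (N : ℝ) * l1 = 2 * (α.1 * β.1 - d * α.2 * β.2) := by exact_mod_cast hl1.symm
      have hN1 : (1 : ℝ) ≤ |(N : ℝ)| := by
        have : (1 : ℤ) ≤ |N| := Int.one_le_abs hN
        exact_mod_cast this
      have h1 : |(l1 : ℝ)| ≤ |(N : ℝ) * l1| := by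
        rw [abs_mul]; nlinarith [abs_nonneg (l1 : ℝ)]
      refine h1.trans ?_
      rw [e, hB']
      have a1 := (hS α hα).2.2.1
      have a2 := (hS α hα).2.2.2
      have b1 := (hS β hβS).2.2.1
      have b2 := (hS β hβS).2.2.2
      rw [abs_mul, abs_two]
      have c1 : |(α.1 : ℝ) * β.1| ≤ B * B := by
        rw [abs_mul]; exact mul_le_mul a1 b1 (abs_nonneg _) (by linarith)
      have c2 : |(d : ℝ) * α.2 * β.2| ≤ |(d : ℝ)| * (B * B) := by
        rw [mul_assoc, abs_mul, abs_mul]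
        exact mul_le_mul_of_nonneg_left (mul_le_mul a2 b2 (abs_nonneg _) (by linarith)) (abs_nonneg _)
      have c3 := abs_sub ((α.1 : ℝ) * β.1) ((d : ℝ) * α.2 * β.2)
      nlinarith
  have hsum : (S.card : ℝ) = ∑ t ∈ S.image f, ((S.filter (fun p => f p = t)).card : ℝ) := by
    have := Finset.card_eq_sum_card_image f S
    exact_mod_cast this
  have himg : ((S.image f).card : ℝ) ≤ (N.natAbs.divisors.card : ℝ) := by
    have : S.image f ⊆ N.natAbs.divisors := by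
      intro t ht
      rw [Finset.mem_image] at ht
      obtain ⟨p, hp, rfl⟩ := ht
      rw [Nat.mem_divisors]
      refine ⟨?_, Int.natAbs_ne_zero.2 hN⟩
      have := Int.gcd_dvd_left N (p.1 * p0.2 - p0.1 * p.2)
      exact Int.natCast_dvd.1 this
    exact_mod_cast Finset.card_le_card this
  have h0 : (0 : ℝ) ≤ 25 * (1 + 5 * Real.log B') := by
    have := Real.log_nonneg hB'1; positivity
  rw [hsum]
  calc ∑ t ∈ S.image f, ((S.filter (fun p => f p = t)).card : ℝ)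
      ≤ ∑ _t ∈ S.image f, (25 * (1 + 5 * Real.log B')) := Finset.sum_le_sum hfib
    _ = ((S.image f).card : ℝ) * (25 * (1 + 5 * Real.log B')) := by
        rw [Finset.sum_const, nsmul_eq_mul]
    _ ≤ _ := mul_le_mul_of_nonneg_right himg h0

end Pool.Agent.PP5L
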