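import Pool.Agent.PP5.SPellD

namespace Pool.Agent.PP5L

theorem exists_squarefree_part (d : ℤ) (hd : d ≠ 0) :
    ∃ d0 e : ℤ, 1 ≤ e ∧ e ≤ |d| ∧ |d0| ≤ |d| ∧ Squarefree d0 ∧ d = d0 * e ^ 2 := by
  obtain ⟨a, b, hab, hsq⟩ := Nat.sq_mul_squarefree d.natAbs
  have hb0 : b ≠ 0 := by
    rintro rfl
    rw [zero_pow two_ne_zero, zero_mul] at hab
    exact hd (Int.natAbs_eq_zero.1 hab.symm)
  have ha0 : a ≠ 0 := hsq.ne_zero
  have hb1 : 1 ≤ b := Nat.one_le_iff_ne_zero.2 hb0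
  have ha1 : 1 ≤ a := Nat.one_le_iff_ne_zero.2 ha0
  have habs : |d| = (b : ℤ) ^ 2 * a := by
    rw [Int.abs_eq_natAbs, ← hab]; push_cast; rfl
  have hb1' : (1 : ℤ) ≤ b := by exact_mod_cast hb1
  have ha1' : (1 : ℤ) ≤ a := by exact_mod_cast ha1
  refine ⟨d.sign * a, b, hb1', ?_, ?_, ?_, ?_⟩
  · rw [habs]; nlinarith
  · rw [abs_mul, Int.abs_sign_of_ne_zero hd, one_mul, habs, abs_of_nonneg (by omega)]
    exact le_mul_of_one_le_left (by omega) (one_le_pow₀ hb1')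
  · rw [← Int.squarefree_natAbs, Int.natAbs_mul, Int.natAbs_sign_of_ne_zero hd, one_mul,
      Int.natAbs_natCast]
    exact hsq
  · have h2 := Int.sign_mul_abs d
    rw [habs] at h2
    calc d = d.sign * ((b : ℤ) ^ 2 * a) := h2.symm
      _ = d.sign * a * (b : ℤ) ^ 2 := by ring

/-- all solutions of `u^2 - d z^2 = N` in a box -/
theorem pell_count (d N : ℤ) (hd : d ≠ 0) (hN : N ≠ 0) (B : ℝ) (hB : 1 ≤ B)
    (S : Finset (ℤ × ℤ))
    (hS : ∀ p ∈ S, p.1 ^ 2 - d * p.2 ^ 2 = N ∧ |(p.1 : ℝ)| ≤ B ∧ |(p.2 : ℝ)| ≤ B) :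
    (S.card : ℝ) ≤ (N.natAbs.divisors.card : ℝ) ^ 2 *
      (25 * (1 + 5 * Real.log (2 * (1 + |(d : ℝ)|) * (|(d : ℝ)| * B) ^ 2))) := by
  obtain ⟨d0, e, he1, hed, hd0d, hsq, hde⟩ := exists_squarefree_part d hd
  have hd1 : (1 : ℝ) ≤ |(d : ℝ)| := by exact_mod_cast Int.one_le_abs hd
  have hB1 : 1 ≤ |(d : ℝ)| * B := by nlinarith
  have he0 : e ≠ 0 := by omega
  have hlogle : Real.log (2 * (1 + |(d0 : ℝ)|) * (|(d : ℝ)| * B) ^ 2) ≤
      Real.log (2 * (1 + |(d : ℝ)|) * (|(d : ℝ)| * B) ^ 2) := by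
    apply Real.log_le_log
    · have := abs_nonneg (d0 : ℝ); positivity
    · have h1 : |(d0 : ℝ)| ≤ |(d : ℝ)| := by exact_mod_cast hd0d
      have h2 : 0 ≤ (|(d : ℝ)| * B) ^ 2 := sq_nonneg _
      nlinarith
  set C : ℝ := 25 * (1 + 5 * Real.log (2 * (1 + |(d : ℝ)|) * (|(d : ℝ)| * B) ^ 2)) with hC
  set S' : Finset (ℤ × ℤ) := S.image (fun p => (p.1, e * p.2)) with hS'
  have hinj : Set.InjOn (fun p : ℤ × ℤ => (p.1, e * p.2)) S := by
    intro p _ q _ h
    simp only [Prod.mk.injEq] at h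
    exact Prod.ext h.1 (mul_left_cancel₀ he0 h.2)
  have hcard : S'.card = S.card := Finset.card_image_of_injOn hinj
  have hS'p : ∀ p ∈ S', p.1 ^ 2 - d0 * p.2 ^ 2 = N ∧ |(p.1 : ℝ)| ≤ |(d : ℝ)| * B ∧
      |(p.2 : ℝ)| ≤ |(d : ℝ)| * B := by
    intro p hp
    rw [hS', Finset.mem_image] at hp
    obtain ⟨q, hq, rfl⟩ := hp
    obtain ⟨h1, h2, h3⟩ := hS q hq
    refine ⟨?_, ?_, ?_⟩
    · rw [← h1, hde]; ring
    · simp only; nlinarith [abs_nonneg (q.1 : ℝ)]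
    · simp only; push_cast
      rw [abs_mul]
      have he' : |(e : ℝ)| ≤ |(d : ℝ)| := by
        rw [abs_of_nonneg (by exact_mod_cast (by omega : (0 : ℤ) ≤ e))]
        exact_mod_cast hed
      exact mul_le_mul he' h3 (abs_nonneg _) (abs_nonneg _)
  set g : ℤ × ℤ → ℕ := fun p => Int.gcd p.1 p.2 with hg
  have hg0 : ∀ p ∈ S', (g p : ℤ) ≠ 0 := by
    intro p hp h0
    have h0' : Int.gcd p.1 p.2 = 0 := by exact_mod_cast h0
    rw [Int.gcd_eq_zero_iff] at h0'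
    have := (hS'p p hp).1
    rw [h0'.1, h0'.2] at this
    apply hN; rw [← this]; ring
  have hfib : ∀ t ∈ S'.image g, ((S'.filter (fun p => g p = t)).card : ℝ) ≤
      (N.natAbs.divisors.card : ℝ) * C := by
    intro t ht
    rw [Finset.mem_image] at ht
    obtain ⟨α, hα, hαt⟩ := ht
    have ht0 : (t : ℤ) ≠ 0 := by rw [← hαt]; exact hg0 α hα
    obtain ⟨N1, hN1⟩ : (t : ℤ) ^ 2 ∣ N := by
      rw [← (hS'p α hα).1, ← hαt]
      exact dvd_sub (pow_dvd_pow_of_dvd (Int.gcd_dvd_left _ _) 2)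
        (Dvd.dvd.mul_left (pow_dvd_pow_of_dvd (Int.gcd_dvd_right _ _) 2) _)
    have hN10 : N1 ≠ 0 := by
      rintro rfl; apply hN; rw [hN1]; ring
    set h : ℤ × ℤ → ℤ × ℤ := fun p => (p.1 / t, p.2 / t) with hh
    have hdiv : ∀ p ∈ S'.filter (fun p => g p = t), p.1 = t * (h p).1 ∧ p.2 = t * (h p).2 := by
      intro p hp
      rw [Finset.mem_filter] at hp
      have h1 : (t : ℤ) ∣ p.1 := by rw [← hp.2]; exact Int.gcd_dvd_left _ _
      have h2 : (t : ℤ) ∣ p.2 := by rw [← hp.2]; exact Int.gcd_dvd_right _ _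
      exact ⟨(Int.mul_ediv_cancel' h1).symm, (Int.mul_ediv_cancel' h2).symm⟩
    have hinj2 : Set.InjOn h (S'.filter (fun p => g p = t)) := by
      intro p hp q hq hpq
      obtain ⟨a1, a2⟩ := hdiv p hp
      obtain ⟨b1, b2⟩ := hdiv q hq
      refine Prod.ext ?_ ?_
      · rw [a1, b1, hpq]
      · rw [a2, b2, hpq]
    rw [← Finset.card_image_of_injOn hinj2]
    have hpc := prim_count d0 N1 hsq hN10 (|(d : ℝ)| * B) hB1
      ((S'.filter (fun p => g p = t)).image h) (by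
        intro q hq
        rw [Finset.mem_image] at hq
        obtain ⟨p, hp, rfl⟩ := hq
        obtain ⟨a1, a2⟩ := hdiv p hp
        have hpS := (Finset.mem_filter.1 hp).1
        have hgp := (Finset.mem_filter.1 hp).2
        obtain ⟨c1, c2, c3⟩ := hS'p p hpS
        have ht1 : (1 : ℝ) ≤ |(t : ℝ)| := by
          have : (1 : ℤ) ≤ |(t : ℤ)| := Int.one_le_abs ht0
          exact_mod_cast this
        refine ⟨?_, ?_, ?_, ?_⟩
        · have ht2 : (t : ℤ) ^ 2 ≠ 0 := pow_ne_zero _ ht0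
          apply mul_left_cancel₀ ht2
          have q1 : p.1 ^ 2 = (t : ℤ) ^ 2 * (h p).1 ^ 2 := by
            calc p.1 ^ 2 = ((t : ℤ) * (h p).1) ^ 2 := congrArg (fun z => z ^ 2) a1
              _ = _ := by ring
          have q2 : p.2 ^ 2 = (t : ℤ) ^ 2 * (h p).2 ^ 2 := by
            calc p.2 ^ 2 = ((t : ℤ) * (h p).2) ^ 2 := congrArg (fun z => z ^ 2) a2
              _ = _ := by ring
          rw [← hN1, ← c1, q1, q2]
          ring
        · rw [Int.isCoprime_iff_gcd_eq_one]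
          have h5 : Int.gcd (t * (h p).1) (t * (h p).2) = t := by
            rw [← a1, ← a2]; exact hgp
          rw [Int.gcd_mul_left] at h5
          have ht3 : 0 < t := Nat.pos_of_ne_zero (by exact_mod_cast ht0)
          have h6 : t * Int.gcd (h p).1 (h p).2 = t * 1 := by simpa using h5
          exact Nat.eq_of_mul_eq_mul_left ht3 h6
        · have : |(p.1 : ℝ)| = |(t : ℝ)| * |((h p).1 : ℝ)| := by
            rw [← abs_mul]; congr 1; exact_mod_cast a1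
          nlinarith [abs_nonneg ((h p).1 : ℝ)]
        · have : |(p.2 : ℝ)| = |(t : ℝ)| * |((h p).2 : ℝ)| := by
            rw [← abs_mul]; congr 1; exact_mod_cast a2
          nlinarith [abs_nonneg ((h p).2 : ℝ)])
    have hdv : (N1.natAbs.divisors.card : ℝ) ≤ (N.natAbs.divisors.card : ℝ) := by
      have : N1.natAbs ∣ N.natAbs := Int.natAbs_dvd_natAbs.2 ⟨(t : ℤ) ^ 2, by rw [hN1]; ring⟩
      exact_mod_cast Finset.card_le_card (Nat.divisors_subset_of_dvd (Int.natAbs_ne_zero.2 hN) this)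
    have h00 : 0 ≤ 25 * (1 + 5 * Real.log (2 * (1 + |(d0 : ℝ)|) * (|(d : ℝ)| * B) ^ 2)) := by
      have h1 : (1 : ℝ) ≤ 2 * (1 + |(d0 : ℝ)|) * (|(d : ℝ)| * B) ^ 2 := by
        have : (1 : ℝ) ≤ (|(d : ℝ)| * B) ^ 2 := one_le_pow₀ hB1
        nlinarith [abs_nonneg (d0 : ℝ)]
      have := Real.log_nonneg h1
      positivity
    refine hpc.trans (mul_le_mul hdv ?_ h00 (Nat.cast_nonneg _))
    rw [hC]; linarith
  have hsum : (S'.card : ℝ) = ∑ t ∈ S'.image g, ((S'.filter (fun p => g p = t)).card : ℝ) := by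
    have := Finset.card_eq_sum_card_image g S'
    exact_mod_cast this
  have himg : ((S'.image g).card : ℝ) ≤ (N.natAbs.divisors.card : ℝ) := by
    have : S'.image g ⊆ N.natAbs.divisors := by
      intro t ht
      rw [Finset.mem_image] at ht
      obtain ⟨p, hp, rfl⟩ := ht
      rw [Nat.mem_divisors]
      refine ⟨?_, Int.natAbs_ne_zero.2 hN⟩
      apply Int.natCast_dvd.1
      rw [← (hS'p p hp).1]
      exact dvd_sub ((Int.gcd_dvd_left _ _).trans (Dvd.intro_left (p.1) (by ring)))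
        (Dvd.dvd.mul_left ((Int.gcd_dvd_right _ _).trans (Dvd.intro_left (p.2) (by ring))) _)
    exact_mod_cast Finset.card_le_card this
  have hC0 : 0 ≤ C := by
    have h1 : (1 : ℝ) ≤ 2 * (1 + |(d : ℝ)|) * (|(d : ℝ)| * B) ^ 2 := by
      have : (1 : ℝ) ≤ (|(d : ℝ)| * B) ^ 2 := one_le_pow₀ hB1
      nlinarith [abs_nonneg (d : ℝ)]
    have := Real.log_nonneg h1
    rw [hC]; positivity
  rw [← hcard, hsum]
  calc ∑ t ∈ S'.image g, ((S'.filter (fun p => g p = t)).card : ℝ)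
      ≤ ∑ _t ∈ S'.image g, ((N.natAbs.divisors.card : ℝ) * C) := Finset.sum_le_sum hfib
    _ = ((S'.image g).card : ℝ) * ((N.natAbs.divisors.card : ℝ) * C) := by
        rw [Finset.sum_const, nsmul_eq_mul]
    _ ≤ (N.natAbs.divisors.card : ℝ) * ((N.natAbs.divisors.card : ℝ) * C) :=
        mul_le_mul_of_nonneg_right himg (by positivity)
    _ = _ := by ring

end Pool.Agent.PP5L
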