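import Pool.Agent.PP5.SDiv
import Pool.Agent.PP5.SPellE

namespace Pool.Agent.PP5L

/-- triples `(c, (a, b))` with `4 a b = m c ≠ 0` -/
theorem tri_count {ε : ℝ} (hε : 0 < ε) : ∃ C : ℝ, 0 < C ∧
    ∀ (N : ℕ) (L : ℝ) (m : ℤ → ℤ) (S : Finset (ℤ × (ℤ × ℤ))), 1 ≤ N → 0 ≤ L →
    (∀ p ∈ S, |p.1| ≤ N ∧ 4 * p.2.1 * p.2.2 = m p.1 ∧ m p.1 ≠ 0 ∧ |(m p.1 : ℝ)| ≤ L) →
    (S.card : ℝ) ≤ 3 * N * (C * L ^ ε) := by
  obtain ⟨c, hc, hpd⟩ := prod_div hε
  refine ⟨c, hc, ?_⟩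
  intro N L m S hN hL0 hS
  have hN1 : (1 : ℝ) ≤ N := by exact_mod_cast hN
  have hmaps : ∀ p ∈ S, p.1 ∈ bxN N := fun p hp => mem_bxN.2 (hS p hp).1
  have hcard := Finset.card_eq_sum_card_fiberwise hmaps
  have hinj : ∀ q, Set.InjOn (fun p : ℤ × (ℤ × ℤ) => (4 * p.2.1, p.2.2)) (S.filter (fun p => p.1 = q)) := by
    intro q p hp p' hp' h
    have h1 := (Finset.mem_filter.1 hp).2
    have h2 := (Finset.mem_filter.1 hp').2
    simp only [Prod.mk.injEq] at h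
    refine Prod.ext (by rw [h1, h2]) (Prod.ext ?_ h.2)
    omega
  have hf : ∀ q ∈ bxN N, ((S.filter (fun p => p.1 = q)).card : ℝ) ≤ c * L ^ ε := by
    intro q _
    rcases (S.filter (fun p => p.1 = q)).eq_empty_or_nonempty with h0 | ⟨p1, hp1⟩
    · rw [h0]; simp; positivity
    · have hp1' := Finset.mem_filter.1 hp1
      have hm := hS p1 hp1'.1
      rw [hp1'.2] at hm
      rw [← Finset.card_image_of_injOn (hinj q)]
      refine (hpd (m q) _ hm.2.2.1 ?_).trans ?_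
      · intro r hr
        rw [Finset.mem_image] at hr
        obtain ⟨p, hp, rfl⟩ := hr
        have hp' := Finset.mem_filter.1 hp
        have := (hS p hp'.1).2.1
        rw [hp'.2] at this
        exact this
      · exact mul_le_mul_of_nonneg_left
          (Real.rpow_le_rpow (abs_nonneg _) hm.2.2.2 hε.le) hc.le
  have hc' : (S.card : ℝ) = ∑ q ∈ bxN N, ((S.filter (fun p => p.1 = q)).card : ℝ) := by
    exact_mod_cast hcard
  rw [hc']
  calc ∑ q ∈ bxN N, ((S.filter (fun p => p.1 = q)).card : ℝ) ≤ ∑ _q ∈ bxN N, (c * L ^ ε) :=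
        Finset.sum_le_sum hf
    _ = (bxN N).card * (c * L ^ ε) := by rw [Finset.sum_const, nsmul_eq_mul]
    _ ≤ 3 * N * (c * L ^ ε) := by
        apply mul_le_mul_of_nonneg_right _ (by positivity)
        rw [card_bxN]; push_cast; linarith

/-- isotropic vectors of `4 a b + c^2` -/
theorem iso_count {ε : ℝ} (hε : 0 < ε) : ∃ C : ℝ, 0 < C ∧ ∀ (V : ℕ) (S : Finset (ℤ × (ℤ × ℤ))), 1 ≤ V →
    (∀ p ∈ S, |p.1| ≤ V ∧ |p.2.1| ≤ V ∧ |p.2.2| ≤ V ∧ 4 * p.2.1 * p.2.2 + p.1 ^ 2 = 0) →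
    (S.card : ℝ) ≤ C * (V : ℝ) ^ (1 + ε) := by
  obtain ⟨c, hc, htri⟩ := tri_count (ε := ε / 2) (by positivity)
  refine ⟨6 + 3 * c, by positivity, ?_⟩
  intro V S hV hS
  have hV1 : (1 : ℝ) ≤ V := by exact_mod_cast hV
  have hV0 : (0 : ℝ) ≤ V := by linarith
  have h1 : ((S.filter (fun p => p.1 = 0)).card : ℝ) ≤ 6 * V := by
    have hinj : Set.InjOn (fun p : ℤ × (ℤ × ℤ) => p.2) (S.filter (fun p => p.1 = 0)) := by
      intro p hp q hq h
      exact Prod.ext (by rw [(Finset.mem_filter.1 hp).2, (Finset.mem_filter.1 hq).2]) h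
    rw [← Finset.card_image_of_injOn hinj]
    have := prod_crude V 0 ((S.filter (fun p => p.1 = 0)).image (fun p => p.2)) (by
      intro r hr
      rw [Finset.mem_image] at hr
      obtain ⟨p, hp, rfl⟩ := hr
      have hp' := Finset.mem_filter.1 hp
      obtain ⟨-, h2, h3, h4⟩ := hS p hp'.1
      rw [hp'.2] at h4
      refine ⟨?_, h2, h3⟩
      have : 4 * (p.2.1 * p.2.2) = 0 := by linarith
      omega)
    have h2 : ((((S.filter (fun p => p.1 = 0)).image (fun p => p.2)).card : ℕ) : ℝ) ≤ 4 * V + 2 := by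
      exact_mod_cast this
    linarith
  have h2 : ((S.filter (fun p => ¬ p.1 = 0)).card : ℝ) ≤ 3 * V * (c * ((V : ℝ) ^ 2) ^ (ε / 2)) := by
    apply htri V ((V : ℝ) ^ 2) (fun x => -(x ^ 2)) _ hV (by positivity)
    intro p hp
    have hp' := Finset.mem_filter.1 hp
    obtain ⟨h1, h2, h3, h4⟩ := hS p hp'.1
    refine ⟨h1, by linarith, ?_, ?_⟩
    · simp only [ne_eq, neg_eq_zero]
      exact pow_ne_zero 2 hp'.2
    · push_cast
      rw [abs_neg, abs_pow]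
      exact pow_le_pow_left₀ (abs_nonneg _) (by exact_mod_cast h1) 2
  have h3 : ((V : ℝ) ^ 2) ^ (ε / 2) = (V : ℝ) ^ ε := by
    rw [← Real.rpow_natCast (V : ℝ) 2, ← Real.rpow_mul hV0]; congr 1; push_cast; ring
  rw [h3] at h2
  have h4 : (S.card : ℝ) = ((S.filter (fun p => p.1 = 0)).card : ℝ) +
      ((S.filter (fun p => ¬ p.1 = 0)).card : ℝ) := by
    exact_mod_cast (Finset.card_filter_add_card_filter_not (s := S) (fun p => p.1 = 0)).symm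
  have h5 : (V : ℝ) ^ (1 + ε) = V * (V : ℝ) ^ ε := by
    rw [Real.rpow_add (by linarith), Real.rpow_one]
  have h6 : (1 : ℝ) ≤ (V : ℝ) ^ ε := Real.one_le_rpow hV1 hε.le
  rw [h4, h5]
  have h7 : (V : ℝ) ≤ V * (V : ℝ) ^ ε := le_mul_of_one_le_right hV0 h6
  nlinarith

theorem sqfree_split (e μ : ℤ) (he : e ≠ 0) (hμ : μ ≠ 0) (h : IsSquare (e * μ)) :
    ∃ s r : ℤ, s ≠ 0 ∧ |s| ≤ |e| ∧ 1 ≤ r ∧ μ = s * r ^ 2 := by
  obtain ⟨s, q, hq1, -, hse, hsq, hes⟩ := exists_squarefree_part e he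
  obtain ⟨k, hk⟩ := h
  have hq0 : q ≠ 0 := by omega
  have hs0 : s ≠ 0 := hsq.ne_zero
  have h1 : q ∣ k := by
    have : q ^ 2 ∣ k ^ 2 := ⟨s * μ, by rw [sq k, ← hk, hes]; ring⟩
    exact (Int.pow_dvd_pow_iff two_ne_zero).1 this
  obtain ⟨k1, rfl⟩ := h1
  have h2 : s * μ = k1 ^ 2 := by
    have : q ^ 2 * (s * μ) = q ^ 2 * k1 ^ 2 := by
      rw [hes] at hk; linear_combination hk
    exact mul_left_cancel₀ (pow_ne_zero 2 hq0) this
  have h3 : s ∣ k1 := by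
    have : s ∣ k1 ^ 2 := ⟨μ, h2.symm⟩
    exact (hsq.dvd_pow_iff_dvd two_ne_zero).1 this
  obtain ⟨r, rfl⟩ := h3
  have h4 : μ = s * r ^ 2 := by
    apply mul_left_cancel₀ hs0
    rw [h2]; ring
  have hr0 : r ≠ 0 := by
    rintro rfl; apply hμ; rw [h4]; ring
  refine ⟨s, |r|, hs0, hse, Int.one_le_abs hr0, ?_⟩
  rw [sq_abs]; exact h4

theorem sum_inv_sqrt' (N : ℕ) : ∑ n ∈ Finset.Icc 1 N, 1 / √(n : ℝ) ≤ 2 * √(N : ℝ) := by
  induction N with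
  | zero => simp
  | succ n ih =>
    rw [Finset.sum_Icc_succ_top (by omega)]
    have h1 : 0 < √((n + 1 : ℕ) : ℝ) := Real.sqrt_pos.2 (by positivity)
    have h2 : 0 ≤ √(n : ℝ) := Real.sqrt_nonneg _
    have h3 : √((n + 1 : ℕ) : ℝ) ^ 2 = n + 1 := by rw [Real.sq_sqrt (by positivity)]; push_cast; ring
    have h4 : √(n : ℝ) ^ 2 = n := Real.sq_sqrt (by positivity)
    have h5 : 1 / √((n + 1 : ℕ) : ℝ) ≤ 2 * √((n + 1 : ℕ) : ℝ) - 2 * √(n : ℝ) := by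
      rw [div_le_iff₀ h1]
      nlinarith [sq_nonneg (√((n + 1 : ℕ) : ℝ) - √(n : ℝ))]
    linarith

end Pool.Agent.PP5L
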