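import Pool.Agent.PP5.SW

namespace Pool.Agent.PP5L

theorem sum_inv_sqrt_int (E : ℕ) :
    ∑ s ∈ (bxN E).filter (fun s => s ≠ 0), 1 / √(s.natAbs : ℝ) ≤ 4 * √(E : ℝ) := by
  set J := (bxN E).filter (fun s => s ≠ 0) with hJ
  have hmaps : ∀ s ∈ J, s.natAbs ∈ Finset.Icc 1 E := by
    intro s hs
    obtain ⟨h1, h2⟩ := Finset.mem_filter.1 hs
    have h3 := mem_bxN.1 h1
    rw [Finset.mem_Icc]
    rw [Int.abs_eq_natAbs] at h3
    exact ⟨Nat.one_le_iff_ne_zero.2 (Int.natAbs_ne_zero.2 h2), by exact_mod_cast h3⟩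
  rw [← Finset.sum_fiberwise_of_maps_to hmaps]
  have h1 : ∀ n ∈ Finset.Icc 1 E, ∑ s ∈ J.filter (fun s => s.natAbs = n), 1 / √(s.natAbs : ℝ) ≤
      2 * (1 / √(n : ℝ)) := by
    intro n _
    have e1 : ∑ s ∈ J.filter (fun s => s.natAbs = n), 1 / √(s.natAbs : ℝ) =
        ∑ _s ∈ J.filter (fun s => s.natAbs = n), 1 / √(n : ℝ) := by
      apply Finset.sum_congr rfl
      intro s hs
      rw [(Finset.mem_filter.1 hs).2]
    rw [e1, Finset.sum_const, nsmul_eq_mul]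
    apply mul_le_mul_of_nonneg_right _ (by positivity)
    have hsub : J.filter (fun s => s.natAbs = n) ⊆ {(n : ℤ), -(n : ℤ)} := by
      intro a ha
      have := (Finset.mem_filter.1 ha).2
      rw [Finset.mem_insert, Finset.mem_singleton]
      omega
    exact_mod_cast (Finset.card_le_card hsub).trans Finset.card_le_two
  refine (Finset.sum_le_sum h1).trans ?_
  rw [← Finset.mul_sum]
  have := sum_inv_sqrt' E
  linarith

theorem sqw_count {ε : ℝ} (hε : 0 < ε) : ∃ C : ℝ, 0 < C ∧ ∀ (N E : ℕ) (e : ℤ × (ℤ × ℤ) → ℤ)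
    (S : Finset (ℤ × (ℤ × ℤ))), 1 ≤ N →
    (∀ p ∈ S, |p.1| ≤ N ∧ |p.2.1| ≤ N ∧ |p.2.2| ≤ N ∧ p.2.1 * p.2.2 ≠ 0 ∧ e p ≠ 0 ∧ |e p| ≤ E ∧
      4 * p.2.1 * p.2.2 + p.1 ^ 2 ≠ 0 ∧ IsSquare (e p * (4 * p.2.1 * p.2.2 + p.1 ^ 2))) →
    (S.card : ℝ) ≤ C * (N : ℝ) ^ (2 + ε) * √(E : ℝ) := by
  obtain ⟨c, hc, htri⟩ := tri_count (ε := ε / 2) (by positivity)
  refine ⟨3 * (3 * (c * 4 ^ (ε / 2))) * 4, by positivity, ?_⟩
  intro N E e S hN hS
  have hN1 : (1 : ℝ) ≤ N := by exact_mod_cast hN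
  have hN0 : (0 : ℝ) ≤ N := by linarith
  choose! s r hs0 hsE hr1 hμ using fun p (hp : p ∈ S) =>
    sqfree_split (e p) (4 * p.2.1 * p.2.2 + p.1 ^ 2) (hS p hp).2.2.2.2.1
      (hS p hp).2.2.2.2.2.2.1 (hS p hp).2.2.2.2.2.2.2
  set J := (bxN E).filter (fun s => s ≠ 0) with hJ
  have hmaps : ∀ p ∈ S, s p ∈ J := by
    intro p hp
    exact Finset.mem_filter.2 ⟨mem_bxN.2 ((hsE p hp).trans (hS p hp).2.2.2.2.2.1), hs0 p hp⟩
  have hcard := Finset.card_eq_sum_card_fiberwise hmaps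
  set M : ℝ := 3 * N * (c * (4 * (N : ℝ) ^ 2) ^ (ε / 2)) with hM
  have hM0 : 0 ≤ M := by positivity
  have hfib : ∀ σ ∈ J, ((S.filter (fun p => s p = σ)).card : ℝ) ≤
      3 * N * M * (1 / √(σ.natAbs : ℝ)) := by
    intro σ hσ
    obtain ⟨hσ1, hσ0⟩ := Finset.mem_filter.1 hσ
    have hσn : 0 < σ.natAbs := Int.natAbs_pos.2 hσ0
    have hσr : (0 : ℝ) < σ.natAbs := by exact_mod_cast hσn
    set R : ℕ := ⌊3 * (N : ℝ) / √(σ.natAbs : ℝ)⌋₊ with hR
    have hmaps2 : ∀ p ∈ S.filter (fun p => s p = σ), (r p).toNat ∈ Finset.Icc 1 R := by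
      intro p hp
      obtain ⟨hpS, hpσ⟩ := Finset.mem_filter.1 hp
      have h1 := hr1 p hpS
      rw [Finset.mem_Icc]
      refine ⟨by omega, ?_⟩
      rw [hR, Nat.le_floor_iff (by positivity)]
      have h2 := hμ p hpS
      rw [hpσ] at h2
      have h3 : |((4 * p.2.1 * p.2.2 + p.1 ^ 2 : ℤ) : ℝ)| ≤ 5 * (N : ℝ) ^ 2 := by
        push_cast
        obtain ⟨a1, a2, a3, -⟩ := hS p hpS
        have b1 : |(p.1 : ℝ)| ≤ N := by exact_mod_cast a1
        have b2 : |(p.2.1 : ℝ)| ≤ N := by exact_mod_cast a2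
        have b3 : |(p.2.2 : ℝ)| ≤ N := by exact_mod_cast a3
        have c1 : |4 * (p.2.1 : ℝ) * p.2.2| ≤ 4 * (N : ℝ) ^ 2 := by
          rw [abs_mul, abs_mul, abs_of_pos (by norm_num : (0 : ℝ) < 4)]
          have := mul_le_mul b2 b3 (abs_nonneg _) hN0
          nlinarith
        have c2 : |(p.1 : ℝ) ^ 2| ≤ (N : ℝ) ^ 2 := by
          rw [abs_pow]; exact pow_le_pow_left₀ (abs_nonneg _) b1 2
        calc |4 * (p.2.1 : ℝ) * p.2.2 + (p.1 : ℝ) ^ 2| ≤ _ := abs_add_le _ _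
          _ ≤ _ := by linarith
      rw [h2] at h3
      push_cast at h3
      rw [abs_mul, abs_pow] at h3
      have h4 : |(σ : ℝ)| = (σ.natAbs : ℝ) := by
        rw [Nat.cast_natAbs]; push_cast; rfl
      have h5 : ((r p).toNat : ℝ) = |(r p : ℝ)| := by
        have : ((r p).toNat : ℤ) = |r p| := by
          rw [Int.toNat_of_nonneg (by omega), abs_of_nonneg (by omega)]
        exact_mod_cast this
      rw [h4, ← h5] at h3
      rw [le_div_iff₀ (Real.sqrt_pos.2 hσr)]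
      have h6 : (((r p).toNat : ℝ) * √(σ.natAbs : ℝ)) ^ 2 ≤ (3 * (N : ℝ)) ^ 2 := by
        rw [mul_pow, Real.sq_sqrt hσr.le]
        nlinarith
      exact abs_le_of_sq_le_sq h6 (by positivity) |> (le_trans (le_abs_self _))
    have hcard2 := Finset.card_eq_sum_card_fiberwise hmaps2
    have hfib2 : ∀ ρ ∈ Finset.Icc 1 R,
        (((S.filter (fun p => s p = σ)).filter (fun p => (r p).toNat = ρ)).card : ℝ) ≤ M := by
      intro ρ _
      apply htri N (4 * (N : ℝ) ^ 2) (fun x => σ * (ρ : ℤ) ^ 2 - x ^ 2) _ hN (by positivity)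
      intro p hp
      obtain ⟨hp1, hpρ⟩ := Finset.mem_filter.1 hp
      obtain ⟨hpS, hpσ⟩ := Finset.mem_filter.1 hp1
      obtain ⟨a1, a2, a3, a4, -⟩ := hS p hpS
      have h2 := hμ p hpS
      have h1 := hr1 p hpS
      have hrρ : r p = (ρ : ℤ) := by omega
      rw [hpσ, hrρ] at h2
      have h7 : σ * (ρ : ℤ) ^ 2 - p.1 ^ 2 = 4 * p.2.1 * p.2.2 := by linarith
      refine ⟨a1, h7.symm, ?_, ?_⟩
      · rw [h7]
        intro h0
        apply a4
        have : 4 * (p.2.1 * p.2.2) = 0 := by linarith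
        omega
      · rw [h7]; push_cast
        have b2 : |(p.2.1 : ℝ)| ≤ N := by exact_mod_cast a2
        have b3 : |(p.2.2 : ℝ)| ≤ N := by exact_mod_cast a3
        rw [abs_mul, abs_mul, abs_of_pos (by norm_num : (0 : ℝ) < 4)]
        have := mul_le_mul b2 b3 (abs_nonneg _) hN0
        nlinarith
    have hc2 : ((S.filter (fun p => s p = σ)).card : ℝ) = ∑ ρ ∈ Finset.Icc 1 R,
        (((S.filter (fun p => s p = σ)).filter (fun p => (r p).toNat = ρ)).card : ℝ) := by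
      exact_mod_cast hcard2
    rw [hc2]
    calc _ ≤ ∑ _ρ ∈ Finset.Icc 1 R, M := Finset.sum_le_sum hfib2
      _ = R * M := by rw [Finset.sum_const, nsmul_eq_mul]; simp
      _ ≤ (3 * (N : ℝ) / √(σ.natAbs : ℝ)) * M :=
          mul_le_mul_of_nonneg_right (Nat.floor_le (by positivity)) hM0
      _ = _ := by ring
  have hc1 : (S.card : ℝ) = ∑ σ ∈ J, ((S.filter (fun p => s p = σ)).card : ℝ) := by
    exact_mod_cast hcard
  rw [hc1]
  have hMe : 3 * N * M = 3 * (3 * (c * 4 ^ (ε / 2))) * (N : ℝ) ^ (2 + ε) := by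
    rw [hM, Real.mul_rpow (by norm_num) (by positivity), ← Real.rpow_natCast (N : ℝ) 2,
      ← Real.rpow_mul hN0, Real.rpow_add (by linarith)]
    have : ((2 : ℕ) : ℝ) * (ε / 2) = ε := by push_cast; ring
    rw [this]
    norm_num
    ring
  calc ∑ σ ∈ J, ((S.filter (fun p => s p = σ)).card : ℝ)
      ≤ ∑ σ ∈ J, 3 * N * M * (1 / √(σ.natAbs : ℝ)) := Finset.sum_le_sum hfib
    _ = 3 * N * M * ∑ σ ∈ J, (1 / √(σ.natAbs : ℝ)) := by rw [Finset.mul_sum]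
    _ ≤ 3 * N * M * (4 * √(E : ℝ)) :=
        mul_le_mul_of_nonneg_left (sum_inv_sqrt_int E) (by positivity)
    _ = _ := by rw [hMe]; ring

end Pool.Agent.PP5L
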